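import Pool.Agent.AN.Defs

/-!
# MP_6c3636_al, AN, module A01: representations of the symmetric group over a representation of the alternating group (helper7)

Let `G = Perm (Fin n)`, `N = alternatingGroup (Fin n)`, `τ` an odd permutation (`n ≥ 2`). Existence of an irreducible `π` of `G` and of an injective `N`-homomorphism `ι`: for example on the space of the functions `F : G → (Fin d → Ω)` with `F (x g) = θ x (F g)` for `x ∈ N` (`G` acts by right translation) take an irreducible subrepresentation `V`; `F ↦ F 1` is a nonzero `N`-homomorphism `V → (Fin d → Ω)` (if `F 1 = 0` for all `F ∈ V` then `F g = (g F) 1 = 0`), surjective as `θ` is irreducible, and it splits (`N` finite, Maschke), which gives `ι`. (The libraries Parker, ParkerGL contain results on subrepresentations, for example `Parker.exists_irr_le` (P15).) Put `U = range ι`. `U + π τ U` is invariant under `G`, so it is `V`; `U ∩ π τ U` is invariant under `G` (`τ² ∈ N`, `N` normal). If it is `V` then `U = V`: first alternative. Otherwise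 it is `0`, `V = U ⊕ π τ U`, `A = 1` on `U` and `-1` on `π τ U`.
-/

namespace AN

noncomputable section

open Classical Equiv


variable {Ω : Type} [Field Ω] [IsAlgClosed Ω] [CharZero Ω] {n : ℕ}

namespace A01_aux

/-- right translation -/
def rt (Ω : Type) [Field Ω] (n d : ℕ) :
    Representation Ω (Perm (Fin n)) (Perm (Fin n) → (Fin d → Ω)) where
  toFun g :=
    { toFun := fun F h => F (h * g)
      map_add' := fun _ _ => rfl
      map_smul' := fun _ _ => rfl }
  map_one' := by
    apply LinearMap.ext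
    intro F
    funext h
    change F (h * 1) = F h
    rw [mul_one]
  map_mul' x y := by
    apply LinearMap.ext
    intro F
    funext h
    change F (h * (x * y)) = F (h * x * y)
    rw [mul_assoc]

omit [IsAlgClosed Ω] [CharZero Ω] in
theorem rt_apply {d : ℕ} (g : Perm (Fin n)) (F : Perm (Fin n) → (Fin d → Ω)) (h : Perm (Fin n)) :
    rt Ω n d g F h = F (h * g) := rfl

/-- the induced representation -/
def ind {d : ℕ} (θ : Representation Ω (alternatingGroup (Fin n)) (Fin d → Ω)) :
    Subrepresentation (rt Ω n d) where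
  toSubmodule :=
    { carrier := {F | ∀ (x : alternatingGroup (Fin n)) (g : Perm (Fin n)),
        F ((x : Perm (Fin n)) * g) = θ x (F g)}
      add_mem' := by
        intro a b ha hb x g
        rw [Pi.add_apply, Pi.add_apply, map_add, ha x g, hb x g]
      zero_mem' := by
        intro x g
        rw [Pi.zero_apply, Pi.zero_apply, map_zero]
      smul_mem' := by
        intro c a ha x g
        rw [Pi.smul_apply, Pi.smul_apply, map_smul, ha x g] }
  apply_mem_toSubmodule := by
    intro g F hF x h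
    rw [rt_apply, rt_apply, mul_assoc]
    exact hF x (h * g)

theorem mem_ind {d : ℕ} {θ : Representation Ω (alternatingGroup (Fin n)) (Fin d → Ω)}
    {F : Perm (Fin n) → (Fin d → Ω)} : F ∈ (ind θ).toSubmodule ↔
      ∀ (x : alternatingGroup (Fin n)) (g : Perm (Fin n)),
        F ((x : Perm (Fin n)) * g) = θ x (F g) := Iff.rfl

theorem ind_ne_bot {d : ℕ} {θ : Representation Ω (alternatingGroup (Fin n)) (Fin d → Ω)}
    {w : Fin d → Ω} (hw : w ≠ 0) : (ind θ).toSubmodule ≠ ⊥ := by
  intro h
  let F : Perm (Fin n) → (Fin d → Ω) := fun g =>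
    if hg : g ∈ alternatingGroup (Fin n) then θ ⟨g, hg⟩ w else 0
  have hF : F ∈ (ind θ).toSubmodule := by
    rw [mem_ind]
    intro x g
    by_cases hg : g ∈ alternatingGroup (Fin n)
    · have hx : (x : Perm (Fin n)) * g ∈ alternatingGroup (Fin n) := mul_mem x.2 hg
      have e1 : F ((x : Perm (Fin n)) * g) = θ ⟨(x : Perm (Fin n)) * g, hx⟩ w := dif_pos hx
      have e2 : F g = θ ⟨g, hg⟩ w := dif_pos hg
      have e3 : (⟨(x : Perm (Fin n)) * g, hx⟩ : alternatingGroup (Fin n)) = x * ⟨g, hg⟩ := rfl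
      rw [e1, e2, e3, map_mul]
      rfl
    · have hx : (x : Perm (Fin n)) * g ∉ alternatingGroup (Fin n) := by
        intro hx
        apply hg
        have := mul_mem (inv_mem x.2) hx
        rwa [inv_mul_cancel_left] at this
      have e1 : F ((x : Perm (Fin n)) * g) = 0 := dif_neg hx
      have e2 : F g = 0 := dif_neg hg
      rw [e1, e2, map_zero]
  rw [h, Submodule.mem_bot] at hF
  have h1 : F 1 = w := by
    have e1 : F 1 = θ ⟨1, one_mem _⟩ w := dif_pos (one_mem _)
    rw [e1]
    have e2 : (⟨1, one_mem _⟩ : alternatingGroup (Fin n)) = 1 := rfl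
    rw [e2, map_one]
    rfl
  apply hw
  rw [← h1, hF]
  rfl

/-- the first half: a representation above `θ` -/
theorem exists_inj {d : ℕ} (θ : Representation Ω (alternatingGroup (Fin n)) (Fin d → Ω))
    (hθ : θ.IsIrreducible) :
    ∃ (k : ℕ) (π : Representation Ω (Perm (Fin n)) (Fin k → Ω)) (ι : (Fin d → Ω) →ₗ[Ω] (Fin k → Ω)),
      π.IsIrreducible ∧ Function.Injective ι ∧ (∀ x w, ι (θ x w) = π x (ι w)) := by
  have hd := Parker.irr_pos hθ
  obtain ⟨w, hw⟩ := Module.finrank_pos_iff_exists_ne_zero.1 hd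
  obtain ⟨W, hWL, hW⟩ := Parker.P15_aux.exists_irr_le (rt Ω n d) (ind θ)
    (fun W h1 h2 => Parker.irr_of_sub h1 h2) (ind_ne_bot hw)
  -- evaluation at `1`
  let ev : W.toSubmodule →ₗ[Ω] (Fin d → Ω) :=
    { toFun := fun F => F.1 1
      map_add' := fun _ _ => rfl
      map_smul' := fun _ _ => rfl }
  have hev : ∀ F : W.toSubmodule, ev F = F.1 1 := fun _ => rfl
  have hevN : ∀ (x : alternatingGroup (Fin n)) (F : W.toSubmodule),
      ev (W.toRepresentation x F) = θ x (ev F) := by
    intro x F
    have h1 := hWL F.2 x 1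
    rw [mul_one] at h1
    have h2 : ev (W.toRepresentation x F) = F.1 (1 * x) := rfl
    rw [h2, one_mul, hev, h1]
  have hsurj : Function.Surjective ev := by
    rw [← LinearMap.range_eq_top]
    rcases Parker.irr_sub hθ (U := LinearMap.range ev) (by
      rintro x _ ⟨F, rfl⟩
      exact ⟨W.toRepresentation x F, hevN x F⟩) with h | h
    · exfalso
      obtain ⟨⟨F, hF⟩, hF0⟩ := Module.finrank_pos_iff_exists_ne_zero.1 (Parker.irr_pos hW)
      apply hF0
      apply Subtype.ext
      funext g
      have h1 : ev (W.toRepresentation g ⟨F, hF⟩) ∈ LinearMap.range ev := ⟨_, rfl⟩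
      rw [h, Submodule.mem_bot] at h1
      have h2 : ev (W.toRepresentation g ⟨F, hF⟩) = F (1 * g) := rfl
      rw [h2, one_mul] at h1
      exact h1
    · exact h
  obtain ⟨s, hs⟩ := ev.exists_rightInverse_of_surjective (LinearMap.range_eq_top.2 hsurj)
  have hs' : ∀ v, ev (s v) = v := fun v => congrArg (fun f => f v) hs
  have hc : (Fintype.card (alternatingGroup (Fin n)) : Ω) ≠ 0 := by
    rw [Nat.cast_ne_zero]
    exact Fintype.card_ne_zero
  let j : (Fin d → Ω) →ₗ[Ω] W.toSubmodule := (Fintype.card (alternatingGroup (Fin n)) : Ω)⁻¹ •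
    ∑ x : alternatingGroup (Fin n), (W.toRepresentation x).comp (s.comp (θ x⁻¹))
  have hj : ∀ v, j v = (Fintype.card (alternatingGroup (Fin n)) : Ω)⁻¹ •
      ∑ x : alternatingGroup (Fin n), W.toRepresentation x (s (θ x⁻¹ v)) := by
    intro v
    change ((Fintype.card (alternatingGroup (Fin n)) : Ω)⁻¹ •
      ∑ x : alternatingGroup (Fin n), (W.toRepresentation x).comp (s.comp (θ x⁻¹))) v = _
    rw [LinearMap.smul_apply, LinearMap.sum_apply]
    rfl
  have hev_j : ∀ v, ev (j v) = v := by
    intro v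
    rw [hj, map_smul, map_sum]
    have h1 : ∀ x : alternatingGroup (Fin n), ev (W.toRepresentation x (s (θ x⁻¹ v))) = v := by
      intro x
      rw [hevN, hs']
      have : θ x (θ x⁻¹ v) = (θ x * θ x⁻¹) v := rfl
      rw [this, ← map_mul, mul_inv_cancel, map_one]
      rfl
    rw [Finset.sum_congr rfl fun x _ => h1 x, Finset.sum_const, Finset.card_univ,
      ← Nat.cast_smul_eq_nsmul Ω, smul_smul, inv_mul_cancel₀ hc, one_smul]
  have hjN : ∀ (y : alternatingGroup (Fin n)) v, j (θ y v) = W.toRepresentation y (j v) := by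
    intro y v
    rw [hj, hj, map_smul, map_sum]
    congr 1
    rw [← Equiv.sum_comp (Equiv.mulLeft y)]
    refine Finset.sum_congr rfl fun x _ => ?_
    rw [Equiv.coe_mulLeft]
    have e1 : θ (y * x)⁻¹ (θ y v) = θ x⁻¹ v := by
      have : θ (y * x)⁻¹ (θ y v) = (θ (y * x)⁻¹ * θ y) v := rfl
      rw [this, ← map_mul, mul_inv_rev, mul_assoc, inv_mul_cancel, mul_one]
    rw [e1]
    have e2 : ((y * x : alternatingGroup (Fin n)) : Perm (Fin n)) = (y : Perm (Fin n)) * x := rfl
    rw [e2, map_mul]
    rfl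
  obtain ⟨τ, ⟨e⟩⟩ := Parker.exists_fin W.toRepresentation
  refine ⟨_, τ, e.toLinearEquiv.toLinearMap.comp j, Parker.equiv_irr e hW, ?_, ?_⟩
  · intro a b hab
    have h1 : j a = j b := e.toLinearEquiv.injective hab
    rw [← hev_j a, ← hev_j b, h1]
  · intro x v
    have h1 : e (W.toRepresentation (x : Perm (Fin n)) (j v)) = τ x (e (j v)) :=
      Parker.P08_aux.equiv_comm e _ _
    change e (j (θ x v)) = τ x (e (j v))
    rw [hjN, h1]

end A01_aux

open A01_aux

theorem exists_over (hn : 2 ≤ n) {d : ℕ} (θ : Representation Ω (alternatingGroup (Fin n)) (Fin d → Ω))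
    (hθ : θ.IsIrreducible) :
    ∃ (k : ℕ) (π : Representation Ω (Perm (Fin n)) (Fin k → Ω)) (ι : (Fin d → Ω) →ₗ[Ω] (Fin k → Ω)),
      π.IsIrreducible ∧ Function.Injective ι ∧ (∀ x w, ι (θ x w) = π x (ι w)) ∧
        (Function.Surjective ι ∨ ∃ A : Module.End Ω (Fin k → Ω), A * A = 1 ∧
          (∀ g : Perm (Fin n), Perm.sign g = 1 → A * π g = π g * A) ∧
          (∀ g : Perm (Fin n), Perm.sign g = -1 → A * π g = - (π g * A)) ∧
          (∀ x, x ∈ LinearMap.range ι ↔ A x = x)) := by
  obtain ⟨k, π, ι, hπ, hι, hιN⟩ := exists_inj θ hθ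
  refine ⟨k, π, ι, hπ, hι, hιN, ?_⟩
  have hmul : ∀ (g h : Perm (Fin n)) v, π g (π h v) = π (g * h) v := by
    intro g h v
    rw [map_mul]
    rfl
  -- an odd permutation
  let t : Perm (Fin n) := swap ⟨0, by omega⟩ ⟨1, by omega⟩
  have ht : Perm.sign t = -1 := Perm.sign_swap (by
    intro h
    have := congrArg Fin.val h
    exact absurd this (by norm_num))
  set U := LinearMap.range ι with hU
  set U' := U.map (π t) with hU'
  have hUinv : ∀ g : Perm (Fin n), Perm.sign g = 1 → ∀ v ∈ U, π g v ∈ U := by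
    rintro g hg _ ⟨w, rfl⟩
    exact ⟨θ ⟨g, Perm.mem_alternatingGroup.2 hg⟩ w, hιN ⟨g, Perm.mem_alternatingGroup.2 hg⟩ w⟩
  have hsg : ∀ g : Perm (Fin n), Perm.sign g = 1 ∨ Perm.sign g = -1 := fun g =>
    Int.units_eq_one_or _
  have hmem' : ∀ v, v ∈ U' ↔ ∃ g : Perm (Fin n), Perm.sign g = -1 ∧ ∃ u ∈ U, π g u = v := by
    intro v
    constructor
    · rintro ⟨u, hu, rfl⟩
      exact ⟨t, ht, u, hu, rfl⟩
    · rintro ⟨g, hg, u, hu, rfl⟩
      refine ⟨π (t⁻¹ * g) u, hUinv _ ?_ u hu, ?_⟩
      · rw [map_mul, map_inv, ht, hg]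
        rfl
      · rw [hmul, mul_inv_cancel_left]
  have h1 : ∀ g : Perm (Fin n), Perm.sign g = -1 → ∀ v ∈ U, π g v ∈ U' := by
    intro g hg v hv
    exact (hmem' _).2 ⟨g, hg, v, hv, rfl⟩
  have h2 : ∀ g : Perm (Fin n), Perm.sign g = 1 → ∀ v ∈ U', π g v ∈ U' := by
    intro g hg v hv
    obtain ⟨h, hh, u, hu, rfl⟩ := (hmem' _).1 hv
    refine (hmem' _).2 ⟨g * h, ?_, u, hu, (hmul _ _ _).symm⟩
    rw [map_mul, hg, hh]
    rfl
  have h3 : ∀ g : Perm (Fin n), Perm.sign g = -1 → ∀ v ∈ U', π g v ∈ U := by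
    intro g hg v hv
    obtain ⟨h, hh, u, hu, rfl⟩ := (hmem' _).1 hv
    rw [hmul]
    refine hUinv _ ?_ u hu
    rw [map_mul, hg, hh]
    rfl
  have hsup : U ⊔ U' = ⊤ := by
    rcases Parker.irr_sub hπ (U := U ⊔ U') (by
      intro g v hv
      obtain ⟨a, ha, b, hb, rfl⟩ := Submodule.mem_sup.1 hv
      rw [map_add]
      rcases hsg g with hg | hg
      · exact Submodule.add_mem _ (Submodule.mem_sup_left (hUinv g hg a ha))
          (Submodule.mem_sup_right (h2 g hg b hb))
      · exact Submodule.add_mem _ (Submodule.mem_sup_right (h1 g hg a ha))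
          (Submodule.mem_sup_left (h3 g hg b hb))) with h | h
    · exfalso
      obtain ⟨w, hw⟩ := Module.finrank_pos_iff_exists_ne_zero.1 (Parker.irr_pos hθ)
      have h4 : ι w ∈ U ⊔ U' := Submodule.mem_sup_left ⟨w, rfl⟩
      rw [h, Submodule.mem_bot] at h4
      apply hw
      apply hι
      rw [h4, map_zero]
    · exact h
  rcases Parker.irr_sub hπ (U := U ⊓ U') (by
      intro g v hv
      rcases hsg g with hg | hg
      · exact ⟨hUinv g hg v hv.1, h2 g hg v hv.2⟩
      · exact ⟨h3 g hg v hv.2, h1 g hg v hv.1⟩) with h | h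
  · right
    have hc : IsCompl U U' := ⟨disjoint_iff.2 h, codisjoint_iff.2 hsup⟩
    let A : Module.End Ω (Fin k → Ω) := LinearMap.ofIsCompl hc U.subtype (-U'.subtype)
    have hA : ∀ v ∈ U, A v = v := by
      intro v hv
      exact LinearMap.ofIsCompl_apply_left hc (φ := U.subtype) (ψ := -U'.subtype) ⟨v, hv⟩
    have hA' : ∀ v ∈ U', A v = - v := by
      intro v hv
      exact LinearMap.ofIsCompl_apply_right hc (φ := U.subtype) (ψ := -U'.subtype) ⟨v, hv⟩
    have hex : ∀ v, ∃ a ∈ U, ∃ b ∈ U', a + b = v := by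
      intro v
      have : v ∈ U ⊔ U' := by
        rw [hsup]
        trivial
      exact Submodule.mem_sup.1 this
    refine ⟨A, ?_, ?_, ?_, ?_⟩
    · apply LinearMap.ext
      intro v
      obtain ⟨a, ha, b, hb, rfl⟩ := hex v
      change A (A (a + b)) = a + b
      rw [map_add, hA a ha, hA' b hb, map_add, hA a ha, map_neg, hA' b hb, neg_neg]
    · intro g hg
      apply LinearMap.ext
      intro v
      obtain ⟨a, ha, b, hb, rfl⟩ := hex v
      change A (π g (a + b)) = π g (A (a + b))
      rw [map_add, map_add, map_add, hA a ha, hA' b hb, hA _ (hUinv g hg a ha),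
        hA' _ (h2 g hg b hb), map_add, map_neg]
    · intro g hg
      apply LinearMap.ext
      intro v
      obtain ⟨a, ha, b, hb, rfl⟩ := hex v
      change A (π g (a + b)) = - (π g (A (a + b)))
      rw [map_add, map_add, map_add, hA a ha, hA' b hb, hA' _ (h1 g hg a ha),
        hA _ (h3 g hg b hb), map_add, map_neg, neg_add, neg_neg]
    · intro v
      constructor
      · exact hA v
      · intro hv
        obtain ⟨a, ha, b, hb, rfl⟩ := hex v
        rw [map_add, hA a ha, hA' b hb] at hv
        have hb0 : b = 0 := by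
          have h5 : -b = b := add_left_cancel hv
          have h6 : (2 : Ω) • b = 0 := by
            rw [two_smul]
            nth_rewrite 1 [← h5]
            exact neg_add_cancel b
          rcases smul_eq_zero.1 h6 with h7 | h7
          · exact absurd h7 two_ne_zero
          · exact h7
        rw [hb0, add_zero]
        exact ha
  · left
    rw [← LinearMap.range_eq_top, eq_top_iff, ← h]
    exact inf_le_left

end

end AN
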