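import Pool.Agent.AN.C01

/-!
# MP_6c3636_al, AN, module H01: the conjugate sequence (helper7)

`cn (-α) k x = cn α k (-x)`, so `occ (-α) k x = [x ≤ 0] + cn α k (1 - x) - cn α k (-x)` and `1 - occ α k (1 - x) = 1 - [1 - x ≤ 0] - cn α k (-x) + cn α k (1 - x)`. `Lg_neg`: `occ (-α) k (-a) = 1 - occ α k (1 + a) = 1`, `occ (-α) k (-a + 1) = 1 - occ α k a = 0` for `a = α k`. `Lg_one`: `α 0 = 0`, after this step the beads are the `x < 0` and `1`, so the next step is `1` or `-1`.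
-/

namespace AN

noncomputable section

open Classical Equiv

variable {n : ℕ}

/-- self conjugate shapes -/
def SC (f : ℤ → ℤ) : Prop := ∀ x, f (1 - x) = 1 - f x

/-- the legal sequences of shape `f` with second entry `1` -/
def SH (hn : 1 < n) (f : ℤ → ℤ) : Finset (Fin n → ℤ) :=
  (SF n f).filter (fun α : Fin n → ℤ => α ⟨1, hn⟩ = 1)

namespace H01_aux

theorem cn_neg (α : Fin n → ℤ) (k : ℕ) (x : ℤ) : cn (-α) k x = cn α k (-x) := by
  unfold cn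
  congr 1
  refine Finset.filter_congr fun j _ => ?_
  rw [Pi.neg_apply]
  constructor
  · rintro ⟨h1, h2⟩
    exact ⟨h1, by omega⟩
  · rintro ⟨h1, h2⟩
    exact ⟨h1, by omega⟩

end H01_aux

theorem occ_neg (α : Fin n → ℤ) (k : ℕ) (x : ℤ) : occ (-α) k x = 1 - occ α k (1 - x) := by
  unfold occ
  rw [H01_aux.cn_neg, H01_aux.cn_neg, show -(x - 1) = 1 - x by ring, show 1 - x - 1 = -x by ring]
  by_cases hx : x ≤ 0
  · rw [if_pos hx, if_neg (by omega)]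
    ring
  · rw [if_neg hx, if_pos (by omega)]
    ring

theorem Lg_neg {α : Fin n → ℤ} (h : Lg α) : Lg (-α) := by
  intro k
  obtain ⟨h1, h2⟩ := h k
  rw [occ_neg, occ_neg, Pi.neg_apply, show 1 - -α k = α k + 1 by ring, show 1 - (-α k + 1) = α k by ring,
    h1, h2]
  exact ⟨by norm_num, by norm_num⟩

theorem Sq_neg {f : ℤ → ℤ} (hf : SC f) {α : Fin n → ℤ} (h : α ∈ Sq n f) : -α ∈ Sq n f := by
  obtain ⟨h1, h2⟩ := h
  refine ⟨Lg_neg h1, ?_⟩
  funext x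
  rw [occ_neg, h2, hf x]
  ring

theorem SC_of_neg {f : ℤ → ℤ} {α : Fin n → ℤ} (h : α ∈ Sq n f) (h' : -α ∈ Sq n f) : SC f := by
  intro x
  have h1 := congrFun h'.2 x
  rw [occ_neg, h.2] at h1
  linarith

theorem Lg_one (hn : 1 < n) {α : Fin n → ℤ} (h : Lg α) : α ⟨1, hn⟩ = 1 ∨ α ⟨1, hn⟩ = -1 := by
  have h0 : α ⟨0, by omega⟩ = 0 := Lg_zero h ⟨0, by omega⟩ rfl
  have h1 : ∀ x, occ α 1 x = (if x ≤ 0 then 1 else 0) + (if x = 1 then 1 else 0) - (if x = 0 then 1 else 0) := by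
    intro x
    have h2 := occ_succ α ⟨0, by omega⟩ x
    rw [h0, zero_add, zero_add] at h2
    rw [h2, occ_zero]
  obtain ⟨h3, h4⟩ := h ⟨1, hn⟩
  have h3' : occ α 1 (α ⟨1, hn⟩) = 1 := h3
  have h4' : occ α 1 (α ⟨1, hn⟩ + 1) = 0 := h4
  rw [h1] at h3' h4'
  split_ifs at h3' h4' <;> omega

end

end AN
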