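import Pool.Agent.AN.J11
import Pool.Agent.AN.H01

/-!
# MP_6c3636_al, AN, module A02: the associator in the seminormal basis (helper7)

Transpositions are odd, so `A * jm ρ k = - (jm ρ k * A)` and `A (v α) ∈ Wt ρ (-α)`; it is not `0` (`A * A = 1`). The weights of `V` are the `β ∈ Sq n f`, with one dimensional weight spaces (`SN.basis`, `SN.wt`), so `-α ∈ Sq n f`, `A (v α) = a α • v (-α)`, `a α ≠ 0`. `SC f`: `occ (-α) n x = 1 - occ α n (1 - x)` (H01). Let `β = sq α k l`, `α k + 2 ≤ α l`, `r = α l - α k`: apply `A` to `S (v α) = r⁻¹ v α + v β` (`up`): `A S = - S A`, `S (v (-α)) = - r⁻¹ v (-α) + (1 - r⁻²) v (-β)` (`SN.dn` for `-α`), so `a β = - (1 - r⁻²) a α`. `nm β = (1 - r⁻²) nm α` (`nm_sq`) and `ms β = ms α + 1` (the exchange of adjacent entries adds the inversion `(k, l)`). By `desc_induct` `a α = κ (-1) ^ ms α * nm α` for all `α ∈ Sq n f`, where `κ = a α₀ (-1) ^ ms α₀ / nm α₀` for the minimal `α₀`. `assoc_sq`: `A * A = 1`.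
-/

namespace AN

noncomputable section

open Classical Equiv

variable {K : Type} [Field K] {V : Type} [AddCommGroup V] [Module K V] {n : ℕ}
  {ρ : Representation K (Perm (Fin n)) V}

namespace A02_aux

theorem swap_lt {k l i j : Fin n} (hl : (l : ℕ) = k + 1) (hij : i < j) (hne : ¬ (i = k ∧ j = l)) :
    swap k l i < swap k l j := by
  rw [swap_apply_def, swap_apply_def]
  rw [Fin.lt_def] at hij
  by_cases i1 : i = k
  · by_cases j1 : j = l
    · exact absurd ⟨i1, j1⟩ hne
    · have j2 : j ≠ k := by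
        intro e
        rw [e, i1] at hij
        exact lt_irrefl _ hij
      rw [if_pos i1, if_neg j2, if_neg j1, Fin.lt_def]
      rw [i1] at hij
      have : (j : ℕ) ≠ l := fun e => j1 (Fin.ext e)
      omega
  · by_cases i2 : i = l
    · have j1 : j ≠ k := by
        intro e
        rw [e, i2] at hij
        omega
      have j2 : j ≠ l := by
        intro e
        rw [e, i2] at hij
        omega
      rw [if_neg i1, if_pos i2, if_neg j1, if_neg j2, Fin.lt_def]
      rw [i2] at hij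
      omega
    · rw [if_neg i1, if_neg i2]
      have e1 : (i : ℕ) ≠ k := fun e => i1 (Fin.ext e)
      have e2 : (i : ℕ) ≠ l := fun e => i2 (Fin.ext e)
      by_cases j1 : j = k
      · rw [if_pos j1, Fin.lt_def]
        rw [j1] at hij
        omega
      · by_cases j2 : j = l
        · rw [if_neg j1, if_pos j2, Fin.lt_def]
          rw [j2] at hij
          omega
        · rw [if_neg j1, if_neg j2, Fin.lt_def]
          exact hij

theorem ms_sq {α : Fin n → ℤ} {k l : Fin n} (hl : (l : ℕ) = k + 1) (h : α l < α k) :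
    ms α = ms (sq α k l) + 1 := by
  unfold ms
  have hkl : (k, l) ∈ Finset.univ.filter (fun p : Fin n × Fin n => p.1 < p.2 ∧ α p.2 < α p.1) := by
    rw [Finset.mem_filter]
    exact ⟨Finset.mem_univ _, by simp only [Fin.lt_def]; omega, h⟩
  rw [← Finset.card_erase_add_one hkl]
  congr 1
  refine Finset.card_nbij' (fun p => (swap k l p.1, swap k l p.2))
    (fun p => (swap k l p.1, swap k l p.2)) ?_ ?_ ?_ ?_
  · intro p hp
    rw [Finset.mem_coe, Finset.mem_erase, Finset.mem_filter] at hp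
    obtain ⟨h1, -, h2, h3⟩ := hp
    rw [Finset.mem_coe, Finset.mem_filter]
    refine ⟨Finset.mem_univ _, ?_, ?_⟩
    · apply swap_lt hl h2
      rintro ⟨e1, e2⟩
      exact h1 (Prod.ext e1 e2)
    · simp only [sq, swap_apply_self]
      exact h3
  · intro p hp
    rw [Finset.mem_coe, Finset.mem_filter] at hp
    obtain ⟨-, h2, h3⟩ := hp
    have h4 : ¬ (p.1 = k ∧ p.2 = l) := by
      rintro ⟨e1, e2⟩
      rw [e1, e2, sq_k, sq_l] at h3
      exact absurd h3 (not_lt.mpr h.le)
    rw [Finset.mem_coe, Finset.mem_erase, Finset.mem_filter]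
    refine ⟨?_, Finset.mem_univ _, swap_lt hl h2 h4, h3⟩
    intro e
    rw [Prod.mk.injEq] at e
    have e1 : p.1 = l := by
      have := congrArg (swap k l) e.1
      rwa [swap_apply_self, swap_apply_left] at this
    have e2 : p.2 = k := by
      have := congrArg (swap k l) e.2
      rwa [swap_apply_self, swap_apply_right] at this
    rw [e1, e2, Fin.lt_def] at h2
    omega
  · intro p _
    simp only [swap_apply_self, Prod.mk.eta]
  · intro p _
    simp only [swap_apply_self, Prod.mk.eta]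

/-- the weight spaces are one dimensional -/
theorem wt_line {f : ℤ → ℤ} {v : (Fin n → ℤ) → V} (h : SN ρ f v) [CharZero K]
    (hρ : ρ.IsIrreducible) {γ : Fin n → ℤ} {x : V} (hx : x ∈ Wt ρ (fun k => (γ k : K))) (h0 : x ≠ 0) :
    γ ∈ Sq n f ∧ ∃ c : K, c ≠ 0 ∧ x = c • v γ := by
  obtain ⟨b, hb⟩ := h.basis hρ
  have key : ∀ β : {α // α ∈ SF n f}, b.repr x β ≠ 0 → γ = β := by
    intro β hβ
    funext k
    have e1 : (b.coord β) ∘ₗ (jm ρ k) = (((β : Fin n → ℤ) k : ℤ) : K) • b.coord β := by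
      apply b.ext
      intro i
      have e2 : jm ρ k (b i) = (((i : Fin n → ℤ) k : ℤ) : K) • b i := by
        rw [hb]
        exact h.wt _ (mem_SF.mp i.2) k
      rw [LinearMap.comp_apply, e2, map_smul, LinearMap.smul_apply, Module.Basis.coord_apply,
        Module.Basis.repr_self]
      by_cases hi : i = β
      · rw [hi]
      · rw [Finsupp.single_eq_of_ne (Ne.symm hi), smul_zero, smul_zero]
    have e3 := LinearMap.congr_fun e1 x
    rw [LinearMap.comp_apply, hx k, map_smul, LinearMap.smul_apply, Module.Basis.coord_apply,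
      smul_eq_mul, smul_eq_mul] at e3
    have e4 : ((γ k : ℤ) : K) = (((β : Fin n → ℤ) k : ℤ) : K) := mul_right_cancel₀ hβ e3
    exact_mod_cast e4
  have hex : ∃ β : {α // α ∈ SF n f}, b.repr x β ≠ 0 := by
    by_contra hc
    push Not at hc
    apply h0
    apply b.ext_elem
    intro i
    rw [hc i, map_zero, Finsupp.zero_apply]
  obtain ⟨β, hβ⟩ := hex
  have hγ := key β hβ
  refine ⟨by rw [hγ]; exact mem_SF.mp β.2, b.repr x β, hβ, ?_⟩
  rw [hγ, ← hb β]
  apply b.ext_elem
  intro i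
  rw [map_smul, Finsupp.smul_apply, Module.Basis.repr_self]
  by_cases hi : i = β
  · rw [hi, Finsupp.single_eq_same, smul_eq_mul, mul_one]
  · rw [Finsupp.single_eq_of_ne hi, smul_zero]
    by_contra hc
    apply hi
    apply Subtype.ext
    rw [← key i hc, hγ]

theorem A_mem {f : ℤ → ℤ} {v : (Fin n → ℤ) → V} (h : SN ρ f v)
    {A : Module.End K V} (hs : ∀ g : Perm (Fin n), Perm.sign g = -1 → A * ρ g = - (ρ g * A))
    {α : Fin n → ℤ} (hα : α ∈ Sq n f) : A (v α) ∈ Wt ρ (fun k => ((-α) k : K)) := by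
  intro k
  have h1 : jm ρ k (A (v α)) = - A (jm ρ k (v α)) := by
    unfold jm
    rw [LinearMap.sum_apply, LinearMap.sum_apply, map_sum, ← Finset.sum_neg_distrib]
    refine Finset.sum_congr rfl fun i hi => ?_
    rw [Finset.mem_filter] at hi
    have h2 := LinearMap.congr_fun (hs (swap i k) (Perm.sign_swap hi.2.ne)) (v α)
    rw [LinearMap.neg_apply, Module.End.mul_apply, Module.End.mul_apply] at h2
    rw [h2, neg_neg]
  rw [h1, h.wt α hα k, map_smul]
  change -(((α k : ℤ) : K) • A (v α)) = (((-α) k : ℤ) : K) • A (v α)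
  rw [Pi.neg_apply, Int.cast_neg, neg_smul]

theorem sq_neg (α : Fin n → ℤ) (k l : Fin n) : sq (-α) k l = - sq α k l := rfl

end A02_aux

theorem assoc {f : ℤ → ℤ} {v : (Fin n → ℤ) → V} (h : SN ρ f v) [CharZero K] (hρ : ρ.IsIrreducible)
    {A : Module.End K V} (hA : A * A = 1)
    (hs : ∀ g : Perm (Fin n), Perm.sign g = -1 → A * ρ g = - (ρ g * A)) :
    SC f ∧ ∃ κ : K, κ ≠ 0 ∧ ∀ α ∈ Sq n f, A (v α) = (κ * (-1) ^ ms α * (nm α : K)) • v (-α) := by
  have hw : ∀ α ∈ Sq n f, -α ∈ Sq n f ∧ ∃ c : K, c ≠ 0 ∧ A (v α) = c • v (-α) := by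
    intro α hα
    refine A02_aux.wt_line h hρ (A02_aux.A_mem h hs hα) ?_
    intro h0
    apply h.nz α hα
    have h1 := LinearMap.congr_fun hA (v α)
    rw [Module.End.mul_apply, h0, map_zero, Module.End.one_apply] at h1
    exact h1.symm
  obtain ⟨α₀, hα₀, hm₀⟩ := exists_mi h.ne
  refine ⟨SC_of_neg hα₀ (hw α₀ hα₀).1, ?_⟩
  obtain ⟨c₀, hc₀, hA₀⟩ := (hw α₀ hα₀).2
  have hn₀ : (nm α₀ : K) ≠ 0 := by
    have := (nm_pos α₀).ne'
    exact_mod_cast this
  refine ⟨c₀ * (-1) ^ ms α₀ / (nm α₀ : K), ?_, ?_⟩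
  · refine div_ne_zero (mul_ne_zero hc₀ (pow_ne_zero _ ?_)) hn₀
    exact neg_ne_zero.mpr one_ne_zero
  apply desc_induct
  · intro α hα hm
    have e := mi_unique hα hα₀ hm hm₀
    rw [e, hA₀]
    congr 1
    have e2 : ((-1 : K) ^ ms α₀) * (-1) ^ ms α₀ = 1 := by
      rw [← mul_pow]
      norm_num
    field_simp
    linear_combination -e2
  · intro α hα k l hl hd hβ
    set β := sq α k l with hβd
    have hβS : β ∈ Sq n f := Sq_sq hα hl (Or.inr hd)
    have b1 : β k = α l := sq_k α k l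
    have b2 : β l = α k := sq_l α k l
    have b3 : sq β k l = α := sq_sq α k l
    have u := h.up β hβS k l hl (by omega)
    rw [b3, b1, b2] at u
    have hnβ : -β ∈ Sq n f := (hw β hβS).1
    have d := h.dn hnβ hl (by rw [Pi.neg_apply, Pi.neg_apply]; omega)
    have b4 : (-β) k - (-β) l = α k - α l := by
      rw [Pi.neg_apply, Pi.neg_apply, b1, b2]
      ring
    rw [b4, A02_aux.sq_neg, b3] at d
    have e1 : v α = ρ (swap k l) (v β) - (((α k - α l : ℤ) : K)⁻¹) • v β := by
      rw [u]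
      abel
    have e2 := LinearMap.congr_fun (hs (swap k l) (Perm.sign_swap (by
      intro e
      rw [← e] at hl
      omega))) (v β)
    rw [LinearMap.neg_apply, Module.End.mul_apply, Module.End.mul_apply] at e2
    have hr : ((α k - α l : ℤ) : K) ≠ 0 := by
      have : (α k - α l : ℤ) ≠ 0 := by omega
      exact_mod_cast this
    have e3 : (nm α : K) = (1 - (((α k - α l : ℤ) : K)⁻¹) ^ 2) * (nm β : K) := by
      rw [nm_sq hl hd]
      push_cast
      rw [one_div, inv_pow]
    rw [e1, map_sub, e2, map_smul, hβ, map_smul, d, e3, A02_aux.ms_sq (α := α) hl (by omega), ← hβd, pow_succ]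
    module

theorem assoc_sq {f : ℤ → ℤ} {v : (Fin n → ℤ) → V} (h : SN ρ f v) [CharZero K]
    {A : Module.End K V} (hA : A * A = 1) (hf : SC f) {κ : K}
    (hκ : ∀ α ∈ Sq n f, A (v α) = (κ * (-1) ^ ms α * (nm α : K)) • v (-α)) {α : Fin n → ℤ}
    (hα : α ∈ Sq n f) :
    κ ^ 2 * ((-1) ^ (ms α + ms (-α)) * (nm α : K) * (nm (-α) : K)) = 1 := by
  have h1 := LinearMap.congr_fun hA (v α)
  rw [Module.End.mul_apply, Module.End.one_apply, hκ α hα, map_smul, hκ (-α) (Sq_neg hf hα), neg_neg,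
    smul_smul] at h1
  have h2 : (κ * (-1) ^ ms α * (nm α : K) * (κ * (-1) ^ ms (-α) * (nm (-α) : K)) - 1) • v α = 0 := by
    rw [sub_smul, h1, one_smul, sub_self]
  have h3 := (smul_eq_zero.mp h2).resolve_right (h.nz α hα)
  rw [pow_add]
  linear_combination h3

end

end AN
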