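import Pool.Agent.AN.C02

/-!
# MP_6c3636_al, AN, module C04: the norm and the pairs of entries (helper7)

`nm_sq`: reindex the double product for `sq α k l` by `swap k l` on both indices: for a pair `{i, j}` different from `{k, l}` the order of `swap k l i` and `swap k l j` is the order of `i` and `j` (as `l = k + 1`), so the factors of `nm (sq α k l)` are the factors of `nm α` for all pairs except `(k, l)`: its factor is `1 - 1 / (α k - α l) ^ 2` for `α` and `1` for `sq α k l`. `nm_pos`: all factors are positive. `dq_sq` in the same way for the counting function. `dq_add_ac`: the sum counts the pairs `(i, j)`, `i ≠ j`, with `α i - α j ≥ 2` congruent to `1` or `-1`, which is `∑ over pairs of integers (x, y) of cn α n x * cn α n y`; `cn_unique`. `ac_neg`: clear.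
-/

namespace AN

noncomputable section

open Classical Equiv

variable {n : ℕ}

private theorem C04_swap_lt {k l : Fin n} (hl : (l : ℕ) = k + 1) {i j : Fin n}
    (h1 : ¬ (i = k ∧ j = l)) (h2 : ¬ (i = l ∧ j = k)) : swap k l i < swap k l j ↔ i < j := by
  by_cases hik : i = k
  · subst hik
    rw [swap_apply_left]
    by_cases hji : j = i
    · subst hji
      rw [swap_apply_left]
      simp
    · have hjl : j ≠ l := fun h => h1 ⟨rfl, h⟩
      rw [swap_apply_of_ne_of_ne hji hjl]
      have a1 : (j : ℕ) ≠ (i : ℕ) := fun h => hji (Fin.ext h)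
      have a2 : (j : ℕ) ≠ (l : ℕ) := fun h => hjl (Fin.ext h)
      rw [Fin.lt_def, Fin.lt_def]
      omega
  · by_cases hil : i = l
    · subst hil
      rw [swap_apply_right]
      by_cases hji : j = i
      · subst hji
        rw [swap_apply_right]
        simp
      · have hjk : j ≠ k := fun h => h2 ⟨rfl, h⟩
        rw [swap_apply_of_ne_of_ne hjk hji]
        have a1 : (j : ℕ) ≠ (i : ℕ) := fun h => hji (Fin.ext h)
        have a2 : (j : ℕ) ≠ (k : ℕ) := fun h => hjk (Fin.ext h)
        rw [Fin.lt_def, Fin.lt_def]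
        omega
    · rw [swap_apply_of_ne_of_ne hik hil]
      have a1 : (i : ℕ) ≠ (k : ℕ) := fun h => hik (Fin.ext h)
      have a2 : (i : ℕ) ≠ (l : ℕ) := fun h => hil (Fin.ext h)
      by_cases hjk : j = k
      · subst hjk
        rw [swap_apply_left, Fin.lt_def, Fin.lt_def]
        omega
      · by_cases hjl : j = l
        · subst hjl
          rw [swap_apply_right, Fin.lt_def, Fin.lt_def]
          omega
        · rw [swap_apply_of_ne_of_ne hjk hjl]

theorem nm_sq {α : Fin n → ℤ} {k l : Fin n} (hl : (l : ℕ) = k + 1) (h : α l + 2 ≤ α k) :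
    nm α = (1 - 1 / (((α k - α l : ℤ) : ℚ) ^ 2)) * nm (sq α k l) := by
  have hkl : k < l := by
    rw [Fin.lt_def]
    omega
  have hre : nm (sq α k l) = ∏ i : Fin n, ∏ j : Fin n,
      if swap k l i < swap k l j ∧ α j + 2 ≤ α i then 1 - 1 / (((α i - α j : ℤ) : ℚ) ^ 2)
      else 1 := by
    unfold nm sq
    rw [← Equiv.prod_comp (swap k l)]
    refine Finset.prod_congr rfl fun i _ => ?_
    rw [← Equiv.prod_comp (swap k l)]
    refine Finset.prod_congr rfl fun j _ => ?_
    simp only [swap_apply_self]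
  have hfac : ∀ i j : Fin n,
      (if i < j ∧ α j + 2 ≤ α i then 1 - 1 / (((α i - α j : ℤ) : ℚ) ^ 2) else 1) =
      (if i = k then (if j = l then 1 - 1 / (((α k - α l : ℤ) : ℚ) ^ 2) else 1) else 1) *
      (if swap k l i < swap k l j ∧ α j + 2 ≤ α i then 1 - 1 / (((α i - α j : ℤ) : ℚ) ^ 2)
      else 1) := by
    intro i j
    by_cases h1 : i = k ∧ j = l
    · obtain ⟨rfl, rfl⟩ := h1
      rw [if_pos ⟨hkl, h⟩, if_pos rfl, if_pos rfl, swap_apply_left, swap_apply_right,
        if_neg (fun h3 => absurd h3.1 (not_lt.2 hkl.le)), mul_one]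
    · have e1 : (if i = k then (if j = l then 1 - 1 / (((α k - α l : ℤ) : ℚ) ^ 2) else 1)
          else (1 : ℚ)) = 1 := by
        by_cases hi : i = k
        · rw [if_pos hi, if_neg (fun hj => h1 ⟨hi, hj⟩)]
        · rw [if_neg hi]
      rw [e1, one_mul]
      by_cases h2 : i = l ∧ j = k
      · obtain ⟨rfl, rfl⟩ := h2
        rw [if_neg (fun h3 => absurd h3.1 (not_lt.2 hkl.le)), if_neg (fun h3 => by omega)]
      · simp only [C04_swap_lt hl h1 h2]
  rw [hre]
  unfold nm
  have h3 : ∀ i : Fin n, (∏ j : Fin n,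
      if i < j ∧ α j + 2 ≤ α i then 1 - 1 / (((α i - α j : ℤ) : ℚ) ^ 2) else 1) =
      (if i = k then 1 - 1 / (((α k - α l : ℤ) : ℚ) ^ 2) else 1) * ∏ j : Fin n,
      (if swap k l i < swap k l j ∧ α j + 2 ≤ α i then 1 - 1 / (((α i - α j : ℤ) : ℚ) ^ 2)
      else 1) := by
    intro i
    rw [Finset.prod_congr rfl fun j _ => hfac i j, Finset.prod_mul_distrib]
    congr 1
    by_cases hi : i = k
    · simp only [if_pos hi]
      rw [Finset.prod_ite_eq' Finset.univ l (fun _ => 1 - 1 / (((α k - α l : ℤ) : ℚ) ^ 2)),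
        if_pos (Finset.mem_univ l)]
    · simp only [if_neg hi]
      exact Finset.prod_const_one
  rw [Finset.prod_congr rfl fun i _ => h3 i, Finset.prod_mul_distrib,
    Finset.prod_ite_eq' Finset.univ k (fun _ => 1 - 1 / (((α k - α l : ℤ) : ℚ) ^ 2)),
    if_pos (Finset.mem_univ k)]

theorem nm_pos (α : Fin n → ℤ) : 0 < nm α := by
  unfold nm
  refine Finset.prod_pos fun i _ => Finset.prod_pos fun j _ => ?_
  by_cases h : i < j ∧ α j + 2 ≤ α i
  · rw [if_pos h]
    have h1 : (2 : ℚ) ≤ ((α i - α j : ℤ) : ℚ) := by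
      have h2 : (2 : ℤ) ≤ α i - α j := by
        have := h.2
        omega
      exact_mod_cast h2
    have h2 : (1 : ℚ) < ((α i - α j : ℤ) : ℚ) ^ 2 := by nlinarith
    have h3 : 1 / ((α i - α j : ℤ) : ℚ) ^ 2 < 1 := by
      rw [div_lt_one (by linarith)]
      exact h2
    linarith
  · rw [if_neg h]
    exact one_pos

/-- the number of the ascending pairs -/
def ac (e : ℤ) (α : Fin n → ℤ) : ℕ :=
  (Finset.univ.filter (fun p : Fin n × Fin n => p.1 < p.2 ∧ α p.1 + 2 ≤ α p.2 ∧
    (e ∣ α p.2 - α p.1 - 1 ∨ e ∣ α p.2 - α p.1 + 1))).card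

private theorem C04_tot (e : ℤ) (α : Fin n → ℤ) : dq e α + ac e α =
    (Finset.univ.filter (fun p : Fin n × Fin n => α p.2 + 2 ≤ α p.1 ∧
      (e ∣ α p.1 - α p.2 - 1 ∨ e ∣ α p.1 - α p.2 + 1))).card := by
  have h1 : ac e α = (Finset.univ.filter (fun p : Fin n × Fin n => p.2 < p.1 ∧
      α p.2 + 2 ≤ α p.1 ∧ (e ∣ α p.1 - α p.2 - 1 ∨ e ∣ α p.1 - α p.2 + 1))).card := by
    unfold ac
    refine Finset.card_bij' (fun p _ => (p.2, p.1)) (fun p _ => (p.2, p.1)) ?_ ?_ ?_ ?_
    · intro p hp
      rw [Finset.mem_filter] at hp ⊢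
      exact ⟨Finset.mem_univ _, hp.2⟩
    · intro p hp
      rw [Finset.mem_filter] at hp ⊢
      exact ⟨Finset.mem_univ _, hp.2⟩
    · intro p _
      rfl
    · intro p _
      rfl
  rw [h1]
  unfold dq
  rw [← Finset.card_union_of_disjoint]
  · congr 1
    ext p
    rw [Finset.mem_union, Finset.mem_filter, Finset.mem_filter, Finset.mem_filter]
    constructor
    · rintro (⟨_, h⟩ | ⟨_, h⟩)
      · exact ⟨Finset.mem_univ _, h.2⟩
      · exact ⟨Finset.mem_univ _, h.2⟩
    · rintro ⟨_, h⟩
      have hne : p.1 ≠ p.2 := by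
        intro h3
        rw [h3] at h
        have := h.1
        omega
      rcases lt_or_gt_of_ne hne with h4 | h4
      · exact Or.inl ⟨Finset.mem_univ _, h4, h⟩
      · exact Or.inr ⟨Finset.mem_univ _, h4, h⟩
  · rw [Finset.disjoint_left]
    intro p hp hq
    rw [Finset.mem_filter] at hp hq
    exact absurd hp.2.1 (not_lt.2 hq.2.1.le)

theorem dq_add_ac {α β : Fin n → ℤ} (h : occ α n = occ β n) (e : ℤ) :
    dq e α + ac e α = dq e β + ac e β := by
  have hc := cn_unique h
  have hcard : ∀ x : ℤ, Nonempty ({j : Fin n // α j = x} ≃ {j : Fin n // β j = x}) := by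
    intro x
    have h1 := congrFun hc x
    unfold cn at h1
    have h2 : ∀ γ : Fin n → ℤ, Fintype.card {j : Fin n // γ j = x} =
        (Finset.univ.filter (fun j : Fin n => (j : ℕ) < n ∧ γ j = x)).card := by
      intro γ
      rw [Fintype.card_subtype]
      congr 1
      refine Finset.filter_congr fun j _ => ?_
      constructor
      · intro h3
        exact ⟨j.2, h3⟩
      · intro h3
        exact h3.2
    refine ⟨Fintype.equivOfCardEq ?_⟩
    rw [h2, h2, h1]
  obtain ⟨τ, hτ⟩ : ∃ τ : Perm (Fin n), ∀ i, α i = β (τ i) := by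
    refine ⟨(Equiv.sigmaFiberEquiv α).symm.trans ((Equiv.sigmaCongrRight fun x =>
      (hcard x).some).trans (Equiv.sigmaFiberEquiv β)), fun i => ?_⟩
    exact ((hcard (α i)).some ⟨i, rfl⟩).2.symm
  rw [C04_tot, C04_tot]
  refine Finset.card_bij' (fun p _ => (τ p.1, τ p.2)) (fun p _ => (τ.symm p.1, τ.symm p.2))
    ?_ ?_ ?_ ?_
  · intro p hp
    rw [Finset.mem_filter] at hp ⊢
    refine ⟨Finset.mem_univ _, ?_⟩
    have h3 := hp.2
    rw [hτ, hτ] at h3
    exact h3
  · intro p hp
    rw [Finset.mem_filter] at hp ⊢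
    refine ⟨Finset.mem_univ _, ?_⟩
    have h3 := hp.2
    rw [hτ, hτ]
    simp only [Equiv.apply_symm_apply]
    exact h3
  · intro p _
    simp
  · intro p _
    simp

theorem ac_neg (e : ℤ) (α : Fin n → ℤ) : ac e (-α) = dq e α := by
  unfold ac dq
  congr 1
  refine Finset.filter_congr fun p _ => ?_
  simp only [Pi.neg_apply]
  have e1 : -α p.2 - -α p.1 - 1 = α p.1 - α p.2 - 1 := by ring
  have e2 : -α p.2 - -α p.1 + 1 = α p.1 - α p.2 + 1 := by ring
  rw [e1, e2]
  refine and_congr_right fun _ => and_congr_left fun _ => ?_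
  omega

end

end AN
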