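import Pool.Agent.AN.H01
import Pool.Agent.AN.C04

/-!
# MP_6c3636_al, AN, module H02: the pairs of entries of the conjugate sequence (helper7)

`dq e (-α) = ac e α` (`ac_neg` for `-α`), so `dq e α + dq e (-α) = dq e α + ac e α` is the number of the ordered pairs `(i, j)`, `i ≠ j`, with `α i - α j ≥ 2` and `α i - α j ≡ 1` or `-1` modulo `e`. Grouped by the values it is `∑ over (x, y), x - y ≥ 2, x - y ≡ ±1, of m x * m y`, `m x = cn α n x`. As `-α` has the same shape, `m (-x) = m x` (`cn_unique`). The involution `(x, y) ↦ (-y, -x)` of the index set preserves the summand; a fixed pair satisfies `y = -x`, `x - y = 2 x`, which is not congruent to `±1` modulo the even number `e`. So the sum is even (`Finset.sum_involution` in `ZMod 2`).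
-/

namespace AN

noncomputable section

open Classical Equiv

variable {n : ℕ}

namespace H02_aux

/-- the pairs of values -/
def G (e x y : ℤ) : ZMod 2 := if y + 2 ≤ x ∧ (e ∣ x - y - 1 ∨ e ∣ x - y + 1) then 1 else 0

theorem cast_card {ι : Type} [Fintype ι] (P : ι → Prop) [DecidablePred P] :
    (((Finset.univ.filter P).card : ℕ) : ZMod 2) = ∑ i, if P i then 1 else 0 := by
  rw [Finset.card_filter]
  push_cast
  rfl

theorem total (e : ℤ) (α : Fin n → ℤ) :
    ((ac e α : ℕ) : ZMod 2) + ((dq e α : ℕ) : ZMod 2) = ∑ i, ∑ j, G e (α i) (α j) := by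
  have h1 : ((ac e α : ℕ) : ZMod 2) = ∑ p : Fin n × Fin n,
      if p.2 < p.1 ∧ α p.2 + 2 ≤ α p.1 ∧ (e ∣ α p.1 - α p.2 - 1 ∨ e ∣ α p.1 - α p.2 + 1) then 1 else 0 := by
    unfold ac
    rw [cast_card]
    exact Fintype.sum_equiv (Equiv.prodComm (Fin n) (Fin n)) _ _ (fun p => rfl)
  have h2 : ((dq e α : ℕ) : ZMod 2) = ∑ p : Fin n × Fin n,
      if p.1 < p.2 ∧ α p.2 + 2 ≤ α p.1 ∧ (e ∣ α p.1 - α p.2 - 1 ∨ e ∣ α p.1 - α p.2 + 1) then 1 else 0 := by
    unfold dq
    rw [cast_card]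
  rw [h1, h2, ← Finset.sum_add_distrib, ← Fintype.sum_prod_type']
  refine Finset.sum_congr rfl fun p _ => ?_
  unfold G
  by_cases hP : α p.2 + 2 ≤ α p.1 ∧ (e ∣ α p.1 - α p.2 - 1 ∨ e ∣ α p.1 - α p.2 + 1)
  · rw [if_pos hP]
    rcases lt_trichotomy p.1 p.2 with h | h | h
    · rw [if_neg (fun hh => absurd h (not_lt.mpr hh.1.le)), if_pos ⟨h, hP⟩, zero_add]
    · exfalso
      have := hP.1
      rw [h] at this
      omega
    · rw [if_pos ⟨h, hP⟩, if_neg (fun hh => absurd h (not_lt.mpr hh.1.le)), add_zero]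
  · rw [if_neg hP, if_neg (fun hh => hP hh.2), if_neg (fun hh => hP hh.2), add_zero]

theorem fib {α : Fin n → ℤ} (h : Lg α) (g : ℤ → ZMod 2) :
    ∑ i, g (α i) = ∑ x ∈ Finset.Icc (-(n : ℤ)) n, (cn α n x : ZMod 2) * g x := by
  have hmem : ∀ i ∈ (Finset.univ : Finset (Fin n)), α i ∈ Finset.Icc (-(n : ℤ)) n := by
    intro i _
    have h1 := Lg_bd h i
    have h2 := i.2
    rw [Finset.mem_Icc]
    constructor <;> omega
  rw [← Finset.sum_fiberwise_of_maps_to hmem]
  refine Finset.sum_congr rfl fun x _ => ?_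
  have e1 : ∑ i ∈ Finset.univ.filter (fun i => α i = x), g (α i) =
      ∑ i ∈ Finset.univ.filter (fun i => α i = x), g x := by
    refine Finset.sum_congr rfl fun i hi => ?_
    rw [(Finset.mem_filter.mp hi).2]
  rw [e1, Finset.sum_const, nsmul_eq_mul]
  congr 2
  unfold cn
  congr 1
  ext j
  simp only [Finset.mem_filter, Finset.mem_univ, true_and]
  exact ⟨fun hh => ⟨j.2, hh⟩, fun hh => hh.2⟩

theorem cn_neg {f : ℤ → ℤ} (hf : SC f) {α : Fin n → ℤ} (h : α ∈ Sq n f) (x : ℤ) :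
    cn α n (-x) = cn α n x := by
  have hneg := Sq_neg hf h
  have hcn : cn (-α) n = cn α n := cn_unique (hneg.2.trans h.2.symm)
  rw [← congrFun hcn x]
  unfold cn
  congr 1
  ext j
  simp only [Finset.mem_filter, Finset.mem_univ, true_and, Pi.neg_apply]
  constructor
  · rintro ⟨a, b⟩
    exact ⟨a, by rw [b, neg_neg]⟩
  · rintro ⟨a, b⟩
    exact ⟨a, by rw [← b, neg_neg]⟩

theorem G_neg (e x y : ℤ) : G e (-y) (-x) = G e x y := by
  unfold G
  have e1 : (-x + 2 ≤ -y) ↔ (y + 2 ≤ x) := by constructor <;> intro h <;> omega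
  have e2 : -y - -x = x - y := by ring
  exact if_congr (and_congr e1 (by rw [e2])) rfl rfl

theorem even_total {f : ℤ → ℤ} (hf : SC f) {α : Fin n → ℤ} (h : α ∈ Sq n f) {e : ℤ} (he : Even e) :
    ∑ i, ∑ j, G e (α i) (α j) = 0 := by
  have h1 : ∑ i, ∑ j, G e (α i) (α j) = ∑ p ∈ Finset.Icc (-(n : ℤ)) n ×ˢ Finset.Icc (-(n : ℤ)) n,
      (cn α n p.1 : ZMod 2) * ((cn α n p.2 : ZMod 2) * G e p.1 p.2) := by
    have h2 : ∀ i, ∑ j, G e (α i) (α j) =
        ∑ y ∈ Finset.Icc (-(n : ℤ)) n, (cn α n y : ZMod 2) * G e (α i) y := fun i => fib h.1 _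
    rw [Finset.sum_congr rfl (fun i _ => h2 i),
      fib h.1 (fun x => ∑ y ∈ Finset.Icc (-(n : ℤ)) n, (cn α n y : ZMod 2) * G e x y),
      Finset.sum_product]
    refine Finset.sum_congr rfl fun x _ => ?_
    rw [Finset.mul_sum]
  rw [h1]
  refine Finset.sum_involution (fun p _ => (-p.2, -p.1)) ?_ ?_ ?_ ?_
  · intro p _
    simp only
    rw [cn_neg hf h, cn_neg hf h, G_neg]
    have e1 : (cn α n p.2 : ZMod 2) * ((cn α n p.1 : ZMod 2) * G e p.1 p.2) =
        (cn α n p.1 : ZMod 2) * ((cn α n p.2 : ZMod 2) * G e p.1 p.2) := by ring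
    rw [e1]
    exact CharTwo.add_self_eq_zero _
  · intro p _ hne heq
    apply hne
    have e1 : -p.2 = p.1 := congrArg Prod.fst heq
    have e2 : G e p.1 p.2 = 0 := by
      unfold G
      rw [if_neg]
      rintro ⟨_, hh⟩
      obtain ⟨c, hc⟩ := he
      rcases hh with ⟨d, hd⟩ | ⟨d, hd⟩
      · have : p.1 - p.2 - 1 = 2 * (c * d) := by rw [hd, hc]; ring
        omega
      · have : p.1 - p.2 + 1 = 2 * (c * d) := by rw [hd, hc]; ring
        omega
    rw [e2, mul_zero, mul_zero]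
  · intro p hp
    rw [Finset.mem_product, Finset.mem_Icc, Finset.mem_Icc] at hp ⊢
    simp only
    omega
  · intro p _
    simp only [neg_neg]

end H02_aux

theorem dq_neg {f : ℤ → ℤ} (hf : SC f) {α : Fin n → ℤ} (h : α ∈ Sq n f) {e : ℤ} (he : Even e) :
    ((dq e (-α) : ℕ) : ZMod 2) = ((dq e α : ℕ) : ZMod 2) := by
  have h1 : dq e (-α) = ac e α := by
    have := ac_neg e (-α)
    rw [neg_neg] at this
    exact this.symm
  have h2 := H02_aux.total e α
  rw [H02_aux.even_total hf h he] at h2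
  rw [h1]
  have h3 : ((ac e α : ℕ) : ZMod 2) = ((ac e α : ℕ) : ZMod 2) + ((dq e α : ℕ) : ZMod 2) +
      ((dq e α : ℕ) : ZMod 2) := by
    rw [add_assoc, CharTwo.add_self_eq_zero, add_zero]
  rw [h3, h2, zero_add]

end

end AN
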