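import Pool.Agent.AN.B13

/-!
# MP_6c3636_al, AN, module B14: the parity theorem for paths (first form) (helper7)

`X0 = X0 W`, `e = 2 ^ i ≥ 2`. The left side of the claim is the coefficient of `ε` of `S(χ) = ∑ l ∈ pth n X0, (1 + ε wp) * χ(en (l.take t)) * δ_Y(en l)` (`δ_Y` the function which is `1` at `Y` and `0` elsewhere, `χ` as a function with values `0`, `1`), the number of the `l` is the other coefficient. `cut_small`: `n = r + e m`, `t ≤ r < e`: `S(χ) = (Fe ^ t * Mu χ * Fe ^ (r - t) * (Ke * Fo e ^ m * Ke)) δ_Y X0` (`Fe_cut`, `Fe_pow_mul`). By `Fe_cut`, `S(χ) = ∑ l' ∈ pth r X0, (1 + ε wp l') * χ(en (l'.take t)) * g (en l')`, `g = (Ke * Fo e ^ m * Ke) δ_Y = (1 + ε kap) * (Fo e ^ m δ_Y) * (1 + ε kap Y)`. If `g X ≠ 0` then `Y` is reachable from `X` (`rch_of_ne`), and the `X = en l'` are `Ok` and flush (`path_ok`, `flu_of_sz`), so there is at most one such `X` (`flu_unique`), `X = X1`. `wp l' =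 pt X1 - pt X0` (`wp_small`). So `S(χ) = (1 + ε c) * N` with `c = pt X1 - pt X0 + kap X1 + kap Y` independent of `χ` and `N` in the prime field `ZMod 2` (number of `l'` with `χ` and end `X1`, times `(Fo e ^ m δ_Y) X1`, which has no `ε`-part: it is the image of the same expression over `ZMod 2`). `cut_large`: `n = r + e m`, `m ≥ 1`, `r ≤ 1`, `t = e + r`: `Fe ^ t = Fe ^ r * Ke * Fo e * Ke`, `Fe ^ (n - t) = Ke * Fo e ^ (m - 1) * Ke` and `Ke` commutes with `Mu χ`, so `S(χ) = (Fe ^ r * Ke * Fo e * Mu χ * Fo e ^ (m - 1) * Ke) δ_Y X0`; `r = 0`: this is `(1 + ε kap X0) * (Fo e * Mu χ * Fo e ^ (m - 1)) δ_Y X0 * (1 + ε kap Y)`; `r = 1`: `nx X0 1 = {0}`, so there is in addition the factor `1 + ε wc X0 0`, and `X0` is replaced by `mv X0 0 1`.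
-/

namespace AN

noncomputable section

open Classical Equiv



namespace B14_aux

/-- the function which is `1` at `Y` -/
def dl (Y : Finset ℤ) : Finset ℤ → DN := fun Z => if Z = Y then 1 else 0

/-- the indicator function -/
def ind (χ : Finset ℤ → Prop) : Finset ℤ → DN := fun Z => if χ Z then 1 else 0

theorem snd_mul' (x y : DN) : TrivSqZeroExt.snd (x * y) =
    TrivSqZeroExt.fst x * TrivSqZeroExt.snd y + TrivSqZeroExt.snd x * TrivSqZeroExt.fst y := by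
  rw [TrivSqZeroExt.snd_mul, smul_eq_mul, MulOpposite.smul_eq_mul_unop, MulOpposite.unop_op]

theorem fst_one_eps (k : ℕ) : TrivSqZeroExt.fst (1 + (DualNumber.eps : DN) * (k : DN)) = 1 := by
  rw [TrivSqZeroExt.fst_add, TrivSqZeroExt.fst_one, TrivSqZeroExt.fst_mul, DualNumber.fst_eps, zero_mul,
    add_zero]

theorem snd_one_eps (k : ℕ) : TrivSqZeroExt.snd (1 + (DualNumber.eps : DN) * (k : DN)) = (k : ZMod 2) := by
  rw [TrivSqZeroExt.snd_add, TrivSqZeroExt.snd_one, snd_mul', DualNumber.fst_eps, DualNumber.snd_eps,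
    TrivSqZeroExt.fst_natCast, zero_mul, zero_add, zero_add, one_mul]

theorem fst_factor (k : ℕ) (x : DN) :
    TrivSqZeroExt.fst ((1 + (DualNumber.eps : DN) * (k : DN)) * x) = TrivSqZeroExt.fst x := by
  rw [TrivSqZeroExt.fst_mul, fst_one_eps, one_mul]

theorem snd_factor (k : ℕ) (x : DN) :
    TrivSqZeroExt.snd ((1 + (DualNumber.eps : DN) * (k : DN)) * x) =
      TrivSqZeroExt.snd x + (k : ZMod 2) * TrivSqZeroExt.fst x := by
  rw [snd_mul', fst_one_eps, snd_one_eps, one_mul]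

theorem snd_ind (χ : Finset ℤ → Prop) (Z : Finset ℤ) (x : DN) :
    TrivSqZeroExt.snd (ind χ Z * x) = TrivSqZeroExt.fst (ind χ Z) * TrivSqZeroExt.snd x := by
  rw [snd_mul']
  unfold ind
  split_ifs
  · rw [TrivSqZeroExt.snd_one, zero_mul, add_zero]
  · rw [TrivSqZeroExt.snd_zero, zero_mul, add_zero]

theorem Ke_apply (e : ℕ) (φ : Finset ℤ → DN) (Z : Finset ℤ) :
    Ke e φ Z = (1 + (DualNumber.eps : DN) * (kap (e : ℤ) Z : DN)) * φ Z := rfl

theorem Mu_apply (χ φ : Finset ℤ → DN) (Z : Finset ℤ) : Mu DN χ φ Z = χ Z * φ Z := rfl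

theorem Ke_dl (e : ℕ) (Y : Finset ℤ) :
    Ke e (dl Y) = (1 + (DualNumber.eps : DN) * (kap (e : ℤ) Y : DN)) • dl Y := by
  funext Z
  rw [Ke_apply, Pi.smul_apply, smul_eq_mul]
  unfold dl
  split_ifs with h
  · rw [h]
  · rw [mul_zero, mul_zero]

theorem snd_Fo (d : ℤ) (φ : Finset ℤ → DN) (h : ∀ Z, TrivSqZeroExt.snd (φ Z) = 0) (Z : Finset ℤ) :
    TrivSqZeroExt.snd (Fo DN d φ Z) = 0 := by
  change TrivSqZeroExt.snd (∑ a ∈ nx Z d, φ (mv Z a d)) = 0
  rw [TrivSqZeroExt.snd_sum]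
  exact Finset.sum_eq_zero fun a _ => h _

theorem snd_Fo_pow (d : ℤ) (m : ℕ) (φ : Finset ℤ → DN) (h : ∀ Z, TrivSqZeroExt.snd (φ Z) = 0) :
    ∀ Z, TrivSqZeroExt.snd ((Fo DN d ^ m) φ Z) = 0 := by
  induction m with
  | zero => intro Z; rw [pow_zero]; exact h Z
  | succ m ih =>
    intro Z
    rw [pow_succ', Module.End.mul_apply]
    exact snd_Fo d _ ih Z

theorem snd_dl (Y Z : Finset ℤ) : TrivSqZeroExt.snd (dl Y Z) = 0 := by
  unfold dl
  split_ifs
  · exact TrivSqZeroExt.snd_one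
  · exact TrivSqZeroExt.snd_zero

theorem Ke_Mu (e : ℕ) (χ : Finset ℤ → DN) : Ke e * Mu DN χ * Ke e = Mu DN χ := by
  have h : Ke e * Mu DN χ = Mu DN χ * Ke e := by
    refine LinearMap.ext fun φ => funext fun Z => ?_
    rw [Module.End.mul_apply, Module.End.mul_apply, Ke_apply, Mu_apply, Mu_apply, Ke_apply, mul_left_comm]
  rw [h, mul_assoc, Ke_sq, mul_one]

/-- the sum over the paths and its two coefficients -/
theorem coeffs (e t k : ℕ) (X Y : Finset ℤ) (χ : Finset ℤ → Prop) :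
    TrivSqZeroExt.fst ((Fe e ^ t * Mu DN (ind χ) * Fe e ^ k) (dl Y) X) =
      (((pth (t + k) X).filter (fun l => en X l = Y ∧ χ (en X (l.take t)))).card : ZMod 2) ∧
    TrivSqZeroExt.snd ((Fe e ^ t * Mu DN (ind χ) * Fe e ^ k) (dl Y) X) =
      ∑ l ∈ (pth (t + k) X).filter (fun l => en X l = Y ∧ χ (en X (l.take t))),
        ((wp (e : ℤ) X l : ℕ) : ZMod 2) := by
  have key : ∀ l : List ℤ, ind χ (en X (l.take t)) * dl Y (en X l) =
      if en X l = Y ∧ χ (en X (l.take t)) then 1 else 0 := by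
    intro l
    unfold ind dl
    by_cases h1 : en X l = Y <;> by_cases h2 : χ (en X (l.take t)) <;> simp [h1, h2]
  rw [Fe_cut, TrivSqZeroExt.fst_sum, TrivSqZeroExt.snd_sum]
  constructor
  · rw [Finset.card_filter, Nat.cast_sum]
    refine Finset.sum_congr rfl fun l _ => ?_
    rw [fst_factor, key]
    split_ifs
    · rw [TrivSqZeroExt.fst_one, Nat.cast_one]
    · rw [TrivSqZeroExt.fst_zero, Nat.cast_zero]
  · rw [Finset.sum_filter]
    refine Finset.sum_congr rfl fun l _ => ?_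
    rw [snd_factor, key]
    split_ifs
    · rw [TrivSqZeroExt.snd_one, TrivSqZeroExt.fst_one, zero_add, mul_one]
    · rw [TrivSqZeroExt.snd_zero, TrivSqZeroExt.fst_zero, zero_add, mul_zero]

theorem concl {e t k n : ℕ} (hn : n = t + k) {X Y : Finset ℤ} {χ : Finset ℤ → Prop} {c : ZMod 2}
    (h : TrivSqZeroExt.snd ((Fe e ^ t * Mu DN (ind χ) * Fe e ^ k) (dl Y) X) =
      c * TrivSqZeroExt.fst ((Fe e ^ t * Mu DN (ind χ) * Fe e ^ k) (dl Y) X)) :
    ∑ l ∈ (pth n X).filter (fun l => en X l = Y ∧ χ (en X (l.take t))),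
        ((wp (e : ℤ) X l : ℕ) : ZMod 2) =
      c * (((pth n X).filter (fun l => en X l = Y ∧ χ (en X (l.take t)))).card : ZMod 2) := by
  subst hn
  rw [← (coeffs e t k X Y χ).1, ← (coeffs e t k X Y χ).2, h]

theorem sum_rel {ι : Type} (s : Finset ι) (g : ι → DN) (c : ZMod 2)
    (h : ∀ i ∈ s, TrivSqZeroExt.snd (g i) = c * TrivSqZeroExt.fst (g i)) :
    TrivSqZeroExt.snd (∑ i ∈ s, g i) = c * TrivSqZeroExt.fst (∑ i ∈ s, g i) := by
  rw [TrivSqZeroExt.snd_sum, TrivSqZeroExt.fst_sum, Finset.mul_sum]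
  exact Finset.sum_congr rfl h

theorem sz_X0 (W : ℕ) : sz W (X0 W) = 0 := sub_self _

theorem ok_X0 (W : ℕ) : Ok W (X0 W) := by
  have h := (path_ok (n := W) (k := 0) (l := []) (by simp [pth])).1
  exact h

theorem g_apply (e m : ℕ) (X Y : Finset ℤ) :
    (Ke e * Fo DN (e : ℤ) ^ m * Ke e) (dl Y) X =
      (1 + (DualNumber.eps : DN) * (kap (e : ℤ) X : DN)) *
        ((1 + (DualNumber.eps : DN) * (kap (e : ℤ) Y : DN)) * (Fo DN (e : ℤ) ^ m) (dl Y) X) := by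
  rw [Module.End.mul_apply, Module.End.mul_apply, Ke_apply, Ke_dl, map_smul, Pi.smul_apply, smul_eq_mul]

theorem nx_X0 (W : ℕ) : nx (X0 W) 1 = {0} := by
  ext a
  simp only [nx, X0, Finset.mem_filter, Finset.mem_Icc, Finset.mem_singleton]
  constructor
  · rintro ⟨⟨h1, h2⟩, h3⟩
    by_contra h
    exact h3 ⟨by omega, by omega⟩
  · rintro rfl
    exact ⟨⟨by omega, le_refl _⟩, fun h => by omega⟩

end B14_aux

open B14_aux

theorem cut_small {W e i r m t n : ℕ} (he : e = 2 ^ i) (hi : 1 ≤ i) (hn : n = r + e * m) (hr : r < e)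
    (ht : t ≤ r) (Y : Finset ℤ) :
    ∃ c : ZMod 2, ∀ χ : Finset ℤ → Prop,
      ∑ l ∈ (pth n (X0 W)).filter (fun l => en (X0 W) l = Y ∧ χ (en (X0 W) (l.take t))),
        ((wp (e : ℤ) (X0 W) l : ℕ) : ZMod 2) =
      c * (((pth n (X0 W)).filter (fun l => en (X0 W) l = Y ∧ χ (en (X0 W) (l.take t)))).card : ZMod 2) := by
  have he2 : 2 ≤ e := by
    rw [he]
    calc 2 = 2 ^ 1 := rfl
      _ ≤ 2 ^ i := Nat.pow_le_pow_right (by norm_num) hi
  have hc : ∃ c : ZMod 2, ∀ l ∈ pth r (X0 W), Rch e (en (X0 W) l) Y →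
      ((wp (e : ℤ) (X0 W) l : ℕ) : ZMod 2) + ((kap (e : ℤ) (en (X0 W) l) : ℕ) : ZMod 2) +
        ((kap (e : ℤ) Y : ℕ) : ZMod 2) = c := by
    by_cases hX : ∃ l ∈ pth r (X0 W), Rch e (en (X0 W) l) Y
    · obtain ⟨l1, hl1, h1⟩ := hX
      refine ⟨((pt W e (en (X0 W) l1) - pt W e (X0 W) : ℤ) : ZMod 2) +
        ((kap (e : ℤ) (en (X0 W) l1) : ℕ) : ZMod 2) + ((kap (e : ℤ) Y : ℕ) : ZMod 2), fun l hl h => ?_⟩
      have ok1 := path_ok hl1
      have ok := path_ok hl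
      have hre : (r : ℤ) < e := by exact_mod_cast hr
      have e1 : en (X0 W) l = en (X0 W) l1 :=
        flu_unique (by omega) ok.1 ok1.1 (flu_of_sz (by omega) ok.1 (by rw [ok.2]; exact hre))
          (flu_of_sz (by omega) ok1.1 (by rw [ok1.2]; exact hre)) h h1
      rw [wp_small he2 (ok_X0 W) (by rw [sz_X0, zero_add]; exact hre) hl, e1]
    · refine ⟨0, fun l hl h => ?_⟩
      exact absurd ⟨l, hl, h⟩ hX
  obtain ⟨c, hc⟩ := hc
  refine ⟨c, fun χ => ?_⟩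
  refine concl (k := (r - t) + e * m) (by omega) ?_
  have h1 : Fe e ^ t * Mu DN (ind χ) * Fe e ^ ((r - t) + e * m) =
      (Fe e ^ t * Mu DN (ind χ) * Fe e ^ (r - t)) * (Ke e * Fo DN (e : ℤ) ^ m * Ke e) := by
    rw [pow_add, Fe_pow_mul he hi, mul_assoc (Fe e ^ t * Mu DN (ind χ))]
  rw [h1, Module.End.mul_apply, Fe_cut, show t + (r - t) = r by omega]
  refine sum_rel _ _ _ fun l hl => ?_
  simp only [snd_factor, fst_factor, snd_ind, TrivSqZeroExt.fst_mul (ind χ _), g_apply]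
  rw [snd_Fo_pow _ _ _ (snd_dl Y)]
  by_cases h0 : (Fo DN (e : ℤ) ^ m) (dl Y) (en (X0 W) l) = 0
  · rw [h0, TrivSqZeroExt.fst_zero]
    ring
  · obtain ⟨Y', hY', h2⟩ := rch_of_ne h0
    have hYY : Y' = Y := by
      by_contra hne
      exact h2 (if_neg hne)
    rw [← hc l hl (hYY ▸ hY')]
    ring

theorem cut_large {W e i r m t n : ℕ} (he : e = 2 ^ i) (hi : 1 ≤ i) (hn : n = r + e * (m + 1))
    (hr : r ≤ 1) (ht : t = e + r) (Y : Finset ℤ) :
    ∃ c : ZMod 2, ∀ χ : Finset ℤ → Prop,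
      ∑ l ∈ (pth n (X0 W)).filter (fun l => en (X0 W) l = Y ∧ χ (en (X0 W) (l.take t))),
        ((wp (e : ℤ) (X0 W) l : ℕ) : ZMod 2) =
      c * (((pth n (X0 W)).filter (fun l => en (X0 W) l = Y ∧ χ (en (X0 W) (l.take t)))).card : ZMod 2) := by
  have hc : ∃ c : ZMod 2, ∀ l ∈ pth r (X0 W),
      ((wp (e : ℤ) (X0 W) l : ℕ) : ZMod 2) + ((kap (e : ℤ) (en (X0 W) l) : ℕ) : ZMod 2) +
        ((kap (e : ℤ) Y : ℕ) : ZMod 2) = c := by
    have h01 : r = 0 ∨ r = 1 := by omega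
    obtain ⟨l1, h1⟩ : ∃ l1, pth r (X0 W) = {l1} := by
      rcases h01 with h | h
      · exact ⟨[], by rw [h]; rfl⟩
      · refine ⟨[0], ?_⟩
        rw [h]
        simp [pth, nx_X0]
    refine ⟨((wp (e : ℤ) (X0 W) l1 : ℕ) : ZMod 2) + ((kap (e : ℤ) (en (X0 W) l1) : ℕ) : ZMod 2) +
        ((kap (e : ℤ) Y : ℕ) : ZMod 2), fun l hl => ?_⟩
    rw [h1, Finset.mem_singleton] at hl
    rw [hl]
  obtain ⟨c, hc⟩ := hc
  refine ⟨c, fun χ => ?_⟩
  refine concl (k := e * m) (by rw [hn, ht, Nat.mul_succ]; omega) ?_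
  have h1 : Fe e ^ t * Mu DN (ind χ) * Fe e ^ (e * m) =
      Fe e ^ r * (Ke e * Fo DN (e : ℤ) * Mu DN (ind χ) * Fo DN (e : ℤ) ^ m * Ke e) := by
    have h2 : Fe e ^ t = Fe e ^ r * (Ke e * Fo DN (e : ℤ) * Ke e) := by
      rw [ht, add_comm e r, pow_add, Fe_pow he hi]
    calc Fe e ^ t * Mu DN (ind χ) * Fe e ^ (e * m)
        = Fe e ^ r * (Ke e * Fo DN (e : ℤ) * (Ke e * Mu DN (ind χ) * Ke e) * Fo DN (e : ℤ) ^ m * Ke e) := by
          rw [h2, Fe_pow_mul he hi]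
          simp only [mul_assoc]
      _ = _ := by rw [Ke_Mu]
  rw [h1, Module.End.mul_apply, Fe_path]
  refine sum_rel _ _ _ fun l hl => ?_
  have h3 : (Ke e * Fo DN (e : ℤ) * Mu DN (ind χ) * Fo DN (e : ℤ) ^ m * Ke e) (dl Y) (en (X0 W) l) =
      (1 + (DualNumber.eps : DN) * (kap (e : ℤ) (en (X0 W) l) : DN)) *
        ((1 + (DualNumber.eps : DN) * (kap (e : ℤ) Y : DN)) *
          (Fo DN (e : ℤ) (Mu DN (ind χ) ((Fo DN (e : ℤ) ^ m) (dl Y)))) (en (X0 W) l)) := by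
    rw [Module.End.mul_apply, Module.End.mul_apply, Module.End.mul_apply, Module.End.mul_apply, Ke_apply,
      Ke_dl, map_smul, map_smul, map_smul, Pi.smul_apply, smul_eq_mul]
  have h4 : ∀ Z, TrivSqZeroExt.snd (Mu DN (ind χ) ((Fo DN (e : ℤ) ^ m) (dl Y)) Z) = 0 := by
    intro Z
    rw [Mu_apply, snd_ind, snd_Fo_pow _ _ _ (snd_dl Y), mul_zero]
  rw [h3]
  simp only [snd_factor, fst_factor]
  rw [snd_Fo _ _ h4, ← hc l hl]
  ring

end

end AN
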