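import Pool.Agent.AN.C06
import Pool.Agent.AN.B14

/-!
# MP_6c3636_al, AN, module C07: the parity theorem (helper7)

`W = n`, `e = 2 ^ i`, `n = r + e * m` with `r < e` (`Nat.mod_add_div`), `Y = bd n f`. If `Sq n f` is empty both sides are `0`. `cut_small` with `t = 0`, `χ = fun _ => True`; the paths of length `n` from `X0 n` to `Y` are the `List.ofFn α`, `α ∈ SF n f` (`mem_pth_iff`, `en_eq_iff` with `k = n`; `List.ofFn` is injective), `wp_dq`.
-/

namespace AN

noncomputable section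

open Classical Equiv

variable {n : ℕ}

theorem parity (n : ℕ) {i : ℕ} (hi : 2 ≤ i) (f : ℤ → ℤ) :
    ∃ c : ZMod 2, ∑ α ∈ SF n f, ((dq ((2 ^ i : ℕ) : ℤ) α : ℕ) : ZMod 2) = c * ((SF n f).card : ZMod 2) := by
  rcases (SF n f).eq_empty_or_nonempty with hE | ⟨β, hβ⟩
  · refine ⟨0, ?_⟩
    rw [hE, Finset.sum_empty, zero_mul]
  have he3 : 3 ≤ 2 ^ i := by
    calc 3 ≤ 2 ^ 2 := by norm_num
      _ ≤ 2 ^ i := Nat.pow_le_pow_right (by norm_num) hi
  have hn : n = n % 2 ^ i + 2 ^ i * (n / 2 ^ i) := (Nat.mod_add_div n (2 ^ i)).symm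
  obtain ⟨c, hc⟩ := cut_small (W := n) (e := 2 ^ i) (i := i) (t := 0) rfl (by omega) hn
    (Nat.mod_lt _ (by omega)) (Nat.zero_le _) (bd n f)
  obtain ⟨g, hg⟩ := wp_dq (n := n) (W := n) le_rfl he3 f
  have hc1 := hc (fun _ => True)
  have hset : ∀ inst : DecidablePred (fun l : List ℤ => en (X0 n) l = bd n f ∧ True),
      @Finset.filter _ (fun l : List ℤ => en (X0 n) l = bd n f ∧ True) inst (pth n (X0 n)) =
        (SF n f).image List.ofFn := by
    intro inst
    ext l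
    rw [Finset.mem_filter, Finset.mem_image]
    have hiff : ∀ α : Fin n → ℤ, Lg α → (en (X0 n) (List.ofFn α) = bd n f ↔ occ α n = f) := by
      intro α hα
      have h1 := en_eq_iff (W := n) le_rfl hα (k := n) le_rfl (f := f) ⟨β, mem_SF.1 hβ⟩
      have h2 : (List.ofFn α).take n = List.ofFn α := by
        apply List.take_of_length_le
        rw [List.length_ofFn]
      rw [h2] at h1
      exact h1
    constructor
    · rintro ⟨h1, h2, _⟩
      obtain ⟨α, hα, rfl⟩ := (mem_pth_iff (W := n) le_rfl).1 h1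
      exact ⟨α, mem_SF.2 ⟨hα, (hiff α hα).1 h2⟩, rfl⟩
    · rintro ⟨α, hα, rfl⟩
      have h1 := mem_SF.1 hα
      exact ⟨(mem_pth_iff (W := n) le_rfl).2 ⟨α, h1.1, rfl⟩, (hiff α h1.1).2 h1.2, trivial⟩
  have hinj : Function.Injective (List.ofFn : (Fin n → ℤ) → List ℤ) := List.ofFn_injective
  rw [hset, Finset.sum_image (fun a _ b _ h => hinj h), Finset.card_image_of_injective _ hinj] at hc1
  refine ⟨c - g, ?_⟩
  have h3 : ∀ α ∈ SF n f, ((wp ((2 ^ i : ℕ) : ℤ) (X0 n) (List.ofFn α) : ℕ) : ZMod 2) =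
      ((dq ((2 ^ i : ℕ) : ℤ) α : ℕ) : ZMod 2) + g := fun α hα => hg α (mem_SF.1 hα)
  rw [Finset.sum_congr rfl h3, Finset.sum_add_distrib, Finset.sum_const, nsmul_eq_mul] at hc1
  rw [sub_mul, ← hc1]
  ring

end

end AN
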