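import Pool.Agent.AN.C03

/-!
# MP_6c3636_al, AN, module J09: properties of a seminormal basis (helper7)

`SN.dn`: `β = sq α k l` satisfies `β k + 2 ≤ β l`: `S (v β) = r⁻¹ v β + v α`, `r = β l - β k = α k - α l`; apply `S`: `v β = r⁻¹ S (v β) + S (v α)`. `SN.li`: eigenvectors with different joint eigenvalues (`Int.cast` is injective). `SN.inv`: the adjacent transpositions preserve the span (`one`, `neg`, `up`, `dn`; `Lg_ne` excludes `α l = α k`) and generate `Perm (Fin n)` (Mathlib: `Equiv.Perm.mclosure_swap_castSucc_succ`). `SN.basis`: the span is invariant and nonzero.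
-/

namespace AN

noncomputable section

open Classical Equiv

variable {K : Type} [Field K] {V : Type} [AddCommGroup V] [Module K V] {n : ℕ}
  {ρ : Representation K (Perm (Fin n)) V}

namespace J09_aux

theorem swap_swap (k l : Fin n) (x : V) : ρ (swap k l) (ρ (swap k l) x) = x := by
  have h : ρ (swap k l) * ρ (swap k l) = 1 := by
    rw [← map_mul, Equiv.swap_mul_self, map_one]
  exact LinearMap.congr_fun h x

theorem li_aux [CharZero K] {v : (Fin n → ℤ) → V} (s : Finset (Fin n → ℤ))
    (hw : ∀ α ∈ s, v α ∈ Wt ρ (fun k => (α k : K))) (hz : ∀ α ∈ s, v α ≠ 0) :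
    ∀ c : (Fin n → ℤ) → K, ∑ α ∈ s, c α • v α = 0 → ∀ α ∈ s, c α = 0 := by
  induction s using Finset.induction_on with
  | empty =>
    intro c _ α hα
    exact absurd hα (Finset.notMem_empty α)
  | insert a s ha ih =>
    intro c hc
    have ih' := ih (fun α hα => hw α (Finset.mem_insert_of_mem hα))
      (fun α hα => hz α (Finset.mem_insert_of_mem hα))
    rw [Finset.sum_insert ha] at hc
    have hs : ∀ β ∈ s, c β = 0 := by
      intro β hβ
      have hne : β ≠ a := fun h => ha (h ▸ hβ)
      obtain ⟨k, hk⟩ : ∃ k, β k ≠ a k := by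
        by_contra hcon
        push Not at hcon
        exact hne (funext hcon)
      have h1 : ∑ α ∈ s, (c α * ((α k : K) - (a k : K))) • v α = 0 := by
        have h2 : jm ρ k (c a • v a + ∑ α ∈ s, c α • v α) = 0 := by rw [hc, map_zero]
        rw [map_add, map_smul, map_sum, (mem_Wt.1 (hw a (Finset.mem_insert_self a s))) k] at h2
        have h3 : ∑ α ∈ s, jm ρ k (c α • v α) = ∑ α ∈ s, (c α * (α k : K)) • v α := by
          refine Finset.sum_congr rfl fun α hα => ?_
          rw [map_smul, (mem_Wt.1 (hw α (Finset.mem_insert_of_mem hα))) k, smul_smul]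
        rw [h3] at h2
        have h4 : (a k : K) • (c a • v a + ∑ α ∈ s, c α • v α) = 0 := by rw [hc, smul_zero]
        rw [smul_add, Finset.smul_sum] at h4
        have h5 : ∑ α ∈ s, (c α * ((α k : K) - (a k : K))) • v α =
            ∑ α ∈ s, (c α * (α k : K)) • v α - ∑ α ∈ s, (a k : K) • c α • v α := by
          rw [← Finset.sum_sub_distrib]
          refine Finset.sum_congr rfl fun α _ => ?_
          rw [mul_sub, sub_smul, smul_smul, mul_comm (a k : K) (c α)]
        rw [h5, eq_neg_of_add_eq_zero_right h2, eq_neg_of_add_eq_zero_right h4, smul_smul,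
          smul_smul, mul_comm (a k : K) (c a)]
        simp
      have h6 := ih' (fun α => c α * ((α k : K) - (a k : K))) h1 β hβ
      rcases mul_eq_zero.1 h6 with h7 | h7
      · exact h7
      · exfalso
        rw [sub_eq_zero] at h7
        exact hk (Int.cast_injective h7)
    intro α hα
    rcases Finset.mem_insert.1 hα with h | h
    · rw [h]
      rw [Finset.sum_eq_zero (fun β hβ => by rw [hs β hβ, zero_smul]), add_zero] at hc
      rcases smul_eq_zero.1 hc with h8 | h8
      · exact h8
      · exact absurd h8 (hz a (Finset.mem_insert_self a s))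
    · exact hs α h

end J09_aux

open J09_aux

theorem SN.dn {f : ℤ → ℤ} {v : (Fin n → ℤ) → V} (h : SN ρ f v) [CharZero K] {α : Fin n → ℤ}
    (hα : α ∈ Sq n f) {k l : Fin n} (hl : (l : ℕ) = k + 1) (hd : α l + 2 ≤ α k) :
    ρ (swap k l) (v α) = - (((α k - α l : ℤ) : K)⁻¹) • v α +
      (1 - (((α k - α l : ℤ) : K)⁻¹) ^ 2) • v (sq α k l) := by
  have hβ : sq α k l ∈ Sq n f := Sq_sq hα hl (Or.inr hd)
  have h1 := h.up (sq α k l) hβ k l hl (by rw [sq_k, sq_l]; exact hd)
  rw [sq_k, sq_l, sq_sq] at h1
  set r : K := ((α k - α l : ℤ) : K)⁻¹ with hr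
  have h2 := swap_swap (ρ := ρ) k l (v (sq α k l))
  rw [h1, map_add, map_smul, h1] at h2
  have h3 : ρ (swap k l) (v α) = v (sq α k l) - r • (r • v (sq α k l) + v α) :=
    eq_sub_of_add_eq' h2
  rw [h3, smul_add, smul_smul, sub_smul, one_smul, neg_smul, pow_two]
  abel

theorem SN.li {f : ℤ → ℤ} {v : (Fin n → ℤ) → V} (h : SN ρ f v) [CharZero K] :
    LinearIndependent K (fun α : {α // α ∈ SF n f} => v α) := by
  rw [Fintype.linearIndependent_iff]
  intro g hg α
  have h1 := li_aux (ρ := ρ) (v := v) (SF n f) (fun α hα => h.wt α (mem_SF.1 hα))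
    (fun α hα => h.nz α (mem_SF.1 hα))
    (fun α => if hα : α ∈ SF n f then g ⟨α, hα⟩ else 0) (by
      rw [← hg, ← Finset.sum_coe_sort]
      refine Finset.sum_congr rfl fun β _ => ?_
      rw [dif_pos β.2])
    α.1 α.2
  rw [dif_pos α.2] at h1
  exact h1

theorem SN.inv {f : ℤ → ℤ} {v : (Fin n → ℤ) → V} (h : SN ρ f v) [CharZero K] (g : Perm (Fin n))
    {x : V} (hx : x ∈ Submodule.span K (Set.range (fun α : {α // α ∈ SF n f} => v α))) :
    ρ g x ∈ Submodule.span K (Set.range (fun α : {α // α ∈ SF n f} => v α)) := by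
  set S := Submodule.span K (Set.range (fun α : {α // α ∈ SF n f} => v α)) with hS
  have hv : ∀ α ∈ Sq n f, v α ∈ S := fun α hα =>
    Submodule.subset_span ⟨⟨α, mem_SF.2 hα⟩, rfl⟩
  have hadj : ∀ k l : Fin n, (l : ℕ) = k + 1 → ∀ x ∈ S, ρ (swap k l) x ∈ S := by
    intro k l hl x hx
    induction hx using Submodule.span_induction with
    | mem x hx =>
      obtain ⟨⟨α, hα'⟩, rfl⟩ := hx
      have hα : α ∈ Sq n f := mem_SF.1 hα'
      simp only
      have hne := Lg_ne hα.1 hl
      by_cases e1 : α l = α k + 1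
      · rw [h.one α hα k l hl e1]
        exact hv α hα
      by_cases e2 : α l = α k - 1
      · rw [h.neg α hα k l hl e2]
        exact S.neg_mem (hv α hα)
      by_cases e3 : α k + 2 ≤ α l
      · rw [h.up α hα k l hl e3]
        exact S.add_mem (S.smul_mem _ (hv α hα)) (hv _ (Sq_sq hα hl (Or.inl e3)))
      · have e4 : α l + 2 ≤ α k := by omega
        rw [h.dn hα hl e4]
        exact S.add_mem (S.smul_mem _ (hv α hα)) (S.smul_mem _ (hv _ (Sq_sq hα hl (Or.inr e4))))
    | zero => rw [map_zero]; exact S.zero_mem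
    | add x y _ _ hx hy => rw [map_add]; exact S.add_mem hx hy
    | smul c x _ hx => rw [map_smul]; exact S.smul_mem c hx
  cases n with
  | zero =>
    have hg : g = 1 := Subsingleton.elim _ _
    rw [hg, map_one]
    exact hx
  | succ m =>
    have hg : g ∈ Submonoid.closure (Set.range fun i : Fin m => swap i.castSucc i.succ) := by
      rw [Equiv.Perm.mclosure_swap_castSucc_succ]
      exact Submonoid.mem_top g
    have key : ∀ x ∈ S, ρ g x ∈ S := by
      induction hg using Submonoid.closure_induction with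
      | mem g hg =>
        obtain ⟨i, rfl⟩ := hg
        exact hadj _ _ (by simp)
      | one =>
        intro x hx
        rw [map_one]
        exact hx
      | mul a b _ _ ha hb =>
        intro x hx
        rw [map_mul]
        exact ha _ (hb x hx)
    exact key x hx

theorem SN.basis {f : ℤ → ℤ} {v : (Fin n → ℤ) → V} (h : SN ρ f v) [CharZero K]
    (hρ : ρ.IsIrreducible) :
    ∃ b : Module.Basis {α // α ∈ SF n f} K V, ∀ α, b α = v α := by
  let S : Subrepresentation ρ :=
    { toSubmodule := Submodule.span K (Set.range (fun α : {α // α ∈ SF n f} => v α))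
      apply_mem_toSubmodule := fun g x hx => h.inv g hx }
  have hS : S = ⊤ := by
    rcases hρ.eq_bot_or_eq_top S with h1 | h1
    · exfalso
      obtain ⟨α, hα⟩ := h.ne
      have h2 : v α ∈ S.toSubmodule := Submodule.subset_span ⟨⟨α, mem_SF.2 hα⟩, rfl⟩
      rw [h1] at h2
      have h3 : v α = 0 := (Submodule.mem_bot K).1 h2
      exact h.nz α hα h3
    · exact h1
  have hT : (⊤ : Submodule K V) ≤ Submodule.span K (Set.range (fun α : {α // α ∈ SF n f} => v α)) := by
    intro x _
    have h2 : x ∈ (⊤ : Subrepresentation ρ).toSubmodule := (Submodule.mem_top : x ∈ (⊤ : Submodule K V))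
    rw [← hS] at h2
    exact h2
  exact ⟨Module.Basis.mk h.li hT, fun α => by rw [Module.Basis.mk_apply]⟩

end

end AN
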