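import Pool.Agent.AN.J08
import Pool.Agent.AN.J09

/-!
# MP_6c3636_al, AN, module J10: irreducible representations have a seminormal basis (helper7)

By `wt_sup` (J07) there is a legal `α` with `Wt ρ α ≠ ⊥`; choose such an `α` with `ms α` minimal. Put `f = occ α n`. `α` is minimal in the sense of `Mi`: if `α l + 2 ≤ α k`, `l = k + 1`, then for `0 ≠ v ∈ Wt ρ α` the vector `ρ (swap k l) v - (α l - α k)⁻¹ • v` is in `Wt ρ (sq α k l)` (`iw_mem`) and nonzero (`iw_iw`), and `ms (sq α k l) < ms α`. `exists_sn`.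
-/

namespace AN

noncomputable section

open Classical Equiv

variable {K : Type} [Field K] {V : Type} [AddCommGroup V] [Module K V] {n : ℕ}
  {ρ : Representation K (Perm (Fin n)) V}

theorem exists_sn_irr [CharZero K] (hρ : ρ.IsIrreducible) :
    ∃ (f : ℤ → ℤ) (v : (Fin n → ℤ) → V), SN ρ f v := by
  have hne : ∃ α : Fin n → ℤ, Wt ρ (fun k => (α k : K)) ≠ ⊥ := by
    by_contra hcon
    push Not at hcon
    have h1 : (⊤ : Submodule K V) = ⊥ := by
      rw [← wt_sup (ρ := ρ)]
      exact iSup_eq_bot.2 fun α => hcon α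
    have h2 : ∀ v : V, v = 0 := fun v => by
      have : v ∈ (⊤ : Submodule K V) := Submodule.mem_top
      rw [h1] at this
      exact (Submodule.mem_bot K).1 this
    have h3 : Nontrivial (Subrepresentation ρ) := hρ.toNontrivial
    obtain ⟨a, b, hab⟩ := h3
    apply hab
    ext x
    rw [h2 x]
    exact ⟨fun _ => b.toSubmodule.zero_mem, fun _ => a.toSubmodule.zero_mem⟩
  obtain ⟨m, hm⟩ : ∃ m, ∃ α : Fin n → ℤ, Wt ρ (fun k => (α k : K)) ≠ ⊥ ∧ ms α = m := by
    obtain ⟨α, hα⟩ := hne
    exact ⟨ms α, α, hα, rfl⟩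
  induction m using Nat.strong_induction_on with
  | _ m ih =>
    obtain ⟨α, hα, hmα⟩ := hm
    by_cases hmi : Mi α
    · obtain ⟨v, hv, hv0⟩ := Submodule.exists_mem_ne_zero_of_ne_bot hα
      obtain ⟨w, hw, -⟩ := exists_sn (f := occ α n) (⟨wt_lg hα, rfl⟩ : α ∈ Sq n (occ α n)) hmi hv hv0
      exact ⟨_, w, hw⟩
    · unfold Mi at hmi
      push Not at hmi
      obtain ⟨k, l, hl, hkl⟩ := hmi
      obtain ⟨v, hv, hv0⟩ := Submodule.exists_mem_ne_zero_of_ne_bot hα
      have hne' : ((α k : ℤ) : K) ≠ (α l : ℤ) := by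
        intro h
        have := Int.cast_injective (α := K) h
        omega
      have hu := iw_mem hv hl hne'
      apply ih (ms (sq α k l)) (by rw [← hmα]; exact ms_lt hl (by omega))
      refine ⟨sq α k l, ?_, rfl⟩
      intro hbot
      have hu0 : ρ (swap k l) v - (((α l : ℤ) : K) - ((α k : ℤ) : K))⁻¹ • v = 0 := by
        have h4 : (ρ (swap k l) v - (((α l : ℤ) : K) - ((α k : ℤ) : K))⁻¹ • v) ∈
            Wt ρ (fun i => ((sq α k l i : ℤ) : K)) := hu
        rw [hbot] at h4
        exact (Submodule.mem_bot K).1 h4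
      have h5 := iw_iw (ρ := ρ) k l (((α l : ℤ) : K) - ((α k : ℤ) : K)) v
      rw [hu0, map_zero, smul_zero, add_zero] at h5
      have h6 := (smul_eq_zero.1 h5.symm).resolve_right hv0
      have h7 : (((α l - α k : ℤ) : K)) ≠ 0 := by
        rw [Int.cast_ne_zero]
        omega
      rw [← Int.cast_sub, inv_pow, sub_eq_zero] at h6
      have h8 : (((α l - α k : ℤ) : K)) ^ 2 = 1 := by
        rw [← inv_inv ((((α l - α k : ℤ) : K)) ^ 2), ← h6, inv_one]
      have h9 : (α l - α k) ^ 2 = 1 := by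
        have : (((α l - α k) ^ 2 : ℤ) : K) = ((1 : ℤ) : K) := by
          push_cast
          push_cast at h8
          exact h8
        exact Int.cast_injective (α := K) this
      nlinarith

end

end AN
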