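import Pool.Agent.AN.Defs

/-!
# MP_6c3636_al, AN, module J01: relations of the Jucys-Murphy operators (helper7)

`swap i l * swap k l = swap k l * swap i k` for `i < k`, `l = k + 1` (conjugation: `swap k l * swap i k * swap k l = swap i l`), so `jm ρ l * ρ (swap k l) = ∑ i < k, ρ (swap i l * swap k l) + ρ 1`. `swap_jm'` by multiplication with `ρ (swap k l)` on both sides. `swap_jm_other`: `j < k`: the transpositions `swap i j`, `i < j`, commute with `swap k l`; `j > l`: conjugation with `swap k l` permutes the `swap i j`, `i < j`. `jm_comm`: for `k < l` conjugation with `swap i k`, `i < k`, permutes the transpositions `swap j l`, `j < l`, so `ρ (swap i k)` commutes with `jm ρ l`.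
-/

namespace AN

noncomputable section

open Classical Equiv

variable {K : Type} [Field K] {V : Type} [AddCommGroup V] [Module K V] {n : ℕ}
  {ρ : Representation K (Perm (Fin n)) V}

namespace J01_aux

/-- a permutation which fixes `j` and permutes the smaller elements -/
theorem comm_jm {g : Perm (Fin n)} {j : Fin n} (hj : g j = j) (h : ∀ i, g i < j ↔ i < j) :
    ρ g * jm ρ j = jm ρ j * ρ g := by
  unfold jm
  rw [Finset.mul_sum, Finset.sum_mul]
  refine Finset.sum_nbij' (fun i => g i) (fun i => g.symm i) ?_ ?_ ?_ ?_ ?_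
  · intro i hi
    rw [Finset.mem_filter] at hi ⊢
    exact ⟨Finset.mem_univ _, (h i).2 hi.2⟩
  · intro i hi
    rw [Finset.mem_filter] at hi ⊢
    refine ⟨Finset.mem_univ _, (h _).1 ?_⟩
    rw [apply_symm_apply]
    exact hi.2
  · intro i _
    exact g.symm_apply_apply i
  · intro i _
    exact g.apply_symm_apply i
  · intro i _
    rw [← map_mul, ← map_mul, mul_swap_eq_swap_mul, hj]

theorem lt_swap {k l j : Fin n} (h : k < j ↔ l < j) (i : Fin n) : swap k l i < j ↔ i < j := by
  by_cases h1 : i = k
  · rw [h1, swap_apply_left]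
    exact h.symm
  · by_cases h2 : i = l
    · rw [h2, swap_apply_right]
      exact h
    · rw [swap_apply_of_ne_of_ne h1 h2]

end J01_aux

open J01_aux

theorem swap_sq' (k l : Fin n) : ρ (swap k l) * ρ (swap k l) = 1 := by
  rw [← map_mul, swap_mul_self, map_one]

theorem swap_jm {k l : Fin n} (hl : (l : ℕ) = k + 1) :
    ρ (swap k l) * jm ρ k + 1 = jm ρ l * ρ (swap k l) := by
  have h1 : Finset.univ.filter (fun i : Fin n => i < l) =
      insert k (Finset.univ.filter (fun i : Fin n => i < k)) := by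
    ext i
    rw [Finset.mem_insert, Finset.mem_filter, Finset.mem_filter]
    simp only [Finset.mem_univ, true_and, Fin.lt_def, Fin.ext_iff]
    omega
  have h2 : k ∉ Finset.univ.filter (fun i : Fin n => i < k) := by
    rw [Finset.mem_filter]
    exact fun h => lt_irrefl _ h.2
  unfold jm
  rw [h1, Finset.sum_insert h2, add_mul, swap_sq', add_comm, Finset.mul_sum, Finset.sum_mul]
  congr 1
  refine Finset.sum_congr rfl fun i hi => ?_
  have hi' : i < k := (Finset.mem_filter.1 hi).2
  have h3 : i ≠ k := hi'.ne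
  have h4 : i ≠ l := by
    intro h5
    rw [h5, Fin.lt_def] at hi'
    omega
  rw [← map_mul, ← map_mul, mul_swap_eq_swap_mul, swap_apply_left, swap_apply_of_ne_of_ne h3 h4]

theorem swap_jm' {k l : Fin n} (hl : (l : ℕ) = k + 1) :
    ρ (swap k l) * jm ρ l = jm ρ k * ρ (swap k l) + 1 := by
  have h1 := congrArg (fun X => ρ (swap k l) * X * ρ (swap k l)) (swap_jm (ρ := ρ) hl)
  simp only [mul_add, add_mul, mul_one] at h1
  rw [← mul_assoc, swap_sq', one_mul, mul_assoc (ρ (swap k l)), mul_assoc (jm ρ l), swap_sq',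
    mul_one] at h1
  exact h1.symm

theorem swap_jm_other {k l j : Fin n} (hl : (l : ℕ) = k + 1) (h1 : j ≠ k) (h2 : j ≠ l) :
    ρ (swap k l) * jm ρ j = jm ρ j * ρ (swap k l) := by
  refine comm_jm (swap_apply_of_ne_of_ne h1 h2) (lt_swap ?_)
  have h3 : (j : ℕ) ≠ k := fun h => h1 (Fin.ext h)
  have h4 : (j : ℕ) ≠ l := fun h => h2 (Fin.ext h)
  rw [Fin.lt_def, Fin.lt_def]
  omega

theorem jm_comm (k l : Fin n) : jm ρ k * jm ρ l = jm ρ l * jm ρ k := by
  have key : ∀ k l : Fin n, k < l → jm ρ k * jm ρ l = jm ρ l * jm ρ k := by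
    intro k l hkl
    have h : ∀ i ∈ Finset.univ.filter (fun i : Fin n => i < k),
        ρ (swap i k) * jm ρ l = jm ρ l * ρ (swap i k) := by
      intro i hi
      have hi' : i < k := (Finset.mem_filter.1 hi).2
      refine comm_jm (swap_apply_of_ne_of_ne (hi'.trans hkl).ne' hkl.ne') (lt_swap ?_)
      exact ⟨fun _ => hkl, fun _ => hi'.trans hkl⟩
    calc jm ρ k * jm ρ l = (∑ i ∈ Finset.univ.filter (fun i : Fin n => i < k), ρ (swap i k)) * jm ρ l := rfl
      _ = ∑ i ∈ Finset.univ.filter (fun i : Fin n => i < k), ρ (swap i k) * jm ρ l := Finset.sum_mul _ _ _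
      _ = ∑ i ∈ Finset.univ.filter (fun i : Fin n => i < k), jm ρ l * ρ (swap i k) :=
          Finset.sum_congr rfl h
      _ = jm ρ l * jm ρ k := (Finset.mul_sum _ _ _).symm
  rcases lt_trichotomy k l with h | h | h
  · exact key k l h
  · rw [h]
  · exact (key l k h).symm

end

end AN
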