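import Pool.Agent.AN.J11
import Pool.Agent.AN.J01

/-!
# MP_6c3636_al, AN, module J12: the invariant form (helper7)

Let `b` be the basis of `SN.basis` and `B` the bilinear form with `B (b α) (b β) = nm α` if `α = β` and `0` otherwise (`Matrix.toBilin b (Matrix.diagonal ..)`). It is symmetric and nondegenerate (`nm_pos`). It is invariant under the adjacent transpositions `S = ρ (swap k l)`: check on the basis: if `α l = α k + 1` or `α k - 1`: `S (v α) = ± v α`, and for `β ≠ α` the coefficient of `v α` in `S (v β)` is `0` (`sq β k l = α` is impossible). If `α k + 2 ≤ α l`, `β = sq α k l`, `r = α l - α k`: `S` acts on the plane of `v α`, `v β` with norms `p = nm α`, `nm β = (1 - r⁻²) p` by `v α ↦ r⁻¹ v α + v β`, `v β ↦ (1 - r⁻²) v α - r⁻¹ v β`, an isometry. The adjacent transpositions generate the group.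
-/

namespace AN

noncomputable section

open Classical Equiv

variable {K : Type} [Field K] {V : Type} [AddCommGroup V] [Module K V] {n : ℕ}
  {ρ : Representation K (Perm (Fin n)) V}

private lemma exists_form [CharZero K] {f : ℤ → ℤ} {v : (Fin n → ℤ) → V}
    (b : Module.Basis {α // α ∈ SF n f} K V) (hb : ∀ α, b α = v α) :
    ∃ B : LinearMap.BilinForm K V, (∀ x y, B x y = B y x) ∧ (∀ x, (∀ y, B x y = 0) → x = 0) ∧
      ∀ α ∈ Sq n f, ∀ β ∈ Sq n f, B (v α) (v β) = if α = β then (nm α : K) else 0 := by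
  obtain ⟨B, hB⟩ : ∃ B : LinearMap.BilinForm K V, ∀ x y, B x y =
      ∑ α : {α // α ∈ SF n f}, (nm (α : Fin n → ℤ) : K) * (b.repr x α * b.repr y α) := by
    refine ⟨LinearMap.mk₂ K (fun x y => ∑ α : {α // α ∈ SF n f}, (nm (α : Fin n → ℤ) : K) *
      (b.repr x α * b.repr y α)) ?_ ?_ ?_ ?_, fun x y => rfl⟩
    · intro x x' y
      rw [← Finset.sum_add_distrib]
      refine Finset.sum_congr rfl fun α _ => ?_
      rw [map_add, Finsupp.add_apply]
      ring
    · intro c x y
      rw [smul_eq_mul, Finset.mul_sum]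
      refine Finset.sum_congr rfl fun α _ => ?_
      rw [map_smul, Finsupp.smul_apply, smul_eq_mul]
      ring
    · intro x y y'
      rw [← Finset.sum_add_distrib]
      refine Finset.sum_congr rfl fun α _ => ?_
      rw [map_add, Finsupp.add_apply]
      ring
    · intro c x y
      rw [smul_eq_mul, Finset.mul_sum]
      refine Finset.sum_congr rfl fun α _ => ?_
      rw [map_smul, Finsupp.smul_apply, smul_eq_mul]
      ring
  have hBb : ∀ (x : V) (β : {α // α ∈ SF n f}), B x (b β) = (nm (β : Fin n → ℤ) : K) * b.repr x β := by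
    intro x β
    rw [hB, Finset.sum_eq_single β]
    · rw [Module.Basis.repr_self, Finsupp.single_eq_same, mul_one]
    · intro γ _ hγ
      rw [Module.Basis.repr_self, Finsupp.single_apply, if_neg (fun h => hγ h.symm), mul_zero, mul_zero]
    · intro h
      exact absurd (Finset.mem_univ _) h
  refine ⟨B, fun x y => ?_, fun x hx => ?_, fun α hα β hβ => ?_⟩
  · rw [hB, hB]
    exact Finset.sum_congr rfl fun α _ => by ring
  · apply b.repr.injective
    rw [map_zero]
    ext β
    have h1 := hx (b β)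
    rw [hBb] at h1
    have h2 : (nm (β : Fin n → ℤ) : K) ≠ 0 := by
      have := (nm_pos (β : Fin n → ℤ)).ne'
      exact_mod_cast this
    rcases mul_eq_zero.1 h1 with h3 | h3
    · exact absurd h3 h2
    · exact h3
  · have hα' := mem_SF.2 hα
    have hβ' := mem_SF.2 hβ
    rw [← hb ⟨α, hα'⟩, ← hb ⟨β, hβ'⟩, hBb, Module.Basis.repr_self, Finsupp.single_apply]
    by_cases h : α = β
    · subst h
      rw [if_pos rfl, if_pos rfl, mul_one]
    · rw [if_neg h, if_neg (fun h' => h (congrArg Subtype.val h')), mul_zero]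

private lemma form_off [CharZero K] {f : ℤ → ℤ} {v : (Fin n → ℤ) → V} (h : SN ρ f v)
    {B : LinearMap.BilinForm K V}
    (hB : ∀ α ∈ Sq n f, ∀ β ∈ Sq n f, B (v α) (v β) = if α = β then (nm α : K) else 0)
    {k l : Fin n} (hl : (l : ℕ) = k + 1) {α β : Fin n → ℤ} (hα : α ∈ Sq n f) (hβ : β ∈ Sq n f) (hne : α ≠ β) :
    B (ρ (swap k l) (v α)) (v β) = if sq α k l = β then (if α k + 2 ≤ α l then (nm β : K) else
      if α l + 2 ≤ α k then (nm α : K) else 0) else 0 := by
  have hk := Lg_ne hα.1 hl
  have h0 : B (v α) (v β) = 0 := by rw [hB α hα β hβ, if_neg hne]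
  by_cases h1 : α k + 2 ≤ α l
  · have hs := Sq_sq hα hl (Or.inl h1)
    rw [h.up α hα k l hl h1, map_add, LinearMap.add_apply, map_smul, LinearMap.smul_apply, h0, smul_zero, zero_add,
      hB _ hs β hβ, if_pos h1]
    by_cases h2 : sq α k l = β
    · rw [if_pos h2, if_pos h2, h2]
    · rw [if_neg h2, if_neg h2]
  · by_cases h2 : α l + 2 ≤ α k
    · have hs := Sq_sq hα hl (Or.inr h2)
      rw [h.dn hα hl h2, map_add, LinearMap.add_apply, map_smul, LinearMap.smul_apply, h0, smul_zero, zero_add,
        map_smul, LinearMap.smul_apply, hB _ hs β hβ, if_neg h1, if_pos h2]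
      by_cases h3 : sq α k l = β
      · rw [if_pos h3, if_pos h3, smul_eq_mul]
        have h4 := nm_sq hl h2
        have h5 : (nm α : K) = (1 - ((((α k - α l : ℤ) : K))⁻¹) ^ 2) * (nm (sq α k l) : K) := by
          rw [h4]
          push_cast
          rw [one_div, inv_pow]
        rw [← h5]
      · rw [if_neg h3, if_neg h3, smul_zero]
    · rw [if_neg h1, if_neg h2, ite_self]
      rcases (by omega : α l = α k + 1 ∨ α l = α k - 1) with h3 | h3
      · rw [h.one α hα k l hl h3, h0]
      · rw [h.neg α hα k l hl h3, map_neg, LinearMap.neg_apply, h0, neg_zero]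

private lemma form_symm [CharZero K] {f : ℤ → ℤ} {v : (Fin n → ℤ) → V} (h : SN ρ f v)
    {B : LinearMap.BilinForm K V} (hsymm : ∀ x y, B x y = B y x)
    (hB : ∀ α ∈ Sq n f, ∀ β ∈ Sq n f, B (v α) (v β) = if α = β then (nm α : K) else 0)
    {k l : Fin n} (hl : (l : ℕ) = k + 1) {α β : Fin n → ℤ} (hα : α ∈ Sq n f) (hβ : β ∈ Sq n f) :
    B (ρ (swap k l) (v α)) (v β) = B (v α) (ρ (swap k l) (v β)) := by
  rw [hsymm (v α)]
  by_cases hne : α = β
  · rw [hne]
  rw [form_off h hB hl hα hβ hne, form_off h hB hl hβ hα (fun h' => hne h'.symm)]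
  by_cases h1 : sq α k l = β
  · have h2 : sq β k l = α := by rw [← h1, sq_sq]
    rw [if_pos h1, if_pos h2]
    have h3 : β k = α l := by rw [← h1, sq_k]
    have h4 : β l = α k := by rw [← h1, sq_l]
    rw [h3, h4]
    by_cases h5 : α k + 2 ≤ α l
    · rw [if_pos h5, if_neg (by omega), if_pos h5]
    · rw [if_neg h5]
      by_cases h6 : α l + 2 ≤ α k
      · rw [if_pos h6, if_pos h6]
      · rw [if_neg h6, if_neg h6, if_neg h5]
  · have h2 : sq β k l ≠ α := by
      intro h3
      apply h1
      rw [← h3, sq_sq]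
    rw [if_neg h1, if_neg h2]

theorem sn_orth [CharZero K] {f : ℤ → ℤ} {v : (Fin n → ℤ) → V} (h : SN ρ f v)
    (hρ : ρ.IsIrreducible) : Parker.Orth ρ := by
  obtain ⟨b, hb⟩ := h.basis hρ
  obtain ⟨B, hsymm, hnd, hB⟩ := exists_form b hb
  refine ⟨B, hsymm, hnd, ?_⟩
  have hadj : ∀ k l : Fin n, (l : ℕ) = k + 1 → ∀ x y, B (ρ (swap k l) x) (ρ (swap k l) y) = B x y := by
    intro k l hl
    have h1 : B.compl₁₂ (ρ (swap k l)) LinearMap.id = B.compl₁₂ LinearMap.id (ρ (swap k l)) := by
      apply LinearMap.BilinForm.ext_basis b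
      intro α β
      rw [hb, hb]
      exact form_symm h hsymm hB hl (mem_SF.1 α.2) (mem_SF.1 β.2)
    intro x y
    have h2 : B (ρ (swap k l) x) (ρ (swap k l) y) = B x (ρ (swap k l) (ρ (swap k l) y)) :=
      LinearMap.congr_fun (LinearMap.congr_fun h1 x) (ρ (swap k l) y)
    rw [h2]
    have h3 : ρ (swap k l) (ρ (swap k l) y) = y := LinearMap.congr_fun (swap_sq' (ρ := ρ) k l) y
    rw [h3]
  intro g
  cases n with
  | zero =>
    have h1 : g = 1 := Subsingleton.elim _ _
    intro x y
    rw [h1, map_one, Module.End.one_apply, Module.End.one_apply]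
  | succ m =>
    have h1 : g ∈ Submonoid.closure (Set.range fun i : Fin m => swap i.castSucc i.succ) := by
      rw [Equiv.Perm.mclosure_swap_castSucc_succ]
      exact Submonoid.mem_top g
    induction h1 using Submonoid.closure_induction with
    | mem x hx =>
      obtain ⟨i, rfl⟩ := hx
      exact hadj _ _ (by simp)
    | one =>
      intro x y
      rw [map_one, Module.End.one_apply, Module.End.one_apply]
    | mul g1 g2 _ _ h2 h3 =>
      intro x y
      rw [map_mul, Module.End.mul_apply, Module.End.mul_apply, h2, h3]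

end

end AN
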