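import Pool.Agent.AN.Defs
import Pool.Agent.Parker.P01
import Pool.Agent.Parker.P02
import Pool.Agent.Parker.P03

/-!
# MP_6c3636_al, AN, module V02: absolute values of rational numbers, a criterion (helper7)

`av_rat`: `c.av` of an odd natural number is `1` (`Ctx.odd`), so for an integer `2 ^ k * odd` it is `c.av 2 ^ k`. `sqV_rat`: `q = 2 ^ (2 z) * q'`, use the element `2 ^ z` (zpow), fixed by all automorphisms. `sqV_basis`: let `M` be the matrix of `T` in the basis `b` (`M i j = b.repr (T (b j)) i`), `A i j = d i * M i j`. `Skew`: `A i j = - A j i` (divide by `μ`). The entries of `A` are fixed by `Γ`: the fixed elements form a subfield `L` of `Ω`. `det A` is the square of an element `x ∈ L` (Pfaffian; see the proofs of Parker/N02, N03, P11, or: an alternating matrix over a field `L` is congruent over `L` to a block diagonal matrix with blocks `(0 1; -1 0)` and zeros). So `det T = det M = x ^ 2 / ∏ d i`, `x ≠ 0`, and `c.av (∏ d i)` is a square of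 `V(Γ)` by `sqV_rat`. `act_fx`: `act ρ s = ∑ g, s g • ρ g`. `act_skew`: reindex by `g ↦ g⁻¹`.
-/

namespace AN

noncomputable section

open Classical Equiv


variable {Ω : Type} [Field Ω] [IsAlgClosed Ω] [CharZero Ω] {W : Type} [AddCommGroup W] [Module Ω W]
  {c : Parker.Ctx Ω} {Γ : Subgroup (RingAut Ω)} {ι : Type} [Fintype ι]

namespace V02_aux

theorem av_nat {Ω : Type} [Field Ω] (c : Parker.Ctx Ω) {n : ℕ} (hn : n ≠ 0) :
    c.av (n : Ω) = c.av 2 ^ (padicValNat 2 n) := by
  obtain ⟨k, m, hm, rfl⟩ := Nat.exists_eq_two_pow_mul_odd hn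
  have hm0 : m ≠ 0 := by
    rintro rfl
    exact absurd hm (by decide)
  have h1 : padicValNat 2 (2 ^ k * m) = k := by
    rw [padicValNat.mul (pow_ne_zero _ two_ne_zero) hm0, padicValNat.prime_pow,
      padicValNat.eq_zero_of_not_dvd (fun h => by
        rw [← Nat.not_even_iff_odd] at hm
        exact hm (even_iff_two_dvd.2 h)), add_zero]
  rw [h1, Nat.cast_mul, Nat.cast_pow, map_mul, map_pow, c.odd m hm, mul_one]
  rfl

theorem av_int {Ω : Type} [Field Ω] (c : Parker.Ctx Ω) {n : ℤ} (hn : n ≠ 0) :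
    c.av (n : Ω) = c.av 2 ^ (padicValInt 2 n) := by
  have h1 : c.av (n : Ω) = c.av ((n.natAbs : ℕ) : Ω) := by
    rcases Int.natAbs_eq n with h | h
    · conv_lhs => rw [h]
      rw [Int.cast_natCast]
    · conv_lhs => rw [h]
      rw [Int.cast_neg, Int.cast_natCast, map_neg_eq_map]
  rw [h1, av_nat c (Int.natAbs_ne_zero.2 hn)]
  rfl

/-- the field of the fixed elements -/
def Lf {Ω : Type} [Field Ω] (Γ : Subgroup (RingAut Ω)) : Subfield Ω where
  carrier := {x | Parker.Fx Γ x}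
  mul_mem' := fun ha hb => Parker.fx_mul ha hb
  one_mem' := fun σ _ => map_one σ
  add_mem' := fun ha hb => Parker.fx_add ha hb
  zero_mem' := fun σ _ => map_zero σ
  neg_mem' := fun ha => Parker.fx_neg ha
  inv_mem' := fun _ ha => Parker.fx_inv ha

/-- an alternating matrix with fixed entries -/
theorem det_fx_sq {Ω : Type} [Field Ω] [CharZero Ω] (Γ : Subgroup (RingAut Ω)) {ι : Type} [Fintype ι]
    [DecidableEq ι] {A : Matrix ι ι Ω} (hA : A.transpose = -A) (hf : ∀ i j, Parker.Fx Γ (A i j)) :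
    ∃ a : Ω, Parker.Fx Γ a ∧ A.det = a ^ 2 := by
  let A' : Matrix ι ι (Lf Γ) := fun i j => ⟨A i j, hf i j⟩
  have h1 : A'.transpose = -A' := by
    ext i j
    exact congrFun (congrFun hA i) j
  obtain ⟨a, ha⟩ := Parker.det_alt_sq (F := Lf Γ) two_ne_zero h1
  refine ⟨(a : Ω), a.2, ?_⟩
  have h2 : A = (Lf Γ).subtype.mapMatrix A' := by
    ext i j
    rfl
  rw [h2, ← RingHom.map_det, ha, map_pow]
  rfl

end V02_aux

open V02_aux

theorem av_rat (c : Parker.Ctx Ω) {q : ℚ} (hq : q ≠ 0) : c.av (q : Ω) = c.av 2 ^ (padicValRat 2 q) := by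
  have hn : q.num ≠ 0 := Rat.num_ne_zero.2 hq
  have hd : q.den ≠ 0 := q.den_nz
  have h2 : c.av (2 : Ω) ≠ 0 := (c.av.ne_zero_iff).2 two_ne_zero
  rw [Rat.cast_def, map_div₀, av_int c hn, av_nat c hd, padicValRat, zpow_sub₀ h2, zpow_natCast,
    zpow_natCast]

theorem sqV_rat (c : Parker.Ctx Ω) (Γ : Subgroup (RingAut Ω)) {q : ℚ} (hq : q ≠ 0)
    (h : Even (padicValRat 2 q)) : Parker.SqV c Γ (c.av (q : Ω)) := by
  obtain ⟨z, hz⟩ := h
  refine ⟨(2 : Ω) ^ z, zpow_ne_zero _ two_ne_zero, fun σ _ => ?_, ?_⟩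
  · rw [map_zpow₀, map_ofNat]
  · have h2 : c.av (2 : Ω) ≠ 0 := (c.av.ne_zero_iff).2 two_ne_zero
    rw [av_rat c hq, hz, zpow_add₀ h2, map_zpow₀, pow_two]

theorem sqV_basis (b : Module.Basis ι Ω W) {B : LinearMap.BilinForm Ω W} {T : Module.End Ω W}
    (hT : Parker.Skew B T) (hdet : LinearMap.det T ≠ 0) {d : ι → ℚ} (hd : ∀ i, d i ≠ 0) {μ : Ω}
    (hμ : μ ≠ 0) (hB : ∀ i j, B (b i) (b j) = if i = j then μ * (d i : Ω) else 0)
    (hfx : ∀ i j, Parker.Fx Γ (b.repr (T (b j)) i)) (hev : Even (padicValRat 2 (∏ i, d i))) :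
    Parker.SqV c Γ (c.av (LinearMap.det T)) := by
  have hBl : ∀ i j, B (T (b i)) (b j) = μ * ((d j : Ω) * b.repr (T (b i)) j) := by
    intro i j
    have h1 : T (b i) = ∑ k, b.repr (T (b i)) k • b k := (b.sum_repr (T (b i))).symm
    conv_lhs => rw [h1]
    rw [map_sum, LinearMap.sum_apply, Finset.sum_eq_single j]
    · rw [map_smul, LinearMap.smul_apply, hB, if_pos rfl, smul_eq_mul]
      ring
    · intro k _ hk
      rw [map_smul, LinearMap.smul_apply, hB, if_neg hk, smul_zero]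
    · intro h
      exact absurd (Finset.mem_univ j) h
  have hBr : ∀ i j, B (b i) (T (b j)) = μ * ((d i : Ω) * b.repr (T (b j)) i) := by
    intro i j
    have h1 : T (b j) = ∑ k, b.repr (T (b j)) k • b k := (b.sum_repr (T (b j))).symm
    conv_lhs => rw [h1]
    rw [map_sum, Finset.sum_eq_single i]
    · rw [map_smul, hB, if_pos rfl, smul_eq_mul]
      ring
    · intro k _ hk
      rw [map_smul, hB, if_neg (Ne.symm hk), smul_zero]
    · intro h
      exact absurd (Finset.mem_univ i) h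
  have hA : (Matrix.diagonal (fun i => (d i : Ω)) * LinearMap.toMatrix b b T).transpose =
      -(Matrix.diagonal (fun i => (d i : Ω)) * LinearMap.toMatrix b b T) := by
    ext i j
    rw [Matrix.transpose_apply, Matrix.neg_apply, Matrix.diagonal_mul, Matrix.diagonal_mul,
      LinearMap.toMatrix_apply, LinearMap.toMatrix_apply]
    have h1 := hT (b i) (b j)
    rw [hBl, hBr, ← mul_neg] at h1
    exact mul_left_cancel₀ hμ h1
  have hf : ∀ i j, Parker.Fx Γ ((Matrix.diagonal (fun i => (d i : Ω)) * LinearMap.toMatrix b b T) i j) := by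
    intro i j
    rw [Matrix.diagonal_mul, LinearMap.toMatrix_apply]
    exact Parker.fx_mul (Parker.fx_ratCast Γ (d i)) (hfx i j)
  obtain ⟨a, ha, hdA⟩ := det_fx_sq Γ hA hf
  rw [Matrix.det_mul, Matrix.det_diagonal, LinearMap.det_toMatrix] at hdA
  have hp0 : ∏ i, d i ≠ 0 := Finset.prod_ne_zero_iff.2 fun i _ => hd i
  have hp : ((∏ i, d i : ℚ) : Ω) = ∏ i, (d i : Ω) := Rat.cast_prod _ _
  have hp1 : ((∏ i, d i : ℚ) : Ω) ≠ 0 := Rat.cast_ne_zero.2 hp0
  rw [← hp] at hdA
  have ha0 : a ≠ 0 := by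
    rintro rfl
    rw [zero_pow two_ne_zero] at hdA
    exact mul_ne_zero hp1 hdet hdA
  have h2 : c.av (LinearMap.det T) = c.av a ^ 2 / c.av ((∏ i, d i : ℚ) : Ω) := by
    rw [← map_pow, ← hdA, map_mul, mul_div_cancel_left₀ _ ((c.av.ne_zero_iff).2 hp1)]
  rw [h2]
  exact Parker.sqV_div (Parker.sqV_sq (Parker.inV_of_fx ha0 ha)) (sqV_rat c Γ hp0 hev)

theorem act_fx {G : Type} [Group G] [Finite G] {ρ : Representation Ω G W} (b : Module.Basis ι Ω W)
    (hb : ∀ g i j, Parker.Fx Γ (b.repr (ρ g (b j)) i)) {s : G → Ω} (hs : ∀ g, Parker.Fx Γ (s g))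
    (i j : ι) : Parker.Fx Γ (b.repr (Parker.act ρ s (b j)) i) := by
  let _ := Fintype.ofFinite G
  rw [Parker.act_eq, LinearMap.sum_apply, map_sum, Finsupp.finsetSum_apply]
  refine Parker.fx_sum fun g _ => ?_
  rw [LinearMap.smul_apply, map_smul, Finsupp.smul_apply, smul_eq_mul]
  exact Parker.fx_mul (hs g) (hb g i j)

theorem act_skew {G : Type} [Group G] [Finite G] {ρ : Representation Ω G W}
    {B : LinearMap.BilinForm Ω W} (hB : ∀ g x y, B (ρ g x) (ρ g y) = B x y) {s : G → Ω}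
    (hs : ∀ g, s g⁻¹ = - s g) : Parker.Skew B (Parker.act ρ s) := by
  intro x y
  let _ := Fintype.ofFinite G
  have h1 : ∀ g, B (ρ g x) y = B x (ρ g⁻¹ y) := by
    intro g
    have h2 := hB g x (ρ g⁻¹ y)
    have h3 : ρ g (ρ g⁻¹ y) = y := by
      rw [← Module.End.mul_apply, ← map_mul, mul_inv_cancel, map_one, Module.End.one_apply]
    rw [h3] at h2
    exact h2
  rw [Parker.act_eq, LinearMap.sum_apply, LinearMap.sum_apply, map_sum, map_sum, LinearMap.sum_apply,
    ← Equiv.sum_comp (Equiv.inv G), ← Finset.sum_neg_distrib]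
  refine Finset.sum_congr rfl fun g _ => ?_
  rw [Equiv.inv_apply, LinearMap.smul_apply, LinearMap.smul_apply, map_smul, map_smul,
    LinearMap.smul_apply, h1, inv_inv, hs, neg_smul]

end

end AN
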