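import Pool.Agent.AN.V01
import Pool.Agent.AN.V02
import Pool.Agent.AN.C07
import Pool.Agent.AN.J10
import Pool.Agent.AN.J12

/-!
# MP_6c3636_al, AN, module V03: properties (A) and (B) of the symmetric groups (helper7)

`even_val`: by `vn_nm` the valuation is congruent to `∑ i ∈ Icc 2 (n + 2), ∑ α ∈ SF n f, dq (2 ^ i) α` modulo `2`, and every inner sum is `0` in `ZMod 2` by `parity` (C07). `sq_perm`: `exists_sn_irr` (J10), the basis of `SN.basis` (J09), `finrank = (SF n f).card`; the form of `sn_orth` (J12), or any invariant form; its Gram matrix is `μ * nm α` on the diagonal, `μ ≠ 0` (`SN.orth`, `SN.norm`, nondegenerate), the coordinates of `ρ g (v α)` are rational (`SN.rat`), so fixed by `Γ`; `sqV_basis`, `act_fx`, `act_skew`. `fixes_perm`: the trace is rational. `propB_perm`: all `Fixes σ ρ` hold, so `d` is fixed by `Γ`: `InV`.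
-/

namespace AN

noncomputable section

open Classical Equiv

variable {Ω : Type} [Field Ω] [IsAlgClosed Ω] [CharZero Ω] {n : ℕ}
  {V : Type} [AddCommGroup V] [Module Ω V] [FiniteDimensional Ω V]
  {ρ : Representation Ω (Perm (Fin n)) V} {c : Parker.Ctx Ω} {m : ℕ} {Γ : Subgroup (RingAut Ω)}

private theorem val_prod {ι : Type} (s : Finset ι) (g : ι → ℚ) (hg : ∀ i ∈ s, g i ≠ 0) :
    padicValRat 2 (∏ i ∈ s, g i) = ∑ i ∈ s, padicValRat 2 (g i) := by
  induction s using Finset.induction_on with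
  | empty => simp
  | insert a s ha ih =>
    rw [Finset.prod_insert ha, Finset.sum_insert ha, padicValRat.mul (hg a (Finset.mem_insert_self a s))
      (Finset.prod_ne_zero_iff.mpr fun i hi => hg i (Finset.mem_insert_of_mem hi)),
      ih (fun i hi => hg i (Finset.mem_insert_of_mem hi))]

theorem even_val {f : ℤ → ℤ} (h : Even (SF n f).card) :
    Even (padicValRat 2 (∏ α : {α // α ∈ SF n f}, nm (α : Fin n → ℤ))) := by
  have h0 : (∏ α : {α // α ∈ SF n f}, nm (α : Fin n → ℤ)) = ∏ α ∈ SF n f, nm α :=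
    Finset.prod_coe_sort (SF n f) nm
  rw [h0, val_prod _ _ (fun α _ => (nm_pos α).ne')]
  have h1 : ∀ α ∈ SF n f, ∃ z : ℤ, padicValRat 2 (nm α) =
      2 * z + ∑ i ∈ Finset.Icc 2 (n + 2), (dq ((2 ^ i : ℕ) : ℤ) α : ℤ) :=
    fun α hα => vn_nm (mem_SF.mp hα).1
  choose! z hz using h1
  rw [Finset.sum_congr rfl hz, Finset.sum_add_distrib, ← Finset.mul_sum, Finset.sum_comm]
  refine (even_two_mul _).add (Finset.even_sum _ fun i hi => ?_)
  obtain ⟨c, hc⟩ := parity n (Finset.mem_Icc.mp hi).1 f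
  have h2 : ((SF n f).card : ZMod 2) = 0 := (ZMod.natCast_eq_zero_iff_even).mpr h
  rw [h2, mul_zero] at hc
  have h3 : ((∑ α ∈ SF n f, dq ((2 ^ i : ℕ) : ℤ) α : ℕ) : ZMod 2) = 0 := by
    rw [← hc]
    exact Nat.cast_sum _ _
  have h4 : Even (∑ α ∈ SF n f, dq ((2 ^ i : ℕ) : ℤ) α : ℕ) := (ZMod.natCast_eq_zero_iff_even).mp h3
  have h5 : (∑ α ∈ SF n f, (dq ((2 ^ i : ℕ) : ℤ) α : ℤ)) =
      ((∑ α ∈ SF n f, dq ((2 ^ i : ℕ) : ℤ) α : ℕ) : ℤ) := (Nat.cast_sum _ _).symm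
  rw [h5]
  exact (Int.even_coe_nat _).mpr h4

theorem orth_perm (hρ : ρ.IsIrreducible) : Parker.Orth ρ := by
  obtain ⟨f, v, hv⟩ := exists_sn_irr hρ
  exact sn_orth hv hρ

private theorem repr_rat {f : ℤ → ℤ} {v : (Fin n → ℤ) → V} (h : SN ρ f v)
    {b : Module.Basis {α // α ∈ SF n f} Ω V} (hb : ∀ α, b α = v α) (g : Perm (Fin n))
    (i j : {α // α ∈ SF n f}) : ∃ q : ℚ, b.repr (ρ g (b j)) i = q := by
  obtain ⟨M, hM⟩ := h.rat g j (mem_SF.mp j.2)
  refine ⟨M i, ?_⟩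
  have h1 : ρ g (b j) = ∑ β : {α // α ∈ SF n f}, (M β : Ω) • b β := by
    rw [hb j, hM, ← Finset.sum_coe_sort (SF n f) (fun β => (M β : Ω) • v β)]
    exact Finset.sum_congr rfl fun β _ => by rw [hb β]
  rw [h1, Module.Basis.repr_sum_self]

theorem sq_perm (hρ : ρ.IsIrreducible) (hev : Even (Module.finrank Ω V)) {s : Perm (Fin n) → Ω}
    (hs : ∀ g, Parker.Fx Γ (s g)) (hk : ∀ g, s g⁻¹ = - s g)
    (hdet : LinearMap.det (Parker.act ρ s) ≠ 0) :
    Parker.SqV c Γ (c.av (LinearMap.det (Parker.act ρ s))) := by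
  obtain ⟨f, v, hv⟩ := exists_sn_irr hρ
  obtain ⟨b, hb⟩ := hv.basis hρ
  obtain ⟨B, hB⟩ := sn_orth hv hρ
  obtain ⟨α₀, h0⟩ := hv.ne
  have hcard : Even (SF n f).card := by
    rw [Module.finrank_eq_card_basis b, Fintype.card_coe] at hev
    exact hev
  have hnm : ∀ α : Fin n → ℤ, (nm α : Ω) ≠ 0 := fun α => by
    exact_mod_cast (nm_pos α).ne'
  have hG1 : ∀ i : {α // α ∈ SF n f}, B (b i) (b i) =
      (B (v α₀) (v α₀) * (nm α₀ : Ω)⁻¹) * (nm (i : Fin n → ℤ) : Ω) := by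
    intro i
    have h1 := hv.norm hB.inv (mem_SF.mp i.2) h0
    have h2 := hnm α₀
    rw [hb i]
    field_simp
    exact h1
  have hG2 : ∀ i j : {α // α ∈ SF n f}, i ≠ j → B (b i) (b j) = 0 := by
    intro i j hij
    rw [hb i, hb j]
    exact hv.orth hB.inv (mem_SF.mp i.2) (mem_SF.mp j.2) fun h => hij (Subtype.ext h)
  have hμ : B (v α₀) (v α₀) * (nm α₀ : Ω)⁻¹ ≠ 0 := by
    intro h
    refine hv.nz α₀ h0 (hB.nondeg _ fun y => ?_)
    have h2 : v α₀ = b ⟨α₀, mem_SF.mpr h0⟩ := (hb ⟨α₀, mem_SF.mpr h0⟩).symm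
    have h3 : B (v α₀) = 0 := by
      refine b.ext fun j => ?_
      by_cases hj : (⟨α₀, mem_SF.mpr h0⟩ : {α // α ∈ SF n f}) = j
      · rw [h2, ← hj, hG1, h, zero_mul]
        rfl
      · rw [h2, hG2 _ _ hj]
        rfl
    rw [h3]
    rfl
  refine sqV_basis b (act_skew hB.inv hk) hdet (d := fun i => nm (i : Fin n → ℤ))
    (fun i => (nm_pos _).ne') hμ (fun i j => ?_) ?_ (even_val hcard)
  · by_cases hij : i = j
    · rw [if_pos hij, ← hij]
      exact hG1 i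
    · rw [if_neg hij]
      exact hG2 i j hij
  refine act_fx b (fun g i j σ _ => ?_) hs
  obtain ⟨q, hq⟩ := repr_rat hv hb g i j
  rw [hq]
  exact map_ratCast σ q

theorem rat_perm (hρ : ρ.IsIrreducible) (g : Perm (Fin n)) : ∃ q : ℚ, ρ.character g = q := by
  obtain ⟨f, v, hv⟩ := exists_sn_irr hρ
  obtain ⟨b, hb⟩ := hv.basis hρ
  have h1 := fun i => repr_rat hv hb g i i
  choose q hq using h1
  refine ⟨∑ i, q i, ?_⟩
  rw [Representation.character, LinearMap.trace_eq_matrix_trace Ω b, Matrix.trace, Rat.cast_sum]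
  refine Finset.sum_congr rfl fun i _ => ?_
  rw [Matrix.diag_apply, LinearMap.toMatrix_apply]
  exact hq i

theorem fixes_perm (hρ : ρ.IsIrreducible) (σ : RingAut Ω) : Parker.Fixes σ ρ := by
  intro g
  obtain ⟨q, hq⟩ := rat_perm hρ g
  rw [hq]
  exact map_ratCast σ q

theorem propA_perm (c : Parker.Ctx Ω) (n : ℕ) : Parker.PropA c 1 (Perm (Fin n)) := by
  intro Γ _ k ρ hρ hk _ _ s hs hs' hdet
  refine sq_perm hρ ?_ hs hs' hdet
  rw [Module.finrank_fin_fun]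
  exact hk

theorem propB_perm (c : Parker.Ctx Ω) (n : ℕ) : Parker.PropB c 1 (Perm (Fin n)) := by
  intro Γ _ k ρ hρ _ _ d hd h
  exact ⟨d, hd, fun σ hσ => by rw [h σ hσ, if_pos (fixes_perm hρ σ)], rfl⟩

end

end AN
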