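import Pool.Agent.AN.A02
import Pool.Agent.AN.V03
import Pool.Agent.AN.H02
import Pool.Agent.Parker.N03

/-!
# MP_6c3636_al, AN, module A03: the irrationality of the half characters (helper7)

`π` irreducible representation of `Perm (Fin n)` with seminormal basis `v` of shape `f`, `A`, `κ` as in A02. `kap_sq`: `κ ^ 2 = q` with `q⁻¹ = ± nm α * nm (-α)` (`assoc_sq`); its valuation is congruent to `∑ i ∈ Icc 2 (n + 2), (dq (2 ^ i) α + dq (2 ^ i) (-α))` modulo `2` (`vn_nm`), even by `dq_neg` (H02). `kap_av`: `c.av κ ^ 2 = c.av 2 ^ (2 z)` (`av_rat`). `trace_assoc`: in the basis `v` the matrix of `π g` is rational (`SN.rat`) and `A (v α) = κ • (rational number) • v (-α)`, so `trace (A * π g) = κ * t` with `t` rational. `exists_t`: `A ≠ 0` is a linear combination of the `π g` (Burnside; `π` irreducible, `Ω` algebraically closed; see ParkerGL / Parker for the surjectivity of the group algebra), `trace (A * A) = dim V ≠ 0`,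 so `trace (A * π g) ≠ 0` for some `g`; for odd `g`: `trace (A * π g) = - trace (π g * A) = - trace (A * π g)`, so it is `0`.
-/

namespace AN

noncomputable section

open Classical Equiv


variable {Ω : Type} [Field Ω] [IsAlgClosed Ω] [CharZero Ω] {n : ℕ}
  {V : Type} [AddCommGroup V] [Module Ω V] [FiniteDimensional Ω V]
  {π : Representation Ω (Perm (Fin n)) V} {f : ℤ → ℤ} {v : (Fin n → ℤ) → V} {A : Module.End Ω V} {κ : Ω}

namespace A03_aux

theorem even_two {n : ℕ} {f : ℤ → ℤ} (hf : SC f) {α : Fin n → ℤ} (hα : α ∈ Sq n f) :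
    Even (padicValRat 2 (nm α) + padicValRat 2 (nm (-α))) := by
  obtain ⟨z, hz⟩ := vn_nm hα.1
  obtain ⟨z', hz'⟩ := vn_nm (Sq_neg hf hα).1
  rw [hz, hz']
  have h1 : ∀ i ∈ Finset.Icc 2 (n + 2), Even ((dq ((2 ^ i : ℕ) : ℤ) α : ℤ) +
      (dq ((2 ^ i : ℕ) : ℤ) (-α) : ℤ)) := by
    intro i hi
    have h2 : Even ((2 ^ i : ℕ) : ℤ) := by
      have h3 : i ≠ 0 := by
        have := (Finset.mem_Icc.1 hi).1
        omega
      obtain ⟨j, rfl⟩ := Nat.exists_eq_succ_of_ne_zero h3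
      exact ⟨((2 ^ j : ℕ) : ℤ), by push_cast [pow_succ]; ring⟩
    have h4 := dq_neg hf hα h2
    rw [ZMod.natCast_eq_natCast_iff, Nat.ModEq] at h4
    rw [← Nat.cast_add, Int.even_coe_nat, Nat.even_add, Nat.even_iff, Nat.even_iff]
    omega
  obtain ⟨w, hw⟩ := Finset.even_sum _ h1
  rw [Finset.sum_add_distrib] at hw
  exact ⟨z + z' + w, by linear_combination hw⟩

end A03_aux

theorem kap_sq (h : SN π f v) (hA : A * A = 1) (hf : SC f)
    (hκ : ∀ α ∈ Sq n f, A (v α) = (κ * (-1) ^ ms α * (nm α : Ω)) • v (-α)) :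
    ∃ q : ℚ, q ≠ 0 ∧ κ ^ 2 = q ∧ Even (padicValRat 2 q) := by
  obtain ⟨α, hα⟩ := h.ne
  have h1 := assoc_sq h hA hf hκ hα
  have hp1 : nm α ≠ 0 := (nm_pos α).ne'
  have hp2 : nm (-α) ≠ 0 := (nm_pos (-α)).ne'
  have hs : ((-1 : ℚ)) ^ (ms α + ms (-α)) ≠ 0 := pow_ne_zero _ (neg_ne_zero.2 one_ne_zero)
  have hu0 : (-1 : ℚ) ^ (ms α + ms (-α)) * nm α * nm (-α) ≠ 0 := mul_ne_zero (mul_ne_zero hs hp1) hp2
  refine ⟨((-1 : ℚ) ^ (ms α + ms (-α)) * nm α * nm (-α))⁻¹, inv_ne_zero hu0, ?_, ?_⟩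
  · rw [Rat.cast_inv]
    refine eq_inv_of_mul_eq_one_left ?_
    push_cast
    exact h1
  · rw [padicValRat.inv, even_neg, padicValRat.mul (mul_ne_zero hs hp1) hp2, padicValRat.mul hs hp1,
      padicValRat.pow, padicValRat.neg, padicValRat.one, mul_zero, zero_add]
    exact A03_aux.even_two hf hα

theorem kap_av (c : Parker.Ctx Ω) (h : SN π f v) (hA : A * A = 1) (hf : SC f)
    (hκ : ∀ α ∈ Sq n f, A (v α) = (κ * (-1) ^ ms α * (nm α : Ω)) • v (-α)) :
    ∃ z : ℤ, c.av κ = c.av 2 ^ z := by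
  obtain ⟨q, hq0, hq, ⟨z, hz⟩⟩ := kap_sq h hA hf hκ
  refine ⟨z, ?_⟩
  have h2 : c.av (2 : Ω) ≠ 0 := (c.av.ne_zero_iff).2 two_ne_zero
  have h1 : c.av κ ^ 2 = (c.av 2 ^ z) ^ 2 := by
    rw [← map_pow, hq, av_rat c hq0, hz, zpow_add₀ h2, pow_two]
  exact (pow_left_inj₀ (c.av.nonneg _) (zpow_nonneg (c.av.nonneg _) _) two_ne_zero).1 h1

theorem trace_assoc (h : SN π f v) (hπ : π.IsIrreducible) (hf : SC f)
    (hκ : ∀ α ∈ Sq n f, A (v α) = (κ * (-1) ^ ms α * (nm α : Ω)) • v (-α)) (g : Perm (Fin n)) :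
    ∃ t : ℚ, LinearMap.trace Ω V (A * π g) = κ * t := by
  obtain ⟨b, hb⟩ := h.basis hπ
  have h1 : ∀ α : {α // α ∈ SF n f}, ∃ M : (Fin n → ℤ) → ℚ,
      π g (v α) = ∑ β ∈ SF n f, (M β : Ω) • v β := fun α => h.rat g α (mem_SF.1 α.2)
  choose M hM using h1
  have h2 : ∀ α : {α // α ∈ SF n f}, ∃ t : ℚ, b.repr ((A * π g) (b α)) α = κ * t := by
    intro α
    refine ⟨∑ β ∈ SF n f, M α β * ((-1) ^ ms β * nm β * if -β = (α : Fin n → ℤ) then 1 else 0), ?_⟩
    rw [Module.End.mul_apply, hb, hM, map_sum, map_sum, Finsupp.finsetSum_apply, Rat.cast_sum,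
      Finset.mul_sum]
    refine Finset.sum_congr rfl fun β hβ => ?_
    have hβ' : -β ∈ SF n f := mem_SF.2 (Sq_neg hf (mem_SF.1 hβ))
    have h3 : v (-β) = b ⟨-β, hβ'⟩ := (hb ⟨-β, hβ'⟩).symm
    rw [map_smul, hκ β (mem_SF.1 hβ), h3, map_smul, map_smul, b.repr_self, Finsupp.smul_apply,
      Finsupp.smul_apply, Finsupp.single_apply, smul_eq_mul, smul_eq_mul]
    by_cases h4 : -β = (α : Fin n → ℤ)
    · rw [if_pos h4, if_pos (Subtype.ext h4)]
      push_cast
      ring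
    · rw [if_neg h4, if_neg (fun h5 => h4 (congrArg Subtype.val h5))]
      push_cast
      ring
  choose t ht using h2
  refine ⟨∑ α, t α, ?_⟩
  rw [LinearMap.trace_eq_matrix_trace Ω b, Matrix.trace, Rat.cast_sum, Finset.mul_sum]
  refine Finset.sum_congr rfl fun α _ => ?_
  rw [Matrix.diag_apply, LinearMap.toMatrix_apply, ht]

theorem exists_t (hπ : π.IsIrreducible) (hA : A * A = 1)
    (hs : ∀ g : Perm (Fin n), Perm.sign g = -1 → A * π g = - (π g * A)) (h0 : Module.finrank Ω V ≠ 0) :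
    ∃ g : Perm (Fin n), Perm.sign g = 1 ∧ LinearMap.trace Ω V (A * π g) ≠ 0 := by
  by_contra hcon
  push Not at hcon
  have h1 : ∀ g : Perm (Fin n), LinearMap.trace Ω V (A * π g) = 0 := by
    intro g
    rcases Int.units_eq_one_or (Perm.sign g) with h | h
    · exact hcon g h
    · have h2 := congrArg (LinearMap.trace Ω V) (hs g h)
      rw [map_neg, LinearMap.trace_mul_comm Ω (π g) A] at h2
      exact self_eq_neg.1 h2
  obtain ⟨y, hy⟩ := Parker.act_surj hπ A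
  rw [Parker.act_eq] at hy
  have h3 : LinearMap.trace Ω V (A * A) = 0 := by
    have h4 : A * A = A * ∑ g, y g • π g := by rw [hy]
    rw [h4, Finset.mul_sum, map_sum]
    refine Finset.sum_eq_zero fun g _ => ?_
    rw [mul_smul_comm, map_smul, h1, smul_zero]
  rw [hA, LinearMap.trace_one] at h3
  exact h0 (by exact_mod_cast h3)

end

end AN
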