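import Pool.Agent.AN.A01
import Pool.Agent.AN.A03

/-!
# MP_6c3636_al, AN, module A04: the half characters and the automorphisms (helper7)

`θ`, `π`, `ι`, `A` as in A01 (second alternative). `half_char`: `E = (1 + A) / 2` is the projection onto `range ι` (`range ι = {x | A x = x}`) and commutes with `π x`, `x ∈ N`; `θ x` is `π x` restricted to `range ι`, so `2 * χ_θ(x) = trace ((1 + A) * π x) = χ_π(x) + trace (A * π x)`. `half_fix`: `χ_π(x)` is rational (`rat_perm`, V03) and `trace (A * π x) = κ * t x`, `t x ∈ ℚ`, `t x ≠ 0` for some `x` (`trace_assoc`, `exists_t`), so `σ` fixes `χ_θ` iff `σ κ = κ`. `half_pm`: `κ ^ 2` is rational.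
-/

namespace AN

noncomputable section

open Classical Equiv


variable {Ω : Type} [Field Ω] [IsAlgClosed Ω] [CharZero Ω] {n d k : ℕ}
  {θ : Representation Ω (alternatingGroup (Fin n)) (Fin d → Ω)}
  {π : Representation Ω (Perm (Fin n)) (Fin k → Ω)} {ι : (Fin d → Ω) →ₗ[Ω] (Fin k → Ω)}
  {A : Module.End Ω (Fin k → Ω)} {f : ℤ → ℤ} {v : (Fin n → ℤ) → (Fin k → Ω)} {κ : Ω}

theorem half_char (hι : Function.Injective ι) (he : ∀ x w, ι (θ x w) = π x (ι w)) (hA : A * A = 1)
    (hr : ∀ x, x ∈ LinearMap.range ι ↔ A x = x) (x : alternatingGroup (Fin n)) :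
    2 * θ.character x = π.character (x : Perm (Fin n)) +
      LinearMap.trace Ω (Fin k → Ω) (A * π (x : Perm (Fin n))) := by
  obtain ⟨r, hr1⟩ := LinearMap.exists_leftInverse_of_injective ι (LinearMap.ker_eq_bot.2 hι)
  have hr2 : ∀ w, r (ι w) = w := fun w => by
    have := LinearMap.congr_fun hr1 w
    exact this
  -- the operator 1 + A has its image in the range of ι
  have h1 : ∀ w, ι (r (w + A w)) = w + A w := by
    intro w
    have h2 : w + A w ∈ LinearMap.range ι := by
      rw [hr, map_add, ← Module.End.mul_apply, hA, Module.End.one_apply, add_comm]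
    obtain ⟨u, hu⟩ := h2
    rw [← hu, hr2]
  have h2 : ∀ w, A (ι w) = ι w := fun w => (hr _).1 ⟨w, rfl⟩
  set g : Perm (Fin n) := (x : Perm (Fin n)) with hg
  -- the map F = r ∘ (1 + A) ∘ π x
  set F : (Fin k → Ω) →ₗ[Ω] (Fin d → Ω) := r ∘ₗ ((1 + A) * π g) with hF
  have h3 : F ∘ₗ ι = (2 : Ω) • θ x := by
    apply LinearMap.ext
    intro w
    show r ((1 + A) (π g (ι w))) = (2 : Ω) • θ x w
    rw [← he, LinearMap.add_apply, Module.End.one_apply, h2, map_add, hr2, two_smul]
  have h4 : ι ∘ₗ F = (1 + A) * π g := by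
    apply LinearMap.ext
    intro w
    show ι (r ((1 + A) (π g w))) = (1 + A) (π g w)
    rw [LinearMap.add_apply, Module.End.one_apply, h1]
  have h5 := LinearMap.trace_comp_comm' ι F
  rw [h3, h4, map_smul, add_mul, one_mul, map_add, smul_eq_mul] at h5
  exact h5

theorem half_fix (hπ : π.IsIrreducible) (hι : Function.Injective ι)
    (he : ∀ x w, ι (θ x w) = π x (ι w)) (hA : A * A = 1)
    (hs : ∀ g : Perm (Fin n), Perm.sign g = -1 → A * π g = - (π g * A))
    (hr : ∀ x, x ∈ LinearMap.range ι ↔ A x = x) (h : SN π f v) (hf : SC f)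
    (hκ : ∀ α ∈ Sq n f, A (v α) = (κ * (-1) ^ ms α * (nm α : Ω)) • v (-α)) (σ : RingAut Ω) :
    Parker.Fixes σ θ ↔ σ κ = κ := by
  have h2 : (2 : Ω) ≠ 0 := two_ne_zero
  constructor
  · intro hfix
    have h0 : Module.finrank Ω (Fin k → Ω) ≠ 0 := by
      intro h0
      obtain ⟨α, hα⟩ := h.ne
      have h3 : Subsingleton (Fin k → Ω) := Module.finrank_zero_iff.1 h0
      exact h.nz α hα (Subsingleton.elim _ _)
    obtain ⟨g, hg, ht⟩ := exists_t hπ hA hs h0
    obtain ⟨t, ht2⟩ := trace_assoc h hπ hf hκ g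
    obtain ⟨q, hq⟩ := rat_perm hπ g
    have hx := half_char hι he hA hr ⟨g, Equiv.Perm.mem_alternatingGroup.2 hg⟩
    have h3 := congrArg σ hx
    rw [map_mul, hfix, map_ofNat, hx] at h3
    simp only at h3
    rw [hq, ht2, map_add, map_mul, map_ratCast, map_ratCast] at h3
    have ht3 : (t : Ω) ≠ 0 := by
      intro h4
      rw [ht2, h4, mul_zero] at ht
      exact ht rfl
    have h5 := add_left_cancel h3
    exact (mul_right_cancel₀ ht3 h5).symm
  · intro hk x
    obtain ⟨t, ht2⟩ := trace_assoc h hπ hf hκ (x : Perm (Fin n))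
    obtain ⟨q, hq⟩ := rat_perm hπ (x : Perm (Fin n))
    have hx := half_char hι he hA hr x
    have h3 := congrArg σ hx
    rw [map_mul, map_ofNat, hq, ht2, map_add, map_mul, map_ratCast, map_ratCast, hk] at h3
    rw [hq, ht2] at hx
    exact mul_left_cancel₀ h2 (h3.trans hx.symm)

theorem half_pm (h : SN π f v) (hA : A * A = 1) (hf : SC f)
    (hκ : ∀ α ∈ Sq n f, A (v α) = (κ * (-1) ^ ms α * (nm α : Ω)) • v (-α)) (σ : RingAut Ω) :
    σ κ = κ ∨ σ κ = - κ := by
  obtain ⟨q, _, hq, _⟩ := kap_sq h hA hf hκ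
  have h1 := congrArg σ hq
  rw [map_pow, map_ratCast, ← hq] at h1
  exact sq_eq_sq_iff_eq_or_eq_neg.1 h1

end

end AN
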