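import Pool.Agent.AN.A04

/-!
# MP_6c3636_al, AN, module A05: a basis of the half representation (helper7)

`S = {α ∈ SF n f | α 1 = 1}`. For `α ∈ Sq n f`: `α 0 = 0`, so `α 1 = 1` or `α 1 = -1` (`Lg`), and exactly one of `α`, `-α` is in `S` (`-α ∈ Sq n f` by `SC f`, H01). `w α = v α + A (v α)` satisfies `A (w α) = w α`, so `w α ∈ range ι`. With `a α = κ (-1) ^ ms α nm α`, `a α * a (-α) = 1` (`A * A = 1`), `w (-α) = v (-α) + a (-α) v α = a (-α) w α`. The `w α`, `α ∈ S`, are linearly independent and span `{x | A x = x}` (`x = (1 + A) x / 2`). `half_basis`: take the preimages under `ι`. Coordinates of `θ x (b α)`: `π x (v α) = ∑ M β v β` with rational `M β` (`SN.rat`), so `π x (w α) = ∑ M β w β` (`A` commutes with `π x`), and for `β ∉ S`: `w β = a β w (-β)`, `-β ∈ S`: the coordinates are of the form `q + q' κ` with rational `q`, `q'`. `half_norm`: put `B' x y = B (ι⁻¹ (E x)) (ι⁻¹ (E y)) + B (ι⁻¹ (E (π τ⁻¹ x))) (ι⁻¹ (E (π τ⁻¹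 y)))`, `E = (1 + A) / 2`, `τ` an odd permutation: a bilinear form on `Fin k → Ω`, invariant under `Perm (Fin n)`, with `B' (ι x) (ι y) = B x y` and `B' x y = 0` for `A x = x`, `A y = -y`. By `SN.orth`, `SN.norm`: `B' (v α) (v β) = 0` for `α ≠ β`, `B' (v α) (v α) = μ' nm α` for a constant `μ'`. For `α ≠ β` in `S`: `B (b α) (b β) = B' (w α) (w β) = 0`. `0 = B' (w α) (v α - A (v α)) = B' (v α) (v α) - B' (A (v α)) (A (v α))`, so `B (b α) (b α) = 2 μ' nm α`; `μ = 2 μ' ≠ 0` because `B` is nondegenerate (if `S` is empty take `μ = 1`).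
-/

namespace AN

noncomputable section

open Classical Equiv


variable {Ω : Type} [Field Ω] [IsAlgClosed Ω] [CharZero Ω] {n d k : ℕ}
  {θ : Representation Ω (alternatingGroup (Fin n)) (Fin d → Ω)}
  {π : Representation Ω (Perm (Fin n)) (Fin k → Ω)} {ι : (Fin d → Ω) →ₗ[Ω] (Fin k → Ω)}
  {A : Module.End Ω (Fin k → Ω)} {f : ℤ → ℤ} {v : (Fin n → ℤ) → (Fin k → Ω)} {κ : Ω}

namespace A05_aux

theorem mem_SH {hn : 1 < n} {α : Fin n → ℤ} : α ∈ SH hn f ↔ α ∈ Sq n f ∧ α ⟨1, hn⟩ = 1 := by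
  unfold SH
  rw [Finset.mem_filter, mem_SF]

theorem a_mul (h : SN π f v) (hA : A * A = 1) (hf : SC f)
    (hκ : ∀ α ∈ Sq n f, A (v α) = (κ * (-1) ^ ms α * (nm α : Ω)) • v (-α)) {α : Fin n → ℤ}
    (hα : α ∈ Sq n f) :
    (κ * (-1) ^ ms α * (nm α : Ω)) * (κ * (-1) ^ ms (-α) * (nm (-α) : Ω)) = 1 := by
  have e1 := assoc_sq h hA hf hκ hα
  rw [pow_add] at e1
  linear_combination e1

theorem AA (hA : A * A = 1) (x : Fin k → Ω) : A (A x) = x := by
  have : (A * A) x = x := by rw [hA]; rfl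
  exact this

/-- `w (-α)` is a multiple of `w α` -/
theorem w_red (hn : 1 < n) (h : SN π f v) (hA : A * A = 1) (hf : SC f)
    (hκ : ∀ α ∈ Sq n f, A (v α) = (κ * (-1) ^ ms α * (nm α : Ω)) • v (-α)) {α : Fin n → ℤ}
    (hα : α ∈ Sq n f) :
    ∃ (β : {α // α ∈ SH hn f}) (q q' : ℚ),
      v α + A (v α) = ((q : Ω) + q' * κ) • (v β + A (v β)) := by
  rcases Lg_one hn hα.1 with h1 | h1
  · refine ⟨⟨α, mem_SH.2 ⟨hα, h1⟩⟩, 1, 0, ?_⟩
    rw [Rat.cast_one, Rat.cast_zero, zero_mul, add_zero, one_smul]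
  · have hα' := Sq_neg hf hα
    refine ⟨⟨-α, mem_SH.2 ⟨hα', ?_⟩⟩, 0, (-1) ^ ms α * nm α, ?_⟩
    · rw [Pi.neg_apply, h1, neg_neg]
    · have e1 : A (v (-α)) = (κ * (-1) ^ ms (-α) * (nm (-α) : Ω)) • v α := by
        rw [hκ _ hα', neg_neg]
      have e2 : (((0 : ℚ) : Ω) + (((-1) ^ ms α * nm α : ℚ) : Ω) * κ) =
          κ * (-1) ^ ms α * (nm α : Ω) := by
        push_cast
        ring
      rw [e2]
      show v α + A (v α) = _ • (v (-α) + A (v (-α)))
      rw [e1, hκ _ hα, smul_add, smul_smul, a_mul h hA hf hκ hα, one_smul, add_comm]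

/-- the preimages of the `w α` -/
theorem exists_b (hn : 1 < n) (hπ : π.IsIrreducible) (hι : Function.Injective ι)
    (hA : A * A = 1)
    (hr : ∀ x, x ∈ LinearMap.range ι ↔ A x = x) (h : SN π f v) (hf : SC f)
    (hκ : ∀ α ∈ Sq n f, A (v α) = (κ * (-1) ^ ms α * (nm α : Ω)) • v (-α)) :
    ∃ b : Module.Basis {α // α ∈ SH hn f} Ω (Fin d → Ω),
      ∀ j : {α // α ∈ SH hn f}, ι (b j) = v j + A (v j) := by
  have h0 : ∀ j : {α // α ∈ SH hn f}, ∃ x, ι x = v j + A (v j) := by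
    intro j
    have : v (j : Fin n → ℤ) + A (v j) ∈ LinearMap.range ι := by
      rw [hr, map_add, AA hA, add_comm]
    exact this
  choose b₀ hb₀ using h0
  obtain ⟨vb, hvb⟩ := h.basis hπ
  -- coordinates
  have hco : ∀ (i j : {α // α ∈ SH hn f}),
      vb.repr (v j + A (v j)) ⟨i, mem_SF.2 (mem_SH.1 i.2).1⟩ = if j = i then 1 else 0 := by
    intro i j
    have hi := mem_SH.1 i.2
    have hj := mem_SH.1 j.2
    have hj' := Sq_neg hf hj.1
    have e1 : v (j : Fin n → ℤ) = vb ⟨j, mem_SF.2 hj.1⟩ := (hvb ⟨j, mem_SF.2 hj.1⟩).symm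
    have e2 : v (-(j : Fin n → ℤ)) = vb ⟨-j, mem_SF.2 hj'⟩ := (hvb ⟨-j, mem_SF.2 hj'⟩).symm
    rw [hκ _ hj.1, map_add, map_smul, e1, e2, Module.Basis.repr_self, Module.Basis.repr_self,
      Finsupp.add_apply, Finsupp.smul_apply, Finsupp.single_apply, Finsupp.single_apply]
    have hne : ¬ ((⟨-j, mem_SF.2 hj'⟩ : {α // α ∈ SF n f}) = ⟨i, mem_SF.2 hi.1⟩) := by
      intro e
      have e3 : (-(j : Fin n → ℤ)) = i := congrArg Subtype.val e
      have e4 := congrFun e3 ⟨1, hn⟩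
      rw [Pi.neg_apply, hj.2, hi.2] at e4
      omega
    rw [if_neg hne, smul_zero, add_zero]
    by_cases hij : j = i
    · subst hij
      rw [if_pos rfl, if_pos rfl]
    · rw [if_neg hij, if_neg]
      intro e
      apply hij
      have e3 : (j : Fin n → ℤ) = i := (Subtype.mk.injEq _ _ _ _).mp e
      exact Subtype.ext e3
  have hli : LinearIndependent Ω b₀ := by
    rw [Fintype.linearIndependent_iff]
    intro g hg i
    have e1 : ι (∑ j, g j • b₀ j) = 0 := by rw [hg, map_zero]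
    rw [map_sum] at e1
    have e2 : vb.repr (∑ j : {α // α ∈ SH hn f}, ι (g j • b₀ j))
        ⟨i, mem_SF.2 (mem_SH.1 i.2).1⟩ = 0 := by rw [e1, map_zero]; rfl
    rw [map_sum, Finsupp.finsetSum_apply] at e2
    have e3 : ∀ j : {α // α ∈ SH hn f}, vb.repr (ι (g j • b₀ j))
        ⟨i, mem_SF.2 (mem_SH.1 i.2).1⟩ = if j = i then g j else 0 := by
      intro j
      rw [map_smul, hb₀, map_smul, Finsupp.smul_apply, hco, smul_eq_mul, mul_ite, mul_one, mul_zero]
    rw [Finset.sum_congr rfl (fun j _ => e3 j), Finset.sum_ite_eq' Finset.univ i g,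
      if_pos (Finset.mem_univ i)] at e2
    exact e2
  have hsp : ⊤ ≤ Submodule.span Ω (Set.range b₀) := by
    intro x _
    have hx : A (ι x) = ι x := (hr _).1 ⟨x, rfl⟩
    have e0 : ∀ α : {α // α ∈ SF n f}, ∃ (β : {α // α ∈ SH hn f}) (q q' : ℚ),
        v α + A (v α) = ((q : Ω) + q' * κ) • (v β + A (v β)) := fun α =>
      w_red hn h hA hf hκ (mem_SF.1 α.2)
    choose r q q' hq using e0
    have e1 : (2 : Ω) • ι x = ι (∑ α, vb.repr (ι x) α • (((q α : Ω) + q' α * κ) • b₀ (r α))) := by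
      rw [map_sum]
      have e2 : ι x = ∑ α, vb.repr (ι x) α • vb α := (vb.sum_repr (ι x)).symm
      have e3 : (2 : Ω) • ι x = ι x + A (ι x) := by rw [hx, two_smul]
      rw [e3]
      have e4 : A (ι x) = ∑ α, vb.repr (ι x) α • A (vb α) := by
        conv_lhs => rw [e2]
        rw [map_sum]
        exact Finset.sum_congr rfl fun α _ => map_smul _ _ _
      rw [e4]
      conv_lhs => rw [e2]
      have e5 : (∑ α, vb.repr (∑ α, vb.repr (ι x) α • vb α) α • A (vb α)) =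
          ∑ α, vb.repr (ι x) α • A (vb α) := by rw [← e2]
      rw [e5, ← Finset.sum_add_distrib]
      refine Finset.sum_congr rfl fun α _ => ?_
      rw [map_smul, map_smul, hb₀, ← hq α, hvb α, smul_add]
    have e6 : x = (2 : Ω)⁻¹ • ∑ α, vb.repr (ι x) α • (((q α : Ω) + q' α * κ) • b₀ (r α)) := by
      apply hι
      rw [map_smul, ← e1, smul_smul, inv_mul_cancel₀ (two_ne_zero), one_smul]
    rw [e6]
    refine Submodule.smul_mem _ _ (Submodule.sum_mem _ fun α _ => Submodule.smul_mem _ _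
      (Submodule.smul_mem _ _ (Submodule.subset_span ⟨_, rfl⟩)))
  refine ⟨Module.Basis.mk hli hsp, fun j => ?_⟩
  rw [Module.Basis.mk_apply, hb₀]

theorem QK_sum {X : Type} (s : Finset X) (F : X → Ω) (κ : Ω)
    (hF : ∀ i ∈ s, ∃ q q' : ℚ, F i = q + q' * κ) : ∃ q q' : ℚ, ∑ i ∈ s, F i = q + q' * κ := by
  induction s using Finset.induction_on with
  | empty => exact ⟨0, 0, by simp⟩
  | insert a s ha ih =>
    obtain ⟨q, q', h1⟩ := hF a (Finset.mem_insert_self _ _)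
    obtain ⟨p, p', h2⟩ := ih fun i hi => hF i (Finset.mem_insert_of_mem hi)
    refine ⟨q + p, q' + p', ?_⟩
    rw [Finset.sum_insert ha, h1, h2]
    push_cast
    ring

theorem coord_rat (hn : 1 < n) (hι : Function.Injective ι)
    (he : ∀ x w, ι (θ x w) = π x (ι w)) (hA : A * A = 1)
    (hc : ∀ g : Perm (Fin n), Perm.sign g = 1 → A * π g = π g * A)
    (h : SN π f v) (hf : SC f)
    (hκ : ∀ α ∈ Sq n f, A (v α) = (κ * (-1) ^ ms α * (nm α : Ω)) • v (-α))
    (b : Module.Basis {α // α ∈ SH hn f} Ω (Fin d → Ω))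
    (hb : ∀ j : {α // α ∈ SH hn f}, ι (b j) = v j + A (v j)) (x : alternatingGroup (Fin n))
    (i j : {α // α ∈ SH hn f}) :
    ∃ q q' : ℚ, b.repr (θ x (b j)) i = q + q' * κ := by
  obtain ⟨M, hM⟩ := h.rat (x : Perm (Fin n)) (j : Fin n → ℤ) (mem_SH.1 j.2).1
  have e0 : ∀ α : {α // α ∈ SF n f}, ∃ (β : {α // α ∈ SH hn f}) (q q' : ℚ),
      v α + A (v α) = ((q : Ω) + q' * κ) • (v β + A (v β)) := fun α =>
    w_red hn h hA hf hκ (mem_SF.1 α.2)
  choose r q q' hq using e0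
  have hcx : ∀ y, A (π (x : Perm (Fin n)) y) = π (x : Perm (Fin n)) (A y) := fun y =>
    LinearMap.congr_fun (hc (x : Perm (Fin n)) (Perm.mem_alternatingGroup.1 x.2)) y
  have e1 : θ x (b j) = ∑ α : {α // α ∈ SF n f}, (M α : Ω) • (((q α : Ω) + q' α * κ) • b (r α)) := by
    apply hι
    rw [he, hb, map_add, ← hcx, hM, map_sum, map_sum, ← Finset.sum_add_distrib,
      ← Finset.sum_coe_sort]
    refine Finset.sum_congr rfl fun α _ => ?_
    rw [map_smul, map_smul, map_smul, hb, ← hq α, smul_add]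
  rw [e1, map_sum, Finsupp.finsetSum_apply]
  refine QK_sum _ _ _ fun α _ => ?_
  rw [map_smul, map_smul, Finsupp.smul_apply, Finsupp.smul_apply, Module.Basis.repr_self,
    Finsupp.single_apply]
  by_cases hi : r α = i
  · rw [if_pos hi]
    refine ⟨M α * q α, M α * q' α, ?_⟩
    rw [smul_eq_mul, smul_eq_mul]
    push_cast
    ring
  · rw [if_neg hi]
    exact ⟨0, 0, by simp⟩

/-- the invariant form on the representation of the symmetric group -/
theorem exists_form (hn : 1 < n) (hι : Function.Injective ι)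
    (he : ∀ x w, ι (θ x w) = π x (ι w)) (hA : A * A = 1)
    (hc : ∀ g : Perm (Fin n), Perm.sign g = 1 → A * π g = π g * A)
    (hs : ∀ g : Perm (Fin n), Perm.sign g = -1 → A * π g = - (π g * A))
    (hr : ∀ x, x ∈ LinearMap.range ι ↔ A x = x) (B : LinearMap.BilinForm Ω (Fin d → Ω))
    (hB : ∀ g x y, B (θ g x) (θ g y) = B x y) :
    ∃ B' : LinearMap.BilinForm Ω (Fin k → Ω), (∀ g x y, B' (π g x) (π g y) = B' x y) ∧
      (∀ x y, B' (ι x) (ι y) = B x y) ∧ ∀ x y, A x = x → A y = - y → B' x y = 0 := by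
  obtain ⟨L, hL⟩ := LinearMap.exists_leftInverse_of_injective ι (LinearMap.ker_eq_bot.2 hι)
  have hL' : ∀ x, L (ι x) = x := fun x => LinearMap.congr_fun hL x
  obtain ⟨P, hP⟩ : ∃ P : (Fin k → Ω) →ₗ[Ω] (Fin d → Ω),
      ∀ x, P x = L ((2 : Ω)⁻¹ • (x + A x)) :=
    ⟨L ∘ₗ ((2 : Ω)⁻¹ • (1 + A)), fun x => rfl⟩
  have h2 : (2 : Ω)⁻¹ • ((2 : Ω) • (1 : Ω)) = 1 := by
    rw [smul_smul, inv_mul_cancel₀ two_ne_zero, one_smul]
  have hιP : ∀ x, ι (P x) = (2 : Ω)⁻¹ • (x + A x) := by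
    intro x
    have e1 : (2 : Ω)⁻¹ • (x + A x) ∈ LinearMap.range ι := by
      rw [hr, map_smul, map_add, AA hA, add_comm]
    obtain ⟨z, hz⟩ := e1
    rw [hP, ← hz, hL']
  have hPι : ∀ x, P (ι x) = x := by
    intro x
    have hx : A (ι x) = ι x := (hr _).1 ⟨x, rfl⟩
    rw [hP, hx, ← two_smul Ω (ι x), smul_smul, inv_mul_cancel₀ two_ne_zero, one_smul, hL']
  have hP0 : ∀ y, A y = - y → P y = 0 := by
    intro y hy
    rw [hP, hy, add_neg_cancel, smul_zero, map_zero]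
  have hcg : ∀ g : Perm (Fin n), Perm.sign g = 1 → ∀ y, A (π g y) = π g (A y) := fun g hg y =>
    LinearMap.congr_fun (hc g hg) y
  have hsg : ∀ g : Perm (Fin n), Perm.sign g = -1 → ∀ y, A (π g y) = - π g (A y) := fun g hg y =>
    LinearMap.congr_fun (hs g hg) y
  have hPg : ∀ (g : Perm (Fin n)) (hg : Perm.sign g = 1) (y : Fin k → Ω),
      P (π g y) = θ ⟨g, Perm.mem_alternatingGroup.2 hg⟩ (P y) := by
    intro g hg y
    apply hι
    rw [he, hιP, hιP, hcg g hg, map_smul, map_add]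
  have hπm : ∀ (g g' : Perm (Fin n)) (y : Fin k → Ω), π g (π g' y) = π (g * g') y := by
    intro g g' y
    rw [map_mul]
    rfl
  -- an odd permutation
  obtain ⟨τ, hτ, hττ⟩ : ∃ τ : Perm (Fin n), Perm.sign τ = -1 ∧ τ * τ = 1 := by
    refine ⟨swap ⟨0, by omega⟩ ⟨1, hn⟩, ?_, swap_mul_self _ _⟩
    apply Perm.sign_swap
    intro e
    have := congrArg Fin.val e
    simp at this
  refine ⟨B.compl₁₂ P P + B.compl₁₂ (P ∘ₗ π τ) (P ∘ₗ π τ), ?_, ?_, ?_⟩
  · intro g x y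
    show B (P (π g x)) (P (π g y)) + B (P (π τ (π g x))) (P (π τ (π g y))) =
      B (P x) (P y) + B (P (π τ x)) (P (π τ y))
    rcases Int.units_eq_one_or (Perm.sign g) with hg | hg
    · have hg' : Perm.sign (τ * g * τ) = 1 := by
        rw [map_mul, map_mul, hτ, hg]; rfl
      have e1 : ∀ z, π τ (π g z) = π (τ * g * τ) (π τ z) := by
        intro z
        rw [hπm, hπm, mul_assoc, hττ, mul_one]
      rw [e1, e1, hPg g hg, hPg g hg, hPg _ hg', hPg _ hg', hB, hB]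
    · have hg' : Perm.sign (τ * g) = 1 := by
        rw [map_mul, hτ, hg]; rfl
      have hg'' : Perm.sign (g * τ) = 1 := by
        rw [map_mul, hτ, hg]; rfl
      have e1 : ∀ z, π τ (π g z) = π (τ * g) z := fun z => hπm _ _ _
      have e2 : ∀ z, π g z = π (g * τ) (π τ z) := by
        intro z
        rw [hπm, mul_assoc, hττ, mul_one]
      rw [e1, e1, e2, e2 y, hPg _ hg', hPg _ hg', hPg _ hg'', hPg _ hg'', hB, hB, add_comm]
  · intro x y
    show B (P (ι x)) (P (ι y)) + B (P (π τ (ι x))) (P (π τ (ι y))) = B x y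
    have hx : A (ι x) = ι x := (hr _).1 ⟨x, rfl⟩
    rw [hPι, hPι, hP0 (π τ (ι x)) (by rw [hsg τ hτ, hx]), map_zero, LinearMap.zero_apply, add_zero]
  · intro x y hx hy
    show B (P x) (P y) + B (P (π τ x)) (P (π τ y)) = 0
    rw [hP0 y hy, hP0 (π τ x) (by rw [hsg τ hτ, hx]), map_zero, map_zero, LinearMap.zero_apply,
      add_zero]

theorem form_norm (hn : 1 < n) (hι : Function.Injective ι)
    (he : ∀ x w, ι (θ x w) = π x (ι w)) (hA : A * A = 1)
    (hc : ∀ g : Perm (Fin n), Perm.sign g = 1 → A * π g = π g * A)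
    (hs : ∀ g : Perm (Fin n), Perm.sign g = -1 → A * π g = - (π g * A))
    (hr : ∀ x, x ∈ LinearMap.range ι ↔ A x = x) (h : SN π f v) (hf : SC f)
    (hκ : ∀ α ∈ Sq n f, A (v α) = (κ * (-1) ^ ms α * (nm α : Ω)) • v (-α))
    (b : Module.Basis {α // α ∈ SH hn f} Ω (Fin d → Ω))
    (hb : ∀ j : {α // α ∈ SH hn f}, ι (b j) = v j + A (v j))
    (B : LinearMap.BilinForm Ω (Fin d → Ω)) (hB : Parker.InvForm θ B) :
    ∃ μ : Ω, μ ≠ 0 ∧ ∀ i j, B (b i) (b j) = if i = j then μ * (nm (i : Fin n → ℤ) : Ω) else 0 := by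
  obtain ⟨B', hB1, hB2, hB3⟩ := exists_form hn hι he hA hc hs hr B hB.inv
  have hne : ∀ i j : {α // α ∈ SH hn f}, (i : Fin n → ℤ) ≠ -(j : Fin n → ℤ) := by
    intro i j e
    have e4 := congrFun e ⟨1, hn⟩
    rw [Pi.neg_apply, (mem_SH.1 i.2).2, (mem_SH.1 j.2).2] at e4
    omega
  have hoff : ∀ i j : {α // α ∈ SH hn f}, i ≠ j → B (b i) (b j) = 0 := by
    intro i j hij
    have hi := (mem_SH.1 i.2).1
    have hj := (mem_SH.1 j.2).1
    have hi' := Sq_neg hf hi
    have hj' := Sq_neg hf hj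
    have hij' : (i : Fin n → ℤ) ≠ j := fun e => hij (Subtype.ext e)
    rw [← hB2, hb, hb, hκ _ hi, hκ _ hj]
    simp only [map_add, map_smul, LinearMap.add_apply, LinearMap.smul_apply]
    rw [h.orth hB1 hi hj hij', h.orth hB1 hi hj' (hne i j), h.orth hB1 hi' hj
      (fun e => hne j i e.symm), h.orth hB1 hi' hj' (fun e => hij' (neg_injective e))]
    simp
  have hdi : ∀ i : {α // α ∈ SH hn f}, B (b i) (b i) = 2 * B' (v i) (v i) := by
    intro i
    have hi := (mem_SH.1 i.2).1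
    have hi' := Sq_neg hf hi
    have e1 : B' (v i) (A (v i)) = 0 := by
      rw [hκ _ hi, map_smul, h.orth hB1 hi hi' (hne i i), smul_zero]
    have e2 : B' (A (v i)) (v i) = 0 := by
      rw [hκ _ hi, map_smul, LinearMap.smul_apply, h.orth hB1 hi' hi (fun e => hne i i e.symm),
        smul_zero]
    have e3 : B' (v i + A (v i)) (v i - A (v i)) = 0 := by
      apply hB3
      · rw [map_add, AA hA, add_comm]
      · rw [map_sub, AA hA, neg_sub]
    rw [map_sub, map_add, LinearMap.add_apply, LinearMap.add_apply, e1, e2] at e3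
    rw [← hB2, hb]
    rw [map_add, map_add, LinearMap.add_apply, LinearMap.add_apply, e1, e2]
    linear_combination (-1 : Ω) * e3
  by_cases hS : Nonempty {α // α ∈ SH hn f}
  · obtain ⟨β⟩ := hS
    have hβ := (mem_SH.1 β.2).1
    have hnβ : (nm (β : Fin n → ℤ) : Ω) ≠ 0 := by
      exact_mod_cast (nm_pos (β : Fin n → ℤ)).ne'
    have hval : ∀ i : {α // α ∈ SH hn f}, B (b i) (b i) =
        (2 * (B' (v β) (v β) / (nm (β : Fin n → ℤ) : Ω))) * (nm (i : Fin n → ℤ) : Ω) := by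
      intro i
      have e1 := h.norm hB1 (mem_SH.1 i.2).1 hβ
      rw [hdi i]
      field_simp
      exact e1
    refine ⟨2 * (B' (v β) (v β) / (nm (β : Fin n → ℤ) : Ω)), ?_, ?_⟩
    · intro hμ
      have e1 : ∀ y, B (b β) y = 0 := by
        intro y
        rw [← b.sum_repr y, map_sum]
        refine Finset.sum_eq_zero fun j _ => ?_
        rw [map_smul]
        by_cases hj : β = j
        · rw [← hj, hval β, hμ, zero_mul, smul_zero]
        · rw [hoff β j hj, smul_zero]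
      exact b.ne_zero β (hB.nondeg _ e1)
    · intro i j
      by_cases hij : i = j
      · subst hij
        rw [if_pos rfl, hval]
      · rw [if_neg hij, hoff i j hij]
  · exact ⟨1, one_ne_zero, fun i => (hS ⟨i⟩).elim⟩

end A05_aux


theorem half_basis (hn : 1 < n) (hπ : π.IsIrreducible) (hι : Function.Injective ι)
    (he : ∀ x w, ι (θ x w) = π x (ι w)) (hA : A * A = 1)
    (hc : ∀ g : Perm (Fin n), Perm.sign g = 1 → A * π g = π g * A)
    (hs : ∀ g : Perm (Fin n), Perm.sign g = -1 → A * π g = - (π g * A))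
    (hr : ∀ x, x ∈ LinearMap.range ι ↔ A x = x) (h : SN π f v) (hf : SC f)
    (hκ : ∀ α ∈ Sq n f, A (v α) = (κ * (-1) ^ ms α * (nm α : Ω)) • v (-α)) :
    ∃ b : Module.Basis {α // α ∈ SH hn f} Ω (Fin d → Ω),
      (∀ x i j, ∃ q q' : ℚ, b.repr (θ x (b j)) i = q + q' * κ) ∧
      ∀ B : LinearMap.BilinForm Ω (Fin d → Ω), Parker.InvForm θ B →
        ∃ μ : Ω, μ ≠ 0 ∧ ∀ i j, B (b i) (b j) = if i = j then μ * (nm (i : Fin n → ℤ) : Ω) else 0 := by
  obtain ⟨b, hb⟩ := A05_aux.exists_b (ι := ι) hn hπ hι hA hr h hf hκ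
  exact ⟨b, fun x i j => A05_aux.coord_rat hn hι he hA hc h hf hκ b hb x i j, fun B hB =>
    A05_aux.form_norm hn hι he hA hc hs hr h hf hκ b hb B hB⟩

end

end AN
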