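import Pool.Agent.AN.B12

/-!
# MP_6c3636_al, AN, module H03: self conjugate sets of beads of small size (helper7)

`X` is self conjugate in the window: for `-W ≤ x ≤ W + 1`: `x ∈ X ↔ 1 - x ∉ X`. Let `x ∈ X`, `x - e ≥ -W`, `x - e ∉ X`. Then `1 - x ∉ X` and `x' - e ∉ X`, `x' ∈ X` for `x' = 1 - x + e` (`1 - x + e = 1 - (x - e)`, in the window), and `x' ≠ x` (otherwise `2 x = 1 + e`, `e` even). Move `x` to `x - e` and then `x'` to `x' - e`: (`x' ∈ X.erase x`, `x' - e = 1 - x` is not in `X` and not `x - e` since `x' ≠ x`; note also that `x' ≠ x - e`, or if it is equal there is nothing to do: `x' = x - e` is impossible as `x - e ∉ X`). The result is an `Ok` set of size `sz W X - 2 e ≥ 0` (`sz_nonneg`), contradiction to `sz W X < 2 e`.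
-/

namespace AN

noncomputable section

open Classical Equiv


theorem flu_of_sc {W e : ℕ} (he : 0 < e) (hev : Even e) {X : Finset ℤ} (h : Ok W X)
    (hb : ∀ x ∈ X, x ≤ W + 1)
    (hX : ∀ x : ℤ, -(W : ℤ) ≤ x → x ≤ W + 1 → (x ∈ X ↔ 1 - x ∉ X)) (hs : sz W X < 2 * e) : Flu W e X := by
  intro x hx hxe
  by_contra hn
  obtain ⟨hcard, hge⟩ := h
  have hxb := hb x hx
  have hxW := hge x hx
  have he0 : (0 : ℤ) < (e : ℤ) := by exact_mod_cast he
  obtain ⟨k, hk⟩ := hev
  have hek : (e : ℤ) = (k : ℤ) + k := by exact_mod_cast hk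
  -- the second bead
  have hy : 1 - (x - e) ∈ X := by
    by_contra hc
    exact hn ((hX (x - e) hxe (by omega)).2 hc)
  have hz : 1 - x ∉ X := (hX x hxW hxb).1 hx
  have hne : x - (e : ℤ) + e = x := by omega
  have hd : (-(e : ℤ)) ≠ 0 := by omega
  have h1 : x ∈ nx X (-(e : ℤ)) := by
    refine Finset.mem_filter.2 ⟨hx, ?_⟩
    rw [← sub_eq_add_neg]
    exact hn
  have h2 : 1 - (x - e) ∈ nx (mv X x (-(e : ℤ))) (-(e : ℤ)) := by
    refine Finset.mem_filter.2 ⟨?_, ?_⟩
    · refine Finset.mem_insert_of_mem (Finset.mem_erase.2 ⟨?_, hy⟩)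
      omega
    · intro hc
      rcases Finset.mem_insert.1 hc with hc | hc
      · omega
      · have h3 := (Finset.mem_erase.1 hc).2
        have h4 : 1 - (x - (e : ℤ)) + -(e : ℤ) = 1 - x := by ring
        rw [h4] at h3
        exact hz h3
  obtain ⟨s1, c1⟩ := sz_mv (n := W) hd h1
  obtain ⟨s2, c2⟩ := sz_mv (n := W) hd h2
  have hok : Ok W (mv (mv X x (-(e : ℤ))) (1 - (x - e)) (-(e : ℤ))) := by
    refine ⟨by rw [c2, c1, hcard], ?_⟩
    intro z hz'
    rcases Finset.mem_insert.1 hz' with hz1 | hz1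
    · omega
    · rcases Finset.mem_insert.1 (Finset.mem_erase.1 hz1).2 with hz2 | hz2
      · omega
      · exact hge z (Finset.mem_erase.1 hz2).2
  have h0 := sz_nonneg hok
  rw [s2, s1] at h0
  omega

end

end AN
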