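import Pool.Agent.AN.Defs

/-!
# MP_6c3636_al, AN, module H04: transversals of an involution (helper7)

`Finset.card`/`sum` over `s.filter p` and `s.filter q`: both are transversals of the orbits `{a, τ a}`. Define `φ a = a` if `q a`, `φ a = τ a` otherwise: a bijection of `s.filter p` onto `s.filter q` with `g (φ a) = g a` (`Finset.sum_nbij'`).
-/

namespace AN

noncomputable section

open Classical Equiv


theorem sum_transversal {A M : Type} [AddCommMonoid M] (s : Finset A) (τ : A → A) (p q : A → Prop)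
    (hτ : ∀ a ∈ s, τ a ∈ s) (hττ : ∀ a ∈ s, τ (τ a) = a) (hp : ∀ a ∈ s, (p (τ a) ↔ ¬ p a))
    (hq : ∀ a ∈ s, (q (τ a) ↔ ¬ q a)) (g : A → M) (hg : ∀ a ∈ s, g (τ a) = g a) :
    ∑ a ∈ s.filter p, g a = ∑ a ∈ s.filter q, g a := by
  refine Finset.sum_bij' (fun a _ => if q a then a else τ a) (fun a _ => if p a then a else τ a)
    ?_ ?_ ?_ ?_ ?_
  · intro a ha
    obtain ⟨h1, h2⟩ := Finset.mem_filter.1 ha
    by_cases h : q a
    · rw [if_pos h]
      exact Finset.mem_filter.2 ⟨h1, h⟩
    · rw [if_neg h]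
      exact Finset.mem_filter.2 ⟨hτ a h1, (hq a h1).2 h⟩
  · intro a ha
    obtain ⟨h1, h2⟩ := Finset.mem_filter.1 ha
    by_cases h : p a
    · rw [if_pos h]
      exact Finset.mem_filter.2 ⟨h1, h⟩
    · rw [if_neg h]
      exact Finset.mem_filter.2 ⟨hτ a h1, (hp a h1).2 h⟩
  · intro a ha
    obtain ⟨h1, h2⟩ := Finset.mem_filter.1 ha
    by_cases h : q a
    · simp only [if_pos h, if_pos h2]
    · have h3 : ¬ p (τ a) := fun h4 => (hp a h1).1 h4 h2
      simp only [if_neg h, if_neg h3]
      exact hττ a h1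
  · intro a ha
    obtain ⟨h1, h2⟩ := Finset.mem_filter.1 ha
    by_cases h : p a
    · simp only [if_pos h, if_pos h2]
    · have h3 : ¬ q (τ a) := fun h4 => (hq a h1).1 h4 h2
      simp only [if_neg h, if_neg h3]
      exact hττ a h1
  · intro a ha
    obtain ⟨h1, h2⟩ := Finset.mem_filter.1 ha
    by_cases h : q a
    · simp only [if_pos h]
    · simp only [if_neg h]
      exact (hg a h1).symm

end

end AN
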