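import Pool.Agent.AN.H01
import Pool.Agent.AN.C04

/-!
# MP_6c3636_al, AN, module H05: shapes of size e and e + 1 (helper7)

`e = 2 ^ i`, `f` self conjugate, `n ≤ e + 1`. If all `dq e α` vanish (`α ∈ SF n f`) both sides are `0` with `c = 0`. Otherwise some `α ∈ SF n f` has entries with `α p - α q ≥ 2` congruent to `±1` modulo `e`, so `α p - α q ≥ e - 1`. The set of the entries is an interval (`Lg_int`), symmetric under `x ↦ -x` (`-α` has the same entries with multiplicities: `cn_unique`), so it is `[-M, M]` with `2 M ≥ e - 1`, so `M ≥ e / 2` (`e` even), and `2 M + 1 ≤ n ≤ e + 1`: `M = e / 2`, `n = e + 1`, and every element of `[-M, M]` is an entry exactly once (the same for all `α ∈ SF n f`: `cn_unique`). CLAIM: the number of the `α ∈ SF n f` with `α 1 = 1` is `Nat.choose (e - 1) M`, which is odd (`e - 1 = 2 ^ i - 1`: `Nat.choose (2 ^ i - 1) k` is odd by induction on `k` from Pascal's rule and `Nat.choose (2 ^ i) k` even for `0 < k < 2 ^ i`, `Nat.Prime.dvd_choose_pow`). So we can take `c` equal to the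 left side. Proof of the claim: a legal sequence with these entries is a shuffle of `0`, `1, 2, ..., M` (in this order) and `-1, -2, ..., -M` (in this order) starting with `0`, and every such shuffle is legal; with `α 1 = 1` it is given by the set of the `M` places of the negative entries among the `e - 1` places `2, ..., e`.
-/

namespace AN

noncomputable section

open Classical Equiv

variable {n : ℕ}

/-- the odd binomial coefficients -/
private theorem H05_odd_choose {i : ℕ} (k : ℕ) (hk : k < 2 ^ i) : Odd (Nat.choose (2 ^ i - 1) k) := by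
  induction k with
  | zero => simp
  | succ k ih =>
    have h1 := ih (by omega)
    have h2 : Nat.choose (2 ^ i - 1 + 1) (k + 1) =
        Nat.choose (2 ^ i - 1) k + Nat.choose (2 ^ i - 1) (k + 1) := Nat.choose_succ_succ _ _
    have h3 : 2 ^ i - 1 + 1 = 2 ^ i := by omega
    rw [h3] at h2
    have h4 : 2 ∣ Nat.choose (2 ^ i) (k + 1) :=
      Nat.Prime.dvd_choose_pow Nat.prime_two (by omega) (by omega)
    rw [h2] at h4
    have h5 : Even (Nat.choose (2 ^ i - 1) k + Nat.choose (2 ^ i - 1) (k + 1)) := even_iff_two_dvd.2 h4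
    rcases Nat.even_or_odd (Nat.choose (2 ^ i - 1) (k + 1)) with h | h
    · exact absurd h5 (Nat.not_even_iff_odd.2 (h1.add_even h))
    · exact h

private theorem H05_cn_pos {α : Fin n → ℤ} {k : ℕ} {x : ℤ} (h : 0 < cn α k x) :
    ∃ j : Fin n, (j : ℕ) < k ∧ α j = x := by
  obtain ⟨j, hj⟩ := Finset.card_pos.1 h
  exact ⟨j, (Finset.mem_filter.1 hj).2⟩

private theorem H05_cn_pos' {α : Fin n → ℤ} {k : ℕ} {j : Fin n} (h : (j : ℕ) < k) : 0 < cn α k (α j) :=
  Finset.card_pos.2 ⟨j, Finset.mem_filter.2 ⟨Finset.mem_univ _, h, rfl⟩⟩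

/-- the entries below an entry come before it -/
private theorem H05_before {α : Fin n → ℤ} (h : Lg α) : ∀ (m : ℕ) (k : Fin n) (x : ℤ), (k : ℕ) = m → 0 ≤ x →
    x < α k → ∃ j : Fin n, j < k ∧ α j = x := by
  intro m
  induction m using Nat.strong_induction_on with
  | _ m ih =>
    intro k x hk hx hxk
    have h1 := (h k).1
    unfold occ at h1
    rw [if_neg (by omega)] at h1
    have h2 : 0 < cn α k (α k - 1) := by omega
    obtain ⟨j, hj, hj'⟩ := H05_cn_pos h2
    rcases eq_or_lt_of_le (show x ≤ α k - 1 by omega) with h3 | h3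
    · exact ⟨j, Fin.lt_def.2 hj, by omega⟩
    · obtain ⟨l, hl, hl'⟩ := ih j (by omega) j x rfl hx (by omega)
      exact ⟨l, hl.trans (Fin.lt_def.2 hj), hl'⟩

private theorem H05_before_neg {α : Fin n → ℤ} (h : Lg α) (k : Fin n) (x : ℤ) (hx : x ≤ 0) (hxk : α k < x) :
    ∃ j : Fin n, j < k ∧ α j = x := by
  obtain ⟨j, hj, hj'⟩ := H05_before (Lg_neg h) k k (-x) rfl (by omega) (by
    show -x < -(α k)
    omega)
  refine ⟨j, hj, ?_⟩
  have : -(α j) = -x := hj'
  omega

/-- the shuffle given by the set of the places of the negative entries -/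
private def H05_be (s : Finset (Fin n)) : Fin n → ℤ := fun k =>
  if k ∈ s then -(((s.filter (fun j => j ≤ k)).card : ℕ) : ℤ)
  else (((Finset.univ.filter (fun j : Fin n => j ∉ s ∧ j < k)).card : ℕ) : ℤ)

private theorem H05_neg_card {α : Fin n → ℤ} (h : Lg α) (hi : Function.Injective α) (k : Fin n) (hk : α k < 0) :
    α k = -((((Finset.univ.filter (fun j => α j < 0)).filter (fun j => j ≤ k)).card : ℕ) : ℤ) := by
  have h1 : ((Finset.univ.filter (fun j => α j < 0)).filter (fun j => j ≤ k)).image α =
      Finset.Icc (α k) (-1) := by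
    ext x
    simp only [Finset.mem_image, Finset.mem_filter, Finset.mem_univ, true_and, Finset.mem_Icc]
    constructor
    · rintro ⟨j, ⟨hj, hjk⟩, rfl⟩
      refine ⟨?_, by omega⟩
      by_contra hc
      obtain ⟨l, hl, hl'⟩ := H05_before_neg h j (α k) (by omega) (by omega)
      have := hi hl'
      subst this
      exact absurd (lt_of_lt_of_le hl hjk) (lt_irrefl _)
    · rintro ⟨hx1, hx2⟩
      rcases eq_or_lt_of_le hx1 with h2 | h2
      · exact ⟨k, ⟨hk, le_rfl⟩, h2⟩
      · obtain ⟨l, hl, hl'⟩ := H05_before_neg h k x (by omega) h2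
        exact ⟨l, ⟨by omega, hl.le⟩, hl'⟩
  have h2 := Finset.card_image_of_injective ((Finset.univ.filter (fun j => α j < 0)).filter (fun j => j ≤ k)) hi
  rw [h1, Int.card_Icc] at h2
  omega

private theorem H05_nonneg_card {α : Fin n → ℤ} (h : Lg α) (hi : Function.Injective α) (k : Fin n) (hk : 0 ≤ α k) :
    α k = (((Finset.univ.filter (fun j => ¬ α j < 0 ∧ j < k)).card : ℕ) : ℤ) := by
  have h1 : (Finset.univ.filter (fun j => ¬ α j < 0 ∧ j < k)).image α =
      Finset.Ico 0 (α k) := by
    ext x
    simp only [Finset.mem_image, Finset.mem_filter, Finset.mem_univ, true_and, Finset.mem_Ico]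
    constructor
    · rintro ⟨j, ⟨hj, hjk⟩, rfl⟩
      refine ⟨by omega, ?_⟩
      by_contra hc
      rcases eq_or_lt_of_le (not_lt.1 hc) with h2 | h2
      · have := hi h2
        subst this
        exact lt_irrefl _ hjk
      · obtain ⟨l, hl, hl'⟩ := H05_before h j j (α k) rfl hk h2
        have := hi hl'
        subst this
        exact absurd (hl.trans hjk) (lt_irrefl _)
    · rintro ⟨hx1, hx2⟩
      obtain ⟨l, hl, hl'⟩ := H05_before h k k x rfl hx1 hx2
      exact ⟨l, ⟨by omega, hl⟩, hl'⟩
  have h2 := Finset.card_image_of_injective (Finset.univ.filter (fun j => ¬ α j < 0 ∧ j < k)) hi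
  rw [h1, Int.card_Ico] at h2
  omega

/-- a legal sequence with different entries is the shuffle of its set -/
private theorem H05_eq_be {α : Fin n → ℤ} (h : Lg α) (hi : Function.Injective α) :
    H05_be (Finset.univ.filter (fun j => α j < 0)) = α := by
  funext k
  unfold H05_be
  by_cases hk : α k < 0
  · have hm : k ∈ Finset.univ.filter (fun j => α j < 0) := Finset.mem_filter.2 ⟨Finset.mem_univ _, hk⟩
    rw [if_pos hm]
    exact (H05_neg_card h hi k hk).symm
  · have hm : k ∉ Finset.univ.filter (fun j => α j < 0) := fun hc => hk (Finset.mem_filter.1 hc).2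
    rw [if_neg hm, H05_nonneg_card h hi k (by omega)]
    congr 2
    ext j
    simp only [Finset.mem_filter, Finset.mem_univ, true_and]

/-- the number of the places before `k` in `s` -/
private def H05_b (s : Finset (Fin n)) (k : ℕ) : ℕ := (Finset.univ.filter (fun j : Fin n => j ∈ s ∧ (j : ℕ) < k)).card

private theorem H05_be_mem {s : Finset (Fin n)} {k : Fin n} (hk : k ∈ s) :
    H05_be s k = -((H05_b s k : ℕ) : ℤ) - 1 := by
  unfold H05_be H05_b
  rw [if_pos hk]
  have : s.filter (fun j => j ≤ k) = insert k (Finset.univ.filter (fun j : Fin n => j ∈ s ∧ (j : ℕ) < k)) := by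
    ext j
    simp only [Finset.mem_filter, Finset.mem_insert, Finset.mem_univ, true_and]
    constructor
    · rintro ⟨h1, h2⟩
      rcases eq_or_lt_of_le h2 with h3 | h3
      · exact Or.inl h3
      · exact Or.inr ⟨h1, Fin.lt_def.1 h3⟩
    · rintro (h1 | h1)
      · subst h1
        exact ⟨hk, le_rfl⟩
      · exact ⟨h1.1, (Fin.lt_def.2 h1.2).le⟩
  rw [this, Finset.card_insert_of_notMem (by simp)]
  push_cast
  ring

private theorem H05_be_not_mem {s : Finset (Fin n)} {k : Fin n} (hk : k ∉ s) :
    H05_be s k = ((H05_b sᶜ k : ℕ) : ℤ) := by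
  unfold H05_be H05_b
  rw [if_neg hk]
  congr 2
  ext j
  simp only [Finset.mem_filter, Finset.mem_univ, true_and, Finset.mem_compl, Fin.lt_def]

private theorem H05_b_succ (s : Finset (Fin n)) (k : Fin n) :
    H05_b s (k + 1) = H05_b s k + if k ∈ s then 1 else 0 := by
  unfold H05_b
  by_cases hk : k ∈ s
  · rw [if_pos hk]
    have : Finset.univ.filter (fun j : Fin n => j ∈ s ∧ (j : ℕ) < k + 1) =
        insert k (Finset.univ.filter (fun j : Fin n => j ∈ s ∧ (j : ℕ) < k)) := by
      ext j
      simp only [Finset.mem_filter, Finset.mem_insert, Finset.mem_univ, true_and]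
      constructor
      · rintro ⟨h1, h2⟩
        rcases eq_or_lt_of_le (Nat.lt_succ_iff.1 h2) with h3 | h3
        · exact Or.inl (Fin.ext h3)
        · exact Or.inr ⟨h1, h3⟩
      · rintro (h1 | h1)
        · subst h1
          exact ⟨hk, by omega⟩
        · exact ⟨h1.1, by omega⟩
    rw [this, Finset.card_insert_of_notMem (by simp)]
  · rw [if_neg hk, add_zero]
    congr 1
    ext j
    simp only [Finset.mem_filter, Finset.mem_univ, true_and]
    constructor
    · rintro ⟨h1, h2⟩
      refine ⟨h1, ?_⟩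
      rcases eq_or_lt_of_le (Nat.lt_succ_iff.1 h2) with h3 | h3
      · exact absurd (Fin.ext h3 ▸ h1) hk
      · exact h3
    · rintro ⟨h1, h2⟩
      exact ⟨h1, by omega⟩

private theorem H05_b_zero (s : Finset (Fin n)) : H05_b s 0 = 0 := by
  unfold H05_b
  simp

private theorem H05_cn_succ (α : Fin n → ℤ) (k : Fin n) (x : ℤ) :
    cn α (k + 1) x = cn α k x + if α k = x then 1 else 0 := by
  unfold cn
  by_cases hk : α k = x
  · rw [if_pos hk]
    have : Finset.univ.filter (fun j : Fin n => (j : ℕ) < k + 1 ∧ α j = x) =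
        insert k (Finset.univ.filter (fun j : Fin n => (j : ℕ) < k ∧ α j = x)) := by
      ext j
      simp only [Finset.mem_filter, Finset.mem_insert, Finset.mem_univ, true_and]
      constructor
      · rintro ⟨h1, h2⟩
        rcases eq_or_lt_of_le (Nat.lt_succ_iff.1 h1) with h3 | h3
        · exact Or.inl (Fin.ext h3)
        · exact Or.inr ⟨h3, h2⟩
      · rintro (h1 | h1)
        · subst h1
          exact ⟨by omega, hk⟩
        · exact ⟨by omega, h1.2⟩
    rw [this, Finset.card_insert_of_notMem (by simp)]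
  · rw [if_neg hk, add_zero]
    congr 1
    ext j
    simp only [Finset.mem_filter, Finset.mem_univ, true_and]
    constructor
    · rintro ⟨h1, h2⟩
      refine ⟨?_, h2⟩
      rcases eq_or_lt_of_le (Nat.lt_succ_iff.1 h1) with h3 | h3
      · exact absurd (Fin.ext h3 ▸ h2) hk
      · exact h3
    · rintro ⟨h1, h2⟩
      exact ⟨by omega, h2⟩

/-- the entries of the shuffle before the step `k` -/
private theorem H05_cn_be (s : Finset (Fin n)) (x : ℤ) : ∀ k : ℕ, k ≤ n →
    cn (H05_be s) k x = if -((H05_b s k : ℕ) : ℤ) ≤ x ∧ x < ((H05_b sᶜ k : ℕ) : ℤ) then 1 else 0 := by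
  intro k
  induction k with
  | zero =>
    intro _
    rw [H05_b_zero, H05_b_zero]
    have : cn (H05_be s) 0 x = 0 := by
      unfold cn
      simp
    rw [this, if_neg]
    push_cast
    omega
  | succ k ih =>
    intro hk
    have h1 := ih (by omega)
    have h2 := H05_cn_succ (H05_be s) ⟨k, hk⟩ x
    have h3 := H05_b_succ s ⟨k, hk⟩
    have h4 := H05_b_succ sᶜ ⟨k, hk⟩
    simp only at h2 h3 h4
    by_cases hs : (⟨k, hk⟩ : Fin n) ∈ s
    · have h5 := H05_be_mem hs
      have hs' : (⟨k, hk⟩ : Fin n) ∉ sᶜ := by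
        rw [Finset.mem_compl, not_not]
        exact hs
      simp only at h5
      rw [if_pos hs] at h3
      rw [if_neg hs'] at h4
      rw [h5] at h2
      rw [h2, h1, h3, h4]
      push_cast
      split_ifs <;> omega
    · have h5 := H05_be_not_mem hs
      have hs' : (⟨k, hk⟩ : Fin n) ∈ sᶜ := Finset.mem_compl.2 hs
      simp only at h5
      rw [if_neg hs] at h3
      rw [if_pos hs'] at h4
      rw [h5] at h2
      rw [h2, h1, h3, h4]
      push_cast
      split_ifs <;> omega

private theorem H05_b_mono {s : Finset (Fin n)} {k : ℕ} (hn : 0 < n) (h0 : (⟨0, hn⟩ : Fin n) ∈ s) (hk : 0 < k) :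
    0 < H05_b s k :=
  Finset.card_pos.2 ⟨⟨0, hn⟩, Finset.mem_filter.2 ⟨Finset.mem_univ _, h0, hk⟩⟩

/-- the shuffles are legal -/
private theorem H05_be_legal {s : Finset (Fin n)} (hn : 0 < n) (h0 : (⟨0, hn⟩ : Fin n) ∉ s) : Lg (H05_be s) := by
  intro k
  have hc : ∀ x : ℤ, cn (H05_be s) k x = if -((H05_b s k : ℕ) : ℤ) ≤ x ∧ x < ((H05_b sᶜ k : ℕ) : ℤ) then 1 else 0 :=
    fun x => H05_cn_be s x k k.2.le
  unfold occ
  rw [hc, hc, hc, hc]
  by_cases hs : k ∈ s
  · have h5 := H05_be_mem hs
    have h6 : 0 < H05_b sᶜ k := by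
      apply H05_b_mono hn (by simpa using h0)
      rcases Nat.eq_zero_or_pos (k : ℕ) with h7 | h7
      · exact absurd (show k = ⟨0, hn⟩ from Fin.ext h7) (fun h8 => h0 (h8 ▸ hs))
      · exact h7
    rw [h5]
    constructor
    · push_cast
      split_ifs <;> omega
    · push_cast
      split_ifs <;> omega
  · have h5 := H05_be_not_mem hs
    rw [h5]
    rcases Nat.eq_zero_or_pos (k : ℕ) with h7 | h7
    · rw [h7, H05_b_zero, H05_b_zero]
      constructor
      · norm_num
      · norm_num
    · have h6 : 0 < H05_b sᶜ k := H05_b_mono hn (by simpa using h0) h7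
      constructor
      · push_cast
        split_ifs <;> omega
      · push_cast
        split_ifs <;> omega

private theorem H05_b_n (s : Finset (Fin n)) : H05_b s n = s.card := by
  unfold H05_b
  congr 1
  ext j
  simp

/-- all entries are different -/
private theorem H05_inj {α : Fin n → ℤ} {M : ℕ} (h : ∀ x, cn α n x = if -(M : ℤ) ≤ x ∧ x < M + 1 then 1 else 0) :
    Function.Injective α := by
  intro a b hab
  by_contra hne
  have h1 : 2 ≤ cn α n (α a) := by
    unfold cn
    have : ({a, b} : Finset (Fin n)) ⊆ Finset.univ.filter (fun j : Fin n => (j : ℕ) < n ∧ α j = α a) := by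
      intro j hj
      rw [Finset.mem_insert, Finset.mem_singleton] at hj
      rw [Finset.mem_filter]
      rcases hj with rfl | rfl
      · exact ⟨Finset.mem_univ _, j.2, rfl⟩
      · exact ⟨Finset.mem_univ _, j.2, hab.symm⟩
    calc 2 = ({a, b} : Finset (Fin n)).card := (Finset.card_pair hne).symm
      _ ≤ _ := Finset.card_le_card this
  rw [h] at h1
  split_ifs at h1 <;> omega

private theorem H05_neg_places {α : Fin n → ℤ} {M : ℕ}
    (h : ∀ x, cn α n x = if -(M : ℤ) ≤ x ∧ x < M + 1 then 1 else 0) :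
    (Finset.univ.filter (fun j => α j < 0)).card = M := by
  have hi := H05_inj h
  have h1 : (Finset.univ.filter (fun j => α j < 0)).image α = Finset.Icc (-(M : ℤ)) (-1) := by
    ext x
    simp only [Finset.mem_image, Finset.mem_filter, Finset.mem_univ, true_and, Finset.mem_Icc]
    constructor
    · rintro ⟨j, hj, rfl⟩
      have h2 := H05_cn_pos' (α := α) (k := n) j.2
      rw [h] at h2
      split_ifs at h2 with h3
      · omega
      · omega
    · rintro ⟨hx1, hx2⟩
      have h2 := h x
      rw [if_pos (by omega)] at h2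
      obtain ⟨j, _, hj⟩ := H05_cn_pos (show 0 < cn α n x by omega)
      exact ⟨j, by omega, hj⟩
  have h2 := Finset.card_image_of_injective (Finset.univ.filter (fun j => α j < 0)) hi
  rw [h1, Int.card_Icc] at h2
  omega

/-- the number of the legal sequences -/
private theorem H05_count {M : ℕ} (hM : 0 < M) (hn : 1 < n) (hnM : n = 2 * M + 1) {f : ℤ → ℤ} {γ : Fin n → ℤ}
    (hγ : γ ∈ SF n f) (h : ∀ x, cn γ n x = if -(M : ℤ) ≤ x ∧ x < M + 1 then 1 else 0) :
    (SH hn f).card = Nat.choose (2 * M - 1) M := by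
  have hγ' := mem_SF.1 hγ
  have hP : (Finset.univ.filter (fun j : Fin n => 2 ≤ (j : ℕ))).card = 2 * M - 1 := by
    have h1 : (Finset.univ.filter (fun j : Fin n => 2 ≤ (j : ℕ))) =
        (Finset.univ \ {(⟨0, by omega⟩ : Fin n), ⟨1, hn⟩}) := by
      ext j
      simp only [Finset.mem_filter, Finset.mem_univ, true_and, Finset.mem_sdiff, Finset.mem_insert,
        Finset.mem_singleton, Fin.ext_iff]
      omega
    rw [h1, Finset.card_sdiff_of_subset (Finset.subset_univ _), Finset.card_univ, Fintype.card_fin,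
      Finset.card_pair (by simp [Fin.ext_iff])]
    omega
  have hcn : ∀ α ∈ SF n f, ∀ x, cn α n x = if -(M : ℤ) ≤ x ∧ x < M + 1 then 1 else 0 := by
    intro α hα x
    rw [cn_unique (show occ α n = occ γ n from (mem_SF.1 hα).2.trans hγ'.2.symm), h]
  rw [← hP, ← Finset.card_powersetCard]
  refine Finset.card_bij' (fun α _ => Finset.univ.filter (fun j => α j < 0)) (fun s _ => H05_be s) ?_ ?_ ?_ ?_
  · intro α hα
    unfold SH at hα
    rw [Finset.mem_filter] at hα
    rw [Finset.mem_powersetCard]
    refine ⟨?_, H05_neg_places (hcn α hα.1)⟩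
    intro j hj
    rw [Finset.mem_filter] at hj ⊢
    refine ⟨Finset.mem_univ _, ?_⟩
    by_contra hc
    have : (j : ℕ) = 0 ∨ (j : ℕ) = 1 := by omega
    rcases this with h1 | h1
    · have := Lg_zero (mem_SF.1 hα.1).1 j h1
      omega
    · have h2 : j = ⟨1, hn⟩ := Fin.ext h1
      rw [h2] at hj
      omega
  · intro s hs
    rw [Finset.mem_powersetCard] at hs
    have h0 : (⟨0, by omega⟩ : Fin n) ∉ s := by
      intro hc
      have := hs.1 hc
      rw [Finset.mem_filter] at this
      simp at this
    have h1 : (⟨1, hn⟩ : Fin n) ∉ s := by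
      intro hc
      have := hs.1 hc
      rw [Finset.mem_filter] at this
      simp at this
    unfold SH
    rw [Finset.mem_filter]
    have hleg := H05_be_legal (by omega) h0
    have hcc : cn (H05_be s) n = cn γ n := by
      funext x
      rw [h, H05_cn_be s x n le_rfl, H05_b_n, H05_b_n, Finset.card_compl, Fintype.card_fin, hs.2]
      have : n - M = M + 1 := by omega
      rw [this]
      push_cast
      rfl
    refine ⟨mem_SF.2 ⟨hleg, ?_⟩, ?_⟩
    · rw [← hγ'.2]
      funext x
      unfold occ
      rw [hcc]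
    · rw [H05_be_not_mem h1]
      have h3 := H05_b_succ sᶜ (⟨0, by omega⟩ : Fin n)
      simp only at h3
      rw [H05_b_zero, if_pos (by simpa using h0)] at h3
      simp only
      rw [h3]
      rfl
  · intro α hα
    unfold SH at hα
    rw [Finset.mem_filter] at hα
    exact H05_eq_be (mem_SF.1 hα.1).1 (H05_inj (hcn α hα.1))
  · intro s hs
    ext j
    simp only [Finset.mem_filter, Finset.mem_univ, true_and]
    constructor
    · intro hj
      by_contra hc
      rw [H05_be_not_mem hc] at hj
      omega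
    · intro hj
      rw [H05_be_mem hj]
      omega

theorem small_sc {i : ℕ} (hi : 2 ≤ i) (hn : 1 < n) (hn' : n ≤ 2 ^ i + 1) {f : ℤ → ℤ} (hf : SC f) :
    ∃ c : ZMod 2, ∑ α ∈ SH hn f, ((dq ((2 ^ i : ℕ) : ℤ) α : ℕ) : ZMod 2) =
      c * ((SH hn f).card : ZMod 2) := by
  by_cases hz : ∀ α ∈ SH hn f, dq ((2 ^ i : ℕ) : ℤ) α = 0
  · refine ⟨0, ?_⟩
    rw [zero_mul]
    apply Finset.sum_eq_zero
    intro α hα
    rw [hz α hα]
    simp
  · push Not at hz
    obtain ⟨γ, hγ, hne⟩ := hz
    have hγ1 : γ ∈ SF n f := (Finset.mem_filter.1 hγ).1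
    have hγ2 := mem_SF.1 hγ1
    obtain ⟨M, hM⟩ : ∃ M : ℕ, 2 ^ i = 2 * M := ⟨2 ^ (i - 1), by
      rw [← pow_succ']
      congr 1
      omega⟩
    have hM0 : 2 ≤ M := by
      have : 2 ^ 2 ≤ 2 ^ i := Nat.pow_le_pow_right (by norm_num) hi
      omega
    obtain ⟨⟨p, q⟩, hpq⟩ := Finset.card_pos.1 (Nat.pos_of_ne_zero hne)
    rw [Finset.mem_filter] at hpq
    obtain ⟨_, _, hpq2, hpq3⟩ := hpq
    simp only at hpq2 hpq3
    have hd : (2 * M : ℤ) - 1 ≤ γ p - γ q := by
      have he : (((2 ^ i : ℕ) : ℤ)) = 2 * M := by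
        rw [hM]
        push_cast
        rfl
      rw [he] at hpq3
      rcases hpq3 with h1 | h1
      · have := Int.le_of_dvd (by omega) h1
        omega
      · have := Int.le_of_dvd (by omega) h1
        omega
    have hsym : ∀ x, cn γ n x = cn γ n (-x) := by
      intro x
      have h1 := congrFun (cn_unique (show occ γ n = occ (-γ) n from hγ2.2.trans (Sq_neg hf hγ2).2.symm)) x
      rw [h1]
      unfold cn
      congr 1
      ext j
      simp only [Finset.mem_filter, Finset.mem_univ, true_and, Pi.neg_apply]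
      constructor
      · rintro ⟨h2, h3⟩
        exact ⟨h2, by omega⟩
      · rintro ⟨h2, h3⟩
        exact ⟨h2, by omega⟩
    have hneg : ∀ j : Fin n, ∃ l : Fin n, γ l = -(γ j) := by
      intro j
      have h1 := H05_cn_pos' (α := γ) (k := n) j.2
      rw [hsym] at h1
      obtain ⟨l, _, hl⟩ := H05_cn_pos h1
      exact ⟨l, hl⟩
    obtain ⟨P, hP⟩ : ∃ P : Fin n, (M : ℤ) ≤ γ P := by
      by_cases h1 : (M : ℤ) ≤ γ p
      · exact ⟨p, h1⟩
      · obtain ⟨l, hl⟩ := hneg q
        exact ⟨l, by omega⟩
    obtain ⟨Q, hQ⟩ := hneg P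
    have hall : Finset.Icc (-(M : ℤ)) M ⊆ Finset.univ.image γ := by
      intro x hx
      rw [Finset.mem_Icc] at hx
      obtain ⟨k, hk⟩ := Lg_int hγ2.1 (show γ Q ≤ x by omega) (show x ≤ γ P by omega)
      exact Finset.mem_image.2 ⟨k, Finset.mem_univ _, hk⟩
    have hc1 : (Finset.univ.image γ).card ≤ n := by
      refine Finset.card_image_le.trans ?_
      simp
    have hc2 : (Finset.Icc (-(M : ℤ)) M).card = 2 * M + 1 := by
      rw [Int.card_Icc]
      omega
    have hc3 := Finset.card_le_card hall
    have hnM : n = 2 * M + 1 := by omega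
    have hc4 : Finset.Icc (-(M : ℤ)) M = Finset.univ.image γ := Finset.eq_of_subset_of_card_le hall (by omega)
    have hinj : Function.Injective γ := by
      have : (Finset.univ.image γ).card = (Finset.univ : Finset (Fin n)).card := by
        rw [← hc4, hc2, Finset.card_univ, Fintype.card_fin, hnM]
      have h1 := Finset.card_image_iff.1 this
      rw [Finset.coe_univ] at h1
      exact Set.injOn_univ.1 h1
    have hcn : ∀ x, cn γ n x = if -(M : ℤ) ≤ x ∧ x < M + 1 then 1 else 0 := by
      intro x
      by_cases hx : -(M : ℤ) ≤ x ∧ x < M + 1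
      · rw [if_pos hx]
        have h1 : x ∈ Finset.univ.image γ := by
          rw [← hc4, Finset.mem_Icc]
          omega
        obtain ⟨k, _, hk⟩ := Finset.mem_image.1 h1
        unfold cn
        rw [Finset.card_eq_one]
        refine ⟨k, ?_⟩
        ext j
        simp only [Finset.mem_filter, Finset.mem_univ, true_and, Finset.mem_singleton]
        constructor
        · rintro ⟨_, h2⟩
          exact hinj (h2.trans hk.symm)
        · rintro rfl
          exact ⟨j.2, hk⟩
      · rw [if_neg hx]
        by_contra hc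
        obtain ⟨j, _, hj⟩ := H05_cn_pos (Nat.pos_of_ne_zero hc)
        have h1 : x ∈ Finset.univ.image γ := Finset.mem_image.2 ⟨j, Finset.mem_univ _, hj⟩
        rw [← hc4, Finset.mem_Icc] at h1
        omega
    have hcard := H05_count (by omega) hn hnM hγ1 hcn
    have hodd : Odd (SH hn f).card := by
      rw [hcard, ← hM]
      exact H05_odd_choose M (by omega)
    refine ⟨∑ α ∈ SH hn f, ((dq ((2 ^ i : ℕ) : ℤ) α : ℕ) : ZMod 2), ?_⟩
    rw [ZMod.natCast_eq_one_iff_odd.2 hodd, mul_one]

end

end AN
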