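import Pool.Agent.AN.H02
import Pool.Agent.AN.H03
import Pool.Agent.AN.H04
import Pool.Agent.AN.H05
import Pool.Agent.AN.C07

/-!
# MP_6c3636_al, AN, module H06: the parity theorem for the half sums (helper7)

`e = 2 ^ i`, `W = n`, `Y = bd n f`, `n = r + e * q`, `r < e`. Write `α ∈ S` for `α ∈ SF n f`, `α 1 = 1`, `h` for their number; `X k = en (X0 n) ((List.ofFn α).take k)`. Let `g` be as in `wp_dq` (C06). The paths from `X0 n` to `Y` are the `List.ofFn α`, `α ∈ SF n f`.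
(1) `q = 0` (`n < e`): `dq e α = 0`: `α p - α q ≤ n - 1 ≤ e - 2` (`Lg_diff`), but a positive number `≥ 2` congruent to `±1` is at least `e - 1`.
(2) `q ≥ 1`, `r ≥ 2`: `cut_small` with `t = 2`, `χ X = (X = the set of beads after the steps 0, 1)`: `S` is the set of the `α` with `χ (X 2)`. So `∑ over S of wp = c * h`, `∑ over S of dq = (c + g) h = 0` in `ZMod 2` as `h` is even.
(3) `q = m + 1`, `r ≤ 1`, `t = e + r`. Call `X` self conjugate if `x ∈ X ↔ 1 - x ∉ X` for `-n ≤ x ≤ n + 1`; the conjugate of `X` is `cj X = {x ∈ [-n, n + 1] | 1 - x ∉ X}`; the set at the time `t` of `-α` is the conjugate of the one of `α` (`occ_neg`). Let `S1` be the part of `S` with `X t` not self conjugate, `S2` the other part. Let `χ X = (encode X < encode (cj X))` (`Encodable.encode`, injective, `cj (cj X) = X` for the sets which occur). `sum_transversal` (H04; `s` the `α ∈ SF n f` with `X t` not self conjugate, `τ α = -α`, `dq_neg`): `∑ over S1 of dq = ∑ over {α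 | χ (X t)} of dq`, and the same for the cardinalities (`g = 1`). `cut_large`: `∑ over S1 of dq = (c + g) * card S1`.
 For a self conjugate `X` let `N X ∈ ZMod 2` be the number of the paths of length `e * m` from `X` to `Y` (it is `(Fo e ^ m δ_Y) X` by `Fo_pow`), so `N X ≠ 0` implies `Rch e X Y` (`rch_of_ne`). The sum over the `α ∈ S2` with `X t = X` of `1 + ε wp` is (sum over the first parts, paths of length `t` from `X0 n` to `X` with second step `1`, of `1 + ε wp`) times `(Fe e ^ (e m) δ_Y) X = (1 + ε kap X) * N X * (1 + ε kap Y)` (`Fe_pow_mul`).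
 (i) If `N X = 0` for all self conjugate `X` which occur as `X t`: `card S2` and the sum over `S2` are `0` in `ZMod 2`, so `h = card S1` in `ZMod 2` and the sum is `(c + g) h = 0`.
 (ii) Let `N X ≠ 0` for a self conjugate `X = X*` which occurs. `X*` is flush (`flu_of_sc`; its size is `t = e + r < 2 e`). For every other `X'` which occurs at the time `t` (as `X t` for a legal sequence of length `t`), `N X' = 0`: if `N X' ≠ 0` and `X'` is flush then `X' = X*` (`flu_unique`); if `X'` is not flush, then `X' = mv Z a e` with `Z` an `Ok` set of size `r < e`, flush (`flu_of_sz`), `Rch e Z Y`, so `Z = X*` (`flu_unique`), but the sizes are different. So in `ZMod 2` (by the factorisation as above, for the number and for the sum, applied to all `X'`) `h` and the sum over `S` of `1 + ε wp` come only from `X*`: the sum is `A * (1 + ε kap X*) * N X* * (1 + ε kap Y)`, where `A = ∑ (1 + ε wp)` over the first parts. By `small_sc` (H05) and `wp_dq` (both for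 the length `t` and the shape of `X*`) `A = (1 + ε c') * number`. So the sum over `S` of `wp` is `c'' * h` for a `c''`, and `∑ over S of dq = (c'' + g) h = 0`.
-/

namespace AN

noncomputable section

open Classical Equiv

variable {n : ℕ}

namespace H06_aux

/-! paths -/

theorem sum_pth_add {M : Type} [AddCommMonoid M] (t k : ℕ) : ∀ (X : Finset ℤ) (g : List ℤ → M),
    ∑ l ∈ pth (t + k) X, g l = ∑ l₁ ∈ pth t X, ∑ l₂ ∈ pth k (en X l₁), g (l₁ ++ l₂) := by
  induction t with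
  | zero =>
    intro X g
    rw [Nat.zero_add]
    have h : pth 0 X = {[]} := rfl
    rw [h, Finset.sum_singleton]
    rfl
  | succ t ih =>
    intro X g
    rw [show t + 1 + k = (t + k) + 1 by omega, sum_pth, sum_pth]
    refine Finset.sum_congr rfl fun a _ => ?_
    rw [ih]
    rfl

theorem en_append : ∀ (l₁ : List ℤ) (X : Finset ℤ) (l₂ : List ℤ), en X (l₁ ++ l₂) = en (en X l₁) l₂
  | [], _, _ => rfl
  | a :: l, X, l₂ => en_append l (mv X a 1) l₂

theorem wp_append (e : ℤ) : ∀ (l₁ : List ℤ) (X : Finset ℤ) (l₂ : List ℤ),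
    wp e X (l₁ ++ l₂) = wp e X l₁ + wp e (en X l₁) l₂
  | [], X, l₂ => by
    show wp e X l₂ = 0 + wp e X l₂
    rw [Nat.zero_add]
  | a :: l, X, l₂ => by
    show wc e X a + wp e (mv X a 1) (l ++ l₂) = wc e X a + wp e (mv X a 1) l + wp e (en (mv X a 1) l) l₂
    rw [wp_append e l, Nat.add_assoc]

/-! dual numbers -/

/-- the weight of a path in the dual numbers -/
def w1 (e : ℤ) (X : Finset ℤ) (l : List ℤ) : DN := 1 + (DualNumber.eps : DN) * (wp e X l : DN)

theorem w1_append (e : ℤ) (X : Finset ℤ) (l₁ l₂ : List ℤ) :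
    w1 e X (l₁ ++ l₂) = w1 e X l₁ * w1 e (en X l₁) l₂ := by
  unfold w1
  rw [wp_append]
  have h : (DualNumber.eps : DN) * DualNumber.eps = 0 := DualNumber.eps_mul_eps
  push_cast
  linear_combination (-(wp e X l₁ : DN) * (wp e (en X l₁) l₂ : DN)) * h

theorem fst_sum {A : Type} (s : Finset A) (w : A → ℕ) :
    TrivSqZeroExt.fst (∑ a ∈ s, (1 + (DualNumber.eps : DN) * (w a : DN))) = (s.card : ZMod 2) := by
  have h : ∑ a ∈ s, (1 + (DualNumber.eps : DN) * (w a : DN)) =
      (s.card : DN) + DualNumber.eps * ((∑ a ∈ s, w a : ℕ) : DN) := by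
    rw [Finset.sum_add_distrib, ← Finset.mul_sum]
    push_cast
    simp
  rw [h]
  simp

theorem snd_sum {A : Type} (s : Finset A) (w : A → ℕ) :
    TrivSqZeroExt.snd (∑ a ∈ s, (1 + (DualNumber.eps : DN) * (w a : DN))) =
      ∑ a ∈ s, (w a : ZMod 2) := by
  have h : ∑ a ∈ s, (1 + (DualNumber.eps : DN) * (w a : DN)) =
      (s.card : DN) + DualNumber.eps * ((∑ a ∈ s, w a : ℕ) : DN) := by
    rw [Finset.sum_add_distrib, ← Finset.mul_sum]
    push_cast
    simp
  rw [h]
  simp [TrivSqZeroExt.fst_sum]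

/-- `x` is a multiple of `1 + c ε` by an element of the prime field -/
def Sl (c : ZMod 2) (x : DN) : Prop := TrivSqZeroExt.snd x = c * TrivSqZeroExt.fst x

theorem Sl_mul {c d : ZMod 2} {x y : DN} (hx : Sl c x) (hy : Sl d y) : Sl (c + d) (x * y) := by
  unfold Sl at *
  rw [TrivSqZeroExt.snd_mul, TrivSqZeroExt.fst_mul, hx, hy]
  simp only [smul_eq_mul, MulOpposite.smul_eq_mul_unop, MulOpposite.unop_op]
  ring

theorem Sl_eps (k : ℕ) : Sl (k : ZMod 2) (1 + (DualNumber.eps : DN) * (k : DN)) := by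
  unfold Sl
  simp

theorem Sl_sum {A : Type} (s : Finset A) (g : A → DN) (h : ∀ a ∈ s, Sl 0 (g a)) :
    Sl 0 (∑ a ∈ s, g a) := by
  unfold Sl at *
  rw [zero_mul]
  rw [TrivSqZeroExt.snd_sum]
  refine Finset.sum_eq_zero fun a ha => ?_
  rw [h a ha, zero_mul]

theorem Sl_Fo (d : ℤ) (m : ℕ) (φ : Finset ℤ → DN) (h : ∀ X, Sl 0 (φ X)) :
    ∀ X, Sl 0 ((Fo DN d ^ m) φ X) := by
  induction m with
  | zero => exact h
  | succ m ih =>
    intro X
    rw [pow_succ', Module.End.mul_apply]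
    exact Sl_sum _ _ fun a _ => ih _

/-- the function which is `1` at `Y` -/
def dl (Y : Finset ℤ) : Finset ℤ → DN := fun X => if X = Y then 1 else 0

theorem Sl_dl (Y X : Finset ℤ) : Sl 0 (dl Y X) := by
  unfold Sl dl
  split_ifs
  · simp
  · simp

theorem Ke_dl (e : ℕ) (Y : Finset ℤ) : Ke e (dl Y) =
    (1 + (DualNumber.eps : DN) * (kap (e : ℤ) Y : DN)) • dl Y := by
  funext X
  show (1 + (DualNumber.eps : DN) * (kap (e : ℤ) X : DN)) * dl Y X =
    (1 + (DualNumber.eps : DN) * (kap (e : ℤ) Y : DN)) * dl Y X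
  unfold dl
  split_ifs with h
  · rw [h]
  · rw [mul_zero, mul_zero]

/-- the number of the paths of length `e m` from `X` to `Y`, modulo `2` -/
def NN (e m : ℕ) (Y X : Finset ℤ) : DN := (Fo DN (e : ℤ) ^ m) (dl Y) X

theorem Fe_dl {e i : ℕ} (he : e = 2 ^ i) (hi : 1 ≤ i) (m : ℕ) (Y X : Finset ℤ) :
    (Fe e ^ (e * m)) (dl Y) X = (1 + (DualNumber.eps : DN) * (kap (e : ℤ) X : DN)) *
      (1 + (DualNumber.eps : DN) * (kap (e : ℤ) Y : DN)) * NN e m Y X := by
  rw [Fe_pow_mul he hi, Module.End.mul_apply, Module.End.mul_apply, Ke_dl, map_smul]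
  show (1 + (DualNumber.eps : DN) * (kap (e : ℤ) X : DN)) *
    ((1 + (DualNumber.eps : DN) * (kap (e : ℤ) Y : DN)) * NN e m Y X) = _
  rw [mul_assoc]

theorem rch_NN {e m : ℕ} {Y X : Finset ℤ} (h : NN e m Y X ≠ 0) : Rch e X Y := by
  obtain ⟨Y', h1, h2⟩ := rch_of_ne h
  have : Y' = Y := by
    by_contra hne
    apply h2
    unfold dl
    rw [if_neg hne]
  rw [this] at h1
  exact h1

theorem NN_unique {W e m r : ℕ} (he : 0 < e) (hr : r < e) {Y X X' : Finset ℤ} (h : Ok W X)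
    (h' : Ok W X') (hs : sz W X = ((e + r : ℕ) : ℤ)) (hs' : sz W X' = ((e + r : ℕ) : ℤ))
    (hX : Flu W e X) (hN : NN e m Y X ≠ 0) (hN' : NN e m Y X' ≠ 0) : X' = X := by
  have hY := rch_NN hN
  have hY' := rch_NN hN'
  by_cases hf : Flu W e X'
  · exact flu_unique he h' h hf hX hY' hY
  · exfalso
    unfold Flu at hf
    push Not at hf
    obtain ⟨x, hx, hx1, hx2⟩ := hf
    have hne : (-(e : ℤ)) ≠ 0 := by
      have : (0 : ℤ) < e := by exact_mod_cast he
      omega
    have hmem : x ∈ nx X' (-(e : ℤ)) := by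
      unfold nx
      rw [Finset.mem_filter]
      exact ⟨hx, by rw [← sub_eq_add_neg]; exact hx2⟩
    obtain ⟨hsz, hcard⟩ := sz_mv (n := W) hne hmem
    have hZ : Ok W (mv X' x (-(e : ℤ))) := by
      refine ⟨by rw [hcard]; exact h'.1, ?_⟩
      intro y hy
      unfold mv at hy
      rw [Finset.mem_insert, Finset.mem_erase] at hy
      rcases hy with hy | hy
      · rw [hy, ← sub_eq_add_neg]
        exact hx1
      · exact h'.2 y hy.2
    have hsZ : sz W (mv X' x (-(e : ℤ))) = r := by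
      rw [hsz, hs']
      push_cast
      ring
    have hfZ : Flu W e (mv X' x (-(e : ℤ))) := flu_of_sz he hZ (by
      rw [hsZ]
      exact_mod_cast hr)
    have hstep : X' = mv (mv X' x (-(e : ℤ))) (x - e) e := by
      unfold mv
      rw [← sub_eq_add_neg]
      have e1 : (insert (x - (e : ℤ)) (X'.erase x)).erase (x - e) = X'.erase x := by
        rw [Finset.erase_insert]
        intro hc
        exact hx2 (Finset.mem_of_mem_erase hc)
      rw [e1, sub_add_cancel, Finset.insert_erase hx]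
    have hmemZ : x - (e : ℤ) ∈ nx (mv X' x (-(e : ℤ))) (e : ℤ) := by
      unfold nx mv
      rw [Finset.mem_filter, ← sub_eq_add_neg]
      refine ⟨Finset.mem_insert_self _ _, ?_⟩
      rw [sub_add_cancel, Finset.mem_insert, Finset.mem_erase]
      rintro (hc | hc)
      · omega
      · exact hc.1 rfl
    have hRZ : Rch e (mv X' x (-(e : ℤ))) Y := by
      unfold Rch at *
      exact Relation.ReflTransGen.head ⟨x - e, hmemZ, hstep⟩ hY'
    have hEq := flu_unique he hZ h hfZ hX hRZ hY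
    have : sz W (mv X' x (-(e : ℤ))) = sz W X := by rw [hEq]
    rw [hsZ, hs] at this
    push_cast at this
    omega

/-! sequences and paths -/

theorem take_mem {t k : ℕ} : ∀ {X : Finset ℤ} {l : List ℤ}, l ∈ pth (t + k) X → l.take t ∈ pth t X := by
  induction t with
  | zero =>
    intro X l _
    rw [List.take_zero]
    exact Finset.mem_singleton_self _
  | succ t ih =>
    intro X l h
    rw [show t + 1 + k = (t + k) + 1 by omega] at h
    cases l with
    | nil =>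
      have := length_of_mem_pth h
      simp at this
    | cons a l =>
      rw [mem_pth_succ] at h
      rw [List.take_succ_cons, mem_pth_succ]
      exact ⟨h.1, ih h.2⟩

/-- the set of beads before the step `k` -/
def XX (W : ℕ) (α : Fin n → ℤ) (k : ℕ) : Finset ℤ := en (X0 W) ((List.ofFn α).take k)

theorem XX_n (W : ℕ) (α : Fin n → ℤ) : XX W α n = en (X0 W) (List.ofFn α) := by
  unfold XX
  rw [List.take_of_length_le (by simp)]

theorem take_pth {W : ℕ} (hW : n ≤ W) {α : Fin n → ℤ} (h : Lg α) {t : ℕ} (ht : t ≤ n) :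
    (List.ofFn α).take t ∈ pth t (X0 W) := by
  have h1 := (ofFn_iff hW α).2 h
  have h2 : List.ofFn α ∈ pth (t + (n - t)) (X0 W) := by
    rw [Nat.add_sub_cancel' ht]
    exact h1
  exact take_mem h2

theorem restr {W : ℕ} (hW : n ≤ W) {α : Fin n → ℤ} (h : Lg α) {t : ℕ} (ht : t ≤ n) :
    ∃ β : Fin t → ℤ, β ∈ Sq t (occ α t) ∧ List.ofFn β = (List.ofFn α).take t := by
  obtain ⟨β, hβ, hβ'⟩ := (mem_pth_iff (ht.trans hW)).1 (take_pth hW h ht)
  refine ⟨β, ⟨hβ, ?_⟩, hβ'⟩
  have h2 : en (X0 W) ((List.ofFn β).take t) = bd W (occ β t) :=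
    (en_eq_iff (ht.trans hW) hβ le_rfl ⟨β, hβ, rfl⟩).2 rfl
  have h3 : (List.ofFn β).take t = List.ofFn β := List.take_of_length_le (by simp)
  rw [h3, hβ'] at h2
  exact ((en_eq_iff hW h ht ⟨β, hβ, rfl⟩).1 h2).symm

theorem XX_bd {W : ℕ} (hW : n ≤ W) {α : Fin n → ℤ} (h : Lg α) {t : ℕ} (ht : t ≤ n) :
    XX W α t = bd W (occ α t) := by
  obtain ⟨β, hβ, _⟩ := restr hW h ht
  exact (en_eq_iff hW h ht ⟨β, hβ⟩).2 rfl

theorem sum_paths {k W : ℕ} (hW : k ≤ W) {f : ℤ → ℤ} (hf : ∃ β : Fin k → ℤ, β ∈ Sq k f) {M : Type}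
    [AddCommMonoid M] (P : List ℤ → Prop) (Q : List ℤ → Prop) [DecidablePred Q]
    [DecidablePred fun α : Fin k → ℤ => P (List.ofFn α)]
    (hQ : ∀ l, Q l ↔ (en (X0 W) l = bd W f ∧ P l)) (g : List ℤ → M) :
    ∑ l ∈ (pth k (X0 W)).filter Q, g l =
      ∑ α ∈ (SF k f).filter (fun α : Fin k → ℤ => P (List.ofFn α)), g (List.ofFn α) := by
  have h : (pth k (X0 W)).filter Q =
      ((SF k f).filter (fun α : Fin k → ℤ => P (List.ofFn α))).image List.ofFn := by
    ext l
    simp only [Finset.mem_filter, Finset.mem_image, hQ]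
    constructor
    · rintro ⟨h1, h2, h3⟩
      obtain ⟨α, hα, rfl⟩ := (mem_pth_iff hW).1 h1
      refine ⟨α, ⟨mem_SF.2 ⟨hα, ?_⟩, h3⟩, rfl⟩
      rw [← XX_n W] at h2
      exact (en_eq_iff hW hα le_rfl hf).1 h2
    · rintro ⟨α, ⟨h1, h3⟩, rfl⟩
      rw [mem_SF] at h1
      refine ⟨(mem_pth_iff hW).2 ⟨α, h1.1, rfl⟩, ?_, h3⟩
      rw [← XX_n W]
      exact (en_eq_iff hW h1.1 le_rfl hf).2 h1.2
  rw [h, Finset.sum_image]
  intro a _ b _ hab
  exact List.ofFn_injective hab

theorem card_paths {k W : ℕ} (hW : k ≤ W) {f : ℤ → ℤ} (hf : ∃ β : Fin k → ℤ, β ∈ Sq k f)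
    (P : List ℤ → Prop) (Q : List ℤ → Prop) [DecidablePred Q]
    [DecidablePred fun α : Fin k → ℤ => P (List.ofFn α)]
    (hQ : ∀ l, Q l ↔ (en (X0 W) l = bd W f ∧ P l)) :
    ((pth k (X0 W)).filter Q).card =
      ((SF k f).filter (fun α : Fin k → ℤ => P (List.ofFn α))).card := by
  rw [Finset.card_eq_sum_ones, Finset.card_eq_sum_ones]
  exact sum_paths hW hf P Q hQ (fun _ => 1)

/-- the beads after the steps `0`, `1` -/
def X2 (W : ℕ) : Finset ℤ := mv (mv (X0 W) 0 1) 1 1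

theorem take_two (hn : 1 < n) (α : Fin n → ℤ) :
    (List.ofFn α).take 2 = [α ⟨0, by omega⟩, α ⟨1, hn⟩] := by
  obtain ⟨m, rfl⟩ : ∃ m, n = m + 2 := ⟨n - 2, by omega⟩
  rw [List.ofFn_succ, List.ofFn_succ]
  rfl

theorem X2_iff {W : ℕ} (hn : 1 < n) {α : Fin n → ℤ} (h : Lg α) :
    en (X0 W) ((List.ofFn α).take 2) = X2 W ↔ α ⟨1, hn⟩ = 1 := by
  rw [take_two hn]
  have h0 : α ⟨0, by omega⟩ = 0 := Lg_zero h _ rfl
  rw [h0]
  show mv (mv (X0 W) 0 1) (α ⟨1, hn⟩) 1 = X2 W ↔ _
  constructor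
  · intro he
    rcases Lg_one hn h with h1 | h1
    · exact h1
    · exfalso
      rw [h1] at he
      have h2 : (2 : ℤ) ∈ X2 W := Finset.mem_insert_self _ _
      rw [← he] at h2
      unfold mv X0 at h2
      simp at h2
  · intro h1
    rw [h1]
    rfl

/-! conjugates -/

/-- the conjugate -/
def cj (W : ℕ) (X : Finset ℤ) : Finset ℤ :=
  (Finset.Icc (-(W : ℤ)) (W + 1)).filter (fun x => 1 - x ∉ X)

theorem cn_low {W : ℕ} (hW : n ≤ W) {α : Fin n → ℤ} (h : Lg α) (t : ℕ) {x : ℤ}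
    (hx : x < -(W : ℤ) + 1) : cn α t x = 0 := by
  unfold cn
  rw [Finset.card_eq_zero, Finset.filter_eq_empty_iff]
  rintro j _ ⟨_, h2⟩
  have h3 := (Lg_bd h j).1
  have h4 := j.2
  omega

theorem cn_high {W : ℕ} (hW : n ≤ W) {α : Fin n → ℤ} (h : Lg α) (t : ℕ) {x : ℤ}
    (hx : (W : ℤ) ≤ x) : cn α t x = 0 := by
  unfold cn
  rw [Finset.card_eq_zero, Finset.filter_eq_empty_iff]
  rintro j _ ⟨_, h2⟩
  have h3 := (Lg_bd h j).2
  have h4 := j.2
  omega

theorem XX_neg {W : ℕ} (hW : n ≤ W) {α : Fin n → ℤ} (h : Lg α) {t : ℕ} (ht : t ≤ n) :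
    XX W (-α) t = cj W (XX W α t) := by
  ext x
  unfold cj
  rw [Finset.mem_filter, Finset.mem_Icc]
  unfold XX
  rw [mem_en hW (Lg_neg h) ht, mem_en hW h ht, occ_neg]
  rcases occ_01 h t (1 - x) with h0 | h0
  · rw [h0]
    constructor
    · rintro ⟨h1, _⟩
      refine ⟨⟨h1, ?_⟩, ?_⟩
      · by_contra hc
        have h2 : occ α t (1 - x) = 1 := by
          unfold occ
          rw [cn_low hW h t (by omega), cn_low hW h t (by omega), if_pos (by omega)]
          simp
        omega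
      · rintro ⟨_, h3⟩
        omega
    · rintro ⟨⟨h1, _⟩, _⟩
      exact ⟨h1, by norm_num⟩
  · rw [h0]
    constructor
    · rintro ⟨_, h1⟩
      omega
    · rintro ⟨⟨_, h1⟩, h2⟩
      exfalso
      exact h2 ⟨by omega, rfl⟩

theorem XX_le {W : ℕ} (hW : n ≤ W) {α : Fin n → ℤ} (h : Lg α) {t : ℕ} (ht : t ≤ n) :
    ∀ x ∈ XX W α t, x ≤ W + 1 := by
  intro x hx
  unfold XX at hx
  rw [mem_en hW h ht] at hx
  by_contra hc
  have h2 := hx.2
  unfold occ at h2
  rw [cn_high hW h t (by omega), cn_high hW h t (by omega), if_neg (by omega)] at h2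
  simp at h2

theorem SC_occ {W : ℕ} (hW : n ≤ W) {α : Fin n → ℤ} (h : Lg α) {t : ℕ} (ht : t ≤ n)
    (hc : cj W (XX W α t) = XX W α t) : SC (occ α t) := by
  obtain ⟨β, hβ, _⟩ := restr hW h ht
  have h1 : XX W (-α) t = bd W (occ α t) := by
    rw [XX_neg hW h ht, hc]
    exact XX_bd hW h ht
  have h2 : occ (-α) t = occ α t := (en_eq_iff hW (Lg_neg h) ht ⟨β, hβ⟩).1 h1
  intro x
  have h3 := congrFun h2 (1 - x)
  rw [occ_neg, sub_sub_cancel] at h3
  exact h3.symm

theorem XX_ok {W : ℕ} (hW : n ≤ W) {α : Fin n → ℤ} (h : Lg α) {t : ℕ} (ht : t ≤ n) :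
    Ok W (XX W α t) ∧ sz W (XX W α t) = t := path_ok (take_pth hW h ht)

theorem flu_XX {W e : ℕ} (he : 0 < e) (hev : Even e) (hW : n ≤ W) {α : Fin n → ℤ} (h : Lg α)
    {t : ℕ} (ht : t ≤ n) (ht2 : t < 2 * e) (hc : cj W (XX W α t) = XX W α t) :
    Flu W e (XX W α t) := by
  obtain ⟨h1, h2⟩ := XX_ok hW h ht
  refine flu_of_sc he hev h1 (XX_le hW h ht) ?_ (by rw [h2]; exact_mod_cast ht2)
  intro x hx1 hx2
  constructor
  · intro hx
    rw [← hc] at hx
    unfold cj at hx
    exact (Finset.mem_filter.1 hx).2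
  · intro hx
    rw [← hc]
    unfold cj
    rw [Finset.mem_filter, Finset.mem_Icc]
    exact ⟨⟨hx1, hx2⟩, hx⟩

/-! the factorisation -/

theorem sum_cut (e : ℕ) {t k W : ℕ} (ht : 2 ≤ t) (Y X : Finset ℤ) :
    ∑ l ∈ (pth (t + k) (X0 W)).filter (fun l => en (X0 W) l = Y ∧
        (en (X0 W) (l.take 2) = X2 W ∧ en (X0 W) (l.take t) = X)), w1 (e : ℤ) (X0 W) l =
      (∑ l ∈ (pth t (X0 W)).filter (fun l => en (X0 W) l = X ∧ en (X0 W) (l.take 2) = X2 W),
        w1 (e : ℤ) (X0 W) l) * (Fe e ^ k) (dl Y) X := by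
  rw [Finset.sum_filter, sum_pth_add, Finset.sum_filter, Finset.sum_mul]
  refine Finset.sum_congr rfl fun l₁ hl₁ => ?_
  have hlen := length_of_mem_pth hl₁
  have e1 : ∀ l₂ : List ℤ, (l₁ ++ l₂).take t = l₁ := fun l₂ => List.take_left' hlen
  have e2 : ∀ l₂ : List ℤ, (l₁ ++ l₂).take 2 = l₁.take 2 := fun l₂ =>
    List.take_append_of_le_length (by omega)
  by_cases hc : en (X0 W) l₁ = X ∧ en (X0 W) (l₁.take 2) = X2 W
  · rw [if_pos hc, Fe_path, Finset.mul_sum, ← hc.1]
    refine Finset.sum_congr rfl fun l₂ _ => ?_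
    rw [e1, e2, en_append, w1_append]
    unfold dl
    by_cases hY : en (en (X0 W) l₁) l₂ = Y
    · rw [if_pos ⟨hY, hc.2, rfl⟩, if_pos hY, mul_one]
      rfl
    · rw [if_neg (fun hh => hY hh.1), if_neg hY, mul_zero, mul_zero]
  · rw [if_neg hc, zero_mul]
    refine Finset.sum_eq_zero fun l₂ _ => ?_
    rw [e1, e2, if_neg]
    rintro ⟨_, h2, h3⟩
    exact hc ⟨h3, h2⟩

theorem sum_SH {k W : ℕ} (hk : 1 < k) (hW : k ≤ W) {f : ℤ → ℤ} (hf : ∃ β : Fin k → ℤ, β ∈ Sq k f)
    {M : Type} [AddCommMonoid M] (Q : List ℤ → Prop) [DecidablePred Q]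
    (hQ : ∀ l, Q l ↔ (en (X0 W) l = bd W f ∧ en (X0 W) (l.take 2) = X2 W)) (g : List ℤ → M) :
    ∑ l ∈ (pth k (X0 W)).filter Q, g l = ∑ α ∈ SH hk f, g (List.ofFn α) := by
  rw [sum_paths hW hf (fun l => en (X0 W) (l.take 2) = X2 W) _ hQ g]
  refine Finset.sum_congr ?_ fun _ _ => rfl
  unfold SH
  ext α
  rw [Finset.mem_filter, Finset.mem_filter, mem_SF]
  constructor
  · rintro ⟨h1, h2⟩
    exact ⟨h1, (X2_iff hk h1.1).1 h2⟩
  · rintro ⟨h1, h2⟩
    exact ⟨h1, (X2_iff hk h1.1).2 h2⟩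

theorem card_SH {k W : ℕ} (hk : 1 < k) (hW : k ≤ W) {f : ℤ → ℤ} (hf : ∃ β : Fin k → ℤ, β ∈ Sq k f)
    (Q : List ℤ → Prop) [DecidablePred Q]
    (hQ : ∀ l, Q l ↔ (en (X0 W) l = bd W f ∧ en (X0 W) (l.take 2) = X2 W)) :
    ((pth k (X0 W)).filter Q).card = (SH hk f).card := by
  rw [Finset.card_eq_sum_ones, Finset.card_eq_sum_ones]
  exact sum_SH hk hW hf Q hQ (fun _ => 1)

theorem sum_fib (e : ℕ) {t k W : ℕ} (ht : 2 ≤ t) (hn : 1 < n) (hnk : n = t + k) (hW : n ≤ W)
    {f : ℤ → ℤ} (hf : ∃ β : Fin n → ℤ, β ∈ Sq n f) (X : Finset ℤ) :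
    ∑ α ∈ (SH hn f).filter (fun α => XX W α t = X), w1 (e : ℤ) (X0 W) (List.ofFn α) =
      (∑ l ∈ (pth t (X0 W)).filter (fun l => en (X0 W) l = X ∧ en (X0 W) (l.take 2) = X2 W),
        w1 (e : ℤ) (X0 W) l) * (Fe e ^ k) (dl (bd W f)) X := by
  rw [← sum_cut e ht (bd W f) X, ← hnk]
  rw [sum_paths hW hf (fun l => en (X0 W) (l.take 2) = X2 W ∧ en (X0 W) (l.take t) = X) _
    (fun _ => Iff.rfl) (w1 (e : ℤ) (X0 W))]
  refine Finset.sum_congr ?_ fun _ _ => rfl
  unfold SH XX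
  ext α
  rw [Finset.mem_filter, Finset.mem_filter, Finset.mem_filter, mem_SF]
  constructor
  · rintro ⟨⟨h1, h2⟩, h3⟩
    exact ⟨h1, (X2_iff hn h1.1).2 h2, h3⟩
  · rintro ⟨h1, h2, h3⟩
    exact ⟨⟨h1, (X2_iff hn h1.1).1 h2⟩, h3⟩

theorem zero_part {e i t m W : ℕ} (he : e = 2 ^ i) (hi : 1 ≤ i) (ht : 2 ≤ t) (hn : 1 < n)
    (hnk : n = t + e * m) (hW : n ≤ W) {f : ℤ → ℤ} (hf : ∃ β : Fin n → ℤ, β ∈ Sq n f)
    (Q : Finset ℤ → Prop) [DecidablePred fun α : Fin n → ℤ => Q (XX W α t)]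
    (h : ∀ α ∈ SH hn f, Q (XX W α t) → NN e m (bd W f) (XX W α t) = 0) :
    ∑ α ∈ (SH hn f).filter (fun α => Q (XX W α t)), w1 (e : ℤ) (X0 W) (List.ofFn α) = 0 := by
  rw [← Finset.sum_fiberwise_of_maps_to (t := (SH hn f).image (fun α => XX W α t))
    (g := fun α => XX W α t)
    (fun α hα => Finset.mem_image_of_mem _ (Finset.mem_filter.1 hα).1)]
  refine Finset.sum_eq_zero fun X hX => ?_
  by_cases hQ : Q X
  · have e1 : ((SH hn f).filter (fun α => Q (XX W α t))).filter (fun α => XX W α t = X) =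
        (SH hn f).filter (fun α => XX W α t = X) := by
      ext α
      rw [Finset.mem_filter, Finset.mem_filter, Finset.mem_filter]
      constructor
      · rintro ⟨⟨h1, _⟩, h3⟩
        exact ⟨h1, h3⟩
      · rintro ⟨h1, h3⟩
        exact ⟨⟨h1, by rw [h3]; exact hQ⟩, h3⟩
    rw [e1, sum_fib e ht hn hnk hW hf X, Fe_dl he hi]
    obtain ⟨α, hα, rfl⟩ := Finset.mem_image.1 hX
    rw [h α hα hQ, mul_zero, mul_zero]
  · refine Finset.sum_eq_zero fun α hα => ?_
    exfalso
    rw [Finset.mem_filter, Finset.mem_filter] at hα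
    apply hQ
    rw [← hα.2]
    exact hα.1.2

theorem gen_inst {W n t : ℕ} {Y : Finset ℤ} {G : List ℤ → ZMod 2} {c : ZMod 2}
    (hc : ∀ χ : Finset ℤ → Prop,
      ∑ l ∈ (pth n (X0 W)).filter (fun l => en (X0 W) l = Y ∧ χ (en (X0 W) (l.take t))), G l =
      c * (((pth n (X0 W)).filter (fun l => en (X0 W) l = Y ∧ χ (en (X0 W) (l.take t)))).card : ZMod 2))
    (χ : Finset ℤ → Prop) (Q : List ℤ → Prop) [DecidablePred Q]
    (hQ : ∀ l, Q l ↔ (en (X0 W) l = Y ∧ χ (en (X0 W) (l.take t)))) :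
    ∑ l ∈ (pth n (X0 W)).filter Q, G l = c * (((pth n (X0 W)).filter Q).card : ZMod 2) := by
  have h : (pth n (X0 W)).filter Q =
      (pth n (X0 W)).filter (fun l => en (X0 W) l = Y ∧ χ (en (X0 W) (l.take t))) := by
    ext l
    simp only [Finset.mem_filter, hQ]
  rw [h]
  exact hc χ

theorem two_zero : (2 : ZMod 2) = 0 := rfl

theorem red {A : Type} (s : Finset A) (d w : A → ℕ) (g c : ZMod 2)
    (h : ∀ a ∈ s, (w a : ZMod 2) = (d a : ZMod 2) + g)
    (hc : ∑ a ∈ s, (w a : ZMod 2) = c * (s.card : ZMod 2)) :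
    ∑ a ∈ s, (d a : ZMod 2) = (c + g) * (s.card : ZMod 2) := by
  rw [Finset.sum_congr rfl h, Finset.sum_add_distrib, Finset.sum_const, nsmul_eq_mul] at hc
  linear_combination hc - ((s.card : ZMod 2) * g) * two_zero

end H06_aux

open H06_aux

theorem parity_half {i : ℕ} (hi : 2 ≤ i) (hn : 1 < n) {f : ℤ → ℤ} (hf : SC f)
    (hev : Even (SH hn f).card) :
    ∑ α ∈ SH hn f, ((dq ((2 ^ i : ℕ) : ℤ) α : ℕ) : ZMod 2) = 0 := by
  by_cases hne : (Sq n f).Nonempty
  swap
  · have h0 : SH hn f = ∅ := by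
      unfold SH
      rw [Finset.filter_eq_empty_iff]
      intro α hα
      exact absurd ⟨α, mem_SF.1 hα⟩ hne
    rw [h0]
    rfl
  have hne' : ∃ β : Fin n → ℤ, β ∈ Sq n f := hne
  obtain ⟨e, he⟩ : ∃ e : ℕ, e = 2 ^ i := ⟨_, rfl⟩
  rw [← he]
  have hi1 : 1 ≤ i := by omega
  have he4 : 4 ≤ e := by
    rw [he]
    calc 4 = 2 ^ 2 := rfl
      _ ≤ 2 ^ i := Nat.pow_le_pow_right (by norm_num) hi
  have heven : Even e := by
    rw [he]
    exact (Nat.even_pow.2 ⟨even_two, by omega⟩)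
  have hcard : ((SH hn f).card : ZMod 2) = 0 := (ZMod.natCast_eq_zero_iff_even).2 hev
  have hSq : ∀ α ∈ SH hn f, α ∈ Sq n f := by
    intro α hα
    unfold SH at hα
    exact mem_SF.1 (Finset.mem_filter.1 hα).1
  by_cases hlt : n < e
  · refine Finset.sum_eq_zero fun α hα => ?_
    have hL : Lg α := (hSq α hα).1
    have h0 : dq (e : ℤ) α = 0 := by
      unfold dq
      rw [Finset.card_eq_zero, Finset.filter_eq_empty_iff]
      rintro p _ ⟨_, h2, h3⟩
      have h4 := Lg_diff hL p.1 p.2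
      rcases h3 with h3 | h3
      · have := Int.le_of_dvd (by omega) h3
        omega
      · have := Int.le_of_dvd (by omega) h3
        omega
    rw [h0]
    rfl
  obtain ⟨g, hg⟩ := wp_dq (le_refl n) (e := e) (by omega) f
  obtain ⟨r, m, hr, hnr⟩ : ∃ r m : ℕ, r < e ∧ n = r + e * (m + 1) := by
    refine ⟨n % e, n / e - 1, Nat.mod_lt _ (by omega), ?_⟩
    have h1 : 1 ≤ n / e := (Nat.one_le_div_iff (by omega)).2 (by omega)
    have h2 : n / e - 1 + 1 = n / e := by omega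
    rw [h2]
    exact (Nat.mod_add_div n e).symm
  -- it is enough to know the sum of the weights up to a multiple of the cardinality
  have fin : ∀ c : ZMod 2, ∑ α ∈ SH hn f, ((wp (e : ℤ) (X0 n) (List.ofFn α) : ℕ) : ZMod 2) =
      c * ((SH hn f).card : ZMod 2) →
      ∑ α ∈ SH hn f, ((dq (e : ℤ) α : ℕ) : ZMod 2) = 0 := by
    intro c hc
    rw [red (SH hn f) (fun α => dq (e : ℤ) α) (fun α => wp (e : ℤ) (X0 n) (List.ofFn α)) g c
      (fun α hα => hg α (hSq α hα)) hc, hcard, mul_zero]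
  by_cases hr2 : 2 ≤ r
  · obtain ⟨c, hc⟩ := cut_small (W := n) he hi1 hnr hr hr2 (bd n f)
    have h1 := gen_inst hc (fun X => X = X2 n) (fun l => en (X0 n) l = bd n f ∧
      en (X0 n) (l.take 2) = X2 n) (fun _ => Iff.rfl)
    rw [sum_SH hn le_rfl hne' _ (fun _ => Iff.rfl), card_SH hn le_rfl hne' _ (fun _ => Iff.rfl)] at h1
    exact fin c h1
  -- r ≤ 1
  have hr1 : r ≤ 1 := by omega
  obtain ⟨t, ht⟩ : ∃ t, t = e + r := ⟨_, rfl⟩
  have ht2 : 2 ≤ t := by omega
  have hnk : n = t + e * m := by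
    rw [hnr, ht]
    ring
  have htn : t ≤ n := by
    rw [hnk]
    exact Nat.le_add_right _ _
  by_cases hC : ∃ α₀ ∈ SH hn f, cj n (XX n α₀ t) = XX n α₀ t ∧
      NN e m (bd n f) (XX n α₀ t) ≠ 0
  · obtain ⟨α₀, hα₀, hsc, hN⟩ := hC
    have hL₀ : Lg α₀ := (hSq α₀ hα₀).1
    obtain ⟨hok, hsz⟩ := XX_ok le_rfl hL₀ htn
    have hflu : Flu n e (XX n α₀ t) :=
      flu_XX (by omega) heven le_rfl hL₀ htn (by omega) hsc
    -- the other sets do not contribute
    have hz := zero_part (W := n) he hi1 ht2 hn hnk le_rfl hne' (fun X => ¬ X = XX n α₀ t) (by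
      intro α hα hX
      by_contra hN'
      obtain ⟨hok', hsz'⟩ := XX_ok (W := n) le_rfl (hSq α hα).1 htn
      refine hX (NN_unique (W := n) (r := r) (by omega) hr hok hok' ?_ ?_ hflu hN hN')
      · rw [hsz, ht]
      · rw [hsz', ht])
    have hD := Finset.sum_filter_add_sum_filter_not (SH hn f) (fun α => XX n α t = XX n α₀ t)
      (fun α => w1 (e : ℤ) (X0 n) (List.ofFn α))
    rw [hz, add_zero, sum_fib e ht2 hn hnk le_rfl hne', Fe_dl he hi1] at hD
    -- the first part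
    obtain ⟨β₀, hβ₀, _⟩ := restr (W := n) le_rfl hL₀ htn
    have hbd : XX n α₀ t = bd n (occ α₀ t) := XX_bd le_rfl hL₀ htn
    have hT : Sl 0 ((Fo DN (e : ℤ) ^ m) (dl (bd n f)) (XX n α₀ t)) :=
      Sl_Fo _ _ _ (Sl_dl _) _
    obtain ⟨c', hc'⟩ := small_sc hi (show 1 < t by omega) (by rw [← he]; omega)
      (SC_occ le_rfl hL₀ htn hsc)
    rw [← he] at hc'
    obtain ⟨g', hg'⟩ := wp_dq (n := t) htn (e := e) (by omega) (occ α₀ t)
    have hSq' : ∀ α ∈ SH (show 1 < t by omega) (occ α₀ t), α ∈ Sq t (occ α₀ t) := by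
      intro α hα
      unfold SH at hα
      exact mem_SF.1 (Finset.mem_filter.1 hα).1
    have hT1 : ∑ l ∈ (pth t (X0 n)).filter (fun l => en (X0 n) l = XX n α₀ t ∧
        en (X0 n) (l.take 2) = X2 n), w1 (e : ℤ) (X0 n) l =
        ∑ α ∈ SH (show 1 < t by omega) (occ α₀ t), w1 (e : ℤ) (X0 n) (List.ofFn α) :=
      sum_SH (show 1 < t by omega) htn ⟨β₀, hβ₀⟩ _ (fun l => by rw [hbd]) _
    have hT2 : Sl (c' + g') (∑ α ∈ SH (show 1 < t by omega) (occ α₀ t),
        w1 (e : ℤ) (X0 n) (List.ofFn α)) := by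
      unfold Sl w1
      rw [fst_sum, snd_sum, Finset.sum_congr rfl fun α hα => hg' α (hSq' α hα),
        Finset.sum_add_distrib, hc', Finset.sum_const, nsmul_eq_mul]
      ring
    rw [hT1] at hD
    have hS := Sl_mul hT2 (Sl_mul (Sl_mul (Sl_eps (kap (e : ℤ) (XX n α₀ t)))
      (Sl_eps (kap (e : ℤ) (bd n f)))) hT)
    change Sl _ (_ * (_ * NN e m (bd n f) (XX n α₀ t))) at hS
    rw [hD] at hS
    unfold Sl w1 at hS
    rw [fst_sum, snd_sum] at hS
    exact fin _ hS
  · push Not at hC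
    -- the self conjugate sets do not contribute
    have hz := zero_part (W := n) he hi1 ht2 hn hnk le_rfl hne' (fun X => cj n X = X)
      (fun α hα hX => hC α hα hX)
    have hz1 := congrArg TrivSqZeroExt.fst hz
    have hz2 := congrArg TrivSqZeroExt.snd hz
    unfold w1 at hz1 hz2
    rw [fst_sum, TrivSqZeroExt.fst_zero] at hz1
    rw [snd_sum, TrivSqZeroExt.snd_zero] at hz2
    have h2 := red ((SH hn f).filter (fun α => cj n (XX n α t) = XX n α t))
      (fun α => dq (e : ℤ) α) (fun α => wp (e : ℤ) (X0 n) (List.ofFn α)) g 0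
      (fun α hα => hg α (hSq α (Finset.mem_filter.1 hα).1)) (by rw [hz2, zero_mul])
    rw [hz1, mul_zero] at h2
    rw [← Finset.sum_filter_add_sum_filter_not (SH hn f) (fun α => cj n (XX n α t) = XX n α t),
      h2, zero_add]
    -- the rest
    have hc1 : (((SH hn f).filter (fun α => ¬ cj n (XX n α t) = XX n α t)).card : ZMod 2) = 0 := by
      have h3 := Finset.card_filter_add_card_filter_not (s := SH hn f)
        (fun α => cj n (XX n α t) = XX n α t)
      have h4 := congrArg (fun k : ℕ => (k : ZMod 2)) h3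
      simp only [Nat.cast_add] at h4
      rw [hz1, zero_add, hcard] at h4
      exact h4
    obtain ⟨c, hc⟩ := cut_large (W := n) he hi1 hnr hr1 ht (bd n f)
    have h5 := gen_inst hc (fun X => Encodable.encode X < Encodable.encode (cj n X))
      (fun l => en (X0 n) l = bd n f ∧ Encodable.encode (en (X0 n) (l.take t)) <
        Encodable.encode (cj n (en (X0 n) (l.take t)))) (fun _ => Iff.rfl)
    rw [sum_paths le_rfl hne' (fun l => Encodable.encode (en (X0 n) (l.take t)) <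
        Encodable.encode (cj n (en (X0 n) (l.take t)))) _ (fun _ => Iff.rfl),
      card_paths le_rfl hne' (fun l => Encodable.encode (en (X0 n) (l.take t)) <
        Encodable.encode (cj n (en (X0 n) (l.take t)))) _ (fun _ => Iff.rfl)] at h5
    have h6 := red _ (fun α => dq (e : ℤ) α) (fun α => wp (e : ℤ) (X0 n) (List.ofFn α)) g c
      (fun α hα => hg α (mem_SF.1 (Finset.mem_filter.1 hα).1)) h5
    -- the transversals
    have tr : ∀ G : (Fin n → ℤ) → ZMod 2, (∀ α ∈ Sq n f, G (-α) = G α) →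
        ∑ α ∈ (SH hn f).filter (fun α => ¬ cj n (XX n α t) = XX n α t), G α =
        ∑ α ∈ (SF n f).filter (fun α => Encodable.encode (en (X0 n) ((List.ofFn α).take t)) <
          Encodable.encode (cj n (en (X0 n) ((List.ofFn α).take t)))), G α := by
      intro G hG
      have key := sum_transversal ((SF n f).filter (fun α => ¬ cj n (XX n α t) = XX n α t))
        (fun α => -α) (fun α : Fin n → ℤ => α ⟨1, hn⟩ = 1)
        (fun α => Encodable.encode (XX n α t) < Encodable.encode (cj n (XX n α t)))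
        (by
          intro α hα
          rw [Finset.mem_filter, mem_SF] at hα ⊢
          refine ⟨Sq_neg hf hα.1, ?_⟩
          rw [XX_neg le_rfl hα.1.1 htn]
          intro hh
          apply hα.2
          have h7 := XX_neg (W := n) le_rfl (Lg_neg hα.1.1) htn
          rw [neg_neg, XX_neg (W := n) le_rfl hα.1.1 htn] at h7
          rw [← hh, ← h7])
        (fun α _ => neg_neg α)
        (by
          intro α hα
          rw [Finset.mem_filter, mem_SF] at hα
          show (-α) ⟨1, hn⟩ = 1 ↔ ¬ α ⟨1, hn⟩ = 1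
          rw [Pi.neg_apply]
          rcases Lg_one hn hα.1.1 with h8 | h8
          · rw [h8]
            norm_num
          · rw [h8]
            norm_num)
        (by
          intro α hα
          rw [Finset.mem_filter, mem_SF] at hα
          show Encodable.encode (XX n (-α) t) < Encodable.encode (cj n (XX n (-α) t)) ↔ _
          have h7 := XX_neg (W := n) le_rfl (Lg_neg hα.1.1) htn
          rw [neg_neg] at h7
          rw [← h7, XX_neg (W := n) le_rfl hα.1.1 htn, not_lt]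
          have h9 : Encodable.encode (cj n (XX n α t)) ≠ Encodable.encode (XX n α t) :=
            fun hh => hα.2 (Encodable.encode_injective hh)
          omega)
        G (fun α hα => hG α (mem_SF.1 (Finset.mem_filter.1 hα).1))
      refine Eq.trans (Finset.sum_congr ?_ fun _ _ => rfl)
        (key.trans (Finset.sum_congr ?_ fun _ _ => rfl))
      · unfold SH
        ext α
        simp only [Finset.mem_filter]
        tauto
      · ext α
        simp only [Finset.mem_filter]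
        constructor
        · rintro ⟨⟨h7, _⟩, h8⟩
          exact ⟨h7, h8⟩
        · rintro ⟨h7, h8⟩
          refine ⟨⟨h7, fun hh => ?_⟩, h8⟩
          unfold XX at hh
          rw [hh] at h8
          exact lt_irrefl _ h8
    rw [tr (fun α => ((dq (e : ℤ) α : ℕ) : ZMod 2)) (fun α hα =>
      dq_neg hf hα (by exact_mod_cast heven)), h6]
    have h10 := tr (fun _ => 1) (fun _ _ => rfl)
    rw [Finset.sum_const, Finset.sum_const, nsmul_eq_mul, nsmul_eq_mul, mul_one, mul_one,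
      hc1] at h10
    rw [← h10, mul_zero]

end

end AN
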