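import Pool.Agent.AN.A05
import Pool.Agent.AN.H06

/-!
# MP_6c3636_al, AN, module A06: properties (A) and (B) of the alternating groups (helper7)

`even_half`: as `even_val` (V03) with `parity_half` (H06). `propA_alt`: `n ≤ 1`: the group is trivial (every irreducible representation has degree `1`). Let `n ≥ 2`, `θ` irreducible of even degree `d`; `exists_over` (A01). First alternative (`ι` bijective): `act θ s` is conjugate to `act π s'`, `s'` the extension of `s` by `0`, which is skew and fixed; `sq_perm` (V03). Second alternative: `exists_sn_irr` (J10), `assoc` (A02), `half_basis` (A05); `d` is the number of the elements of `S`, `κ` is fixed by `Γ` (`half_fix`, as the character is fixed), so all coordinates are fixed; `sqV_basis`, `act_fx`, `act_skew` (V02) with the form of `Orth θ`, `even_half`. `propB_alt`: first alternative: the character of `θ` is the restriction of the character of `π`, rational, so `d` is fixed by `Γ`. Second alternative: if `Γ` fixes `κ` the same; otherwise `σ d = d` iff `σ κ = κ`, `σ d = - d` iff `σ κ = -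 κ` (`half_fix`, `half_pm`), so `d / κ` is fixed by `Γ`, and `c.av d = c.av (d / κ) * c.av 2 ^ z` (`kap_av`) is the absolute value of the fixed element `d / κ * 2 ^ z`.
-/

namespace AN

noncomputable section

open Classical Equiv


variable {Ω : Type} [Field Ω] [IsAlgClosed Ω] [CharZero Ω] {n : ℕ}

namespace A06_aux

/-- the valuation of a finite product of nonzero rational numbers -/
theorem val_prod {ι : Type} (s : Finset ι) (g : ι → ℚ) (hg : ∀ i ∈ s, g i ≠ 0) :
    padicValRat 2 (∏ i ∈ s, g i) = ∑ i ∈ s, padicValRat 2 (g i) := by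
  induction s using Finset.induction_on with
  | empty => simp
  | insert a s ha ih =>
    rw [Finset.prod_insert ha, Finset.sum_insert ha,
      padicValRat.mul (hg a (Finset.mem_insert_self a s))
        (Finset.prod_ne_zero_iff.2 fun i hi => hg i (Finset.mem_insert_of_mem hi)),
      ih fun i hi => hg i (Finset.mem_insert_of_mem hi)]

/-- the extension of a function on a subgroup by zero -/
def ex {G : Type} [Group G] (N : Subgroup G) (s : N → Ω) : G → Ω :=
  fun g => if h : g ∈ N then s ⟨g, h⟩ else 0

omit [IsAlgClosed Ω] [CharZero Ω] in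
theorem ex_mem {G : Type} [Group G] {N : Subgroup G} (s : N → Ω) (x : N) : ex N s (x : G) = s x := by
  unfold ex
  rw [dif_pos x.2]

omit [IsAlgClosed Ω] [CharZero Ω] in
theorem ex_not {G : Type} [Group G] {N : Subgroup G} (s : N → Ω) {g : G} (h : g ∉ N) :
    ex N s g = 0 := by
  unfold ex
  rw [dif_neg h]

omit [IsAlgClosed Ω] [CharZero Ω] in
theorem act_ex {G : Type} [Group G] [Finite G] {N : Subgroup G} {V W : Type} [AddCommGroup V]
    [Module Ω V] [AddCommGroup W] [Module Ω W] {θ : Representation Ω N V}
    {π : Representation Ω G W} {ι : V →ₗ[Ω] W} (he : ∀ x w, ι (θ x w) = π x (ι w)) (s : N → Ω)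
    (w : V) : ι (Parker.act θ s w) = Parker.act π (ex N s) (ι w) := by
  unfold Parker.act
  rw [LinearMap.sum_apply, map_sum, LinearMap.sum_apply]
  let _ := Fintype.ofFinite G
  let _ := Fintype.ofFinite N
  have h1 : ∀ x : N, ι ((s x • θ x) w) = (ex N s (x : G) • π (x : G)) (ι w) := by
    intro x
    rw [LinearMap.smul_apply, map_smul, he, LinearMap.smul_apply, ex_mem]
  rw [Finset.sum_congr rfl fun x _ => h1 x]
  refine Finset.sum_bij_ne_zero (fun (x : N) _ _ => (x : G)) (fun _ _ _ => Finset.mem_univ _)
    (fun x _ _ y _ _ hxy => Subtype.ext hxy) (fun g _ hg => ?_) (fun _ _ _ => rfl)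
  by_cases h : g ∈ N
  · exact ⟨⟨g, h⟩, Finset.mem_univ _, hg, rfl⟩
  · exact absurd (by rw [ex_not s h, zero_smul, LinearMap.zero_apply]) hg

end A06_aux

open A06_aux

theorem even_half (hn : 1 < n) {f : ℤ → ℤ} (hf : SC f)
    (h : Even (SH hn f).card) :
    Even (padicValRat 2 (∏ α : {α // α ∈ SH hn f},
      nm (α : Fin n → ℤ))) := by
  have hL : ∀ α ∈ SH hn f, Lg α := by
    intro α hα
    exact (mem_SF.1 (Finset.mem_filter.1 hα).1).1
  rw [Finset.prod_coe_sort (SH hn f) (fun α => nm α), val_prod _ _ fun α _ => (nm_pos α).ne']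
  have h1 : ∀ α ∈ SH hn f, ((padicValRat 2 (nm α) : ℤ) : ZMod 2) =
      ∑ i ∈ Finset.Icc 2 (n + 2), ((dq ((2 ^ i : ℕ) : ℤ) α : ℕ) : ZMod 2) := by
    intro α hα
    obtain ⟨z, hz⟩ := vn_nm (hL α hα)
    rw [hz]
    push_cast
    rw [show (2 : ZMod 2) = 0 from rfl, zero_mul, zero_add]
  rw [← ZMod.intCast_eq_zero_iff_even]
  push_cast
  rw [Finset.sum_congr rfl h1, Finset.sum_comm]
  refine Finset.sum_eq_zero fun i hi => ?_
  exact parity_half (Finset.mem_Icc.1 hi).1 hn hf h

namespace A06_aux

theorem triv_solvable {n : ℕ} (hn : n < 2) : Group.IsSolvable (alternatingGroup (Fin n)) := by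
  have h1 : Subsingleton (Fin n) := by
    interval_cases n
    · infer_instance
    · infer_instance
  have h2 : Subsingleton (alternatingGroup (Fin n)) := by
    refine ⟨fun a b => Subtype.ext ?_⟩
    exact Equiv.ext fun x => Subsingleton.elim _ _
  infer_instance

end A06_aux

theorem propA_alt (c : Parker.Ctx Ω) (n : ℕ) : Parker.PropA c 1 (alternatingGroup (Fin n)) := by
  by_cases hn : n < 2
  · have := triv_solvable hn
    exact (Parker.of_solvable (c := c) (alternatingGroup (Fin n))).1
  · have hn2 : 2 ≤ n := not_lt.1 hn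
    intro Γ hΓ d θ hθ hd hO hF s hs hk hdet
    obtain ⟨k, π, ι, hπ, hι, he, hcase⟩ := exists_over hn2 θ hθ
    rcases hcase with hsur | ⟨A, hA, hc, ho, hr⟩
    · -- first alternative
      let e : (Fin d → Ω) ≃ₗ[Ω] (Fin k → Ω) := LinearEquiv.ofBijective ι ⟨hι, hsur⟩
      have hev : Even (Module.finrank Ω (Fin k → Ω)) := by
        rw [← e.finrank_eq, Module.finrank_fin_fun]
        exact hd
      have hconj : Parker.act π (ex (alternatingGroup (Fin n)) s) =
          (e : (Fin d → Ω) →ₗ[Ω] (Fin k → Ω)) ∘ₗ (Parker.act θ s) ∘ₗ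
            (e.symm : (Fin k → Ω) →ₗ[Ω] (Fin d → Ω)) := by
        refine LinearMap.ext fun y => ?_
        obtain ⟨w, rfl⟩ := e.surjective y
        have h1 := act_ex (π := π) he s w
        rw [LinearMap.comp_apply, LinearMap.comp_apply, LinearEquiv.coe_coe, LinearEquiv.coe_coe,
          LinearEquiv.symm_apply_apply]
        exact h1.symm
      have hdet2 : LinearMap.det (Parker.act π (ex (alternatingGroup (Fin n)) s)) =
          LinearMap.det (Parker.act θ s) := by
        rw [hconj]
        exact LinearMap.det_conj (Parker.act θ s) e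
      rw [← hdet2]
      refine sq_perm hπ hev ?_ ?_ ?_
      · intro g
        by_cases h : g ∈ alternatingGroup (Fin n)
        · have := hs ⟨g, h⟩
          rw [← ex_mem s] at this
          exact this
        · rw [ex_not s h]
          intro σ _
          exact map_zero σ
      · intro g
        by_cases h : g ∈ alternatingGroup (Fin n)
        · have h1 := ex_mem s (⟨g, h⟩ : alternatingGroup (Fin n))
          have h2 := ex_mem s (⟨g, h⟩ : alternatingGroup (Fin n))⁻¹
          rw [hk, ← h1] at h2
          exact h2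
        · rw [ex_not s h, ex_not s (fun h' => h (by
            have := inv_mem h'
            rwa [inv_inv] at this)), neg_zero]
      · rw [hdet2]
        exact hdet
    · -- second alternative
      obtain ⟨f, v, hv⟩ := exists_sn_irr hπ
      obtain ⟨hf, κ, hκ0, hκ⟩ := assoc hv hπ hA ho
      obtain ⟨b, hb1, hb2⟩ := half_basis (show 1 < n from hn2) hπ hι he hA hc ho hr hv hf hκ
      have hcard : d = (SH (show 1 < n from hn2) f).card := by
        have h1 := Module.finrank_eq_card_basis b
        rw [Module.finrank_fin_fun, Fintype.card_coe] at h1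
        exact h1
      have hκf : Parker.Fx Γ κ := by
        intro σ hσ
        exact (half_fix hπ hι he hA ho hr hv hf hκ σ).1 (fun g => hF g σ hσ)
      obtain ⟨B, hB⟩ := hO
      obtain ⟨μ, hμ, hBb⟩ := hb2 B hB
      have hfx : ∀ x i j, Parker.Fx Γ (b.repr (θ x (b j)) i) := by
        intro x i j σ hσ
        obtain ⟨q, q', hq⟩ := hb1 x i j
        rw [hq, map_add, map_mul, map_ratCast, map_ratCast, hκf σ hσ]
      have hBc : ∀ i j, B (b i) (b j) = @ite Ω (i = j) (propDecidable (i = j))
          (μ * ((nm (i : Fin n → ℤ) : ℚ) : Ω)) 0 := by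
        intro i j
        have h1 := hBb i j
        by_cases h2 : i = j
        · rw [if_pos h2] at h1 ⊢
          exact h1
        · rw [if_neg h2] at h1 ⊢
          exact h1
      refine sqV_basis b (act_skew hB.inv hk) hdet (d := fun i => nm (i : Fin n → ℤ))
        (fun i => (nm_pos _).ne') hμ hBc (fun i j => act_fx b hfx hs i j) ?_
      refine even_half _ hf ?_
      rw [← hcard]
      exact hd

theorem propB_alt (c : Parker.Ctx Ω) (n : ℕ) : Parker.PropB c 1 (alternatingGroup (Fin n)) := by
  by_cases hn : n < 2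
  · have := triv_solvable hn
    exact (Parker.of_solvable (c := c) (alternatingGroup (Fin n))).2
  · have hn2 : 2 ≤ n := not_lt.1 hn
    intro Γ hΓ k' θ hθ hd hγ d hd0 hσ
    obtain ⟨k, π, ι, hπ, hι, he, hcase⟩ := exists_over hn2 θ hθ
    rcases hcase with hsur | ⟨A, hA, hc, ho, hr⟩
    · -- first alternative
      let e : (Fin k' → Ω) ≃ₗ[Ω] (Fin k → Ω) := LinearEquiv.ofBijective ι ⟨hι, hsur⟩
      have hch : ∀ x : alternatingGroup (Fin n), θ.character x = π.character (x : Perm (Fin n)) := by
        intro x
        have hconj : π (x : Perm (Fin n)) =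
            (e : (Fin k' → Ω) →ₗ[Ω] (Fin k → Ω)) ∘ₗ (θ x) ∘ₗ
              (e.symm : (Fin k → Ω) →ₗ[Ω] (Fin k' → Ω)) := by
          refine LinearMap.ext fun y => ?_
          obtain ⟨w, rfl⟩ := e.surjective y
          have h1 := he x w
          rw [LinearMap.comp_apply, LinearMap.comp_apply, LinearEquiv.coe_coe, LinearEquiv.coe_coe,
            LinearEquiv.symm_apply_apply]
          exact h1.symm
        unfold Representation.character
        rw [hconj]
        exact (LinearMap.trace_conj' (θ x) e).symm
      refine ⟨d, hd0, fun σ hσΓ => ?_, rfl⟩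
      have h1 := hσ σ hσΓ
      rw [if_pos] at h1
      · exact h1
      · intro g
        rw [hch]
        exact fixes_perm hπ σ _
    · -- second alternative
      obtain ⟨f, v, hv⟩ := exists_sn_irr hπ
      obtain ⟨hf, κ, hκ0, hκ⟩ := assoc hv hπ hA ho
      obtain ⟨z, hz⟩ := kap_av c hv hA hf hκ
      refine ⟨d / κ * 2 ^ z, ?_, fun σ hσΓ => ?_, ?_⟩
      · exact mul_ne_zero (div_ne_zero hd0 hκ0) (zpow_ne_zero _ two_ne_zero)
      · have h1 := hσ σ hσΓ
        have h2 := half_fix hπ hι he hA ho hr hv hf hκ σ
        rw [map_mul, map_div₀, map_zpow₀, map_ofNat]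
        congr 1
        by_cases h3 : Parker.Fixes σ θ
        · rw [if_pos h3] at h1
          rw [h1, h2.1 h3]
        · rw [if_neg h3] at h1
          rcases half_pm hv hA hf hκ σ with h4 | h4
          · exact absurd (h2.2 h4) h3
          · rw [h1, h4, neg_div_neg_eq]
      · rw [map_mul, map_div₀, map_zpow₀, hz]
        exact div_mul_cancel₀ _ (by
          rw [← hz]
          exact (map_ne_zero c.av).2 hκ0)

end

end AN
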