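import Pool.Agent.AN.Defs

/-!
# MP_6c3636_al, AN, module B01: labelled and unlabelled beads (helper7)

`sh_perm`: `Finset.univ.image (y ∘ π) = Finset.univ.image y`. `sh_inj`: for a finite set `X` with `N` elements there is an injective `y : Fin N → ℤ` with image `X` (`X.equivFin.symm`), so `sh R N φ y = φ X`.
`sh_Fo`: evaluate at `y`. Case `y` injective, `X = image y`: `Function.update y i (y i + d)` is injective iff `y i + d ∉ X` (`d ≠ 0`), and then its image is `mv X (y i) d`; the sum over `i` becomes the sum over `X` (`Finset.sum_image`-type reindexing along the bijection `Fin N ≃ X`), restricted to `nx X d`. Case `y p = y q`, `p ≠ q`: the right side is `0`; in the sum the terms `i ≠ p, q` vanish (still not injective), and the terms `i = p`, `i = q` are equal by `sh_perm` with `swap p q` (`(Function.update y p (y p + d)) ∘ swap p q = Function.update y q (y q + d)`), their sum is `2 * _ = 0`.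
-/

namespace AN

noncomputable section

open Classical Equiv

variable {R : Type} [CommRing R]

namespace B01_aux

theorem image_perm {N : ℕ} (y : Fin N → ℤ) (π : Perm (Fin N)) :
    Finset.univ.image (y ∘ π) = Finset.univ.image y := by
  ext x
  simp only [Finset.mem_image, Finset.mem_univ, true_and, Function.comp_apply]
  constructor
  · rintro ⟨i, hi⟩
    exact ⟨π i, hi⟩
  · rintro ⟨i, hi⟩
    exact ⟨π.symm i, by rw [Equiv.apply_symm_apply]; exact hi⟩

theorem sh_pos {N : ℕ} (φ : Finset ℤ → R) {y : Fin N → ℤ} (hy : Function.Injective y) :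
    sh R N φ y = φ (Finset.univ.image y) := if_pos hy

theorem sh_neg {N : ℕ} (φ : Finset ℤ → R) {y : Fin N → ℤ} (hy : ¬ Function.Injective y) :
    sh R N φ y = 0 := if_neg hy

end B01_aux


theorem sh_perm (N : ℕ) (φ : Finset ℤ → R) (y : Fin N → ℤ) (π : Perm (Fin N)) :
    sh R N φ (y ∘ π) = sh R N φ y := by
  by_cases hy : Function.Injective y
  · have hy' : Function.Injective (y ∘ π) := hy.comp π.injective
    rw [B01_aux.sh_pos φ hy, B01_aux.sh_pos φ hy', B01_aux.image_perm]
  · have hy' : ¬ Function.Injective (y ∘ π) := fun e => hy ((Equiv.injective_comp π y).1 e)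
    rw [B01_aux.sh_neg φ hy, B01_aux.sh_neg φ hy']

theorem sh_inj {φ ψ : Finset ℤ → R} (h : ∀ N, sh R N φ = sh R N ψ) : φ = ψ := by
  funext X
  have hy : Function.Injective (fun i : Fin X.card => ((X.equivFin.symm i : X) : ℤ)) :=
    Subtype.val_injective.comp X.equivFin.symm.injective
  have him : Finset.univ.image (fun i : Fin X.card => ((X.equivFin.symm i : X) : ℤ)) = X := by
    ext x
    simp only [Finset.mem_image, Finset.mem_univ, true_and]
    constructor
    · rintro ⟨i, hi⟩
      rw [← hi]
      exact (X.equivFin.symm i).2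
    · intro hx
      exact ⟨X.equivFin ⟨x, hx⟩, by rw [Equiv.symm_apply_apply]⟩
  have e := congrFun (h X.card) (fun i : Fin X.card => ((X.equivFin.symm i : X) : ℤ))
  rw [B01_aux.sh_pos φ hy, B01_aux.sh_pos ψ hy, him] at e
  exact e

namespace B01_aux

theorem update_inj {N : ℕ} {y : Fin N → ℤ} (hy : Function.Injective y) {i : Fin N} {a : ℤ}
    (ha : a ∉ Finset.univ.image y) : Function.Injective (Function.update y i a) := by
  have ha' : ∀ j, y j ≠ a := fun j e => ha (Finset.mem_image.2 ⟨j, Finset.mem_univ _, e⟩)
  intro p q hpq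
  by_cases hp : p = i
  · by_cases hq : q = i
    · rw [hp, hq]
    · rw [hp, Function.update_self, Function.update_of_ne hq] at hpq
      exact absurd hpq.symm (ha' q)
  · by_cases hq : q = i
    · rw [hq, Function.update_self, Function.update_of_ne hp] at hpq
      exact absurd hpq (ha' p)
    · rw [Function.update_of_ne hp, Function.update_of_ne hq] at hpq
      exact hy hpq

theorem update_image {N : ℕ} {y : Fin N → ℤ} (hy : Function.Injective y) (i : Fin N) (a : ℤ) :
    Finset.univ.image (Function.update y i a) = insert a ((Finset.univ.image y).erase (y i)) := by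
  ext x
  simp only [Finset.mem_image, Finset.mem_univ, true_and, Finset.mem_insert, Finset.mem_erase]
  constructor
  · rintro ⟨j, hj⟩
    by_cases hji : j = i
    · left
      rw [← hj, hji, Function.update_self]
    · right
      rw [Function.update_of_ne hji] at hj
      exact ⟨fun e => hji (hy (hj.trans e)), j, hj⟩
  · rintro (hx | ⟨hx, j, hj⟩)
    · exact ⟨i, by rw [Function.update_self, hx]⟩
    · refine ⟨j, ?_⟩
      rw [Function.update_of_ne, hj]
      intro e
      exact hx (by rw [← hj, e])

theorem sh_update {N : ℕ} (φ : Finset ℤ → R) {y : Fin N → ℤ} (hy : Function.Injective y)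
    (i : Fin N) {d : ℤ} (hd : d ≠ 0) :
    sh R N φ (Function.update y i (y i + d)) =
      if y i + d ∉ Finset.univ.image y then φ (mv (Finset.univ.image y) (y i) d) else 0 := by
  by_cases h : y i + d ∉ Finset.univ.image y
  · rw [if_pos h, sh_pos φ (update_inj hy h), update_image hy]
    rfl
  · rw [if_neg h, sh_neg]
    rw [not_not, Finset.mem_image] at h
    obtain ⟨j, _, hj⟩ := h
    have hji : j ≠ i := by
      intro e
      rw [e] at hj
      omega
    intro hinj
    apply hji
    apply hinj
    rw [Function.update_self, Function.update_of_ne hji, hj]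

theorem update_swap {N : ℕ} {y : Fin N → ℤ} {p q : Fin N} (hpq : y p = y q) (a : ℤ) :
    Function.update y q a = Function.update y p a ∘ swap p q := by
  funext j
  rw [Function.comp_apply]
  by_cases hp : j = p
  · rw [hp, swap_apply_left]
    by_cases e : p = q
    · rw [e]
    · rw [Function.update_of_ne e, Function.update_of_ne (Ne.symm e), hpq]
  · by_cases hq : j = q
    · rw [hq, swap_apply_right, Function.update_self, Function.update_self]
    · rw [swap_apply_of_ne_of_ne hp hq, Function.update_of_ne hp, Function.update_of_ne hq]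

end B01_aux

theorem sh_Fo (h2 : (2 : R) = 0) (N : ℕ) (d : ℤ) (hd : d ≠ 0) (φ : Finset ℤ → R) :
    LF R N d (sh R N φ) = sh R N (Fo R d φ) := by
  funext y
  show ∑ i, sh R N φ (Function.update y i (y i + d)) = sh R N (Fo R d φ) y
  by_cases hy : Function.Injective y
  · rw [B01_aux.sh_pos _ hy, Finset.sum_congr rfl (fun i _ => B01_aux.sh_update φ hy i hd)]
    show _ = ∑ a ∈ nx (Finset.univ.image y) d, φ (mv (Finset.univ.image y) a d)
    unfold nx
    rw [Finset.sum_filter, Finset.sum_image (fun a _ b _ e => hy e)]
  · rw [B01_aux.sh_neg _ hy]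
    have hy' : ∃ p q, y p = y q ∧ p ≠ q := by
      by_contra hc
      push Not at hc
      exact hy fun p q e => hc p q e
    obtain ⟨p, q, hpq, hne⟩ := hy'
    rw [Fintype.sum_eq_add p q hne]
    · rw [← hpq, B01_aux.update_swap hpq, sh_perm, ← two_mul, h2, zero_mul]
    · rintro i ⟨hip, hiq⟩
      apply B01_aux.sh_neg
      intro hinj
      apply hne
      apply hinj
      rw [Function.update_of_ne (Ne.symm hip), Function.update_of_ne (Ne.symm hiq), hpq]

end

end AN
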