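import Pool.Agent.AN.B01

/-!
# MP_6c3636_al, AN, module B02: the weighted operator on labelled beads (helper7)

`LZ R N 1 w`: only `s = 0`, and `Function.update (Function.update y i (y i + (1 - 0))) j (y j + 0) = Function.update y i (y i + 1)` for `j ≠ i`. So the left side at `y` is `∑ i, (∑ j ≠ i, k (y i - y j)) * sh R N φ (Function.update y i (y i + 1))`, where `k δ = 1` if `0 < δ` and `e ∣ δ` or `e ∣ δ + 1`, and `k δ = 0` otherwise. Case `y` injective, `X = image y`, `a = y i`: the inner sum is the number `wc e X a` (the `x = y j` with `x < a`, `e ∣ a - x` or `e ∣ a + 1 - x`). The rest as in `sh_Fo` (B01). Case `y p = y q`, `p ≠ q`: the terms `i ≠ p, q` vanish; the terms `p` and `q` have the same inner sum (`k 0 = 0`) and the same value of `sh` (`sh_perm`), so the sum is `2 * _ = 0`.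
-/

namespace AN

noncomputable section

open Classical Equiv

variable {R : Type} [CommRing R]

namespace B02_aux

/-- the weight -/
def k (R : Type) [CommRing R] (e : ℤ) (δ : ℤ) : R :=
  if 0 < δ ∧ (e ∣ δ ∨ e ∣ δ + 1) then 1 else 0

theorem k_zero (e : ℤ) : k R e 0 = 0 := by
  unfold k
  rw [if_neg]
  rintro ⟨h, _⟩
  exact lt_irrefl _ h

theorem LZ_one (N : ℕ) (e : ℤ) (ψ : (Fin N → ℤ) → R) (y : Fin N → ℤ) :
    LZ R N 1 (fun _ δ => if 0 < δ ∧ (e ∣ δ ∨ e ∣ δ + 1) then 1 else 0) ψ y =
      ∑ i, (∑ j, k R e (y i - y j)) * ψ (Function.update y i (y i + 1)) := by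
  show (∑ i, ∑ j, if i = j then 0 else ∑ s ∈ Finset.range 1,
    (if 0 < y i - y j ∧ (e ∣ y i - y j ∨ e ∣ y i - y j + 1) then (1 : R) else 0) *
    ψ (Function.update (Function.update y i (y i + (((1 : ℕ) : ℤ) - ((s : ℕ) : ℤ)))) j
      (y j + ((s : ℕ) : ℤ)))) = _
  refine Finset.sum_congr rfl fun i _ => ?_
  rw [Finset.sum_mul]
  refine Finset.sum_congr rfl fun j _ => ?_
  by_cases hij : i = j
  · rw [if_pos hij, hij, sub_self, k_zero, zero_mul]
  · rw [if_neg hij, Finset.sum_range_one]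
    have e1 : Function.update (Function.update y i (y i + (((1 : ℕ) : ℤ) - ((0 : ℕ) : ℤ)))) j
        (y j + ((0 : ℕ) : ℤ)) = Function.update y i (y i + 1) := by
      rw [Function.update_eq_iff]
      constructor
      · rw [Function.update_of_ne (Ne.symm hij)]
        simp
      · intro x _
        simp
    rw [e1]
    rfl

theorem wc_eq {N : ℕ} (e : ℤ) {y : Fin N → ℤ} (hy : Function.Injective y) (i : Fin N) :
    (wc e (Finset.univ.image y) (y i) : R) = ∑ j, k R e (y i - y j) := by
  unfold wc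
  rw [Finset.card_filter, Nat.cast_sum, Finset.sum_image (fun a _ b _ e => hy e)]
  refine Finset.sum_congr rfl fun j _ => ?_
  unfold k
  have hiff : (y j < y i ∧ (e ∣ y i - y j ∨ e ∣ y i + 1 - y j)) ↔
      (0 < y i - y j ∧ (e ∣ y i - y j ∨ e ∣ y i - y j + 1)) := by
    rw [sub_pos, show y i + 1 - y j = y i - y j + 1 by ring]
  by_cases h : y j < y i ∧ (e ∣ y i - y j ∨ e ∣ y i + 1 - y j)
  · rw [if_pos h, if_pos (hiff.1 h), Nat.cast_one]
  · rw [if_neg h, if_neg (fun h' => h (hiff.2 h')), Nat.cast_zero]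

end B02_aux

theorem sh_Fw (h2 : (2 : R) = 0) (N : ℕ) (e : ℤ) (φ : Finset ℤ → R) :
    LZ R N 1 (fun _ δ => if 0 < δ ∧ (e ∣ δ ∨ e ∣ δ + 1) then 1 else 0) (sh R N φ) =
      sh R N (Fw R e φ) := by
  funext y
  rw [B02_aux.LZ_one]
  by_cases hy : Function.Injective y
  · rw [B01_aux.sh_pos _ hy, Finset.sum_congr rfl (fun i _ => by
      rw [B01_aux.sh_update φ hy i one_ne_zero, ← B02_aux.wc_eq e hy i])]
    show _ = ∑ a ∈ nx (Finset.univ.image y) 1, (wc e (Finset.univ.image y) a : R) *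
      φ (mv (Finset.univ.image y) a 1)
    unfold nx
    rw [Finset.sum_filter, Finset.sum_image (fun a _ b _ e => hy e)]
    refine Finset.sum_congr rfl fun i _ => ?_
    rw [mul_ite, mul_zero]
  · rw [B01_aux.sh_neg _ hy]
    have hy' : ∃ p q, y p = y q ∧ p ≠ q := by
      by_contra hc
      push Not at hc
      exact hy fun p q e => hc p q e
    obtain ⟨p, q, hpq, hne⟩ := hy'
    rw [Fintype.sum_eq_add p q hne]
    · rw [← hpq, B01_aux.update_swap hpq, sh_perm, ← two_mul, h2, zero_mul]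
    · rintro i ⟨hip, hiq⟩
      rw [B01_aux.sh_neg, mul_zero]
      intro hinj
      apply hne
      apply hinj
      rw [Function.update_of_ne (Ne.symm hip), Function.update_of_ne (Ne.symm hiq), hpq]

end

end AN
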