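import Pool.Agent.AN.B01

/-!
# MP_6c3636_al, AN, module B03: the labelled operator with exchange of two beads (helper7)

Left side at `y`: `∑ i, ∑ j ≠ i, ∑ s < e, [y i - y j = s] * sh R N φ (y with y i replaced by y i + (e - s) and y j by y j + s)`. If `y i - y j = s` then the new positions are `y j + e` (at `i`) and `y i` (at `j`): this is `Function.update y j (y j + e)` composed with `swap i j`, so (`sh_perm`) the left side is `∑ j, c j * sh R N φ (Function.update y j (y j + e))`, `c j` the number of the `i ≠ j` with `0 ≤ y i - y j < e`. Case `y` injective, `X = image y`: `c j = lc e X (y j)`, and as in `sh_Fo` (B01) this is `sh R N (Pw R e φ) y`. Case `y p = y q`, `p ≠ q`: the terms `j ≠ p, q` vanish, the terms `j = p` and `j = q` are equal (`c p = c q`), so the sum is `2 * _ = 0`.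
-/

namespace AN

noncomputable section

open Classical Equiv

variable {R : Type} [CommRing R]

namespace B03_aux

/-- the number of the beads between `a` and `a + e`, with `a` -/
def S (R : Type) [CommRing R] {N : ℕ} (e : ℕ) (y : Fin N → ℤ) (a : ℤ) : R :=
  ∑ i, if 0 ≤ y i - a ∧ y i - a < e then 1 else 0

theorem upd_swap {N : ℕ} (e : ℕ) (y : Fin N → ℤ) {i j : Fin N} (hij : i ≠ j) {s : ℕ}
    (hs : y i - y j = s) :
    Function.update (Function.update y i (y i + ((e : ℤ) - (s : ℤ)))) j (y j + (s : ℤ)) =
      Function.update y j (y j + e) ∘ swap i j := by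
  funext l
  rw [Function.comp_apply]
  by_cases hj : l = j
  · rw [hj, Function.update_self, swap_apply_right, Function.update_of_ne hij]
    omega
  · rw [Function.update_of_ne hj]
    by_cases hi : l = i
    · rw [hi, Function.update_self, swap_apply_left, Function.update_self]
      omega
    · rw [Function.update_of_ne hi, swap_apply_of_ne_of_ne hi hj, Function.update_of_ne hj]

theorem inner {N : ℕ} (e : ℕ) (φ : Finset ℤ → R) (y : Fin N → ℤ) {i j : Fin N}
    (hij : i ≠ j) :
    (∑ s ∈ Finset.range e, (if y i - y j = (s : ℤ) then (1 : R) else 0) *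
      sh R N φ (Function.update (Function.update y i (y i + ((e : ℤ) - (s : ℤ)))) j
        (y j + (s : ℤ)))) =
      (if 0 ≤ y i - y j ∧ y i - y j < e then (1 : R) else 0) *
        sh R N φ (Function.update y j (y j + e)) := by
  by_cases h : 0 ≤ y i - y j ∧ y i - y j < e
  · rw [if_pos h, one_mul]
    obtain ⟨s, hs⟩ := Int.eq_ofNat_of_zero_le h.1
    have hse : s ∈ Finset.range e := by
      rw [Finset.mem_range]
      have := h.2
      omega
    rw [Finset.sum_eq_single_of_mem s hse]
    · rw [if_pos hs, one_mul, upd_swap e y hij hs, sh_perm]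
    · intro t _ hts
      rw [if_neg, zero_mul]
      intro e1
      apply hts
      omega
  · rw [if_neg h, zero_mul]
    refine Finset.sum_eq_zero fun s hs => ?_
    rw [Finset.mem_range] at hs
    rw [if_neg, zero_mul]
    intro e1
    apply h
    omega

theorem LZ_S (N e : ℕ) (he : 0 < e) (φ : Finset ℤ → R) (y : Fin N → ℤ) :
    LZ R N e (fun s δ => if δ = (s : ℤ) then 1 else 0) (sh R N φ) y =
      ∑ j, (S R e y (y j) - 1) * sh R N φ (Function.update y j (y j + e)) := by
  show (∑ i, ∑ j, if i = j then 0 else ∑ s ∈ Finset.range e,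
    (if y i - y j = ((s : ℕ) : ℤ) then (1 : R) else 0) *
    sh R N φ (Function.update (Function.update y i (y i + (((e : ℕ) : ℤ) - ((s : ℕ) : ℤ)))) j
      (y j + ((s : ℕ) : ℤ)))) = _
  rw [Finset.sum_comm]
  refine Finset.sum_congr rfl fun j _ => ?_
  have e1 : (S R e y (y j) - 1) = ∑ i, ((if 0 ≤ y i - y j ∧ y i - y j < e then (1 : R) else 0) -
      if i = j then 1 else 0) := by
    rw [Finset.sum_sub_distrib, Finset.sum_ite_eq' Finset.univ j (fun _ => (1 : R)),
      if_pos (Finset.mem_univ j)]
    rfl
  rw [e1, Finset.sum_mul]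
  refine Finset.sum_congr rfl fun i _ => ?_
  by_cases hij : i = j
  · have h1 : 0 ≤ y j - y j ∧ y j - y j < (e : ℤ) := by omega
    rw [if_pos hij, if_pos hij, hij, if_pos h1, sub_self, zero_mul]
  · rw [if_neg hij, if_neg hij, inner e φ y hij, sub_zero]

theorem lc_eq {N : ℕ} {e : ℕ} (he : 0 < e) {y : Fin N → ℤ} (hy : Function.Injective y)
    (j : Fin N) : (lc e (Finset.univ.image y) (y j) : R) = S R e y (y j) - 1 := by
  have e1 : (S R e y (y j) - 1) = ∑ i, ((if 0 ≤ y i - y j ∧ y i - y j < e then (1 : R) else 0) -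
      if i = j then 1 else 0) := by
    rw [Finset.sum_sub_distrib, Finset.sum_ite_eq' Finset.univ j (fun _ => (1 : R)),
      if_pos (Finset.mem_univ j)]
    rfl
  rw [e1]
  unfold lc
  rw [Finset.card_filter, Nat.cast_sum, Finset.sum_image (fun a _ b _ e => hy e)]
  refine Finset.sum_congr rfl fun i _ => ?_
  by_cases hij : i = j
  · have h1 : 0 ≤ y j - y j ∧ y j - y j < (e : ℤ) := by omega
    have h2 : ¬ (y j < y j ∧ y j < y j + (e : ℤ)) := by omega
    rw [if_pos hij, hij, if_pos h1, if_neg h2, sub_self, Nat.cast_zero]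
  · rw [if_neg hij, sub_zero]
    have hne : y i ≠ y j := fun e => hij (hy e)
    by_cases h : y j < y i ∧ y i < y j + (e : ℤ)
    · rw [if_pos h, if_pos (by omega), Nat.cast_one]
    · rw [if_neg h, if_neg (by omega), Nat.cast_zero]

end B03_aux

theorem sh_Pw (h2 : (2 : R) = 0) (N e : ℕ) (he : 0 < e) (φ : Finset ℤ → R) :
    LZ R N e (fun s δ => if δ = (s : ℤ) then 1 else 0) (sh R N φ) = sh R N (Pw R (e : ℤ) φ) := by
  funext y
  rw [B03_aux.LZ_S N e he]
  have he0 : (e : ℤ) ≠ 0 := by omega
  by_cases hy : Function.Injective y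
  · rw [B01_aux.sh_pos _ hy, Finset.sum_congr rfl (fun i _ => by
      rw [B01_aux.sh_update φ hy i he0, ← B03_aux.lc_eq he hy i])]
    show _ = ∑ a ∈ nx (Finset.univ.image y) (e : ℤ), (lc e (Finset.univ.image y) a : R) *
      φ (mv (Finset.univ.image y) a e)
    unfold nx
    rw [Finset.sum_filter, Finset.sum_image (fun a _ b _ e => hy e)]
    refine Finset.sum_congr rfl fun i _ => ?_
    rw [mul_ite, mul_zero]
  · rw [B01_aux.sh_neg _ hy]
    have hy' : ∃ p q, y p = y q ∧ p ≠ q := by
      by_contra hc
      push Not at hc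
      exact hy fun p q e => hc p q e
    obtain ⟨p, q, hpq, hne⟩ := hy'
    rw [Fintype.sum_eq_add p q hne]
    · rw [← hpq, B01_aux.update_swap hpq, sh_perm, ← two_mul, h2, zero_mul]
    · rintro i ⟨hip, hiq⟩
      rw [B01_aux.sh_neg, mul_zero]
      intro hinj
      apply hne
      apply hinj
      rw [Function.update_of_ne (Ne.symm hip), Function.update_of_ne (Ne.symm hiq), hpq]

end

end AN
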