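import Pool.Agent.AN.Defs

/-!
# MP_6c3636_al, AN, module B04: powers of the labelled operator (helper7)

`LF_sq`: `(LF d (LF d ψ)) y = ∑ i, ∑ j, ψ (y with bead i moved by d, then bead j moved by d)`; for `i ≠ j` the two orders give the same configuration, so the terms cancel in pairs (`2 = 0`), the terms `i = j` give `LF (2 d)`. (Split the double sum into the diagonal, `i < j` and `j < i`.) `LF_pow`: induction on `i`, `2 ^ (i + 1) = 2 * 2 ^ i`.
-/

namespace AN

noncomputable section

open Classical Equiv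

variable {R : Type} [CommRing R]

namespace B04_aux

theorem sum_sym (h2 : (2 : R) = 0) {N : ℕ} (F : Fin N → Fin N → R) (hF : ∀ i j, F i j = F j i) :
    ∑ i, ∑ j, F i j = ∑ i, F i i := by
  rw [← Finset.sum_product' Finset.univ Finset.univ F,
    ← Finset.sum_filter_add_sum_filter_not (Finset.univ ×ˢ Finset.univ)
      (fun p : Fin N × Fin N => p.1 = p.2)]
  have e1 : ∑ p ∈ (Finset.univ ×ˢ Finset.univ).filter (fun p : Fin N × Fin N => ¬ p.1 = p.2),
      F p.1 p.2 = 0 := by
    refine Finset.sum_involution (fun p _ => p.swap) ?_ ?_ ?_ ?_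
    · rintro ⟨a, b⟩ _
      show F a b + F b a = 0
      rw [hF b a, ← two_mul, h2, zero_mul]
    · rintro ⟨a, b⟩ hp _ hh
      rw [Finset.mem_filter] at hp
      exact hp.2 (congrArg Prod.snd hh)
    · rintro ⟨a, b⟩ hp
      rw [Finset.mem_filter] at hp ⊢
      exact ⟨Finset.mem_product.2 ⟨Finset.mem_univ _, Finset.mem_univ _⟩, fun hh => hp.2 hh.symm⟩
    · rintro ⟨a, b⟩ _
      rfl
  have e2 : ∑ p ∈ (Finset.univ ×ˢ Finset.univ).filter (fun p : Fin N × Fin N => p.1 = p.2),
      F p.1 p.2 = ∑ i, F i i := by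
    refine (Finset.sum_nbij' (fun i : Fin N => (i, i)) (fun p => p.1) ?_ ?_ ?_ ?_ ?_).symm
    · intro i _
      rw [Finset.mem_filter]
      exact ⟨Finset.mem_product.2 ⟨Finset.mem_univ _, Finset.mem_univ _⟩, rfl⟩
    · intro p _
      exact Finset.mem_univ _
    · intro i _
      rfl
    · rintro ⟨a, b⟩ hp
      rw [Finset.mem_filter] at hp
      exact Prod.ext rfl hp.2
    · intro i _
      rfl
  rw [e1, e2, add_zero]

end B04_aux

open B04_aux

theorem LF_sq (h2 : (2 : R) = 0) (N : ℕ) (d : ℤ) : LF R N d * LF R N d = LF R N (2 * d) := by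
  refine LinearMap.ext fun ψ => funext fun y => ?_
  show ∑ i, ∑ j, ψ (Function.update (Function.update y i (y i + d)) j
    (Function.update y i (y i + d) j + d)) = ∑ i, ψ (Function.update y i (y i + 2 * d))
  rw [sum_sym h2]
  · refine Finset.sum_congr rfl fun i _ => ?_
    rw [Function.update_self, Function.update_idem]
    congr 2
    ring
  · intro i j
    by_cases h : i = j
    · rw [h]
    · rw [Function.update_of_ne (Ne.symm h), Function.update_of_ne h,
        Function.update_comm h]

theorem LF_pow (h2 : (2 : R) = 0) (N i : ℕ) : LF R N 1 ^ (2 ^ i) = LF R N ((2 ^ i : ℕ) : ℤ) := by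
  induction i with
  | zero =>
    rw [pow_zero, pow_one]
    rfl
  | succ i ih =>
    have h : 2 ^ (i + 1) = 2 ^ i + 2 ^ i := by ring
    rw [h, pow_add, ih, LF_sq h2]
    congr 1
    push_cast
    ring

end

end AN
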