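import Pool.Agent.AN.Defs

/-!
# MP_6c3636_al, AN, module B05: the commutator of two labelled operators (helper7)

Evaluate at `ψ`, `y`. `LF q (LZ q w ψ) y = ∑ l, ∑ i ≠ j, ∑ s, w s (δ') * ψ (y + q e_l + (q - s) e_i + s e_j)`, where `δ' = y i - y j + q` if `l = i`, `y i - y j - q` if `l = j`, `y i - y j` otherwise; `LZ q w (LF q ψ) y = ∑ i ≠ j, ∑ s, w s (y i - y j) * ∑ l, ψ (the same configuration)`. The terms with `l ≠ i, j` cancel (`2 = 0`). The terms with `l = i` give `(w s (δ + q) + w s δ) * ψ (y + (2 q - s) e_i + s e_j)`, the terms with `l = j` give `(w s (δ - q) + w s δ) * ψ (y + (q - s) e_i + (s + q) e_j)`, `δ = y i - y j`: these are the summands `s` and `s + q` of `LZ R N (2 * q) w'`. (`Finset.sum_range_add`-type splitting of `Finset.range (2 * q)`; `Function.update` identities by `funext` and case distinctions.)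
-/

namespace AN

noncomputable section

open Classical Equiv

variable {R : Type} [CommRing R]

namespace B05_aux

theorem upd {N : ℕ} (y : Fin N → ℤ) (i : Fin N) (d : ℤ) :
    Function.update y i (y i + d) = y + Pi.single i d := by
  funext k
  rw [Pi.add_apply]
  by_cases h : k = i
  · rw [h, Function.update_self, Pi.single_eq_same]
  · rw [Function.update_of_ne h, Pi.single_eq_of_ne h, add_zero]

theorem upd2 {N : ℕ} (y : Fin N → ℤ) {i j : Fin N} (h : i ≠ j) (a b : ℤ) :
    Function.update (Function.update y i (y i + a)) j (y j + b) = y + Pi.single i a + Pi.single j b := by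
  have e : y j = Function.update y i (y i + a) j := (Function.update_of_ne (Ne.symm h) _ _).symm
  have e2 : Function.update (Function.update y i (y i + a)) j (y j + b) =
      Function.update (Function.update y i (y i + a)) j (Function.update y i (y i + a) j + b) := by
    rw [← e]
  rw [e2, upd, upd]

theorem LF_apply (N : ℕ) (d : ℤ) (ψ : (Fin N → ℤ) → R) (y : Fin N → ℤ) :
    LF R N d ψ y = ∑ l, ψ (y + Pi.single l d) := by
  change ∑ l, ψ (Function.update y l (y l + d)) = _
  refine Finset.sum_congr rfl fun l _ => ?_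
  rw [upd]

theorem LZ_apply (N m : ℕ) (w : ℕ → ℤ → R) (ψ : (Fin N → ℤ) → R) (y : Fin N → ℤ) :
    LZ R N m w ψ y = ∑ i, ∑ j, if i = j then 0 else ∑ s ∈ Finset.range m, w s (y i - y j) *
      ψ (y + Pi.single i ((m : ℤ) - s) + Pi.single j (s : ℤ)) := by
  change (∑ i, ∑ j, if i = j then 0 else ∑ s ∈ Finset.range m, w s (y i - y j) *
    ψ (Function.update (Function.update y i (y i + (m - s))) j (y j + s))) = _
  refine Finset.sum_congr rfl fun i _ => Finset.sum_congr rfl fun j _ => ?_
  split_ifs with h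
  · rfl
  · refine Finset.sum_congr rfl fun s _ => ?_
    rw [upd2 y h]

theorem inner (h2 : (2 : R) = 0) (N q : ℕ) (w : ℕ → ℤ → R) (ψ : (Fin N → ℤ) → R) (y : Fin N → ℤ)
    {i j : Fin N} (h : i ≠ j) (s : ℕ) :
    ∑ l, w s ((y + Pi.single l (q : ℤ) : Fin N → ℤ) i - (y + Pi.single l (q : ℤ) : Fin N → ℤ) j) *
        ψ (y + Pi.single l (q : ℤ) + Pi.single i ((q : ℤ) - s) + Pi.single j (s : ℤ)) +
      ∑ l, w s (y i - y j) *
        ψ (y + Pi.single i ((q : ℤ) - s) + Pi.single j (s : ℤ) + Pi.single l (q : ℤ)) =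
      (w s (y i - y j + q) + w s (y i - y j)) *
        ψ (y + Pi.single i ((q : ℤ) + q - s) + Pi.single j (s : ℤ)) +
      (w s (y i - y j - q) + w s (y i - y j)) *
        ψ (y + Pi.single i ((q : ℤ) - s) + Pi.single j ((q : ℤ) + s)) := by
  rw [← Finset.sum_add_distrib, Fintype.sum_eq_add i j h]
  · have e1 : (y + Pi.single i (q : ℤ) : Fin N → ℤ) i - (y + Pi.single i (q : ℤ) : Fin N → ℤ) j = y i - y j + q := by
      rw [Pi.add_apply, Pi.add_apply, Pi.single_eq_same, Pi.single_eq_of_ne (Ne.symm h)]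
      ring
    have e2 : (y + Pi.single j (q : ℤ) : Fin N → ℤ) i - (y + Pi.single j (q : ℤ) : Fin N → ℤ) j = y i - y j - q := by
      rw [Pi.add_apply, Pi.add_apply, Pi.single_eq_same, Pi.single_eq_of_ne h]
      ring
    have e3 : y + Pi.single i (q : ℤ) + Pi.single i ((q : ℤ) - s) + Pi.single j (s : ℤ) =
        y + Pi.single i ((q : ℤ) + q - s) + Pi.single j (s : ℤ) := by
      rw [add_assoc y, ← Pi.single_add, add_sub_assoc]
    have e4 : y + Pi.single i ((q : ℤ) - s) + Pi.single j (s : ℤ) + Pi.single i (q : ℤ) =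
        y + Pi.single i ((q : ℤ) + q - s) + Pi.single j (s : ℤ) := by
      rw [← e3]
      abel
    have e5 : y + Pi.single j (q : ℤ) + Pi.single i ((q : ℤ) - s) + Pi.single j (s : ℤ) =
        y + Pi.single i ((q : ℤ) - s) + Pi.single j ((q : ℤ) + s) := by
      rw [Pi.single_add]
      abel
    have e6 : y + Pi.single i ((q : ℤ) - s) + Pi.single j (s : ℤ) + Pi.single j (q : ℤ) =
        y + Pi.single i ((q : ℤ) - s) + Pi.single j ((q : ℤ) + s) := by
      rw [Pi.single_add]
      abel
    rw [e1, e2, e3, e4, e5, e6]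
    ring
  · rintro l ⟨hi, hj⟩
    have e1 : (y + Pi.single l (q : ℤ) : Fin N → ℤ) i - (y + Pi.single l (q : ℤ) : Fin N → ℤ) j = y i - y j := by
      rw [Pi.add_apply, Pi.add_apply, Pi.single_eq_of_ne (Ne.symm hi), Pi.single_eq_of_ne (Ne.symm hj)]
      ring
    have e2 : y + Pi.single i ((q : ℤ) - s) + Pi.single j (s : ℤ) + Pi.single l (q : ℤ) =
        y + Pi.single l (q : ℤ) + Pi.single i ((q : ℤ) - s) + Pi.single j (s : ℤ) := by
      abel
    rw [e1, e2, ← two_mul, h2, zero_mul]

end B05_aux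

theorem LZ_comm (h2 : (2 : R) = 0) (N q : ℕ) (w : ℕ → ℤ → R) :
    LF R N q * LZ R N q w + LZ R N q w * LF R N q =
      LZ R N (2 * q) (fun s δ => if s < q then w s (δ + q) + w s δ else
        w (s - q) (δ - q) + w (s - q) δ) := by
  refine LinearMap.ext fun ψ => funext fun y => ?_
  rw [LinearMap.add_apply, Pi.add_apply, Module.End.mul_apply, Module.End.mul_apply,
    B05_aux.LF_apply, B05_aux.LZ_apply, B05_aux.LZ_apply]
  have e1 : ∑ l, LZ R N q w ψ (y + Pi.single l (q : ℤ)) =
      ∑ i, ∑ j, if i = j then 0 else ∑ s ∈ Finset.range q, ∑ l,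
        w s ((y + Pi.single l (q : ℤ) : Fin N → ℤ) i - (y + Pi.single l (q : ℤ) : Fin N → ℤ) j) *
        ψ (y + Pi.single l (q : ℤ) + Pi.single i ((q : ℤ) - s) + Pi.single j (s : ℤ)) := by
    simp only [B05_aux.LZ_apply]
    rw [Finset.sum_comm]
    refine Finset.sum_congr rfl fun i _ => ?_
    rw [Finset.sum_comm]
    refine Finset.sum_congr rfl fun j _ => ?_
    split_ifs
    · exact Finset.sum_const_zero
    · rw [Finset.sum_comm]
  rw [e1, ← Finset.sum_add_distrib]
  refine Finset.sum_congr rfl fun i _ => ?_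
  rw [← Finset.sum_add_distrib]
  refine Finset.sum_congr rfl fun j _ => ?_
  split_ifs with h
  · exact add_zero _
  rw [two_mul, Finset.sum_range_add, ← Finset.sum_add_distrib, ← Finset.sum_add_distrib]
  refine Finset.sum_congr rfl fun s hs => ?_
  rw [Finset.mem_range] at hs
  rw [B05_aux.LF_apply, Finset.mul_sum, B05_aux.inner h2 N q w ψ y h s, if_pos hs,
    if_neg (by omega), Nat.add_sub_cancel_left]
  push_cast
  rw [add_sub_add_left_eq_sub]

end

end AN
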