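import Pool.Agent.AN.B04
import Pool.Agent.AN.B05

/-!
# MP_6c3636_al, AN, module B06: the sum over the positions of the weighted step (helper7)

Induction on `i`. `i = 0`: both sides are `LZ R N 1 (fun _ δ => k δ)` (in `LZ R N 1` only `s = 0` occurs). Step, `q = 2 ^ i`, `F = LF R N 1`, `W = LZ R N 1 _`: `∑ a < 2 q, F ^ a * W * F ^ (2 q - 1 - a)` is `(∑ a < q, F ^ a * W * F ^ (q - 1 - a)) * F ^ q + F ^ q * (∑ a < q, F ^ a * W * F ^ (q - 1 - a))`. Use `LF_pow`, the induction hypothesis and `LZ_comm`; the weights agree: for `s < q`: `∑ t < q, k (δ + q - s + t) + ∑ t < q, k (δ - s + t) = ∑ t < 2 q, k (δ - s + t)`; for `q ≤ s < 2 q`: `∑ t < q, k (δ - q - (s - q) + t) + ∑ t < q, k (δ - (s - q) + t)` is the same. (`LZ` depends only on the weights with `s < m`: prove a congruence lemma.)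
-/

namespace AN

noncomputable section

open Classical Equiv

variable {R : Type} [CommRing R]

namespace B06_aux

theorem LZ_congr (N m : ℕ) {w w' : ℕ → ℤ → R} (h : ∀ s, s < m → ∀ δ, w s δ = w' s δ) :
    LZ R N m w = LZ R N m w' := by
  refine LinearMap.ext fun ψ => ?_
  funext y
  show (∑ i, ∑ j, if i = j then 0 else ∑ s ∈ Finset.range m, w s (y i - y j) *
    ψ (Function.update (Function.update y i (y i + (m - s))) j (y j + s))) =
    (∑ i, ∑ j, if i = j then 0 else ∑ s ∈ Finset.range m, w' s (y i - y j) *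
    ψ (Function.update (Function.update y i (y i + (m - s))) j (y j + s)))
  refine Finset.sum_congr rfl fun i _ => Finset.sum_congr rfl fun j _ => ?_
  by_cases hij : i = j
  · rw [if_pos hij, if_pos hij]
  · rw [if_neg hij, if_neg hij]
    refine Finset.sum_congr rfl fun s hs => ?_
    rw [h s (Finset.mem_range.1 hs)]

theorem double {E : Type} [Ring E] (F W : E) (q : ℕ) :
    ∑ a ∈ Finset.range (2 * q), F ^ a * W * F ^ (2 * q - 1 - a) =
      F ^ q * (∑ a ∈ Finset.range q, F ^ a * W * F ^ (q - 1 - a)) +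
        (∑ a ∈ Finset.range q, F ^ a * W * F ^ (q - 1 - a)) * F ^ q := by
  rw [two_mul, Finset.sum_range_add, Finset.mul_sum, Finset.sum_mul, add_comm]
  refine congrArg₂ _ (Finset.sum_congr rfl fun a ha => ?_) (Finset.sum_congr rfl fun a ha => ?_)
  · rw [Finset.mem_range] at ha
    rw [show q + q - 1 - (q + a) = q - 1 - a by omega, pow_add, mul_assoc, mul_assoc, mul_assoc]
  · rw [Finset.mem_range] at ha
    rw [show q + q - 1 - a = (q - 1 - a) + q by omega, pow_add, mul_assoc, mul_assoc, mul_assoc]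

end B06_aux

theorem LZ_sum (h2 : (2 : R) = 0) (N : ℕ) (k : ℤ → R) (i : ℕ) :
    ∑ a ∈ Finset.range (2 ^ i), LF R N 1 ^ a * LZ R N 1 (fun _ δ => k δ) *
      LF R N 1 ^ (2 ^ i - 1 - a) =
      LZ R N (2 ^ i) (fun s δ => ∑ t ∈ Finset.range (2 ^ i), k (δ - s + t)) := by
  induction i with
  | zero =>
    rw [pow_zero, Finset.sum_range_one, pow_zero, one_mul, show 1 - 1 - 0 = 0 from rfl, pow_zero,
      mul_one]
    apply B06_aux.LZ_congr
    intro s hs δ
    have hs0 : s = 0 := by omega
    rw [Finset.sum_range_one, hs0, Nat.cast_zero, sub_zero, add_zero]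
  | succ i ih =>
    rw [show 2 ^ (i + 1) = 2 * 2 ^ i by rw [pow_succ, mul_comm], B06_aux.double, ih, LF_pow h2,
      LZ_comm h2]
    apply B06_aux.LZ_congr
    intro s hs δ
    rw [two_mul, Finset.sum_range_add]
    by_cases hsq : s < 2 ^ i
    · rw [if_pos hsq, add_comm]
      refine congrArg₂ _ rfl (Finset.sum_congr rfl fun t _ => ?_)
      rw [Nat.cast_add]
      congr 1
      ring
    · rw [if_neg hsq]
      have h3 : ((s - 2 ^ i : ℕ) : ℤ) = (s : ℤ) - ((2 ^ i : ℕ) : ℤ) := by
        rw [Nat.cast_sub (Nat.le_of_not_lt hsq)]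
      rw [h3]
      refine congrArg₂ _ (Finset.sum_congr rfl fun t _ => ?_) (Finset.sum_congr rfl fun t _ => ?_)
      · congr 1
        ring
      · rw [Nat.cast_add]
        congr 1
        ring

end

end AN
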