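import Pool.Agent.AN.Defs

/-!
# MP_6c3636_al, AN, module B07: a window of consecutive integers (helper7)

`e = 2 ^ i ≥ 2`. Among the `e` consecutive integers `x = δ, ..., δ + e - 1` there is exactly one with `e ∣ x` and exactly one with `e ∣ x + 1`, and they are different (`e ≥ 2`). If `δ > 0` all are positive, the sum is `1 + 1 = 0`. If `δ + e - 1 < e - 1`, that is `δ < 0`, the positive ones are `1, ..., δ + e - 1 < e - 1`, no multiple of `e` and no `x` with `e ∣ x + 1`: the sum is `0`. If `δ = 0`: positive ones `1, ..., e - 1`, only `x = e - 1` counts: the sum is `1`.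
-/

namespace AN

noncomputable section

open Classical Equiv

variable {R : Type} [CommRing R]

namespace B07_aux

theorem exists_t (e : ℕ) (he : 0 < e) (c : ℤ) :
    ∃ t0 ∈ Finset.range e, ∀ t ∈ Finset.range e, (e : ℤ) ∣ c + (t : ℤ) ↔ t = t0 := by
  have he' : (0 : ℤ) < e := by exact_mod_cast he
  obtain ⟨t0, ht0⟩ := Int.eq_ofNat_of_zero_le (Int.emod_nonneg (-c) he'.ne')
  have hlt := Int.emod_lt_of_pos (-c) he'
  have hdiv : (e : ℤ) ∣ c + (t0 : ℤ) := by
    refine ⟨-((-c) / e), ?_⟩
    have := Int.emod_add_mul_ediv (-c) e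
    rw [ht0] at this
    have h2 : ((Int.ofNat t0 : ℤ)) = (t0 : ℤ) := rfl
    linarith
  refine ⟨t0, ?_, ?_⟩
  · rw [Finset.mem_range]
    rw [ht0] at hlt
    exact_mod_cast hlt
  · intro t ht
    rw [Finset.mem_range] at ht
    constructor
    · intro h
      have h1 : (e : ℤ) ∣ (t : ℤ) - (t0 : ℤ) := by
        have := dvd_sub h hdiv
        rwa [add_sub_add_left_eq_sub] at this
      have h2 : (t : ℤ) - (t0 : ℤ) = 0 := by
        apply Int.eq_zero_of_abs_lt_dvd h1
        rw [ht0] at hlt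
        have h3 : (t0 : ℤ) < e := hlt
        rw [abs_lt]
        omega
      omega
    · intro h
      rw [h]
      exact hdiv

end B07_aux

theorem window (h2 : (2 : R) = 0) (e : ℕ) (he : 2 ≤ e) (δ : ℤ) :
    ∑ t ∈ Finset.range e, (if 0 < δ + (t : ℤ) ∧ ((e : ℤ) ∣ δ + t ∨ (e : ℤ) ∣ δ + t + 1) then (1 : R) else 0) =
      if δ = 0 then 1 else 0 := by
  have he' : (2 : ℤ) ≤ e := by exact_mod_cast he
  rcases lt_trichotomy δ 0 with hδ | hδ | hδ
  · rw [if_neg hδ.ne]
    refine Finset.sum_eq_zero fun t ht => ?_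
    rw [Finset.mem_range] at ht
    rw [if_neg]
    rintro ⟨h0, h1 | h1⟩
    · have := Int.le_of_dvd h0 h1
      omega
    · have := Int.le_of_dvd (by omega) h1
      omega
  · rw [if_pos hδ, hδ]
    have hm : e - 1 ∈ Finset.range e := by
      rw [Finset.mem_range]
      omega
    rw [Finset.sum_eq_single_of_mem (e - 1) hm]
    · rw [if_pos]
      have h1 : ((e - 1 : ℕ) : ℤ) = (e : ℤ) - 1 := by omega
      rw [h1]
      refine ⟨by omega, Or.inr ?_⟩
      rw [show (0 : ℤ) + ((e : ℤ) - 1) + 1 = e by ring]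
    · intro t ht hne
      rw [Finset.mem_range] at ht
      rw [if_neg]
      rintro ⟨h0, h1 | h1⟩
      · have := Int.le_of_dvd h0 h1
        omega
      · have := Int.le_of_dvd (by omega) h1
        omega
  · rw [if_neg hδ.ne']
    obtain ⟨t0, ht0, h0⟩ := B07_aux.exists_t e (by omega) δ
    obtain ⟨t1, ht1, h1⟩ := B07_aux.exists_t e (by omega) (δ + 1)
    have hne : t0 ≠ t1 := by
      intro e1
      have a0 := (h0 t0 ht0).2 rfl
      have a1 := (h1 t1 ht1).2 rfl
      rw [← e1] at a1
      have a2 := dvd_sub a1 a0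
      rw [show δ + 1 + (t0 : ℤ) - (δ + t0) = 1 by ring] at a2
      have := Int.le_of_dvd one_pos a2
      omega
    have hsum : ∀ t ∈ Finset.range e, (if 0 < δ + (t : ℤ) ∧ ((e : ℤ) ∣ δ + t ∨
        (e : ℤ) ∣ δ + t + 1) then (1 : R) else 0) =
        (if t = t0 then 1 else 0) + (if t = t1 then 1 else 0) := by
      intro t ht
      have hp : 0 < δ + (t : ℤ) := by omega
      have b0 := h0 t ht
      have b1 := h1 t ht
      rw [show δ + 1 + (t : ℤ) = δ + t + 1 by ring] at b1
      by_cases c0 : t = t0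
      · have c1 : t ≠ t1 := fun e1 => hne (c0.symm.trans e1)
        rw [if_pos c0, if_neg c1, if_pos ⟨hp, Or.inl (b0.2 c0)⟩, add_zero]
      · by_cases c1 : t = t1
        · rw [if_neg c0, if_pos c1, if_pos ⟨hp, Or.inr (b1.2 c1)⟩, zero_add]
        · rw [if_neg c0, if_neg c1, if_neg, add_zero]
          rintro ⟨_, d | d⟩
          · exact c0 (b0.1 d)
          · exact c1 (b1.1 d)
    rw [Finset.sum_congr rfl hsum, Finset.sum_add_distrib, Finset.sum_ite_eq' (Finset.range e),
      Finset.sum_ite_eq' (Finset.range e), if_pos ht0, if_pos ht1, one_add_one_eq_two, h2]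

end

end AN
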