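import Pool.Agent.AN.B02
import Pool.Agent.AN.B03
import Pool.Agent.AN.B06
import Pool.Agent.AN.B07

/-!
# MP_6c3636_al, AN, module B08: the identities on the sets of beads (helper7)

By `sh_inj` it is enough to compare `sh R N (A φ)` for all `N`, `φ`. `Fo_pow`: `sh (Fo 1 ^ k φ) = LF 1 ^ k (sh φ)` by induction from `sh_Fo`, then `LF_pow`, `sh_Fo` for `d = 2 ^ i`. `Fw_sum`: `sh` of the left side is `∑ a, LF 1 ^ a (LZ 1 k (LF 1 ^ (2 ^ i - 1 - a) (sh φ)))` with `k δ = if 0 < δ ∧ (e ∣ δ ∨ e ∣ δ + 1) then 1 else 0`, `e = 2 ^ i` (`sh_Fo`, `sh_Fw`), which is `LZ (2 ^ i) (fun s δ => ∑ t, k (δ - s + t)) (sh φ)` (`LZ_sum`), the weights are `if δ - s = 0 then 1 else 0` (`window`), so it is `sh (Pw e φ)` (`sh_Pw`).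
-/

namespace AN

noncomputable section

open Classical Equiv

variable {R : Type} [CommRing R]

namespace B08_aux

theorem sh_pow (h2 : (2 : R) = 0) (N k : ℕ) (φ : Finset ℤ → R) :
    sh R N ((Fo R 1 ^ k) φ) = (LF R N 1 ^ k) (sh R N φ) := by
  induction k with
  | zero => rfl
  | succ k ih =>
    rw [pow_succ', pow_succ', Module.End.mul_apply, Module.End.mul_apply, ← ih,
      sh_Fo h2 N 1 one_ne_zero]

end B08_aux

theorem Fo_pow (h2 : (2 : R) = 0) {e i : ℕ} (he : e = 2 ^ i) : Fo R 1 ^ e = Fo R (e : ℤ) := by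
  refine LinearMap.ext fun φ => sh_inj fun N => ?_
  rw [B08_aux.sh_pow h2, he, LF_pow h2, sh_Fo h2]
  positivity

theorem Fw_sum (h2 : (2 : R) = 0) {e i : ℕ} (he : e = 2 ^ i) (hi : 1 ≤ i) :
    ∑ a ∈ Finset.range e, Fo R 1 ^ a * Fw R (e : ℤ) * Fo R 1 ^ (e - 1 - a) = Pw R (e : ℤ) := by
  have he2 : 2 ≤ e := by
    rw [he]
    calc 2 = 2 ^ 1 := rfl
      _ ≤ 2 ^ i := Nat.pow_le_pow_right (by norm_num) hi
  refine LinearMap.ext fun φ => sh_inj fun N => ?_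
  rw [LinearMap.sum_apply, map_sum]
  have e1 : ∀ a ∈ Finset.range e, sh R N ((Fo R 1 ^ a * Fw R (e : ℤ) * Fo R 1 ^ (e - 1 - a)) φ) =
      (LF R N 1 ^ a * LZ R N 1 (fun _ δ => if 0 < δ ∧ ((e : ℤ) ∣ δ ∨ (e : ℤ) ∣ δ + 1) then 1 else 0) *
        LF R N 1 ^ (e - 1 - a)) (sh R N φ) := by
    intro a _
    rw [Module.End.mul_apply, Module.End.mul_apply, Module.End.mul_apply, Module.End.mul_apply,
      ← B08_aux.sh_pow h2, sh_Fw h2, ← B08_aux.sh_pow h2]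
  rw [Finset.sum_congr rfl e1, ← LinearMap.sum_apply]
  have e2 := LZ_sum h2 N (fun δ => if 0 < δ ∧ ((e : ℤ) ∣ δ ∨ (e : ℤ) ∣ δ + 1) then (1 : R) else 0) i
  rw [← he] at e2
  rw [e2, ← sh_Pw h2 N e (by omega)]
  refine congrFun (congrArg _ (B06_aux.LZ_congr N e fun s _ δ => ?_)) _
  rw [window h2 e he2 (δ - s)]
  by_cases h : δ = (s : ℤ)
  · rw [if_pos h, if_pos (by rw [h, sub_self])]
  · rw [if_neg h, if_neg (fun e3 => h (sub_eq_zero.1 e3))]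

end

end AN
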