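import Pool.Agent.AN.Defs

/-!
# MP_6c3636_al, AN, module B09: the number of inversions of the residues (helper7)

`kap_mv`: `X' = mv X a e`. `kap e X` counts the pairs `x < y` of beads with `y % e < x % e`. The move `a → a + e` keeps the residue of the bead. Pairs without the moved bead are unchanged; for a bead `y < a` or `y > a + e` the pair with the moved bead is unchanged; for `a < y < a + e` (so `y % e ≠ a % e`) the pair `(a, y)` counts iff `y % e < a % e`, the new pair `(y, a + e)` counts iff `a % e < y % e`: exactly one of them. So `kap e X' + kap e X ≡ lc e X a` modulo `2`. `Pw_kap`: at `X`, from `kap_mv` and `2 = 0`: `kap X * φ X' + kap X' * φ X' = lc * φ X'`.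
-/

namespace AN

noncomputable section

open Classical Equiv

variable {R : Type} [CommRing R]

namespace B09_aux

/-- the indicator of an inversion of the residues -/
def iv (R : Type) [CommRing R] (e x y : ℤ) : R := if x < y ∧ y % e < x % e then 1 else 0

theorem kap_sum (e : ℤ) (X : Finset ℤ) :
    (kap e X : R) = ∑ x ∈ X, ∑ y ∈ X, iv R e x y := by
  unfold kap iv
  rw [Finset.card_filter, Nat.cast_sum, Finset.sum_product]
  refine Finset.sum_congr rfl fun x _ => Finset.sum_congr rfl fun y _ => ?_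
  split_ifs <;> simp

theorem lc_sum (e : ℤ) (X : Finset ℤ) (a : ℤ) :
    (lc e X a : R) = ∑ y ∈ X, if a < y ∧ y < a + e then (1 : R) else 0 := by
  unfold lc
  rw [Finset.card_filter, Nat.cast_sum]
  refine Finset.sum_congr rfl fun y _ => ?_
  split_ifs <;> simp

theorem iv_self (e x : ℤ) : iv R e x x = 0 := by
  unfold iv
  rw [if_neg]
  exact fun h => lt_irrefl _ h.1

theorem kap_insert (e : ℤ) (Y : Finset ℤ) {b : ℤ} (hb : b ∉ Y) :
    (kap e (insert b Y) : R) = (kap e Y : R) + ∑ y ∈ Y, (iv R e b y + iv R e y b) := by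
  rw [kap_sum, kap_sum, Finset.sum_insert hb, Finset.sum_insert hb, iv_self, zero_add,
    Finset.sum_add_distrib]
  have : ∀ x ∈ Y, ∑ y ∈ insert b Y, iv R e x y = iv R e x b + ∑ y ∈ Y, iv R e x y :=
    fun x _ => Finset.sum_insert hb
  rw [Finset.sum_congr rfl this, Finset.sum_add_distrib]
  ring

theorem mod_ne {e a y : ℤ} (h1 : a < y) (h2 : y < a + e) : y % e ≠ a % e := by
  intro h
  have hd : e ∣ y - a := Int.ModEq.dvd (show a ≡ y [ZMOD e] from h.symm)
  have := Int.le_of_dvd (by omega) hd
  omega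

theorem iv_mv (h2 : (2 : R) = 0) {e a y : ℤ} (h1 : y ≠ a) (h3 : y ≠ a + e) (he : 0 < e) :
    iv R e (a + e) y + iv R e y (a + e) =
      (iv R e a y + iv R e y a) + (if a < y ∧ y < a + e then (1 : R) else 0) := by
  have hm : (a + e) % e = a % e := Int.add_emod_right a e
  unfold iv
  rw [hm]
  rcases lt_or_gt_of_ne h1 with hya | hya
  · rw [if_neg (fun h => absurd h.1 (by omega)), if_neg (fun h : a < y ∧ _ => absurd h.1 (by omega)),
      if_neg (fun h : a < y ∧ _ => absurd h.1 (by omega))]
    have h4 : (y < a + e ∧ a % e < y % e) ↔ (y < a ∧ a % e < y % e) :=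
      ⟨fun h => ⟨hya, h.2⟩, fun h => ⟨by omega, h.2⟩⟩
    rw [if_congr h4 rfl rfl]
    ring
  · rcases lt_or_gt_of_ne h3 with hy | hy
    · have hne := mod_ne hya hy
      rw [if_neg (fun h => absurd h.1 (by omega)), if_neg (fun h : y < a ∧ _ => absurd h.1 (by omega)),
        if_pos (show a < y ∧ y < a + e from ⟨hya, hy⟩)]
      rcases lt_or_gt_of_ne hne with hl | hl
      · rw [if_neg (fun h => absurd h.2 (by omega)), if_pos ⟨hya, hl⟩]
        rw [add_zero, add_zero, one_add_one_eq_two, h2]
      · rw [if_pos ⟨hy, hl⟩, if_neg (fun h => absurd h.2 (by omega))]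
        ring
    · rw [if_neg (fun h : a < y ∧ y < a + e => absurd h.2 (by omega)),
        if_neg (fun h : y < a + e ∧ _ => absurd h.1 (by omega)),
        if_neg (fun h : y < a ∧ _ => absurd h.1 (by omega))]
      have h4 : (a + e < y ∧ y % e < a % e) ↔ (a < y ∧ y % e < a % e) :=
        ⟨fun h => ⟨by omega, h.2⟩, fun h => ⟨hy, h.2⟩⟩
      rw [if_congr h4 rfl rfl]
      ring

end B09_aux

open B09_aux

theorem kap_mv (h2 : (2 : R) = 0) {e : ℤ} (he : 0 < e) {X : Finset ℤ} {a : ℤ} (ha : a ∈ nx X e) :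
    (kap e (mv X a e) : R) = (kap e X : R) + (lc e X a : R) := by
  have haX : a ∈ X := (Finset.mem_filter.mp ha).1
  have haeX : a + e ∉ X := (Finset.mem_filter.mp ha).2
  have h1 : a ∉ X.erase a := Finset.notMem_erase a X
  have h3 : a + e ∉ X.erase a := fun h => haeX (Finset.mem_of_mem_erase h)
  have hX : X = insert a (X.erase a) := (Finset.insert_erase haX).symm
  have hl : (lc e X a : R) = ∑ y ∈ X.erase a, if a < y ∧ y < a + e then (1 : R) else 0 := by
    rw [lc_sum]
    conv_lhs => rw [hX]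
    rw [Finset.sum_insert h1, if_neg (fun h => lt_irrefl _ h.1), zero_add]
  have hk : (kap e X : R) = (kap e (X.erase a) : R) + ∑ y ∈ X.erase a, (iv R e a y + iv R e y a) := by
    conv_lhs => rw [hX]
    exact kap_insert e _ h1
  rw [hl, hk]
  unfold mv
  rw [kap_insert e _ h3, add_assoc, ← Finset.sum_add_distrib]
  congr 1
  refine Finset.sum_congr rfl fun y hy => ?_
  exact iv_mv h2 (fun h => h1 (h ▸ hy)) (fun h => h3 (h ▸ hy)) he

theorem Pw_kap (h2 : (2 : R) = 0) {e : ℤ} (he : 0 < e) :
    Pw R e = Mu R (fun X => (kap e X : R)) * Fo R e + Fo R e * Mu R (fun X => (kap e X : R)) := by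
  refine LinearMap.ext fun φ => funext fun X => ?_
  change ∑ a ∈ nx X e, (lc e X a : R) * φ (mv X a e) =
    (kap e X : R) * ∑ a ∈ nx X e, φ (mv X a e) +
      ∑ a ∈ nx X e, (kap e (mv X a e) : R) * φ (mv X a e)
  rw [Finset.mul_sum, ← Finset.sum_add_distrib]
  refine Finset.sum_congr rfl fun a ha => ?_
  rw [kap_mv h2 he ha]
  linear_combination (-((kap e X : R) * φ (mv X a e))) * h2

end

end AN
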