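import Pool.Agent.AN.B08
import Pool.Agent.AN.B09

/-!
# MP_6c3636_al, AN, module B10: dual numbers (helper7)

`DN = (ZMod 2)[ε]`, `ε ^ 2 = 0` (`DualNumber.eps_mul_eps`), `(2 : DN) = 0`. `eps_pow`: `(A + ε • B) ^ n = A ^ n + ε • ∑ a < n, A ^ a * B * A ^ (n - 1 - a)` in an algebra over `DN`, induction on `n`. `Fe_pow`: `eps_pow`, `Fo_pow`, `Fw_sum`, `Pw_kap`, and `(1 + ε κ) P (1 + ε κ) = P + ε (κ P + P κ)`. `Ke_sq`: `(1 + ε k) ^ 2 = 1`. `Fe_pow_mul`: induction on `m` with `Ke_sq`.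
-/

namespace AN

noncomputable section

open Classical Equiv


/-- the dual numbers over the field with two elements -/
abbrev DN : Type := DualNumber (ZMod 2)

/-- the deformed operator -/
def Fe (e : ℕ) : Module.End DN (Finset ℤ → DN) := Fo DN 1 + (DualNumber.eps : DN) • Fw DN (e : ℤ)

/-- the diagonal operator -/
def Ke (e : ℕ) : Module.End DN (Finset ℤ → DN) :=
  Mu DN (fun X => 1 + (DualNumber.eps : DN) * (kap (e : ℤ) X : DN))

theorem two_DN : (2 : DN) = 0 := by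
  have h : (2 : ZMod 2) = 0 := by decide
  have h2 : (2 : DN) = algebraMap (ZMod 2) DN 2 := by
    rw [map_ofNat]
  rw [h2, h, map_zero]

section General

variable {R : Type} [CommRing R]

private theorem ee {A : Type} [Ring A] [Algebra R A] {ε : R} (h0 : ε * ε = 0) (x y : A) :
    (ε • x) * (ε • y) = 0 := by
  rw [smul_mul_smul_comm, h0, zero_smul]

private theorem gen_pow {A : Type} [Ring A] [Algebra R A] {ε : R} (h0 : ε * ε = 0) (x y : A)
    (n : ℕ) :
    (x + ε • y) ^ n = x ^ n + ε • ∑ a ∈ Finset.range n, x ^ a * y * x ^ (n - 1 - a) := by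
  induction n with
  | zero => simp
  | succ n ih =>
    have hS : ∑ a ∈ Finset.range (n + 1), x ^ a * y * x ^ (n + 1 - 1 - a) =
        (∑ a ∈ Finset.range n, x ^ a * y * x ^ (n - 1 - a)) * x + x ^ n * y := by
      rw [Finset.sum_range_succ, Finset.sum_mul]
      congr 1
      · refine Finset.sum_congr rfl fun a ha => ?_
        have h : a < n := Finset.mem_range.mp ha
        have h1 : n + 1 - 1 - a = (n - 1 - a) + 1 := by omega
        rw [h1, pow_succ, ← mul_assoc]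
      · have h1 : n + 1 - 1 - n = 0 := by omega
        rw [h1, pow_zero, mul_one]
    rw [pow_succ, ih, hS, add_mul, mul_add, mul_add, ee h0, add_zero, smul_add, pow_succ,
      mul_smul_comm, smul_mul_assoc]
    abel

private theorem abs_sq {A : Type} [Ring A] [Algebra R A] {ε : R} (h0 : ε * ε = 0)
    (h2 : (2 : R) = 0) (x : A) : (1 + ε • x) * (1 + ε • x) = 1 := by
  rw [add_mul, mul_add, mul_add, ee h0, add_zero, one_mul, mul_one, one_mul, add_assoc,
    ← two_smul R, h2, zero_smul, add_zero]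

private theorem abs_conj {A : Type} [Ring A] [Algebra R A] {ε : R} (h0 : ε * ε = 0) (M P : A) :
    (1 + ε • M) * P * (1 + ε • M) = P + ε • (M * P + P * M) := by
  rw [add_mul, mul_add, one_mul, mul_one, smul_mul_assoc, add_mul, ee h0, add_zero,
    mul_smul_comm, smul_add]
  abel

private theorem gen_K (ε : R) (k : Finset ℤ → R) :
    Mu R (fun X => 1 + ε * k X) = 1 + ε • Mu R k := by
  refine LinearMap.ext fun φ => funext fun X => ?_
  change (1 + ε * k X) * φ X = φ X + ε * (k X * φ X)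
  ring

private theorem gen_sq {ε : R} (h0 : ε * ε = 0) (h2 : (2 : R) = 0) (k : Finset ℤ → R) :
    Mu R (fun X => 1 + ε * k X) * Mu R (fun X => 1 + ε * k X) = 1 := by
  rw [gen_K]
  exact abs_sq h0 h2 (Mu R k)

private theorem gen_Fe {ε : R} (h0 : ε * ε = 0) (h2 : (2 : R) = 0) {e i : ℕ} (he : e = 2 ^ i)
    (hi : 1 ≤ i) :
    (Fo R 1 + ε • Fw R (e : ℤ)) ^ e =
      Mu R (fun X => 1 + ε * (kap (e : ℤ) X : R)) * Fo R (e : ℤ) *
        Mu R (fun X => 1 + ε * (kap (e : ℤ) X : R)) := by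
  have hpos : (0 : ℤ) < (e : ℤ) := by
    rw [he]
    positivity
  have h1 : (Fo R 1 + ε • Fw R (e : ℤ)) ^ e = Fo R 1 ^ e +
      ε • ∑ a ∈ Finset.range e, Fo R 1 ^ a * Fw R (e : ℤ) * Fo R 1 ^ (e - 1 - a) :=
    gen_pow h0 (Fo R 1) (Fw R (e : ℤ)) e
  rw [h1, Fo_pow h2 he, Fw_sum h2 he hi, Pw_kap h2 hpos,
    gen_K ε (fun X => (kap (e : ℤ) X : R))]
  exact (abs_conj h0 _ _).symm

end General

theorem eps_pow {A : Type} [Ring A] [Algebra DN A] (x y : A) (n : ℕ) :
    (x + (DualNumber.eps : DN) • y) ^ n =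
      x ^ n + (DualNumber.eps : DN) • ∑ a ∈ Finset.range n, x ^ a * y * x ^ (n - 1 - a) :=
  gen_pow DualNumber.eps_mul_eps x y n

theorem Ke_sq (e : ℕ) : Ke e * Ke e = 1 :=
  gen_sq DualNumber.eps_mul_eps two_DN (fun X => (kap (e : ℤ) X : DN))

theorem Fe_pow {e i : ℕ} (he : e = 2 ^ i) (hi : 1 ≤ i) : Fe e ^ e = Ke e * Fo DN (e : ℤ) * Ke e :=
  gen_Fe DualNumber.eps_mul_eps two_DN he hi

theorem Fe_pow_mul {e i : ℕ} (he : e = 2 ^ i) (hi : 1 ≤ i) (m : ℕ) :
    Fe e ^ (e * m) = Ke e * Fo DN (e : ℤ) ^ m * Ke e := by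
  rw [pow_mul, Fe_pow he hi]
  induction m with
  | zero => rw [pow_zero, pow_zero, mul_one, Ke_sq]
  | succ m ih =>
    rw [pow_succ, ih, pow_succ]
    calc Ke e * Fo DN (e : ℤ) ^ m * Ke e * (Ke e * Fo DN (e : ℤ) * Ke e)
        = Ke e * Fo DN (e : ℤ) ^ m * (Ke e * Ke e) * Fo DN (e : ℤ) * Ke e := by
          simp only [mul_assoc]
      _ = Ke e * (Fo DN (e : ℤ) ^ m * Fo DN (e : ℤ)) * Ke e := by
          rw [Ke_sq, mul_one]
          simp only [mul_assoc]

end

end AN
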