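import Pool.Agent.AN.B10

/-!
# MP_6c3636_al, AN, module B11: sums over paths (helper7)

Induction on `n` (resp. on `t`): `(Fe e ^ (n + 1)) φ X = ∑ a ∈ nx X 1, (1 + ε * wc e X a) * (Fe e ^ n) φ (mv X a 1)`, `pth (n + 1) X` is the disjoint union of the images of `pth n (mv X a 1)` under `a :: ·`, `wp` and `en` are defined accordingly, and `(1 + ε w) * (1 + ε w') = 1 + ε (w + w')` as `ε ^ 2 = 0`. `Fe_cut`: for `t = 0` the factor `χ (en X [])` is `χ X`.
-/

namespace AN

noncomputable section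

open Classical Equiv


theorem mem_pth_succ {n : ℕ} {X : Finset ℤ} {a : ℤ} {l : List ℤ} :
    a :: l ∈ pth (n + 1) X ↔ a ∈ nx X 1 ∧ l ∈ pth n (mv X a 1) := by
  rw [pth, Finset.mem_biUnion]
  constructor
  · rintro ⟨b, hb, h⟩
    rw [Finset.mem_image] at h
    obtain ⟨l', hl', h⟩ := h
    obtain ⟨h1, h2⟩ := List.cons.inj h
    subst h1
    subst h2
    exact ⟨hb, hl'⟩
  · rintro ⟨ha, hl⟩
    exact ⟨a, ha, Finset.mem_image.2 ⟨l, hl, rfl⟩⟩

theorem length_of_mem_pth {n : ℕ} {X : Finset ℤ} {l : List ℤ} (h : l ∈ pth n X) : l.length = n := by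
  induction n generalizing X l with
  | zero =>
    rw [pth, Finset.mem_singleton] at h
    rw [h]
    rfl
  | succ n ih =>
    rw [pth, Finset.mem_biUnion] at h
    obtain ⟨a, -, h⟩ := h
    obtain ⟨l', hl', rfl⟩ := Finset.mem_image.1 h
    rw [List.length_cons, ih hl']

theorem sum_pth {M : Type} [AddCommMonoid M] (n : ℕ) (X : Finset ℤ) (g : List ℤ → M) :
    ∑ l ∈ pth (n + 1) X, g l = ∑ a ∈ nx X 1, ∑ l ∈ pth n (mv X a 1), g (a :: l) := by
  rw [pth, Finset.sum_biUnion]
  · refine Finset.sum_congr rfl fun a _ => ?_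
    rw [Finset.sum_image]
    intro l _ l' _ h
    exact (List.cons.inj h).2
  · intro a _ b _ hab
    refine Finset.disjoint_left.2 fun l h1 h2 => hab ?_
    obtain ⟨l1, -, e1⟩ := Finset.mem_image.1 h1
    obtain ⟨l2, -, e2⟩ := Finset.mem_image.1 h2
    exact (List.cons.inj (e1.trans e2.symm)).1

private theorem B11_Fe (e : ℕ) (X : Finset ℤ) (ψ : Finset ℤ → DN) :
    Fe e ψ X = ∑ a ∈ nx X 1, (1 + (DualNumber.eps : DN) * (wc (e : ℤ) X a : DN)) * ψ (mv X a 1) := by
  have h : Fe e ψ X = (∑ a ∈ nx X 1, ψ (mv X a 1)) +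
      (DualNumber.eps : DN) * ∑ a ∈ nx X 1, (wc (e : ℤ) X a : DN) * ψ (mv X a 1) := rfl
  rw [h, Finset.mul_sum, ← Finset.sum_add_distrib]
  refine Finset.sum_congr rfl fun a _ => ?_
  ring

private theorem B11_mul (w w' : DN) :
    (1 + (DualNumber.eps : DN) * w) * (1 + (DualNumber.eps : DN) * w') =
      1 + (DualNumber.eps : DN) * (w + w') := by
  have h : (DualNumber.eps : DN) * DualNumber.eps = 0 := DualNumber.eps_mul_eps
  linear_combination (w * w') * h

private theorem B11_wp (e : ℤ) (X : Finset ℤ) (a : ℤ) (l : List ℤ) :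
    ((wp e X (a :: l) : ℕ) : DN) = (wc e X a : DN) + (wp e (mv X a 1) l : DN) := by
  rw [wp, Nat.cast_add]

theorem Fe_path (e n : ℕ) (X : Finset ℤ) (φ : Finset ℤ → DN) :
    (Fe e ^ n) φ X = ∑ l ∈ pth n X, (1 + (DualNumber.eps : DN) * (wp (e : ℤ) X l : DN)) * φ (en X l) := by
  induction n generalizing X with
  | zero =>
    rw [pow_zero, pth, Finset.sum_singleton, wp, en, Nat.cast_zero, mul_zero, add_zero, one_mul]
    rfl
  | succ n ih =>
    rw [pow_succ', Module.End.mul_apply, B11_Fe, sum_pth]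
    refine Finset.sum_congr rfl fun a _ => ?_
    rw [ih, Finset.mul_sum]
    refine Finset.sum_congr rfl fun l _ => ?_
    rw [← mul_assoc, B11_mul, B11_wp, en]

theorem Fe_cut (e t n : ℕ) (X : Finset ℤ) (χ φ : Finset ℤ → DN) :
    (Fe e ^ t * Mu DN χ * Fe e ^ n) φ X = ∑ l ∈ pth (t + n) X,
      (1 + (DualNumber.eps : DN) * (wp (e : ℤ) X l : DN)) * (χ (en X (l.take t)) * φ (en X l)) := by
  induction t generalizing X with
  | zero =>
    rw [pow_zero, one_mul, zero_add, Module.End.mul_apply]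
    have h : Mu DN χ ((Fe e ^ n) φ) X = χ X * (Fe e ^ n) φ X := rfl
    rw [h, Fe_path, Finset.mul_sum]
    refine Finset.sum_congr rfl fun l _ => ?_
    rw [List.take_zero, en]
    ring
  | succ t ih =>
    have h1 : Fe e ^ (t + 1) * Mu DN χ * Fe e ^ n = Fe e * (Fe e ^ t * Mu DN χ * Fe e ^ n) := by
      rw [pow_succ', mul_assoc, mul_assoc, mul_assoc]
    have h2 : t + 1 + n = (t + n) + 1 := by omega
    rw [h1, h2, Module.End.mul_apply, B11_Fe, sum_pth]
    refine Finset.sum_congr rfl fun a _ => ?_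
    rw [ih, Finset.mul_sum]
    refine Finset.sum_congr rfl fun l _ => ?_
    rw [← mul_assoc, B11_mul, B11_wp, List.take_succ_cons, en, en]

end

end AN
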