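import Pool.Agent.AN.B11

/-!
# MP_6c3636_al, AN, module B12: sets of beads with a given size, cores (helper7)

`sz_mv`: `∑ x ∈ mv X a d, x = ∑ x ∈ X, x + d`, and the cardinality does not change. `sz_nonneg`: a set `X` of `n + 1` integers `≥ -n` has sum at least `∑ x ∈ X0 n, x` (induction, or compare the sorted elements: the `j`-th smallest is at least `-n + j`), with equality only for `X = X0 n`. `path_ok`: induction: along a path of length `k ≤ n` from `X0 n` the beads are `≥ -n`, their number is `n + 1` and the sum of the beads grows by `1` in each step. `flu_of_sz`: if `x ∈ X`, `x - e ≥ -n`, `x - e ∉ X` then `mv X x (-e)` is again such a set, with the size `sz n X - e ≥ 0`. `flu_unique`: a set `X` with `Flu n e X` is determined by the numbers of its beads in the residue classes modulo `e` (the beads in a class are the smallest elements `≥ -n` of the class); moves by `e` do not change these numbers.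
-/

namespace AN

noncomputable section

open Classical Equiv


/-- the size of the partition -/
def sz (n : ℕ) (X : Finset ℤ) : ℤ := ∑ x ∈ X, x - ∑ x ∈ X0 n, x

/-- sets of `n + 1` beads at positions `≥ -n` -/
def Ok (n : ℕ) (X : Finset ℤ) : Prop := X.card = n + 1 ∧ ∀ x ∈ X, -(n : ℤ) ≤ x

/-- no bead can be moved down by `e` -/
def Flu (n e : ℕ) (X : Finset ℤ) : Prop := ∀ x ∈ X, -(n : ℤ) ≤ x - e → x - e ∈ X

/-- `Y` arises from `X` by moves by `e` -/
def Rch (e : ℕ) (X Y : Finset ℤ) : Prop :=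
  Relation.ReflTransGen (fun X Y => ∃ a ∈ nx X (e : ℤ), Y = mv X a e) X Y

theorem sz_mv {n : ℕ} {X : Finset ℤ} {a d : ℤ} (hd : d ≠ 0) (ha : a ∈ nx X d) :
    sz n (mv X a d) = sz n X + d ∧ (mv X a d).card = X.card := by
  obtain ⟨h1, h2⟩ := Finset.mem_filter.1 ha
  have h3 : a + d ∉ X.erase a := fun h => h2 (Finset.mem_of_mem_erase h)
  constructor
  · unfold sz mv
    rw [Finset.sum_insert h3]
    have h4 := Finset.sum_erase_add X (fun x : ℤ => x) h1
    linarith
  · unfold mv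
    rw [Finset.card_insert_of_notMem h3, Finset.card_erase_add_one h1]

theorem B12_aux.mem_mv {X : Finset ℤ} {a d x : ℤ} : x ∈ mv X a d ↔ x = a + d ∨ (x ≠ a ∧ x ∈ X) := by
  unfold mv
  rw [Finset.mem_insert, Finset.mem_erase]

theorem B12_aux.card_le_sz {n : ℕ} {X : Finset ℤ} (h : Ok n X) : ((X \ X0 n).card : ℤ) ≤ sz n X := by
  have hc0 : (X0 n).card = n + 1 := by
    unfold X0
    rw [Int.card_Icc]
    omega
  have hc : (X \ X0 n).card = (X0 n \ X).card := by
    have h1 := Finset.card_sdiff_add_card_inter X (X0 n)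
    have h2 := Finset.card_sdiff_add_card_inter (X0 n) X
    rw [Finset.inter_comm] at h2
    have h3 := h.1
    omega
  have hs : sz n X = ∑ x ∈ X \ X0 n, x - ∑ x ∈ X0 n \ X, x := by
    unfold sz
    have h1 := Finset.sum_inter_add_sum_sdiff X (X0 n) (fun x : ℤ => x)
    have h2 := Finset.sum_inter_add_sum_sdiff (X0 n) X (fun x : ℤ => x)
    rw [Finset.inter_comm] at h2
    linarith
  have h1 : ((X \ X0 n).card : ℤ) ≤ ∑ x ∈ X \ X0 n, x := by
    have h2 := Finset.card_nsmul_le_sum (X \ X0 n) (fun x : ℤ => x) 1 (by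
      intro x hx
      obtain ⟨hx1, hx2⟩ := Finset.mem_sdiff.1 hx
      by_contra hlt
      apply hx2
      unfold X0
      rw [Finset.mem_Icc]
      exact ⟨h.2 x hx1, by omega⟩)
    rw [nsmul_eq_mul, mul_one] at h2
    exact h2
  have h2 : ∑ x ∈ X0 n \ X, x ≤ 0 := by
    refine Finset.sum_nonpos fun x hx => ?_
    obtain ⟨hx1, hx2⟩ := Finset.mem_sdiff.1 hx
    unfold X0 at hx1
    exact (Finset.mem_Icc.1 hx1).2
  rw [hs]
  linarith

theorem sz_nonneg {n : ℕ} {X : Finset ℤ} (h : Ok n X) : 0 ≤ sz n X :=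
  le_trans (Int.natCast_nonneg _) (B12_aux.card_le_sz h)

theorem sz_zero {n : ℕ} {X : Finset ℤ} (h : Ok n X) (h0 : sz n X = 0) : X = X0 n := by
  have h1 := B12_aux.card_le_sz h
  rw [h0] at h1
  have h2 : (X \ X0 n).card = 0 := by omega
  rw [Finset.card_eq_zero, Finset.sdiff_eq_empty_iff_subset] at h2
  refine Finset.eq_of_subset_of_card_le h2 ?_
  rw [h.1]
  unfold X0
  rw [Int.card_Icc]
  omega

theorem B12_aux.ok_mv {n : ℕ} {X : Finset ℤ} {a d : ℤ} (hd : d ≠ 0) (ha : a ∈ nx X d) (h : Ok n X)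
    (hn : -(n : ℤ) ≤ a + d) : Ok n (mv X a d) := by
  refine ⟨?_, ?_⟩
  · rw [(sz_mv (n := n) hd ha).2]
    exact h.1
  · intro x hx
    rcases B12_aux.mem_mv.1 hx with rfl | hx
    · exact hn
    · exact h.2 x hx.2

theorem B12_aux.path {n : ℕ} (k : ℕ) : ∀ (X : Finset ℤ) (l : List ℤ), Ok n X → l ∈ pth k X →
    Ok n (en X l) ∧ sz n (en X l) = sz n X + k := by
  induction k with
  | zero =>
    intro X l hX hl
    have h1 : l = [] := by
      unfold pth at hl
      exact Finset.mem_singleton.1 hl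
    subst h1
    refine ⟨hX, ?_⟩
    show sz n X = sz n X + ((0 : ℕ) : ℤ)
    simp
  | succ k ih =>
    intro X l hX hl
    unfold pth at hl
    obtain ⟨a, ha, hl2⟩ := Finset.mem_biUnion.1 hl
    obtain ⟨l', hl', rfl⟩ := Finset.mem_image.1 hl2
    have ha1 : a ∈ X := (Finset.mem_filter.1 ha).1
    have h1 : Ok n (mv X a 1) := B12_aux.ok_mv one_ne_zero ha hX (by
      have := hX.2 a ha1
      omega)
    obtain ⟨h2, h3⟩ := ih (mv X a 1) l' h1 hl'
    refine ⟨h2, ?_⟩
    show sz n (en (mv X a 1) l') = sz n X + ((k + 1 : ℕ) : ℤ)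
    rw [h3, (sz_mv (n := n) one_ne_zero ha).1]
    push_cast
    ring

theorem B12_aux.ok_X0 (n : ℕ) : Ok n (X0 n) := by
  refine ⟨?_, ?_⟩
  · unfold X0
    rw [Int.card_Icc]
    omega
  · intro x hx
    unfold X0 at hx
    exact (Finset.mem_Icc.1 hx).1

theorem path_ok {n k : ℕ} {l : List ℤ} (h : l ∈ pth k (X0 n)) :
    Ok n (en (X0 n) l) ∧ sz n (en (X0 n) l) = k := by
  have h1 := B12_aux.path k (X0 n) l (B12_aux.ok_X0 n) h
  have h2 : sz n (X0 n) = 0 := sub_self _
  rw [h2, zero_add] at h1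
  exact h1

theorem flu_of_sz {n e : ℕ} (he : 0 < e) {X : Finset ℤ} (h : Ok n X) (hs : sz n X < e) : Flu n e X := by
  intro x hx hn
  by_contra hne
  have hd : (-(e : ℤ)) ≠ 0 := by omega
  have ha : x ∈ nx X (-(e : ℤ)) := by
    refine Finset.mem_filter.2 ⟨hx, ?_⟩
    rw [← sub_eq_add_neg]
    exact hne
  have h1 : Ok n (mv X x (-(e : ℤ))) := B12_aux.ok_mv hd ha h (by omega)
  have h2 := sz_nonneg h1
  rw [(sz_mv (n := n) hd ha).1] at h2
  omega

theorem B12_aux.down {n e : ℕ} {X : Finset ℤ} (hX : Flu n e X) {x : ℤ} (hx : x ∈ X) (j : ℕ) :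
    -(n : ℤ) ≤ x - (e : ℤ) * j → x - (e : ℤ) * j ∈ X := by
  induction j with
  | zero =>
    intro _
    simpa using hx
  | succ j ih =>
    intro h
    have h1 : x - (e : ℤ) * ((j + 1 : ℕ) : ℤ) = (x - (e : ℤ) * j) - e := by
      push_cast
      ring
    rw [h1] at h ⊢
    exact hX _ (ih (by omega)) h

/-- the number of the beads in a residue class -/
theorem B12_aux.card_class {e : ℕ} {X Y : Finset ℤ} (h : Rch e X Y) (he : 0 < e) (r : ℤ) :
    (X.filter (fun x => x % (e : ℤ) = r)).card = (Y.filter (fun x => x % (e : ℤ) = r)).card := by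
  induction h with
  | refl => rfl
  | tail _ h2 ih =>
    rw [ih]
    obtain ⟨a, ha, rfl⟩ := h2
    obtain ⟨ha1, ha2⟩ := Finset.mem_filter.1 ha
    unfold mv
    rw [Finset.filter_insert, Finset.filter_erase]
    have h3 : (a + (e : ℤ)) % (e : ℤ) = a % (e : ℤ) := Int.add_emod_right _ _
    rw [h3]
    by_cases hr : a % (e : ℤ) = r
    · rw [if_pos hr, Finset.card_insert_of_notMem, Finset.card_erase_add_one]
      · exact Finset.mem_filter.2 ⟨ha1, hr⟩
      · intro h4
        exact ha2 (Finset.mem_filter.1 (Finset.mem_of_mem_erase h4)).1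
    · rw [if_neg hr, Finset.erase_eq_of_notMem]
      intro h4
      exact hr (Finset.mem_filter.1 h4).2

theorem flu_unique {n e : ℕ} (he : 0 < e) {X X' Y : Finset ℤ} (h : Ok n X) (h' : Ok n X')
    (hX : Flu n e X) (hX' : Flu n e X') (hY : Rch e X Y) (hY' : Rch e X' Y) : X = X' := by
  refine Finset.eq_of_subset_of_card_le ?_ (by rw [h.1, h'.1])
  intro x hx
  by_contra hne
  have h1 := (B12_aux.card_class hY he (x % (e : ℤ))).trans
    (B12_aux.card_class hY' he (x % (e : ℤ))).symm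
  have h2 : X'.filter (fun y => y % (e : ℤ) = x % (e : ℤ)) ⊆
      (X.filter (fun y => y % (e : ℤ) = x % (e : ℤ))).erase x := by
    intro y hy
    obtain ⟨hy1, hy2⟩ := Finset.mem_filter.1 hy
    have hyx : y ≠ x := fun h5 => hne (h5 ▸ hy1)
    refine Finset.mem_erase.2 ⟨hyx, Finset.mem_filter.2 ⟨?_, hy2⟩⟩
    have h3 : (e : ℤ) ∣ x - y := Int.ModEq.dvd hy2
    obtain ⟨c, hc⟩ := h3
    rcases le_total 0 c with hc0 | hc0
    · obtain ⟨j, rfl⟩ := Int.eq_ofNat_of_zero_le hc0
      have h4 : y = x - (e : ℤ) * j := by linarith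
      rw [h4]
      refine B12_aux.down hX hx j ?_
      rw [← h4]
      exact h'.2 y hy1
    · exfalso
      obtain ⟨j, hj⟩ := Int.eq_ofNat_of_zero_le (neg_nonneg.2 hc0)
      have h4 : x = y - (e : ℤ) * j := by
        rw [← hj]
        linarith
      apply hne
      rw [h4]
      refine B12_aux.down hX' hy1 j ?_
      rw [← h4]
      exact h.2 x hx
  have h3 := Finset.card_le_card h2
  have h4 : x ∈ X.filter (fun y => y % (e : ℤ) = x % (e : ℤ)) := Finset.mem_filter.2 ⟨hx, rfl⟩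
  have h5 := Finset.card_erase_add_one h4
  omega

theorem rch_of_ne {R : Type} [CommRing R] {e m : ℕ} {φ : Finset ℤ → R} {X : Finset ℤ}
    (h : (Fo R (e : ℤ) ^ m) φ X ≠ 0) : ∃ Y, Rch e X Y ∧ φ Y ≠ 0 := by
  induction m generalizing X with
  | zero =>
    refine ⟨X, Relation.ReflTransGen.refl, ?_⟩
    rw [pow_zero] at h
    exact h
  | succ m ih =>
    rw [pow_succ'] at h
    have h1 : ∑ a ∈ nx X (e : ℤ), ((Fo R (e : ℤ) ^ m) φ) (mv X a e) ≠ 0 := h
    obtain ⟨a, ha, h2⟩ := Finset.exists_ne_zero_of_sum_ne_zero h1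
    obtain ⟨Y, hY, h3⟩ := ih h2
    exact ⟨Y, Relation.ReflTransGen.head ⟨a, ha, rfl⟩ hY, h3⟩

end

end AN
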