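import Pool.Agent.AN.B12

/-!
# MP_6c3636_al, AN, module B13: the weights of short paths (helper7)

`wc_small`: claim: every `p` with `-n ≤ p ≤ a + 1 - e` is in `X`: otherwise `X' = mv X a 1` (an `Ok` set, size `sz n X + 1 < e`) contains `a + 1` and not `p`, and `mv X' (a + 1) (p - a - 1)` is `Ok` with size `sz n X + 1 - (a + 1 - p) < 0`, contradiction (`sz_nonneg`). The beads counted by `wc e X a` are the `x = a - t e` and the `x = a + 1 - t e`, `t ≥ 1`, `x ≥ -n`, and all of these are in `X` (disjoint for `e ≥ 2`). The numbers of the two kinds are equal, except that there is one more of the second kind if `a + 1 - t e = -n` for some `t`, that is if `e ∣ a + n + 1` (note `a ≥ -n`, so `t ≥ 1`). `wp_small`: induction along the path; `(a + 1 + n) / e - (a + n) / e` is `1` if `e ∣ a + 1 + n` and `0` otherwise. (Prove it for paths from any `Ok` set `X` with `sz n X + r < e`.)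
-/

namespace AN

noncomputable section

open Classical Equiv


/-- a potential -/
def pt (n e : ℕ) (X : Finset ℤ) : ℤ := ∑ x ∈ X, (x + n) / e

namespace B13_aux

theorem sub_mem {n e : ℕ} (he : 2 ≤ e) {X : Finset ℤ} (h : Ok n X) (hs : sz n X + 1 < e) {a : ℤ}
    (ha : a ∈ nx X 1) {p : ℤ} (h1 : -(n : ℤ) ≤ p) (h2 : p ≤ a + 1 - e) : p ∈ X := by
  by_contra hp
  have haX : a ∈ X := (Finset.mem_filter.mp ha).1
  have he' : (2 : ℤ) ≤ e := by exact_mod_cast he
  have hd : p - a ≠ 0 := by omega
  have hn : a ∈ nx X (p - a) := by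
    refine Finset.mem_filter.mpr ⟨haX, ?_⟩
    rw [add_sub_cancel]
    exact hp
  obtain ⟨hsz, hc⟩ := sz_mv (n := n) hd hn
  have hok : Ok n (mv X a (p - a)) := by
    refine ⟨hc.trans h.1, ?_⟩
    intro x hx
    unfold mv at hx
    rw [add_sub_cancel, Finset.mem_insert] at hx
    rcases hx with rfl | hx
    · exact h1
    · exact h.2 x (Finset.mem_of_mem_erase hx)
  have := sz_nonneg hok
  omega

/-- the number of the `x` in `[-n, a)` at distance a positive multiple of `e` from `b` -/
theorem card_cls {n e : ℕ} (he : 2 ≤ e) {a b : ℤ} (hab : a ≤ b) (hba : b ≤ a + 1) (hb : -(n : ℤ) ≤ b) :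
    (((Finset.Ico (-(n : ℤ)) a).filter (fun x => (e : ℤ) ∣ b - x)).card : ℤ) = (b + n) / e := by
  have he' : (2 : ℤ) ≤ e := by exact_mod_cast he
  have hnn : 0 ≤ (b + n) / (e : ℤ) := Int.ediv_nonneg (by omega) (by omega)
  have himg : (Finset.Ico (-(n : ℤ)) a).filter (fun x => (e : ℤ) ∣ b - x) =
      (Finset.Icc 1 ((b + n) / (e : ℤ))).image (fun t => b - t * e) := by
    ext x
    simp only [Finset.mem_filter, Finset.mem_Ico, Finset.mem_image, Finset.mem_Icc]
    constructor
    · rintro ⟨⟨h1, h2⟩, t, ht⟩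
      refine ⟨t, ⟨?_, ?_⟩, ?_⟩
      · by_contra hc
        have : (e : ℤ) * t ≤ 0 := by nlinarith
        omega
      · rw [Int.le_ediv_iff_mul_le (by omega)]
        rw [mul_comm]
        omega
      · rw [mul_comm, ← ht]
        ring
    · rintro ⟨t, ⟨h1, h2⟩, rfl⟩
      rw [Int.le_ediv_iff_mul_le (by omega)] at h2
      refine ⟨⟨by omega, ?_⟩, ⟨t, by ring⟩⟩
      have : (e : ℤ) ≤ t * e := by nlinarith
      omega
  rw [himg, Finset.card_image_of_injective, Int.card_Icc]
  · rw [Int.toNat_of_nonneg (by omega)]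
    ring
  · intro s t hst
    have h' : s * (e : ℤ) = t * e := by
      have := hst
      simp only at this
      omega
    exact mul_right_cancel₀ (by omega) h'

theorem wc_eq {n e : ℕ} (he : 2 ≤ e) {X : Finset ℤ} (h : Ok n X) (hs : sz n X + 1 < e) {a : ℤ}
    (ha : a ∈ nx X 1) : (wc (e : ℤ) X a : ℤ) = (a + n) / e + (a + 1 + n) / e := by
  have haX : a ∈ X := (Finset.mem_filter.mp ha).1
  have hna := h.2 a haX
  have he' : (2 : ℤ) ≤ e := by exact_mod_cast he
  have hset : X.filter (fun x => x < a ∧ ((e : ℤ) ∣ a - x ∨ (e : ℤ) ∣ a + 1 - x)) =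
      ((Finset.Ico (-(n : ℤ)) a).filter (fun x => (e : ℤ) ∣ a - x)) ∪
      ((Finset.Ico (-(n : ℤ)) a).filter (fun x => (e : ℤ) ∣ a + 1 - x)) := by
    ext x
    simp only [Finset.mem_filter, Finset.mem_union, Finset.mem_Ico]
    constructor
    · rintro ⟨hx, hxa, hd⟩
      rcases hd with hd | hd
      · exact Or.inl ⟨⟨h.2 x hx, hxa⟩, hd⟩
      · exact Or.inr ⟨⟨h.2 x hx, hxa⟩, hd⟩
    · rintro (⟨⟨h1, h2⟩, hd⟩ | ⟨⟨h1, h2⟩, hd⟩)
      · refine ⟨?_, h2, Or.inl hd⟩
        refine sub_mem he h hs ha h1 ?_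
        have := Int.le_of_dvd (by omega) hd
        omega
      · refine ⟨?_, h2, Or.inr hd⟩
        refine sub_mem he h hs ha h1 ?_
        have := Int.le_of_dvd (by omega) hd
        omega
  unfold wc
  rw [hset, Finset.card_union_of_disjoint]
  · rw [Nat.cast_add, card_cls he le_rfl (by omega) hna,
      card_cls he (by omega) le_rfl (by omega)]
  · rw [Finset.disjoint_left]
    intro x hx hx'
    have h1 := (Finset.mem_filter.mp hx).2
    have h2 := (Finset.mem_filter.mp hx').2
    have h3 : (e : ℤ) ∣ 1 := by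
      have := dvd_sub h2 h1
      have h4 : a + 1 - x - (a - x) = 1 := by ring
      rwa [h4] at this
    have := Int.le_of_dvd (by omega) h3
    omega

theorem div_step {n e : ℕ} (he : 2 ≤ e) (a : ℤ) :
    (a + 1 + n) / (e : ℤ) - (a + n) / e = if (e : ℤ) ∣ a + n + 1 then 1 else 0 := by
  have he' : (0 : ℤ) < e := by
    have : (2 : ℤ) ≤ e := by exact_mod_cast he
    omega
  have h2 : (2 : ℤ) ≤ e := by exact_mod_cast he
  have e1 := Int.emod_add_mul_ediv (a + n) e
  have e2 := Int.emod_nonneg (a + n) (by omega : (e : ℤ) ≠ 0)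
  have e3 := Int.emod_lt_of_pos (a + n) he'
  have f1 := Int.emod_add_mul_ediv (a + 1 + n) e
  have f2 := Int.emod_nonneg (a + 1 + n) (by omega : (e : ℤ) ≠ 0)
  have f3 := Int.emod_lt_of_pos (a + 1 + n) he'
  set q := (a + n) / (e : ℤ)
  set q' := (a + 1 + n) / (e : ℤ)
  set s := (a + n) % (e : ℤ)
  set s' := (a + 1 + n) % (e : ℤ)
  have key : (e : ℤ) * (q' - q) = 1 + s - s' := by
    have : (e : ℤ) * (q' - q) = e * q' - e * q := by ring
    omega
  split_ifs with hd
  · have hs' : s' = 0 := by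
      have : (e : ℤ) ∣ a + 1 + n := by
        have h4 : a + n + 1 = a + 1 + n := by ring
        rwa [h4] at hd
      exact Int.emod_eq_zero_of_dvd this
    have h5 : 0 < q' - q := by
      by_contra hc
      have : (e : ℤ) * (q' - q) ≤ 0 := by nlinarith
      omega
    have h6 : q' - q < 2 := by
      by_contra hc
      have : (e : ℤ) * 2 ≤ e * (q' - q) := by nlinarith
      omega
    omega
  · have hs' : s' ≠ 0 := by
      intro hc
      apply hd
      have : (e : ℤ) ∣ a + 1 + n := Int.dvd_of_emod_eq_zero hc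
      have h4 : a + n + 1 = a + 1 + n := by ring
      rwa [h4]
    have h5 : -1 < q' - q := by
      by_contra hc
      have : (e : ℤ) * (q' - q) ≤ -e := by nlinarith
      omega
    have h6 : q' - q < 1 := by
      by_contra hc
      have : (e : ℤ) ≤ e * (q' - q) := by nlinarith
      omega
    omega

theorem pt_mv {n e : ℕ} {X : Finset ℤ} {a : ℤ} (ha : a ∈ nx X 1) :
    pt n e (mv X a 1) = pt n e X + ((a + 1 + n) / e - (a + n) / e) := by
  have haX : a ∈ X := (Finset.mem_filter.mp ha).1
  have hn : a + 1 ∉ X := (Finset.mem_filter.mp ha).2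
  unfold pt mv
  rw [Finset.sum_insert (fun hc => hn (Finset.mem_of_mem_erase hc)),
    ← Finset.add_sum_erase X _ haX]
  ring

end B13_aux

theorem wc_small {n e : ℕ} (he : 2 ≤ e) {X : Finset ℤ} (h : Ok n X) (hs : sz n X + 1 < e) {a : ℤ}
    (ha : a ∈ nx X 1) : ((wc (e : ℤ) X a : ℕ) : ZMod 2) = if (e : ℤ) ∣ a + n + 1 then 1 else 0 := by
  have h1 := B13_aux.wc_eq he h hs ha
  have h2 := B13_aux.div_step (n := n) he a
  have h3 : (wc (e : ℤ) X a : ℤ) = 2 * ((a + n) / e) + (if (e : ℤ) ∣ a + n + 1 then 1 else 0) := by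
    rw [h1, ← h2]
    ring
  have h4 : (((wc (e : ℤ) X a : ℤ)) : ZMod 2) =
      ((2 * ((a + n) / e) + (if (e : ℤ) ∣ a + n + 1 then 1 else 0) : ℤ) : ZMod 2) := by
    rw [h3]
  have h20 : (2 : ZMod 2) = 0 := by decide
  rw [Int.cast_natCast] at h4
  rw [h4]
  push_cast
  rw [h20, zero_mul, zero_add]

theorem wp_small {n e r : ℕ} (he : 2 ≤ e) {X : Finset ℤ} (h : Ok n X) (hs : sz n X + r < e) {l : List ℤ}
    (hl : l ∈ pth r X) :
    ((wp (e : ℤ) X l : ℕ) : ZMod 2) = ((pt n e (en X l) - pt n e X : ℤ) : ZMod 2) := by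
  induction r generalizing X l with
  | zero =>
    have hl' : l = [] := by
      have : l ∈ ({[]} : Finset (List ℤ)) := hl
      exact Finset.mem_singleton.mp this
    subst hl'
    simp [wp, en]
  | succ r ih =>
    cases l with
    | nil =>
      have := length_of_mem_pth hl
      simp at this
    | cons a l =>
      obtain ⟨ha, hl'⟩ := mem_pth_succ.mp hl
      have haX : a ∈ X := (Finset.mem_filter.mp ha).1
      have hz := sz_nonneg h
      push_cast at hs
      obtain ⟨hsz, hc⟩ := sz_mv (n := n) one_ne_zero ha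
      have hok : Ok n (mv X a 1) := by
        refine ⟨hc.trans h.1, ?_⟩
        intro x hx
        unfold mv at hx
        rw [Finset.mem_insert] at hx
        rcases hx with rfl | hx
        · have := h.2 a haX
          omega
        · exact h.2 x (Finset.mem_of_mem_erase hx)
      have h1 := ih hok (by omega) hl'
      have h2 := wc_small he h (by omega) ha
      have h3 := B13_aux.pt_mv (n := n) (e := e) ha
      have h4 := B13_aux.div_step (n := n) he a
      show ((wc (e : ℤ) X a + wp (e : ℤ) (mv X a 1) l : ℕ) : ZMod 2) =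
        ((pt n e (en (mv X a 1) l) - pt n e X : ℤ) : ZMod 2)
      rw [Nat.cast_add, h1, h2]
      have h5 : pt n e (en (mv X a 1) l) - pt n e X =
          (pt n e (en (mv X a 1) l) - pt n e (mv X a 1)) +
            (if (e : ℤ) ∣ a + n + 1 then 1 else 0) := by
        rw [h3, h4]
        ring
      rw [h5, Int.cast_add, add_comm]
      congr 1
      split_ifs <;> simp

end

end AN
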