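import Pool.Agent.AN.Defs

/-!
# MP_6c3636_al, AN, module C01: legal sequences (helper7)

`occ_succ`: `cn α (k + 1) x = cn α k x + (if α k = x then 1 else 0)`. `occ_01`: induction on `k` with `occ_succ` and `Lg` (the step `k` removes a bead from `α k`, where there is one, and puts a bead at `α k + 1`, where there is none). `Lg_bd`: by induction on `k`: `occ α k x = 1` for `x ≤ -k` and `occ α k x = 0` for `x > k`; so `α k > -k - 1` (as `occ α k (α k + 1) = 0`) and `α k ≤ k`. `Lg_diff`: the set of the entries is an interval which contains `0` (if `n > 0`): an entry `a > 0` at the step `k` needs a bead at `a`, so `a - 1` is an earlier entry; an entry `a < 0` needs no bead at `a + 1 ≤ 0`, so `a + 1` is an earlier entry. So the interval has at most `n` elements. `mem_SF`: from `Lg_bd`. `cn_unique`: `cn α n (x - 1) - cn α n x` is determined by `occ α n`, and `cn α n x = 0` for `x` large (or small): induction.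
-/

namespace AN

noncomputable section

open Classical Equiv

variable {n : ℕ}

namespace C01_aux

theorem cn_zero (α : Fin n → ℤ) (x : ℤ) : cn α 0 x = 0 := by
  unfold cn
  rw [Finset.card_eq_zero, Finset.filter_eq_empty_iff]
  intro j _ hj
  exact Nat.not_lt_zero _ hj.1

theorem cn_succ (α : Fin n → ℤ) (k : Fin n) (x : ℤ) :
    cn α (k + 1) x = cn α k x + (if x = α k then 1 else 0) := by
  unfold cn
  by_cases hx : x = α k
  · rw [if_pos hx]
    have h1 : (Finset.univ.filter (fun j : Fin n => (j : ℕ) < (k : ℕ) + 1 ∧ α j = x)) =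
        insert k (Finset.univ.filter (fun j : Fin n => (j : ℕ) < (k : ℕ) ∧ α j = x)) := by
      ext j
      simp only [Finset.mem_filter, Finset.mem_univ, true_and, Finset.mem_insert]
      constructor
      · rintro ⟨h1, h2⟩
        by_cases hj : j = k
        · exact Or.inl hj
        · right
          refine ⟨?_, h2⟩
          have : (j : ℕ) ≠ (k : ℕ) := fun h => hj (Fin.ext h)
          omega
      · rintro (h | ⟨h1, h2⟩)
        · subst h
          exact ⟨Nat.lt_succ_self _, hx.symm⟩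
        · exact ⟨by omega, h2⟩
    rw [h1, Finset.card_insert_of_notMem]
    intro hk
    exact absurd (Finset.mem_filter.1 hk).2.1 (lt_irrefl _)
  · rw [if_neg hx, add_zero]
    congr 1
    ext j
    simp only [Finset.mem_filter, Finset.mem_univ, true_and]
    constructor
    · rintro ⟨h1, h2⟩
      refine ⟨?_, h2⟩
      have : (j : ℕ) ≠ (k : ℕ) := by
        intro h
        have hj : j = k := Fin.ext h
        rw [hj] at h2
        exact hx h2.symm
      omega
    · rintro ⟨h1, h2⟩
      exact ⟨by omega, h2⟩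

theorem cn_ge (α : Fin n → ℤ) {k : ℕ} (hk : n ≤ k) (x : ℤ) : cn α (k + 1) x = cn α k x := by
  unfold cn
  congr 1
  ext j
  simp only [Finset.mem_filter, Finset.mem_univ, true_and]
  have := j.isLt
  constructor
  · rintro ⟨_, h2⟩
    exact ⟨by omega, h2⟩
  · rintro ⟨_, h2⟩
    exact ⟨by omega, h2⟩

theorem cn_pos {α : Fin n → ℤ} {k : ℕ} {x : ℤ} (h : 1 ≤ cn α k x) : ∃ j : Fin n, (j : ℕ) < k ∧ α j = x := by
  unfold cn at h
  obtain ⟨j, hj⟩ := Finset.card_pos.1 h
  exact ⟨j, (Finset.mem_filter.1 hj).2⟩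

theorem cn_eq_zero {α : Fin n → ℤ} {k : ℕ} {x : ℤ} (h : ∀ j, α j ≠ x) : cn α k x = 0 := by
  unfold cn
  rw [Finset.card_eq_zero, Finset.filter_eq_empty_iff]
  intro j _ hj
  exact h j hj.2

end C01_aux

open C01_aux

theorem occ_zero (α : Fin n → ℤ) (x : ℤ) : occ α 0 x = if x ≤ 0 then 1 else 0 := by
  unfold occ
  rw [cn_zero, cn_zero]
  simp

theorem occ_succ (α : Fin n → ℤ) (k : Fin n) (x : ℤ) :
    occ α (k + 1) x = occ α k x + (if x = α k + 1 then 1 else 0) - (if x = α k then 1 else 0) := by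
  unfold occ
  rw [cn_succ, cn_succ]
  have h1 : (x - 1 = α k) ↔ (x = α k + 1) := by constructor <;> intro h <;> omega
  simp only [h1]
  push_cast
  ring

theorem occ_01 {α : Fin n → ℤ} (h : Lg α) (k : ℕ) (x : ℤ) : occ α k x = 0 ∨ occ α k x = 1 := by
  induction k with
  | zero =>
    rw [occ_zero]
    split_ifs
    · exact Or.inr rfl
    · exact Or.inl rfl
  | succ k ih =>
    by_cases hk : k < n
    · have h1 := occ_succ α ⟨k, hk⟩ x
      have h2 := h ⟨k, hk⟩
      simp only at h1 h2
      rw [h1]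
      by_cases hx1 : x = α ⟨k, hk⟩ + 1
      · have hx2 : x ≠ α ⟨k, hk⟩ := by omega
        rw [if_pos hx1, if_neg hx2, hx1, h2.2]
        right
        norm_num
      · by_cases hx2 : x = α ⟨k, hk⟩
        · rw [if_neg hx1, if_pos hx2, hx2, h2.1]
          left
          norm_num
        · rw [if_neg hx1, if_neg hx2, add_zero, sub_zero]
          exact ih
    · have h1 : occ α (k + 1) x = occ α k x := by
        unfold occ
        rw [cn_ge α (not_lt.1 hk), cn_ge α (not_lt.1 hk)]
      rw [h1]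
      exact ih

namespace C01_aux

theorem bd_step {α : Fin n → ℤ} (h : Lg α) {k : ℕ} (hk : k < n)
    (h1 : ∀ x : ℤ, x ≤ -(k : ℤ) → occ α k x = 1) (h2 : ∀ x : ℤ, (k : ℤ) < x → occ α k x = 0) :
    -(k : ℤ) ≤ α ⟨k, hk⟩ ∧ α ⟨k, hk⟩ ≤ (k : ℤ) := by
  have h3 := h ⟨k, hk⟩
  simp only at h3
  constructor
  · by_contra hc
    have := h1 (α ⟨k, hk⟩ + 1) (by omega)
    rw [h3.2] at this
    exact absurd this (by norm_num)
  · by_contra hc
    have := h2 (α ⟨k, hk⟩) (by omega)
    rw [h3.1] at this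
    exact absurd this (by norm_num)

theorem bd_all {α : Fin n → ℤ} (h : Lg α) (k : ℕ) (hk : k ≤ n) :
    (∀ x : ℤ, x ≤ -(k : ℤ) → occ α k x = 1) ∧ (∀ x : ℤ, (k : ℤ) < x → occ α k x = 0) := by
  induction k with
  | zero =>
    constructor
    · intro x hx
      rw [occ_zero, if_pos (by simpa using hx)]
    · intro x hx
      rw [occ_zero, if_neg (by simpa using hx)]
  | succ k ih =>
    have hk' : k < n := hk
    obtain ⟨i1, i2⟩ := ih (by omega)
    obtain ⟨b1, b2⟩ := bd_step h hk' i1 i2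
    have h1 := fun x => occ_succ α ⟨k, hk'⟩ x
    simp only at h1
    constructor
    · intro x hx
      push_cast at hx
      rw [h1 x, if_neg (by omega), if_neg (by omega), add_zero, sub_zero]
      exact i1 x (by omega)
    · intro x hx
      push_cast at hx
      rw [h1 x, if_neg (by omega), if_neg (by omega), add_zero, sub_zero]
      exact i2 x (by omega)

end C01_aux

theorem Lg_bd {α : Fin n → ℤ} (h : Lg α) (k : Fin n) : -((k : ℕ) : ℤ) ≤ α k ∧ α k ≤ (k : ℕ) := by
  obtain ⟨h1, h2⟩ := bd_all h k k.isLt.le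
  exact bd_step h k.isLt h1 h2

theorem Lg_zero {α : Fin n → ℤ} (h : Lg α) (k : Fin n) (hk : (k : ℕ) = 0) : α k = 0 := by
  have := Lg_bd h k
  rw [hk] at this
  simp only [Nat.cast_zero, neg_zero] at this
  omega

namespace C01_aux

theorem pred_entry {α : Fin n → ℤ} (h : Lg α) (k : Fin n) (hk : 0 < α k) : ∃ j, α j = α k - 1 := by
  have h1 := (h k).1
  unfold occ at h1
  rw [if_neg (by omega)] at h1
  obtain ⟨j, _, hj⟩ := cn_pos (α := α) (k := (k : ℕ)) (x := α k - 1) (by omega)
  exact ⟨j, hj⟩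

theorem succ_entry {α : Fin n → ℤ} (h : Lg α) (k : Fin n) (hk : α k < 0) : ∃ j, α j = α k + 1 := by
  have h1 := (h k).2
  unfold occ at h1
  rw [if_pos (by omega)] at h1
  obtain ⟨j, _, hj⟩ := cn_pos (α := α) (k := (k : ℕ)) (x := α k + 1) (by omega)
  exact ⟨j, hj⟩

theorem down {α : Fin n → ℤ} (h : Lg α) (m : ℕ) (j : Fin n) (hj : 0 ≤ α j - m) :
    ∃ k, α k = α j - m := by
  induction m with
  | zero => exact ⟨j, by simp⟩
  | succ m ih =>
    push_cast at hj
    obtain ⟨k, hk⟩ := ih (by omega)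
    obtain ⟨l, hl⟩ := pred_entry h k (by omega)
    exact ⟨l, by push_cast; omega⟩

theorem up {α : Fin n → ℤ} (h : Lg α) (m : ℕ) (j : Fin n) (hj : α j + m ≤ 0) :
    ∃ k, α k = α j + m := by
  induction m with
  | zero => exact ⟨j, by simp⟩
  | succ m ih =>
    push_cast at hj
    obtain ⟨k, hk⟩ := ih (by omega)
    obtain ⟨l, hl⟩ := succ_entry h k (by omega)
    exact ⟨l, by push_cast; omega⟩

end C01_aux

theorem Lg_int {α : Fin n → ℤ} (h : Lg α) {i j : Fin n} {x : ℤ} (h1 : α i ≤ x) (h2 : x ≤ α j) :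
    ∃ k, α k = x := by
  rcases le_total 0 x with hx | hx
  · obtain ⟨m, hm⟩ := Int.eq_ofNat_of_zero_le (sub_nonneg.2 h2)
    obtain ⟨k, hk⟩ := down h m j (by omega)
    exact ⟨k, by omega⟩
  · obtain ⟨m, hm⟩ := Int.eq_ofNat_of_zero_le (sub_nonneg.2 h1)
    obtain ⟨k, hk⟩ := up h m i (by omega)
    exact ⟨k, by omega⟩

theorem Lg_diff {α : Fin n → ℤ} (h : Lg α) (i j : Fin n) : α i - α j < n := by
  have h1 : Finset.Icc (α j) (α i) ⊆ Finset.univ.image α := by
    intro x hx
    rw [Finset.mem_Icc] at hx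
    obtain ⟨k, hk⟩ := Lg_int h hx.1 hx.2
    exact Finset.mem_image.2 ⟨k, Finset.mem_univ _, hk⟩
  have h2 := Finset.card_le_card h1
  have h3 : (Finset.univ.image α).card ≤ n := by
    refine le_trans Finset.card_image_le ?_
    rw [Finset.card_univ, Fintype.card_fin]
  rw [Int.card_Icc] at h2
  have h4 : (α i + 1 - α j).toNat ≤ n := le_trans h2 h3
  have h5 : α i + 1 - α j ≤ ((α i + 1 - α j).toNat : ℤ) := Int.self_le_toNat _
  omega

/-- the legal sequences of shape `f`, as a finite set -/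
def SF (n : ℕ) (f : ℤ → ℤ) : Finset (Fin n → ℤ) :=
  (Fintype.piFinset fun _ : Fin n => Finset.Icc (-(n : ℤ)) n).filter (fun α => α ∈ Sq n f)

theorem mem_SF {f : ℤ → ℤ} {α : Fin n → ℤ} : α ∈ SF n f ↔ α ∈ Sq n f := by
  unfold SF
  rw [Finset.mem_filter]
  refine ⟨fun h => h.2, fun h => ⟨?_, h⟩⟩
  rw [Fintype.mem_piFinset]
  intro k
  rw [Finset.mem_Icc]
  have h1 := Lg_bd h.1 k
  have h2 := k.isLt
  omega

theorem cn_unique {α β : Fin n → ℤ} (h : occ α n = occ β n) : cn α n = cn β n := by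
  obtain ⟨M, hM⟩ : ∃ M : ℤ, ∀ i, α i < M ∧ β i < M := by
    refine ⟨1 + ∑ i, |α i| + ∑ i, |β i|, fun i => ?_⟩
    have h1 : |α i| ≤ ∑ i, |α i| :=
      Finset.single_le_sum (f := fun i => |α i|) (fun j _ => abs_nonneg _) (Finset.mem_univ i)
    have h2 : |β i| ≤ ∑ i, |β i| :=
      Finset.single_le_sum (f := fun i => |β i|) (fun j _ => abs_nonneg _) (Finset.mem_univ i)
    have h3 := le_abs_self (α i)
    have h4 := le_abs_self (β i)
    have h5 : 0 ≤ ∑ i, |α i| := Finset.sum_nonneg fun j _ => abs_nonneg _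
    have h6 : 0 ≤ ∑ i, |β i| := Finset.sum_nonneg fun j _ => abs_nonneg _
    constructor <;> omega
  have hz : ∀ x : ℤ, M ≤ x → cn α n x = cn β n x := by
    intro x hx
    rw [cn_eq_zero (fun j => by have := (hM j).1; omega),
      cn_eq_zero (fun j => by have := (hM j).2; omega)]
  have hstep : ∀ x : ℤ, cn α n x = cn β n x → cn α n (x - 1) = cn β n (x - 1) := by
    intro x hx
    have h1 := congrFun h x
    unfold occ at h1
    omega
  have hall : ∀ m : ℕ, cn α n (M - m) = cn β n (M - m) := by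
    intro m
    induction m with
    | zero => exact hz _ (by simp)
    | succ m ih =>
      have h1 := hstep _ ih
      have h2 : M - (m : ℤ) - 1 = M - ((m + 1 : ℕ) : ℤ) := by push_cast; ring
      rw [h2] at h1
      exact h1
  funext x
  rcases le_total M x with hx | hx
  · exact hz x hx
  · obtain ⟨m, hm⟩ := Int.eq_ofNat_of_zero_le (sub_nonneg.2 hx)
    have h1 := hall m
    have h2 : M - (m : ℤ) = x := by omega
    rw [h2] at h1
    exact h1

end

end AN
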