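import Pool.Agent.AN.C01

/-!
# MP_6c3636_al, AN, module C02: exchange of two entries (helper7)

`sq α k l` has the same entries as `α` at the places different from `k`, `l`; `cn (sq α k l) j = cn α j` for `j ≤ k` and for `j ≥ l + 1 = k + 2`. `Lg_ne`: after the step `k` there is no bead at `α k`. `Lg_sq`: `a = α k`, `b = α l`, `|a - b| ≥ 2`: the four places `a, a + 1, b, b + 1` are different, so the steps `a` and `b` do not interact: before the step `k` there is a bead at `b` and none at `b + 1` (the step `a` does not change them), after the step `b` the places `a`, `a + 1` are unchanged.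
-/

namespace AN

noncomputable section

open Classical Equiv

variable {n : ℕ}

theorem sq_k (α : Fin n → ℤ) (k l : Fin n) : sq α k l k = α l := by
  unfold sq
  rw [swap_apply_left]

theorem sq_l (α : Fin n → ℤ) (k l : Fin n) : sq α k l l = α k := by
  unfold sq
  rw [swap_apply_right]

theorem sq_other (α : Fin n → ℤ) {k l j : Fin n} (hk : j ≠ k) (hl : j ≠ l) : sq α k l j = α j := by
  unfold sq
  rw [swap_apply_of_ne_of_ne hk hl]

theorem sq_sq (α : Fin n → ℤ) (k l : Fin n) : sq (sq α k l) k l = α := by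
  funext i
  unfold sq
  rw [swap_apply_self]

namespace C02_aux

theorem swap_lt {k l j : Fin n} {m : ℕ} (h : (k : ℕ) < m ↔ (l : ℕ) < m) (hj : (j : ℕ) < m) :
    ((swap k l j : Fin n) : ℕ) < m := by
  rcases eq_or_ne j k with rfl | h1
  · rw [swap_apply_left]
    exact h.mp hj
  · rcases eq_or_ne j l with rfl | h2
    · rw [swap_apply_right]
      exact h.mpr hj
    · rw [swap_apply_of_ne_of_ne h1 h2]
      exact hj

theorem cn_sq (α : Fin n → ℤ) (k l : Fin n) {m : ℕ} (h : (k : ℕ) < m ↔ (l : ℕ) < m) (x : ℤ) :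
    cn (sq α k l) m x = cn α m x := by
  unfold cn
  apply Finset.card_bij (fun j _ => swap k l j)
  · intro j hj
    rw [Finset.mem_filter] at hj ⊢
    exact ⟨Finset.mem_univ _, swap_lt h hj.2.1, hj.2.2⟩
  · intro i _ j _ hij
    exact (swap k l).injective hij
  · intro j hj
    rw [Finset.mem_filter] at hj
    refine ⟨swap k l j, ?_, swap_apply_self _ _ _⟩
    rw [Finset.mem_filter]
    refine ⟨Finset.mem_univ _, swap_lt h hj.2.1, ?_⟩
    unfold sq
    rw [swap_apply_self]
    exact hj.2.2

theorem occ_sq' (α : Fin n → ℤ) (k l : Fin n) {m : ℕ} (h : (k : ℕ) < m ↔ (l : ℕ) < m) :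
    occ (sq α k l) m = occ α m := by
  funext x
  unfold occ
  rw [cn_sq α k l h, cn_sq α k l h]

end C02_aux

theorem occ_sq (α : Fin n → ℤ) (k l : Fin n) : occ (sq α k l) n = occ α n :=
  C02_aux.occ_sq' α k l ⟨fun _ => l.2, fun _ => k.2⟩

theorem Lg_ne {α : Fin n → ℤ} (h : Lg α) {k l : Fin n} (hl : (l : ℕ) = k + 1) : α k ≠ α l := by
  intro he
  have h1 := (h l).1
  rw [hl, ← he, occ_succ, (h k).1, if_neg (by omega), if_pos rfl] at h1
  omega

theorem Lg_sq {α : Fin n → ℤ} (h : Lg α) {k l : Fin n} (hl : (l : ℕ) = k + 1)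
    (hd : α k + 2 ≤ α l ∨ α l + 2 ≤ α k) : Lg (sq α k l) := by
  have ha := h k
  have hb := h l
  rw [hl, occ_succ, occ_succ, if_neg (by omega), if_neg (by omega), if_neg (by omega),
    if_neg (by omega)] at hb
  intro j
  rcases lt_trichotomy (j : ℕ) (k : ℕ) with hj | hj | hj
  · have e1 : sq α k l j = α j := sq_other α (fun e => by rw [e] at hj; omega) (fun e => by rw [e] at hj; omega)
    rw [e1, C02_aux.occ_sq' α k l (by omega)]
    exact h j
  · have ejk : j = k := Fin.ext hj
    rw [ejk, sq_k, C02_aux.occ_sq' α k l (by omega)]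
    omega
  · rcases eq_or_lt_of_le (show (l : ℕ) ≤ j by omega) with hj2 | hj2
    · have ejl : j = l := Fin.ext hj2.symm
      rw [ejl, sq_l, hl, occ_succ, occ_succ, sq_k, C02_aux.occ_sq' α k l (by omega),
        if_neg (by omega), if_neg (by omega), if_neg (by omega), if_neg (by omega)]
      omega
    · have e1 : sq α k l j = α j := sq_other α (fun e => by rw [e] at hj; omega) (fun e => by rw [e] at hj2; omega)
      rw [e1, C02_aux.occ_sq' α k l (by omega)]
      exact h j

theorem Sq_sq {f : ℤ → ℤ} {α : Fin n → ℤ} (h : α ∈ Sq n f) {k l : Fin n} (hl : (l : ℕ) = k + 1)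
    (hd : α k + 2 ≤ α l ∨ α l + 2 ≤ α k) : sq α k l ∈ Sq n f :=
  ⟨Lg_sq h.1 hl hd, (occ_sq α k l).trans h.2⟩

end

end AN
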