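import Pool.Agent.AN.C02

/-!
# MP_6c3636_al, AN, module C03: the minimal sequence (helper7)

`mi_unique`: induction on `n` (for `n + 1`: the last entries agree, remove them; `Fin.init`, the shape of the initial part is determined by the shape and the last entry, see `occ_succ`; the initial part of a minimal legal sequence is minimal and legal). The last entries agree: claim: the last entry `a` of a minimal legal sequence is the largest `y` such that `f (y + 1) = 1` and `f y = 0` (`f` the shape). `a` has this property (last step). Let `y > a` have this property, so `y ≥ a + 2` (`f (a + 1) = 1`, so `y ≠ a + 1`). `y` is an entry (otherwise, as `f (y + 1) = 1`, `f y = 0`: the bead at `y + 1`, if `y + 1 > 0`, came from the step `y`; if `y + 1 ≤ 0` the bead at `y ≤ 0` was removed by the step `y`). Let `j` be the last place with `α j = y`. After `j` the steps `y - 1` and `y + 1` do not occur: after the step `y` there is a bead at `y + 1` and none at `y`; the step `y - 1` would put a bead at `y`, which can only be removed by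 a step `y`; the step `y + 1` would remove the bead at `y + 1`, which can only be replaced by a step `y`. So by induction all entries after `j` are `≥ y + 2` (minimality: each entry is at least the preceding entry minus `1`), contradiction to `a < y`. `ms_lt`: `ms α` is the number of inversions; the exchange of the adjacent entries `α k > α l` removes exactly the inversion `(k, l)`. `exists_mi`: induction on `ms`. `desc_induct`: strong induction on `ms`.
-/

namespace AN

noncomputable section

open Classical Equiv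

variable {n : ℕ}

/-- minimal sequences -/
def Mi (α : Fin n → ℤ) : Prop := ∀ k l : Fin n, (l : ℕ) = k + 1 → α k ≤ α l + 1

/-- the number of inversions -/
def ms (α : Fin n → ℤ) : ℕ :=
  (Finset.univ.filter (fun p : Fin n × Fin n => p.1 < p.2 ∧ α p.2 < α p.1)).card

namespace C03_aux

theorem swap_lt {k l : Fin n} (hl : (l : ℕ) = k + 1) {p q : Fin n} (h : p < q) (hpq : ¬ (p = k ∧ q = l)) :
    swap k l p < swap k l q := by
  rw [Fin.lt_def] at h
  have hkl : k ≠ l := by
    intro e
    rw [e] at hl
    omega
  rcases eq_or_ne p k with rfl | hpk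
  · rw [swap_apply_left]
    have hql : q ≠ l := fun e => hpq ⟨rfl, e⟩
    have hqk : q ≠ p := by
      rintro rfl
      omega
    rw [swap_apply_of_ne_of_ne hqk hql, Fin.lt_def]
    have : (q : ℕ) ≠ l := fun e => hql (Fin.ext e)
    omega
  · rcases eq_or_ne p l with rfl | hpl
    · rw [swap_apply_right]
      have hqk : q ≠ k := by
        rintro rfl
        omega
      have hql : q ≠ p := by
        rintro rfl
        omega
      rw [swap_apply_of_ne_of_ne hqk hql, Fin.lt_def]
      omega
    · rw [swap_apply_of_ne_of_ne hpk hpl]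
      rcases eq_or_ne q k with rfl | hqk
      · rw [swap_apply_left, Fin.lt_def]
        omega
      · rcases eq_or_ne q l with rfl | hql
        · rw [swap_apply_right, Fin.lt_def]
          have : (p : ℕ) ≠ k := fun e => hpk (Fin.ext e)
          omega
        · rw [swap_apply_of_ne_of_ne hqk hql, Fin.lt_def]
          exact h

theorem cn_split (α : Fin n → ℤ) (m : ℕ) (x : ℤ) :
    cn α n x = cn α m x + (Finset.univ.filter (fun k : Fin n => m ≤ (k : ℕ) ∧ α k = x)).card := by
  unfold cn
  rw [← Finset.card_union_of_disjoint]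
  · congr 1
    ext k
    simp only [Finset.mem_filter, Finset.mem_univ, true_and, Finset.mem_union]
    have := k.2
    constructor
    · rintro ⟨_, h⟩
      rcases Nat.lt_or_ge (k : ℕ) m with h1 | h1
      · exact Or.inl ⟨h1, h⟩
      · exact Or.inr ⟨h1, h⟩
    · rintro (⟨_, h⟩ | ⟨_, h⟩)
      · exact ⟨this, h⟩
      · exact ⟨this, h⟩
  · rw [Finset.disjoint_filter]
    rintro k _ ⟨h1, _⟩ ⟨h2, _⟩
    omega

theorem cn_init (α : Fin (n + 1) → ℤ) {k : ℕ} (hk : k ≤ n) (x : ℤ) :
    cn (fun i : Fin n => α i.castSucc) k x = cn α k x := by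
  unfold cn
  rw [Finset.card_filter, Finset.card_filter, Fin.sum_univ_castSucc]
  have h : ¬ ((Fin.last n : ℕ) < k ∧ α (Fin.last n) = x) := by
    rintro ⟨h, _⟩
    rw [Fin.val_last] at h
    omega
  rw [if_neg h, add_zero]
  rfl

theorem occ_init (α : Fin (n + 1) → ℤ) {k : ℕ} (hk : k ≤ n) (x : ℤ) :
    occ (fun i : Fin n => α i.castSucc) k x = occ α k x := by
  unfold occ
  rw [cn_init α hk, cn_init α hk]

/-- the last entry -/
theorem last_top {α : Fin (n + 1) → ℤ} (hα : Lg α) :
    occ α (n + 1) (α (Fin.last n) + 1) = 1 ∧ occ α (n + 1) (α (Fin.last n)) = 0 := by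
  have h := hα (Fin.last n)
  have h1 := occ_succ α (Fin.last n) (α (Fin.last n) + 1)
  have h2 := occ_succ α (Fin.last n) (α (Fin.last n))
  rw [Fin.val_last] at h h1 h2
  rw [if_pos rfl, if_neg (by omega)] at h1
  rw [if_pos rfl, if_neg (by omega)] at h2
  omega

/-- the last entry is the largest one -/
theorem last_max {α : Fin (n + 1) → ℤ} (hα : Lg α) (hm : Mi α) {y : ℤ} (h1 : occ α (n + 1) (y + 1) = 1)
    (h0 : occ α (n + 1) y = 0) : y ≤ α (Fin.last n) := by
  by_contra hcon
  have hlt : α (Fin.last n) < y := not_le.1 hcon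
  -- y is an entry
  have hy : ∃ j, α j = y := by
    by_contra hno
    push Not at hno
    have hc : cn α (n + 1) y = 0 := by
      unfold cn
      rw [Finset.card_eq_zero, Finset.filter_eq_empty_iff]
      rintro k _ ⟨_, h⟩
      exact hno k h
    unfold occ at h1 h0
    rw [show y + 1 - 1 = y by ring] at h1
    rw [hc] at h1 h0
    split_ifs at h1 h0 <;> omega
  obtain ⟨j, hj, hjmax⟩ : ∃ j, α j = y ∧ ∀ k, α k = y → k ≤ j := by
    obtain ⟨j0, hj0⟩ := hy
    have hne : (Finset.univ.filter (fun k : Fin (n + 1) => α k = y)).Nonempty := ⟨j0, by simp [hj0]⟩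
    refine ⟨(Finset.univ.filter (fun k : Fin (n + 1) => α k = y)).max' hne, ?_, fun k hk =>
      Finset.le_max' (Finset.univ.filter (fun k : Fin (n + 1) => α k = y)) k (by simp [hk])⟩
    exact (Finset.mem_filter.1 (Finset.max'_mem _ hne)).2
  -- no y, y - 1, y + 1 after j
  have hL := hα j
  rw [hj] at hL
  have s1 := occ_succ α j (y + 1)
  have s0 := occ_succ α j y
  rw [hj, if_pos rfl, if_neg (by omega)] at s1
  rw [hj, if_pos rfl, if_neg (by omega)] at s0
  have c0 := cn_split α ((j : ℕ) + 1) y
  have c1 := cn_split α ((j : ℕ) + 1) (y + 1)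
  have c2 := cn_split α ((j : ℕ) + 1) (y - 1)
  have e0 : (Finset.univ.filter (fun k : Fin (n + 1) => (j : ℕ) + 1 ≤ (k : ℕ) ∧ α k = y)).card = 0 := by
    rw [Finset.card_eq_zero, Finset.filter_eq_empty_iff]
    rintro k _ ⟨h, h'⟩
    have := hjmax k h'
    rw [Fin.le_def] at this
    omega
  have o1 : occ α (n + 1) (y + 1) = occ α ((j : ℕ) + 1) (y + 1) +
      (Finset.univ.filter (fun k : Fin (n + 1) => (j : ℕ) + 1 ≤ (k : ℕ) ∧ α k = y)).card -
      (Finset.univ.filter (fun k : Fin (n + 1) => (j : ℕ) + 1 ≤ (k : ℕ) ∧ α k = y + 1)).card := by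
    unfold occ
    rw [show y + 1 - 1 = y by ring, c0, c1]
    push_cast
    ring
  have o0 : occ α (n + 1) y = occ α ((j : ℕ) + 1) y +
      (Finset.univ.filter (fun k : Fin (n + 1) => (j : ℕ) + 1 ≤ (k : ℕ) ∧ α k = y - 1)).card -
      (Finset.univ.filter (fun k : Fin (n + 1) => (j : ℕ) + 1 ≤ (k : ℕ) ∧ α k = y)).card := by
    unfold occ
    rw [c0, c2]
    push_cast
    ring
  have e1 : (Finset.univ.filter (fun k : Fin (n + 1) => (j : ℕ) + 1 ≤ (k : ℕ) ∧ α k = y + 1)).card = 0 := by
    omega
  have e2 : (Finset.univ.filter (fun k : Fin (n + 1) => (j : ℕ) + 1 ≤ (k : ℕ) ∧ α k = y - 1)).card = 0 := by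
    omega
  rw [Finset.card_eq_zero, Finset.filter_eq_empty_iff] at e0 e1 e2
  have hne : ∀ k : Fin (n + 1), (j : ℕ) + 1 ≤ (k : ℕ) → α k ≠ y ∧ α k ≠ y + 1 ∧ α k ≠ y - 1 := fun k hk =>
    ⟨fun h => e0 (Finset.mem_univ k) ⟨hk, h⟩, fun h => e1 (Finset.mem_univ k) ⟨hk, h⟩,
      fun h => e2 (Finset.mem_univ k) ⟨hk, h⟩⟩
  -- all later entries are large
  have hbig : ∀ (i : ℕ) (hi : i < n + 1), (j : ℕ) + 1 ≤ i → y + 2 ≤ α ⟨i, hi⟩ := by
    intro i
    induction i with
    | zero =>
      intro hi hji
      omega
    | succ i ih =>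
      intro hi hji
      have h2 := hm ⟨i, by omega⟩ ⟨i + 1, hi⟩ rfl
      have h3 := hne ⟨i + 1, hi⟩ hji
      rcases Nat.lt_or_ge (j : ℕ) i with h4 | h4
      · have h5 := ih (by omega) h4
        omega
      · have h5 : (⟨i, by omega⟩ : Fin (n + 1)) = j := Fin.ext (by show i = (j : ℕ); omega)
        rw [h5, hj] at h2
        omega
  have hjl : (j : ℕ) < n := by
    have h2 := j.2
    rcases Nat.lt_or_ge (j : ℕ) n with h3 | h3
    · exact h3
    · exfalso
      have h4 : j = Fin.last n := Fin.ext (by rw [Fin.val_last]; omega)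
      rw [h4] at hj
      omega
  have := hbig n (by omega) hjl
  have e3 : (⟨n, by omega⟩ : Fin (n + 1)) = Fin.last n := rfl
  rw [e3] at this
  omega

end C03_aux

open C03_aux

theorem ms_lt {α : Fin n → ℤ} {k l : Fin n} (hl : (l : ℕ) = k + 1) (h : α l < α k) :
    ms (sq α k l) < ms α := by
  have hkl : k ≠ l := by
    intro e
    rw [e] at hl
    omega
  unfold ms
  have hinj : Function.Injective (fun p : Fin n × Fin n => (swap k l p.1, swap k l p.2)) := by
    rintro ⟨a, b⟩ ⟨c, d⟩ hab
    simp only [Prod.mk.injEq, EmbeddingLike.apply_eq_iff_eq] at hab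
    exact Prod.ext hab.1 hab.2
  rw [← Finset.card_image_of_injective _ hinj]
  apply Finset.card_lt_card
  rw [Finset.ssubset_iff_of_subset]
  · refine ⟨(k, l), ?_, ?_⟩
    · rw [Finset.mem_filter]
      refine ⟨Finset.mem_univ _, ?_, h⟩
      rw [Fin.lt_def]
      show (k : ℕ) < l
      omega
    · rw [Finset.mem_image]
      rintro ⟨⟨p, q⟩, hp, he⟩
      rw [Finset.mem_filter] at hp
      simp only [Prod.mk.injEq] at he
      have h1 : p = l := by
        rw [swap_apply_eq_iff.1 he.1, swap_apply_left]
      have h2 : q = k := by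
        rw [swap_apply_eq_iff.1 he.2, swap_apply_right]
      have h3 := hp.2.1
      simp only at h3
      rw [h1, h2, Fin.lt_def] at h3
      omega
  · intro x hx
    rw [Finset.mem_image] at hx
    obtain ⟨⟨p, q⟩, hp, rfl⟩ := hx
    rw [Finset.mem_filter] at hp ⊢
    obtain ⟨_, h1, h2⟩ := hp
    simp only at h1 h2
    refine ⟨Finset.mem_univ _, swap_lt hl h1 ?_, h2⟩
    rintro ⟨rfl, rfl⟩
    rw [sq_k, sq_l] at h2
    omega

theorem mi_unique {f : ℤ → ℤ} {α β : Fin n → ℤ} (hα : α ∈ Sq n f) (hβ : β ∈ Sq n f) (h : Mi α)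
    (h' : Mi β) : α = β := by
  induction n generalizing f with
  | zero =>
    funext i
    exact i.elim0
  | succ n ih =>
    obtain ⟨ha, ha'⟩ := hα
    obtain ⟨hb, hb'⟩ := hβ
    have ta := last_top ha
    have tb := last_top hb
    have hlast : α (Fin.last n) = β (Fin.last n) := by
      apply le_antisymm
      · apply last_max hb h'
        · rw [hb', ← ha']
          exact ta.1
        · rw [hb', ← ha']
          exact ta.2
      · apply last_max ha h
        · rw [ha', ← hb']
          exact tb.1
        · rw [ha', ← hb']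
          exact tb.2
    have hinit : (fun i : Fin n => α i.castSucc) = (fun i : Fin n => β i.castSucc) := by
      apply ih (f := occ α n)
      · refine ⟨fun k => ?_, ?_⟩
        · rw [occ_init α k.2.le, occ_init α k.2.le]
          exact ha k.castSucc
        · funext x
          exact occ_init α le_rfl x
      · refine ⟨fun k => ?_, ?_⟩
        · rw [occ_init β k.2.le, occ_init β k.2.le]
          exact hb k.castSucc
        · funext x
          rw [occ_init β le_rfl x]
          have e1 := occ_succ α (Fin.last n) x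
          have e2 := occ_succ β (Fin.last n) x
          rw [Fin.val_last] at e1 e2
          rw [ha'] at e1
          rw [hb', ← hlast] at e2
          omega
      · intro k l hkl
        exact h k.castSucc l.castSucc hkl
      · intro k l hkl
        exact h' k.castSucc l.castSucc hkl
    funext i
    rcases Fin.eq_castSucc_or_eq_last i with ⟨j, rfl⟩ | rfl
    · exact congrFun hinit j
    · exact hlast

theorem desc_induct {f : ℤ → ℤ} {P : (Fin n → ℤ) → Prop} (h0 : ∀ α ∈ Sq n f, Mi α → P α)
    (h1 : ∀ α ∈ Sq n f, ∀ k l : Fin n, (l : ℕ) = k + 1 → α l + 2 ≤ α k → P (sq α k l) → P α) :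
    ∀ α ∈ Sq n f, P α := by
  have key : ∀ (m : ℕ) (α : Fin n → ℤ), ms α = m → α ∈ Sq n f → P α := by
    intro m
    induction m using Nat.strong_induction_on with
    | _ m ih =>
      intro α hm hα
      by_cases hmi : Mi α
      · exact h0 α hα hmi
      · unfold Mi at hmi
        push Not at hmi
        obtain ⟨k, l, hkl, hlt⟩ := hmi
        refine h1 α hα k l hkl (by omega) (ih (ms (sq α k l)) ?_ _ rfl (Sq_sq hα hkl (Or.inr (by omega))))
        rw [← hm]
        exact ms_lt hkl (by omega)
  exact fun α hα => key (ms α) α rfl hα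

theorem exists_mi {f : ℤ → ℤ} (h : (Sq n f).Nonempty) : ∃ α ∈ Sq n f, Mi α := by
  obtain ⟨α, hα⟩ := h
  exact desc_induct (P := fun _ => ∃ α ∈ Sq n f, Mi α) (fun β hβ hm => ⟨β, hβ, hm⟩)
    (fun _ _ _ _ _ _ h => h) α hα

end

end AN
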