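import Pool.Agent.AN.C04
import Pool.Agent.AN.B12

/-!
# MP_6c3636_al, AN, module C05: legal sequences and paths (helper7)

Write `X k = en (X0 W) ((List.ofFn α).take k)`. `ofFn_iff` (first part for all `k ≤ n`): the list `(List.ofFn α).take k` is a path from `X0 W` iff the conditions of `Lg` hold for the first `k` steps, and then `x ∈ X k ↔ -W ≤ x ∧ occ α k x = 1`: induction on `k` (`occ_succ`); the condition for the next step `a = α k` is `a ∈ X k`, `a + 1 ∉ X k`; if `occ α k a = 1` and `occ α k (a + 1) = 0` then `a ≥ -k > -W` or so (`Lg_bd`; for `k < n ≤ W`), conversely `a ∈ X k` gives `a ≥ -W`. It is convenient to prove it for lists `l` of length `k ≤ W` and the functions `l.get`. `mem_pth_iff`: every list of length `n` is `List.ofFn α` (`List.ofFn_get`), `length_of_mem_pth`.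
-/

namespace AN

noncomputable section

open Classical Equiv

variable {n : ℕ}

namespace C05_aux

/-- the conditions of `Lg` for the first `k` steps -/
def LgK (α : Fin n → ℤ) (k : ℕ) : Prop :=
  ∀ j : Fin n, (j : ℕ) < k → occ α j (α j) = 1 ∧ occ α j (α j + 1) = 0

theorem LgK_of_Lg {α : Fin n → ℤ} (h : Lg α) (k : ℕ) : LgK α k := fun j _ => h j

theorem Lg_iff (α : Fin n → ℤ) : LgK α n ↔ Lg α :=
  ⟨fun h k => h k k.isLt, fun h => LgK_of_Lg h n⟩

theorem occ_bd {α : Fin n → ℤ} {k : ℕ} (hk : k ≤ n) (h : LgK α k) (j : ℕ) (hj : j ≤ k) :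
    (∀ x, occ α j x = 0 ∨ occ α j x = 1) ∧ (∀ x, x ≤ -(j : ℤ) → occ α j x = 1) ∧
      (∀ x, (j : ℤ) < x → occ α j x = 0) := by
  induction j with
  | zero =>
    refine ⟨fun x => ?_, fun x hx => ?_, fun x hx => ?_⟩
    · rw [occ_zero]
      split_ifs
      · right; rfl
      · left; rfl
    · rw [occ_zero, if_pos (by simpa using hx)]
    · rw [occ_zero, if_neg (by simpa using hx)]
  | succ j ih =>
    obtain ⟨h1, h2, h3⟩ := ih (by omega)
    obtain ⟨g1, g2⟩ := h ⟨j, by omega⟩ (by simpa using hj)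
    set a := α ⟨j, by omega⟩ with ha
    simp only at g1 g2
    have hs : ∀ x, occ α (j + 1) x = occ α j x + (if x = a + 1 then 1 else 0) -
        (if x = a then 1 else 0) := fun x => occ_succ α ⟨j, by omega⟩ x
    have ha1 : -(j : ℤ) < a + 1 := by
      by_contra hc
      have := h2 (a + 1) (by omega)
      omega
    have ha2 : a ≤ j := by
      by_contra hc
      have := h3 a (by omega)
      omega
    refine ⟨fun x => ?_, fun x hx => ?_, fun x hx => ?_⟩
    · rw [hs]
      by_cases e1 : x = a + 1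
      · rw [if_pos e1, if_neg (by omega), e1, g2]
        right; rfl
      · rw [if_neg e1]
        by_cases e2 : x = a
        · rw [if_pos e2, e2, g1]
          left; rfl
        · rw [if_neg e2]
          simpa using h1 x
    · push_cast at hx
      rw [hs, if_neg (by omega), if_neg (by omega), h2 x (by omega)]
      rfl
    · push_cast at hx
      rw [hs, if_neg (by omega), if_neg (by omega), h3 x (by omega)]
      rfl

theorem en_append (l : List ℤ) (a : ℤ) (X : Finset ℤ) : en X (l ++ [a]) = mv (en X l) a 1 := by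
  induction l generalizing X with
  | nil => rfl
  | cons b l ih => exact ih (mv X b 1)

theorem pth_append (l : List ℤ) (a : ℤ) (k : ℕ) (X : Finset ℤ) :
    l ++ [a] ∈ pth (k + 1) X ↔ l ∈ pth k X ∧ a ∈ nx (en X l) 1 := by
  induction l generalizing X k with
  | nil =>
    rw [List.nil_append, mem_pth_succ]
    constructor
    · rintro ⟨h1, h2⟩
      have h3 := length_of_mem_pth h2
      simp only [List.length_nil] at h3
      subst h3
      exact ⟨by simp [pth], h1⟩
    · rintro ⟨h1, h2⟩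
      have h3 := length_of_mem_pth h1
      simp only [List.length_nil] at h3
      subst h3
      exact ⟨h2, by simp [pth]⟩
  | cons b l ih =>
    rw [List.cons_append, mem_pth_succ]
    cases k with
    | zero =>
      constructor
      · rintro ⟨h1, h2⟩
        have h3 := length_of_mem_pth h2
        simp at h3
      · rintro ⟨h1, h2⟩
        have h3 := length_of_mem_pth h1
        simp at h3
    | succ k =>
      rw [ih, mem_pth_succ]
      constructor
      · rintro ⟨h1, h2, h3⟩
        exact ⟨⟨h1, h2⟩, h3⟩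
      · rintro ⟨⟨h1, h2⟩, h3⟩
        exact ⟨h1, h2, h3⟩

theorem take_succ_ofFn (α : Fin n → ℤ) (k : ℕ) (hk : k < n) :
    (List.ofFn α).take (k + 1) = (List.ofFn α).take k ++ [α ⟨k, hk⟩] := by
  rw [List.take_add_one]
  congr 1
  rw [List.getElem?_ofFn, dif_pos hk]
  rfl

theorem mem_X0 (W : ℕ) (x : ℤ) : x ∈ X0 W ↔ -(W : ℤ) ≤ x ∧ x ≤ 0 := by
  rw [X0, Finset.mem_Icc]

theorem main {W : ℕ} (hW : n ≤ W) (α : Fin n → ℤ) (k : ℕ) (hk : k ≤ n) :
    ((List.ofFn α).take k ∈ pth k (X0 W) ↔ LgK α k) ∧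
      (LgK α k → ∀ x, x ∈ en (X0 W) ((List.ofFn α).take k) ↔ -(W : ℤ) ≤ x ∧ occ α k x = 1) := by
  induction k with
  | zero =>
    refine ⟨⟨fun _ j hj => absurd hj (Nat.not_lt_zero _), fun _ => by simp [pth]⟩, fun _ x => ?_⟩
    rw [List.take_zero]
    show x ∈ X0 W ↔ _
    rw [mem_X0, occ_zero]
    constructor
    · rintro ⟨h1, h2⟩
      exact ⟨h1, if_pos h2⟩
    · rintro ⟨h1, h2⟩
      refine ⟨h1, ?_⟩
      by_contra hc
      rw [if_neg hc] at h2
      exact absurd h2 (by norm_num)
  | succ k ih =>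
    obtain ⟨ih1, ih2⟩ := ih (by omega)
    have hkn : k < n := by omega
    have hsub : LgK α (k + 1) → LgK α k := fun h j hj => h j (by omega)
    have hstep : LgK α k → (α ⟨k, hkn⟩ ∈ nx (en (X0 W) ((List.ofFn α).take k)) 1 ↔
        (occ α k (α ⟨k, hkn⟩) = 1 ∧ occ α k (α ⟨k, hkn⟩ + 1) = 0)) := by
      intro h
      have hm := ih2 h
      obtain ⟨o1, o2, o3⟩ := occ_bd (by omega) h k le_rfl
      rw [nx, Finset.mem_filter, hm, hm]
      constructor
      · rintro ⟨⟨h1, h2⟩, h3⟩
        refine ⟨h2, ?_⟩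
        rcases o1 (α ⟨k, hkn⟩ + 1) with h4 | h4
        · exact h4
        · exact absurd ⟨by omega, h4⟩ h3
      · rintro ⟨h1, h2⟩
        refine ⟨⟨?_, h1⟩, ?_⟩
        · by_contra hc
          have := o2 (α ⟨k, hkn⟩ + 1) (by omega)
          omega
        · rintro ⟨_, h3⟩
          omega
    have hiff : LgK α (k + 1) ↔ LgK α k ∧
        (occ α k (α ⟨k, hkn⟩) = 1 ∧ occ α k (α ⟨k, hkn⟩ + 1) = 0) := by
      constructor
      · intro h
        exact ⟨hsub h, h ⟨k, hkn⟩ (by simp)⟩
      · rintro ⟨h1, h2⟩ j hj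
        by_cases hjk : (j : ℕ) < k
        · exact h1 j hjk
        · have : j = ⟨k, hkn⟩ := Fin.ext (by simp; omega)
          rw [this]
          exact h2
    rw [take_succ_ofFn α k hkn, pth_append, en_append, ih1, hiff]
    refine ⟨⟨fun h => ⟨h.1, (hstep h.1).1 h.2⟩, fun h => ⟨h.1, (hstep h.1).2 h.2⟩⟩, ?_⟩
    rintro ⟨h1, h2, h3⟩ x
    have hm := ih2 h1
    obtain ⟨o1, o2, o3⟩ := occ_bd (by omega) h1 k le_rfl
    have hs : occ α (k + 1) x = occ α k x + (if x = α ⟨k, hkn⟩ + 1 then 1 else 0) -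
        (if x = α ⟨k, hkn⟩ then 1 else 0) := occ_succ α ⟨k, hkn⟩ x
    have ha : -(W : ℤ) ≤ α ⟨k, hkn⟩ := by
      by_contra hc
      have := o2 (α ⟨k, hkn⟩ + 1) (by omega)
      omega
    rw [mv, Finset.mem_insert, Finset.mem_erase, hm, hs]
    generalize α ⟨k, hkn⟩ = a at *
    by_cases e1 : x = a + 1
    · rw [if_pos e1, if_neg (by omega), e1, h3]
      constructor
      · intro _
        exact ⟨by omega, by norm_num⟩
      · intro _
        exact Or.inl rfl
    · rw [if_neg e1]
      by_cases e2 : x = a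
      · rw [if_pos e2, e2, h2]
        constructor
        · rintro (h | h)
          · omega
          · exact absurd rfl h.1
        · rintro ⟨_, h⟩
          norm_num at h
      · rw [if_neg e2, add_zero, sub_zero]
        constructor
        · rintro (h | h)
          · exact absurd h e1
          · exact h.2
        · intro h
          exact Or.inr ⟨e2, h⟩

end C05_aux

open C05_aux

theorem ofFn_iff {W : ℕ} (hW : n ≤ W) (α : Fin n → ℤ) : List.ofFn α ∈ pth n (X0 W) ↔ Lg α := by
  have h := (main hW α n le_rfl).1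
  rw [List.take_of_length_le (by rw [List.length_ofFn]), Lg_iff] at h
  exact h

theorem mem_en {W : ℕ} (hW : n ≤ W) {α : Fin n → ℤ} (h : Lg α) {k : ℕ} (hk : k ≤ n) (x : ℤ) :
    x ∈ en (X0 W) ((List.ofFn α).take k) ↔ -(W : ℤ) ≤ x ∧ occ α k x = 1 :=
  (main hW α k hk).2 (LgK_of_Lg h k) x

theorem mem_pth_iff {W : ℕ} (hW : n ≤ W) {l : List ℤ} :
    l ∈ pth n (X0 W) ↔ ∃ α : Fin n → ℤ, Lg α ∧ List.ofFn α = l := by
  constructor
  · intro h
    have hl := length_of_mem_pth h
    subst hl
    refine ⟨l.get, ?_, List.ofFn_get l⟩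
    rw [← ofFn_iff hW, List.ofFn_get]
    exact h
  · rintro ⟨α, h1, h2⟩
    rw [← h2, ofFn_iff hW]
    exact h1

/-- the set of beads of the shape `f` -/
def bd (W : ℕ) (f : ℤ → ℤ) : Finset ℤ := (Finset.Icc (-(W : ℤ)) (W + 1)).filter (fun x => f x = 1)

theorem en_eq_iff {W : ℕ} (hW : n ≤ W) {α : Fin n → ℤ} (h : Lg α) {k : ℕ} (hk : k ≤ n) {f : ℤ → ℤ}
    (hf : ∃ β : Fin k → ℤ, β ∈ Sq k f) :
    en (X0 W) ((List.ofFn α).take k) = bd W f ↔ occ α k = f := by
  obtain ⟨β, hβ, hβf⟩ := hf
  obtain ⟨o1, o2, o3⟩ := occ_bd hk (LgK_of_Lg h k) k le_rfl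
  obtain ⟨p1, p2, p3⟩ := occ_bd le_rfl (LgK_of_Lg hβ k) k le_rfl
  rw [hβf] at p1 p2 p3
  have hkW : (k : ℤ) ≤ W := by exact_mod_cast hk.trans hW
  constructor
  · intro he
    funext x
    by_cases hx1 : x < -(W : ℤ)
    · rw [o2 x (by omega), p2 x (by omega)]
    · by_cases hx2 : (W : ℤ) + 1 < x
      · rw [o3 x (by omega), p3 x (by omega)]
      · have h1 : x ∈ en (X0 W) ((List.ofFn α).take k) ↔ x ∈ bd W f := by rw [he]
        rw [mem_en hW h hk, bd, Finset.mem_filter, Finset.mem_Icc] at h1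
        rcases o1 x with h2 | h2 <;> rcases p1 x with h3 | h3
        · rw [h2, h3]
        · exfalso
          have := (h1.2 ⟨⟨by omega, by omega⟩, h3⟩).2
          omega
        · exfalso
          have := (h1.1 ⟨by omega, h2⟩).2
          omega
        · rw [h2, h3]
  · intro he
    ext x
    rw [mem_en hW h hk, bd, Finset.mem_filter, Finset.mem_Icc, he]
    constructor
    · rintro ⟨h1, h2⟩
      refine ⟨⟨h1, ?_⟩, h2⟩
      by_contra hc
      have := p3 x (by omega)
      omega
    · rintro ⟨⟨h1, _⟩, h2⟩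
      exact ⟨h1, h2⟩

end

end AN
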