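import Pool.Agent.AN.C05

/-!
# MP_6c3636_al, AN, module C06: the weight of a legal sequence (helper7)

`wp (e) (X0 W) (List.ofFn α) = ∑ k, wc e (X k) (α k)`, `X k` the set of beads before the step `k` (`mem_en`). With `a = α k`: `wc e (X k) a = ∑ over -W ≤ x < a, (x ≡ a or x ≡ a + 1), of occ α k x = G a + ∑ over these x of (cn α k (x - 1) - cn α k x)`, where `G a` is the number of these `x` with `x ≤ 0`. The entries are `≥ -(n - 1) > -W`, so the sum over `x` is the number of the `j < k` with `α j + 1 < a`, `α j + 1 ≡ a` or `a + 1`, minus the number of the `j < k` with `α j < a`, `α j ≡ a` or `a + 1`. The classes `α j ≡ a` cancel (`e ≥ 2`), there remain the `j < k` with `α j ≤ a - 2`, `α j ≡ a - 1` and (modulo `2`, added) the `j < k` with `α j < a`, `α j ≡ a + 1`, where `α j = a - 1` is impossible as `e ≥ 3`. So `wp ≡ ∑ k, G (α k) + ac e α` modulo `2`; `∑ k, G (α k)` depends only on `cn α n` (`cn_unique`), `dq_add_ac`.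
-/

namespace AN

noncomputable section

open Classical Equiv

variable {n : ℕ}

namespace C06_aux

/-- the condition on the beads -/
def Cd (e a x : ℤ) : Prop := x < a ∧ (e ∣ a - x ∨ e ∣ a + 1 - x)

theorem wp_sum (e : ℤ) : ∀ (n : ℕ) (X : Finset ℤ) (α : Fin n → ℤ),
    wp e X (List.ofFn α) = ∑ k : Fin n, wc e (en X ((List.ofFn α).take (k : ℕ))) (α k)
  | 0, X, α => by simp [wp]
  | n + 1, X, α => by
    rw [List.ofFn_succ, Fin.sum_univ_succ]
    have h := wp_sum e n (mv X (α 0) 1) (fun i => α i.succ)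
    simp only [wp, h, Fin.val_zero, List.take_zero, en, Fin.val_succ, List.take_succ_cons]

theorem wc_sum {W : ℕ} (hW : n ≤ W) (e : ℤ) {α : Fin n → ℤ} (h : Lg α) (k : Fin n) :
    ((wc e (en (X0 W) ((List.ofFn α).take (k : ℕ))) (α k) : ℕ) : ℤ) =
      ∑ x ∈ (Finset.Ico (-(W : ℤ)) (α k)).filter (fun x => Cd e (α k) x), occ α k x := by
  have h1 : (en (X0 W) ((List.ofFn α).take (k : ℕ))).filter
      (fun x => x < α k ∧ (e ∣ α k - x ∨ e ∣ α k + 1 - x)) =
      ((Finset.Ico (-(W : ℤ)) (α k)).filter (fun x => Cd e (α k) x)).filter (fun x => occ α k x = 1) := by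
    ext x
    rw [Finset.mem_filter, Finset.mem_filter, Finset.mem_filter, Finset.mem_Ico,
      mem_en hW h (Nat.le_of_lt k.2)]
    unfold Cd
    constructor
    · rintro ⟨⟨a, b⟩, c, d⟩
      exact ⟨⟨⟨a, c⟩, c, d⟩, b⟩
    · rintro ⟨⟨⟨a, c⟩, c', d⟩, b⟩
      exact ⟨⟨a, b⟩, c, d⟩
  unfold wc
  rw [h1, Finset.card_filter, Nat.cast_sum]
  refine Finset.sum_congr rfl fun x _ => ?_
  rcases occ_01 h (k : ℕ) x with h2 | h2
  · rw [h2]; simp
  · rw [h2]; simp

theorem cn_sum (α : Fin n → ℤ) (k : ℕ) (S : Finset ℤ) (t : ℤ) :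
    ∑ x ∈ S, (cn α k (x - t) : ZMod 2) =
      ∑ j : Fin n, if (j : ℕ) < k ∧ α j + t ∈ S then (1 : ZMod 2) else 0 := by
  have h1 : ∀ x ∈ S, (cn α k (x - t) : ZMod 2) =
      ∑ j : Fin n, if ((j : ℕ) < k ∧ α j = x - t) then (1 : ZMod 2) else 0 := by
    intro x _
    unfold cn
    rw [Finset.card_filter, Nat.cast_sum]
    refine Finset.sum_congr rfl fun j _ => ?_
    split_ifs <;> simp
  rw [Finset.sum_congr rfl h1, Finset.sum_comm]
  refine Finset.sum_congr rfl fun j _ => ?_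
  by_cases hj : (j : ℕ) < k
  · by_cases hS : α j + t ∈ S
    · rw [if_pos ⟨hj, hS⟩, Finset.sum_eq_single_of_mem (α j + t) hS]
      · rw [if_pos ⟨hj, by ring⟩]
      · intro b _ hb
        rw [if_neg]
        rintro ⟨_, h⟩
        apply hb
        rw [h]; ring
    · rw [if_neg (fun h => hS h.2)]
      refine Finset.sum_eq_zero fun x hx => ?_
      rw [if_neg]
      rintro ⟨_, h⟩
      apply hS
      rw [h]
      have : x - t + t = x := by ring
      rw [this]
      exact hx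
  · rw [if_neg (fun h => hj h.1)]
    exact Finset.sum_eq_zero fun x _ => if_neg (fun h => hj h.1)

/-- the arithmetic of the classes -/
theorem pqr {e : ℤ} (he : 3 ≤ e) (a y : ℤ) :
    (if Cd e a (y + 1) then (1 : ZMod 2) else 0) + (if Cd e a y then (1 : ZMod 2) else 0) =
      if y + 2 ≤ a ∧ (e ∣ a - y - 1 ∨ e ∣ a - y + 1) then 1 else 0 := by
  have e1 : a - (y + 1) = a - y - 1 := by ring
  have e2 : a + 1 - (y + 1) = a - y := by ring
  have e3 : a + 1 - y = a - y + 1 := by ring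
  have n1 : ¬ (e ∣ a - y - 1 ∧ e ∣ a - y) := by
    rintro ⟨p, q⟩
    have := Int.le_of_dvd (by norm_num) (by simpa using dvd_sub q p : e ∣ 1)
    omega
  have n2 : ¬ (e ∣ a - y ∧ e ∣ a - y + 1) := by
    rintro ⟨p, q⟩
    have := Int.le_of_dvd (by norm_num) (by simpa using dvd_sub q p : e ∣ 1)
    omega
  have n3 : ¬ (e ∣ a - y - 1 ∧ e ∣ a - y + 1) := by
    rintro ⟨p, q⟩
    have h2 : e ∣ 2 := by
      have := dvd_sub q p
      have h3 : a - y + 1 - (a - y - 1) = 2 := by ring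
      rwa [h3] at this
    have := Int.le_of_dvd (by norm_num) h2
    omega
  unfold Cd
  rw [e1, e2, e3]
  rcases lt_trichotomy (y + 1) a with h | h | h
  · have h' : y < a := by omega
    have h'' : y + 2 ≤ a := by omega
    by_cases p1 : e ∣ a - y - 1
    · have p2 : ¬ e ∣ a - y := fun q => n1 ⟨p1, q⟩
      have p3 : ¬ e ∣ a - y + 1 := fun q => n3 ⟨p1, q⟩
      simp [h, h', h'', p1, p2, p3]
    · by_cases p2 : e ∣ a - y
      · have p3 : ¬ e ∣ a - y + 1 := fun q => n2 ⟨p2, q⟩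
        simp only [h, h', h'', p1, p2, p3, true_and, or_true, or_false, if_true, if_false,
          and_false]
        decide
      · by_cases p3 : e ∣ a - y + 1
        · simp [h, h', h'', p1, p2, p3]
        · simp [h, h', h'', p1, p2, p3]
  · have h1 : ¬ (y + 1 < a) := by omega
    have h2 : ¬ (y + 2 ≤ a) := by omega
    have h3 : ¬ e ∣ a - y := by
      intro q
      have h4 : a - y = 1 := by omega
      rw [h4] at q
      have := Int.le_of_dvd (by norm_num) q
      omega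
    have h5 : ¬ e ∣ a - y + 1 := by
      intro q
      have h4 : a - y + 1 = 2 := by omega
      rw [h4] at q
      have := Int.le_of_dvd (by norm_num) q
      omega
    simp [h1, h2, h3, h5]
  · have h1 : ¬ (y + 1 < a) := by omega
    have h2 : ¬ (y + 2 ≤ a) := by omega
    have h3 : ¬ (y < a) := by omega
    simp [h1, h2, h3]

/-- the part of the weight which depends only on the entry -/
def G (W : ℕ) (e a : ℤ) : ZMod 2 :=
  ∑ x ∈ (Finset.Ico (-(W : ℤ)) a).filter (fun x => Cd e a x), if x ≤ 0 then 1 else 0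

theorem wc_two {W : ℕ} (hW : n ≤ W) {e : ℤ} (he : 3 ≤ e) {α : Fin n → ℤ} (h : Lg α) (k : Fin n) :
    ((wc e (en (X0 W) ((List.ofFn α).take (k : ℕ))) (α k) : ℕ) : ZMod 2) = G W e (α k) +
      ∑ j : Fin n, if (j : ℕ) < k ∧ α j + 2 ≤ α k ∧
        (e ∣ α k - α j - 1 ∨ e ∣ α k - α j + 1) then (1 : ZMod 2) else 0 := by
  have h1 := congrArg (fun z : ℤ => (z : ZMod 2)) (wc_sum hW e h k)
  rw [Int.cast_natCast] at h1
  rw [h1, Int.cast_sum]
  have h2 : ∀ x : ℤ, ((occ α k x : ℤ) : ZMod 2) =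
      (if x ≤ 0 then (1 : ZMod 2) else 0) + ((cn α k (x - 1) : ZMod 2) + (cn α k (x - 0) : ZMod 2)) := by
    intro x
    unfold occ
    have h3 : ∀ z : ZMod 2, -z = z := by decide
    rw [sub_zero]
    push_cast
    rw [sub_eq_add_neg, h3]
    split_ifs <;> ring
  simp only [h2]
  rw [Finset.sum_add_distrib, Finset.sum_add_distrib, cn_sum, cn_sum, ← Finset.sum_add_distrib]
  unfold G
  congr 1
  refine Finset.sum_congr rfl fun j _ => ?_
  by_cases hj : (j : ℕ) < k
  · have hb := (Lg_bd h j).1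
    have hjn := j.2
    have hkn := k.2
    have hb' : -(W : ℤ) ≤ α j := by
      have : ((j : ℕ) : ℤ) ≤ (W : ℤ) := by
        have : (j : ℕ) ≤ W := by omega
        exact_mod_cast this
      omega
    have m1 : α j + 1 ∈ (Finset.Ico (-(W : ℤ)) (α k)).filter (fun x => Cd e (α k) x) ↔
        Cd e (α k) (α j + 1) := by
      rw [Finset.mem_filter, Finset.mem_Ico]
      constructor
      · exact fun h => h.2
      · intro h
        exact ⟨⟨by omega, h.1⟩, h⟩
    have m0 : α j + 0 ∈ (Finset.Ico (-(W : ℤ)) (α k)).filter (fun x => Cd e (α k) x) ↔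
        Cd e (α k) (α j) := by
      rw [add_zero, Finset.mem_filter, Finset.mem_Ico]
      constructor
      · exact fun h => h.2
      · intro h
        exact ⟨⟨by omega, h.1⟩, h⟩
    have := pqr he (α k) (α j)
    simp only [hj, true_and, m1, m0]
    exact this
  · simp [hj]

theorem G_sum (W : ℕ) (e : ℤ) {α β : Fin n → ℤ} (hα : Lg α) (hβ : Lg β) (h : cn α n = cn β n) :
    ∑ k : Fin n, G W e (α k) = ∑ k : Fin n, G W e (β k) := by
  have key : ∀ γ : Fin n → ℤ, Lg γ → ∑ k : Fin n, G W e (γ k) =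
      ∑ x ∈ Finset.Icc (-(n : ℤ)) n, (cn γ n x : ZMod 2) * G W e x := by
    intro γ hγ
    have hm : ∀ k : Fin n, k ∈ (Finset.univ : Finset (Fin n)) → γ k ∈ Finset.Icc (-(n : ℤ)) n := by
      intro k _
      have := Lg_bd hγ k
      have := k.2
      rw [Finset.mem_Icc]
      omega
    rw [← Finset.sum_fiberwise_of_maps_to hm]
    refine Finset.sum_congr rfl fun x _ => ?_
    rw [Finset.sum_congr rfl (g := fun _ => G W e x)]
    · rw [Finset.sum_const, nsmul_eq_mul]
      unfold cn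
      congr 2
      congr 1
      refine Finset.filter_congr fun j _ => ?_
      exact ⟨fun h => ⟨j.2, h⟩, fun h => h.2⟩
    · intro k hk
      rw [(Finset.mem_filter.1 hk).2]
  rw [key α hα, key β hβ, h]

theorem ac_sum (e : ℤ) (α : Fin n → ℤ) :
    ((ac e α : ℕ) : ZMod 2) = ∑ k : Fin n, ∑ j : Fin n, if (j : ℕ) < k ∧ α j + 2 ≤ α k ∧
        (e ∣ α k - α j - 1 ∨ e ∣ α k - α j + 1) then (1 : ZMod 2) else 0 := by
  unfold ac
  rw [Finset.card_filter, Nat.cast_sum, Fintype.sum_prod_type, Finset.sum_comm]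
  refine Finset.sum_congr rfl fun k _ => Finset.sum_congr rfl fun j _ => ?_
  simp only [Fin.lt_def]
  split_ifs <;> simp

end C06_aux

open C06_aux

theorem wp_dq {W : ℕ} (hW : n ≤ W) {e : ℕ} (he : 3 ≤ e) (f : ℤ → ℤ) :
    ∃ g : ZMod 2, ∀ α ∈ Sq n f,
      ((wp (e : ℤ) (X0 W) (List.ofFn α) : ℕ) : ZMod 2) = ((dq (e : ℤ) α : ℕ) : ZMod 2) + g := by
  have he' : (3 : ℤ) ≤ (e : ℤ) := by exact_mod_cast he
  by_cases hn : (Sq n f).Nonempty
  · obtain ⟨β, hβ⟩ := hn
    refine ⟨∑ k : Fin n, G W e (β k) + ((dq (e : ℤ) β + ac (e : ℤ) β : ℕ) : ZMod 2), fun α hα => ?_⟩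
    have ho : occ α n = occ β n := hα.2.trans hβ.2.symm
    rw [wp_sum, Nat.cast_sum, Finset.sum_congr rfl (fun k _ => wc_two hW he' hα.1 k),
      Finset.sum_add_distrib, ← ac_sum, G_sum W e hα.1 hβ.1 (cn_unique ho), ← dq_add_ac ho (e : ℤ)]
    have h2 : ∀ z : ZMod 2, z + z = 0 := by decide
    push_cast
    linear_combination -h2 ((dq (e : ℤ) α : ℕ) : ZMod 2)
  · exact ⟨0, fun α hα => absurd ⟨α, hα⟩ hn⟩

end

end AN
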