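import Pool.Agent.Parker.P45
import Pool.Agent.ParkerGL.F04

/-!
# MP_6c3636_al, AN (alternating groups): definitions (helper7)

`jm ρ k` are the Jucys-Murphy operators of a representation of `Perm (Fin n)`, `Wt ρ α` their joint eigenspaces. A sequence
`α : Fin n → ℤ` is legal (`Lg α`) if it is the sequence of the contents of the boxes of a standard Young tableau. We use
the beads of the partition: a box of content `a` is added by moving a bead from `a` to `a + 1`; the beads of the empty
partition are the `x ≤ 0`. `occ α k x` is the number (`0` or `1`) of beads at `x` before the step `k`; `occ α n` describes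
the shape, `Sq n f` is the set of the legal sequences of shape `f`, `SN ρ f v`: `v` is a seminormal basis.
`Fo d`, `Fw e`, `Pw e` are operators on the functions on the finite sets of beads.
-/

namespace AN

noncomputable section

open Classical Equiv

section Rep

variable {K : Type} [Field K] {V : Type} [AddCommGroup V] [Module K V] {n : ℕ}

/-- the Jucys-Murphy operators -/
def jm (ρ : Representation K (Perm (Fin n)) V) (k : Fin n) : Module.End K V :=
  ∑ i ∈ Finset.univ.filter (fun i : Fin n => i < k), ρ (swap i k)

/-- the joint eigenspaces of the Jucys-Murphy operators -/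
def Wt (ρ : Representation K (Perm (Fin n)) V) (α : Fin n → K) : Submodule K V where
  carrier := {v | ∀ k, jm ρ k v = α k • v}
  add_mem' := by
    intro a b ha hb k
    rw [map_add, ha k, hb k, smul_add]
  zero_mem' := by
    intro k
    rw [map_zero, smul_zero]
  smul_mem' := by
    intro c a ha k
    rw [map_smul, ha k, smul_comm]

theorem mem_Wt {ρ : Representation K (Perm (Fin n)) V} {α : Fin n → K} {v : V} :
    v ∈ Wt ρ α ↔ ∀ k, jm ρ k v = α k • v := Iff.rfl

end Rep

section Sequences

variable {n : ℕ}

/-- the number of the `j < k` with `α j = x` -/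
def cn (α : Fin n → ℤ) (k : ℕ) (x : ℤ) : ℕ :=
  (Finset.univ.filter (fun j : Fin n => (j : ℕ) < k ∧ α j = x)).card

/-- the number of beads at `x` before the step `k` -/
def occ (α : Fin n → ℤ) (k : ℕ) (x : ℤ) : ℤ :=
  (if x ≤ 0 then 1 else 0) + (cn α k (x - 1) : ℤ) - (cn α k x : ℤ)

/-- legal sequences -/
def Lg (α : Fin n → ℤ) : Prop := ∀ k : Fin n, occ α k (α k) = 1 ∧ occ α k (α k + 1) = 0

/-- the sequence with the entries at `k` and `l` exchanged -/
def sq {X : Type} (α : Fin n → X) (k l : Fin n) : Fin n → X := fun i => α (swap k l i)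

/-- the legal sequences of shape `f` -/
def Sq (n : ℕ) (f : ℤ → ℤ) : Set (Fin n → ℤ) := {α | Lg α ∧ occ α n = f}

/-- the norm of the basis vector `α` -/
def nm (α : Fin n → ℤ) : ℚ :=
  ∏ i : Fin n, ∏ j : Fin n, if i < j ∧ α j + 2 ≤ α i then 1 - 1 / (((α i - α j : ℤ) : ℚ) ^ 2) else 1

/-- the number of the pairs `i < j` such that `α i - α j ≥ 2` is congruent to `1` or `-1` modulo `e` -/
def dq (e : ℤ) (α : Fin n → ℤ) : ℕ :=
  (Finset.univ.filter (fun p : Fin n × Fin n => p.1 < p.2 ∧ α p.2 + 2 ≤ α p.1 ∧
    (e ∣ α p.1 - α p.2 - 1 ∨ e ∣ α p.1 - α p.2 + 1))).card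

end Sequences

section Basis

variable {K : Type} [Field K] {V : Type} [AddCommGroup V] [Module K V] {n : ℕ}

/-- `v` is a seminormal basis of shape `f` -/
structure SN (ρ : Representation K (Perm (Fin n)) V) (f : ℤ → ℤ) (v : (Fin n → ℤ) → V) : Prop where
  ne : (Sq n f).Nonempty
  nz : ∀ α ∈ Sq n f, v α ≠ 0
  wt : ∀ α ∈ Sq n f, v α ∈ Wt ρ (fun k => (α k : K))
  one : ∀ α ∈ Sq n f, ∀ k l : Fin n, (l : ℕ) = k + 1 → α l = α k + 1 → ρ (swap k l) (v α) = v α
  neg : ∀ α ∈ Sq n f, ∀ k l : Fin n, (l : ℕ) = k + 1 → α l = α k - 1 → ρ (swap k l) (v α) = - v α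
  up : ∀ α ∈ Sq n f, ∀ k l : Fin n, (l : ℕ) = k + 1 → α k + 2 ≤ α l →
    ρ (swap k l) (v α) = (((α l - α k : ℤ) : K)⁻¹) • v α + v (sq α k l)

end Basis

section Beads

variable {R : Type} [CommRing R]

/-- move the bead `a` to `a + d` -/
def mv (X : Finset ℤ) (a d : ℤ) : Finset ℤ := insert (a + d) (X.erase a)

/-- the beads which can be moved by `d` -/
def nx (X : Finset ℤ) (d : ℤ) : Finset ℤ := X.filter (fun a => a + d ∉ X)

/-- the sum over the sets in which one bead is moved by `d` -/
def Fo (R : Type) [CommRing R] (d : ℤ) : Module.End R (Finset ℤ → R) where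
  toFun φ := fun X => ∑ a ∈ nx X d, φ (mv X a d)
  map_add' φ ψ := by
    funext X
    exact Finset.sum_add_distrib
  map_smul' c φ := by
    funext X
    exact (Finset.mul_sum _ _ _).symm

/-- the number of the beads `x < a` with `x ≡ a` or `x ≡ a + 1` modulo `e` -/
def wc (e : ℤ) (X : Finset ℤ) (a : ℤ) : ℕ :=
  (X.filter (fun x => x < a ∧ (e ∣ a - x ∨ e ∣ a + 1 - x))).card

/-- the number of beads between `a` and `a + e` -/
def lc (e : ℤ) (X : Finset ℤ) (a : ℤ) : ℕ := (X.filter (fun x => a < x ∧ x < a + e)).card

/-- the weighted sum over the sets in which one bead is moved by `1` -/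
def Fw (R : Type) [CommRing R] (e : ℤ) : Module.End R (Finset ℤ → R) where
  toFun φ := fun X => ∑ a ∈ nx X 1, (wc e X a : R) * φ (mv X a 1)
  map_add' φ ψ := by
    funext X
    simp only [Pi.add_apply, mul_add, Finset.sum_add_distrib]
  map_smul' c φ := by
    funext X
    simp only [Pi.smul_apply, smul_eq_mul, RingHom.id_apply, Finset.mul_sum, mul_left_comm]

/-- the weighted sum over the sets in which one bead is moved by `e` -/
def Pw (R : Type) [CommRing R] (e : ℤ) : Module.End R (Finset ℤ → R) where
  toFun φ := fun X => ∑ a ∈ nx X e, (lc e X a : R) * φ (mv X a e)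
  map_add' φ ψ := by
    funext X
    simp only [Pi.add_apply, mul_add, Finset.sum_add_distrib]
  map_smul' c φ := by
    funext X
    simp only [Pi.smul_apply, smul_eq_mul, RingHom.id_apply, Finset.mul_sum, mul_left_comm]

/-- multiplication by a function -/
def Mu (R : Type) [CommRing R] (χ : Finset ℤ → R) : Module.End R (Finset ℤ → R) where
  toFun φ := fun X => χ X * φ X
  map_add' φ ψ := by
    funext X
    exact mul_add _ _ _
  map_smul' c φ := by
    funext X
    exact mul_left_comm _ _ _

/-- the number of the pairs of beads `x < y` such that the residue of `x` modulo `e` is greater than the residue of `y` -/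
def kap (e : ℤ) (X : Finset ℤ) : ℕ :=
  ((X ×ˢ X).filter (fun p => p.1 < p.2 ∧ p.2 % e < p.1 % e)).card

/-- the labelled operator: one bead is moved by `d` -/
def LF (R : Type) [CommRing R] (N : ℕ) (d : ℤ) : Module.End R ((Fin N → ℤ) → R) where
  toFun ψ := fun y => ∑ i, ψ (Function.update y i (y i + d))
  map_add' φ ψ := by
    funext X
    exact Finset.sum_add_distrib
  map_smul' c φ := by
    funext X
    exact (Finset.mul_sum _ _ _).symm

/-- the general labelled operator with weights: the ordered pair of beads `(i, j)` at `y i`, `y j` is moved by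
`(m - s, s)`, `s < m`, the weight depends on `s` and `y i - y j` -/
def LZ (R : Type) [CommRing R] (N m : ℕ) (w : ℕ → ℤ → R) : Module.End R ((Fin N → ℤ) → R) where
  toFun ψ := fun y => ∑ i, ∑ j, if i = j then 0 else ∑ s ∈ Finset.range m, w s (y i - y j) *
    ψ (Function.update (Function.update y i (y i + (m - s))) j (y j + s))
  map_add' φ ψ := by
    funext X
    simp only [Pi.add_apply, mul_add, Finset.sum_add_distrib, ← Finset.sum_add_distrib]
    refine Finset.sum_congr rfl fun i _ => Finset.sum_congr rfl fun j _ => ?_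
    split_ifs
    · rw [add_zero]
    · rw [Finset.sum_add_distrib]
  map_smul' c φ := by
    funext X
    simp only [Pi.smul_apply, smul_eq_mul, RingHom.id_apply, Finset.mul_sum]
    refine Finset.sum_congr rfl fun i _ => Finset.sum_congr rfl fun j _ => ?_
    split_ifs
    · rw [mul_zero]
    · rw [Finset.mul_sum]
      exact Finset.sum_congr rfl fun s _ => mul_left_comm _ _ _

/-- the function on the labelled configurations of a function on sets of beads -/
def sh (R : Type) [CommRing R] (N : ℕ) : (Finset ℤ → R) →ₗ[R] ((Fin N → ℤ) → R) where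
  toFun φ := fun y => if Function.Injective y then φ (Finset.univ.image y) else 0
  map_add' φ ψ := by
    funext y
    by_cases h : Function.Injective y
    · simp only [if_pos h, Pi.add_apply]
    · simp only [if_neg h, Pi.add_apply, add_zero]
  map_smul' c φ := by
    funext y
    by_cases h : Function.Injective y
    · simp only [if_pos h, Pi.smul_apply, RingHom.id_apply]
    · simp only [if_neg h, Pi.smul_apply, RingHom.id_apply, smul_zero]

/-- the beads of the empty partition, in a window -/
def X0 (n : ℕ) : Finset ℤ := Finset.Icc (-(n : ℤ)) 0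

/-- the paths of length `n` from `X` -/
def pth : ℕ → Finset ℤ → Finset (List ℤ)
  | 0, _ => {[]}
  | n + 1, X => (nx X 1).biUnion fun a => (pth n (mv X a 1)).image (fun l => a :: l)

/-- the end of a path -/
def en : Finset ℤ → List ℤ → Finset ℤ
  | X, [] => X
  | X, a :: l => en (mv X a 1) l

/-- the weight of a path -/
def wp (e : ℤ) : Finset ℤ → List ℤ → ℕ
  | _, [] => 0
  | X, a :: l => wc e X a + wp e (mv X a 1) l

end Beads

end

end AN
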