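import Pool.Agent.AN.J01

/-!
# MP_6c3636_al, AN, module J02: intertwiners and the Yang-Baxter relation (helper7)

`iw_mem`: by `swap_jm`, `swap_jm'`, `swap_jm_other` (`S = ρ (swap k l)`, `r = a l - a k`): `jm l (S v) = a k • S v + v`, `jm k (S v) = a l • S v - v`, so `jm l (S v - r⁻¹ v) = a k • (S v - r⁻¹ v)` etc.; the other `jm j` commute with `S`. `iw_iw`: `(S + r⁻¹) (S - r⁻¹) = 1 - r⁻²`. `braid`: `swap j k * swap k l * swap j k = swap k l * swap j k * swap k l`. `yb`: expand both sides, use `braid` and `S ^ 2 = 1`: both are `S T S - v⁻¹ S T - u⁻¹ T S + (u v)⁻¹ (S + T) - (u + v)⁻¹ - (u v (u + v))⁻¹`.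
-/

namespace AN

noncomputable section

open Classical Equiv

variable {K : Type} [Field K] {V : Type} [AddCommGroup V] [Module K V] {n : ℕ}
  {ρ : Representation K (Perm (Fin n)) V}

theorem iw_mem {a : Fin n → K} {v : V} (hv : v ∈ Wt ρ a) {k l : Fin n} (hl : (l : ℕ) = k + 1)
    (h : a k ≠ a l) : ρ (swap k l) v - (a l - a k)⁻¹ • v ∈ Wt ρ (sq a k l) := by
  have hr : a l - a k ≠ 0 := sub_ne_zero.2 (Ne.symm h)
  have hkl : k ≠ l := by
    intro e
    rw [e] at hl
    omega
  have hv' := mem_Wt.1 hv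
  have h1 : jm ρ l (ρ (swap k l) v) = a k • ρ (swap k l) v + v := by
    have e := congrArg (fun f : Module.End K V => f v) (swap_jm (ρ := ρ) hl)
    simp only [LinearMap.add_apply, Module.End.mul_apply, Module.End.one_apply] at e
    rw [← e, hv' k, map_smul]
  have h2 : jm ρ k (ρ (swap k l) v) = a l • ρ (swap k l) v - v := by
    have e := congrArg (fun f : Module.End K V => f v) (swap_jm' (ρ := ρ) hl)
    simp only [LinearMap.add_apply, Module.End.mul_apply, Module.End.one_apply] at e
    rw [hv' l, map_smul] at e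
    rw [e, add_sub_cancel_right]
  have hc : (a l - a k)⁻¹ • ((a l - a k) • v) = v := inv_smul_smul₀ hr v
  rw [mem_Wt]
  intro j
  by_cases hjk : j = k
  · subst hjk
    have e : sq a j l j = a l := by
      unfold sq
      rw [swap_apply_left]
    rw [e, map_sub, map_smul, h2, hv' j]
    rw [sub_smul, smul_sub] at hc
    rw [smul_sub, smul_comm (a l) (a l - a j)⁻¹ v]
    nth_rewrite 2 [← hc]
    abel
  · by_cases hjl : j = l
    · subst hjl
      have e : sq a k j j = a k := by
        unfold sq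
        rw [swap_apply_right]
      rw [e, map_sub, map_smul, h1, hv' j]
      rw [sub_smul, smul_sub] at hc
      rw [smul_sub, smul_comm (a k) (a j - a k)⁻¹ v]
      nth_rewrite 2 [← hc]
      abel
    · have e : sq a k l j = a j := by
        unfold sq
        rw [swap_apply_of_ne_of_ne hjk hjl]
      have e2 := congrArg (fun f : Module.End K V => f v) (swap_jm_other (ρ := ρ) hl hjk hjl)
      simp only [Module.End.mul_apply] at e2
      rw [e, map_sub, map_smul, ← e2, hv' j, map_smul, smul_sub, smul_comm (a j) (a l - a k)⁻¹ v]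

theorem iw_iw (k l : Fin n) (r : K) (v : V) :
    ρ (swap k l) (ρ (swap k l) v - r⁻¹ • v) + r⁻¹ • (ρ (swap k l) v - r⁻¹ • v) =
      (1 - r⁻¹ ^ 2) • v := by
  have h := congrArg (fun f : Module.End K V => f v) (swap_sq' (ρ := ρ) k l)
  simp only [Module.End.mul_apply, Module.End.one_apply] at h
  rw [map_sub, map_smul, h, smul_sub, smul_smul, sub_smul, one_smul, pow_two]
  abel

theorem braid {j k l : Fin n} (hk : (k : ℕ) = j + 1) (hl : (l : ℕ) = k + 1) :
    ρ (swap j k) * ρ (swap k l) * ρ (swap j k) = ρ (swap k l) * ρ (swap j k) * ρ (swap k l) := by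
  have h1 : j ≠ k := by
    intro e
    rw [e] at hk
    omega
  have h2 : k ≠ l := by
    intro e
    rw [e] at hl
    omega
  have h3 : j ≠ l := by
    intro e
    rw [e] at hk
    omega
  rw [← map_mul, ← map_mul, ← map_mul, ← map_mul]
  congr 1
  have e1 : swap k l * swap j k * swap k l = swap l j := swap_mul_swap_mul_swap h1 h3
  have e2 : swap k j * swap l k * swap k j = swap j l := swap_mul_swap_mul_swap h2.symm h3.symm
  rw [e1, swap_comm l j, ← e2, swap_comm k j, swap_comm l k]

theorem yb {j k l : Fin n} (hk : (k : ℕ) = j + 1) (hl : (l : ℕ) = k + 1) {u v : K} (hu : u ≠ 0)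
    (hv : v ≠ 0) (huv : u + v ≠ 0) :
    (ρ (swap j k) - algebraMap K (Module.End K V) u⁻¹) *
      (ρ (swap k l) - algebraMap K (Module.End K V) (u + v)⁻¹) *
      (ρ (swap j k) - algebraMap K (Module.End K V) v⁻¹) =
    (ρ (swap k l) - algebraMap K (Module.End K V) v⁻¹) *
      (ρ (swap j k) - algebraMap K (Module.End K V) (u + v)⁻¹) *
      (ρ (swap k l) - algebraMap K (Module.End K V) u⁻¹) := by
  have hb := braid (ρ := ρ) hk hl
  have hS := swap_sq' (ρ := ρ) j k
  have hT := swap_sq' (ρ := ρ) k l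
  obtain ⟨S, hSd⟩ : ∃ S : Module.End K V, S = ρ (swap j k) := ⟨_, rfl⟩
  obtain ⟨T, hTd⟩ : ∃ T : Module.End K V, T = ρ (swap k l) := ⟨_, rfl⟩
  rw [← hSd, ← hTd] at hb
  rw [← hSd] at hS
  rw [← hTd] at hT
  rw [← hSd, ← hTd]
  have hab : u⁻¹ * v⁻¹ = (u⁻¹ + v⁻¹) * (u + v)⁻¹ := by
    field_simp
    ring
  obtain ⟨a, ha⟩ : ∃ a : K, a = u⁻¹ := ⟨_, rfl⟩
  obtain ⟨b, hbd⟩ : ∃ b : K, b = v⁻¹ := ⟨_, rfl⟩
  obtain ⟨c, hc⟩ : ∃ c : K, c = (u + v)⁻¹ := ⟨_, rfl⟩
  rw [← ha, ← hbd, ← hc] at hab ⊢
  have L : (S - algebraMap K (Module.End K V) a) * (T - algebraMap K (Module.End K V) c) *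
      (S - algebraMap K (Module.End K V) b) = S * T * S - b • (S * T) - c • (S * S) + (c * b) • S - a • (T * S) +
      (a * b) • T + (a * c) • S - (a * c * b) • (1 : Module.End K V) := by
    simp only [Algebra.algebraMap_eq_smul_one, sub_mul, mul_sub, smul_mul_assoc, mul_smul_comm, one_mul, mul_one,
      smul_smul, smul_sub]
    module
  have R : (T - algebraMap K (Module.End K V) b) * (S - algebraMap K (Module.End K V) c) *
      (T - algebraMap K (Module.End K V) a) = T * S * T - a • (T * S) - c • (T * T) + (c * a) • T - b • (S * T) +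
      (b * a) • S + (b * c) • T - (b * c * a) • (1 : Module.End K V) := by
    simp only [Algebra.algebraMap_eq_smul_one, sub_mul, mul_sub, smul_mul_assoc, mul_smul_comm, one_mul, mul_one,
      smul_smul, smul_sub]
    module
  rw [L, R, hb, hS, hT]
  have e1 : (c * b) • S + (a * c) • S = (a * b) • S := by
    rw [← add_smul, hab]
    congr 1
    ring
  have e2 : (c * a) • T + (b * c) • T = (a * b) • T := by
    rw [← add_smul, hab]
    congr 1
    ring
  have e3 : b * a = a * b := mul_comm b a
  have e4 : b * c * a = a * c * b := by ring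
  rw [e3, e4]
  calc T * S * T - b • (S * T) - c • (1 : Module.End K V) + (c * b) • S - a • (T * S) +
      (a * b) • T + (a * c) • S - (a * c * b) • (1 : Module.End K V)
      = T * S * T - b • (S * T) - c • (1 : Module.End K V) + ((c * b) • S + (a * c) • S) - a • (T * S) +
      (a * b) • T - (a * c * b) • (1 : Module.End K V) := by abel
    _ = T * S * T - a • (T * S) - c • (1 : Module.End K V) + ((c * a) • T + (b * c) • T) - b • (S * T) +
      (a * b) • S - (a * c * b) • (1 : Module.End K V) := by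
        rw [e1, e2]
        abel
    _ = _ := by abel

end

end AN
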