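import Pool.Agent.AN.J02

/-!
# MP_6c3636_al, AN, module J03: real orthogonal representations (helper7)

`jm_symm`: `inner (ρ g x) y = inner x (ρ g⁻¹ y)` and transpositions are involutions. `rw_zero`: the sum in `jm ρ k` is empty. Let `S = ρ (swap k l)`, `r = a l - a k`. `rw_ne`: if `a k = a l = x` then `jm k (S v) = x • S v - v` (J01), so `(jm k - x) (S v) = -v`, `inner v v = - inner ((jm k - x) (S v)) v = - inner (S v) ((jm k - x) v) = 0`. `rw_one`, `rw_neg`: `u = S v - r⁻¹ v ∈ Wt ρ (sq a k l)` (`iw_mem`); `sq a k l ≠ a`, so `inner u v = 0` (eigenvectors of the symmetric operator `jm ρ k` with different eigenvalues), `inner v v = inner (S v) (S v) = inner u u + r⁻² inner v v`, so `inner u u = (1 - r⁻²) inner v v`: if `r = 1` or `r = -1` then `u = 0`; otherwise (`rw_sw`) `u ≠ 0` (as `inner u u = 0` would give `r ^ 2 = 1`). `rw_pat`: with `S = ρ (swap j k)`, `T = ρ (swap k l)`: in the case `a k = a j + 1` we have `S v = v`, `T v = -v` (`rw_one`,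 `rw_neg`), `S T S v = -v`, `T S T v = v`, contradiction to `braid`.
-/

namespace AN

noncomputable section

open Classical Equiv


variable {E : Type} [NormedAddCommGroup E] [InnerProductSpace ℝ E] {n : ℕ}
  {ρ : Representation ℝ (Perm (Fin n)) E}

private lemma sw_sw (k l : Fin n) (x : E) : ρ (swap k l) (ρ (swap k l) x) = x := by
  have h := swap_sq' (ρ := ρ) k l
  exact LinearMap.congr_fun h x

private lemma sw_symm (hρ : ∀ g x y, inner ℝ (ρ g x) (ρ g y) = inner ℝ x y) (k l : Fin n) (x y : E) :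
    inner ℝ (ρ (swap k l) x) y = inner ℝ x (ρ (swap k l) y) := by
  have h := hρ (swap k l) x (ρ (swap k l) y)
  rwa [sw_sw] at h

theorem jm_symm (hρ : ∀ g x y, inner ℝ (ρ g x) (ρ g y) = inner ℝ x y) (k : Fin n) (x y : E) :
    inner ℝ (jm ρ k x) y = inner ℝ x (jm ρ k y) := by
  unfold jm
  rw [LinearMap.sum_apply, LinearMap.sum_apply, sum_inner, inner_sum]
  exact Finset.sum_congr rfl fun i _ => sw_symm hρ i k x y

theorem rw_zero {a : Fin n → ℝ} {v : E} (hv : v ∈ Wt ρ a) (h0 : v ≠ 0) {k : Fin n} (hk : (k : ℕ) = 0) :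
    a k = 0 := by
  have h := mem_Wt.1 hv k
  have h1 : jm ρ k = 0 := by
    unfold jm
    apply Finset.sum_eq_zero
    intro i hi
    rw [Finset.mem_filter] at hi
    have h2 : (i : ℕ) < (k : ℕ) := hi.2
    omega
  rw [h1, LinearMap.zero_apply] at h
  rcases smul_eq_zero.1 h.symm with h2 | h2
  · exact h2
  · exact absurd h2 h0

theorem rw_ne (hρ : ∀ g x y, inner ℝ (ρ g x) (ρ g y) = inner ℝ x y) {a : Fin n → ℝ} {v : E}
    (hv : v ∈ Wt ρ a) (h0 : v ≠ 0) {k l : Fin n} (hl : (l : ℕ) = k + 1) : a k ≠ a l := by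
  intro h
  have h1 := LinearMap.congr_fun (swap_jm' (ρ := ρ) hl) v
  have h2 : ρ (swap k l) (jm ρ l v) = jm ρ k (ρ (swap k l) v) + v := h1
  rw [mem_Wt.1 hv l, map_smul, ← h] at h2
  have h3 := congrArg (fun x => inner ℝ x v) h2
  simp only [inner_add_left, inner_smul_left] at h3
  rw [jm_symm hρ, mem_Wt.1 hv k, inner_smul_right] at h3
  have h4 : inner ℝ v v = 0 := by
    have h5 : (starRingEnd ℝ) (a k) = a k := rfl
    rw [h5] at h3
    linarith
  exact h0 (inner_self_eq_zero.1 h4)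

private lemma key (hρ : ∀ g x y, inner ℝ (ρ g x) (ρ g y) = inner ℝ x y) {a : Fin n → ℝ} {v : E}
    (hv : v ∈ Wt ρ a) {k l : Fin n} (hl : (l : ℕ) = k + 1) (h : a k ≠ a l) :
    inner ℝ (ρ (swap k l) v - (a l - a k)⁻¹ • v) (ρ (swap k l) v - (a l - a k)⁻¹ • v) =
      (1 - (a l - a k)⁻¹ ^ 2) * inner ℝ v v := by
  have hu := iw_mem hv hl h
  obtain ⟨u, hu'⟩ : ∃ u, u = ρ (swap k l) v - (a l - a k)⁻¹ • v := ⟨_, rfl⟩
  obtain ⟨r, hr⟩ : ∃ r, r = (a l - a k)⁻¹ := ⟨_, rfl⟩
  rw [← hu'] at hu ⊢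
  rw [← hr] at hu' ⊢
  have h1 : jm ρ k u = a l • u := by
    have h2 := mem_Wt.1 hu k
    rw [h2]
    congr 1
    unfold sq
    rw [swap_apply_left]
  have h2 : inner ℝ u v = 0 := by
    have h3 := jm_symm hρ k u v
    rw [h1, mem_Wt.1 hv k, inner_smul_left, inner_smul_right] at h3
    have h5 : (starRingEnd ℝ) (a l) = a l := rfl
    rw [h5] at h3
    have h4 : (a l - a k) * inner ℝ u v = 0 := by linarith
    rcases mul_eq_zero.1 h4 with h6 | h6
    · exact absurd (by linarith) h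
    · exact h6
  have h3 : ρ (swap k l) v = u + r • v := by rw [hu']; abel
  have h4 := hρ (swap k l) v v
  have h6 : inner ℝ v u = 0 := by rw [real_inner_comm]; exact h2
  rw [h3, inner_add_left, inner_add_right, inner_add_right, inner_smul_left, inner_smul_left, inner_smul_right,
    inner_smul_right, h2, h6] at h4
  have h5 : (starRingEnd ℝ) r = r := rfl
  rw [h5] at h4
  linarith

theorem rw_one (hρ : ∀ g x y, inner ℝ (ρ g x) (ρ g y) = inner ℝ x y) {a : Fin n → ℝ} {v : E}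
    (hv : v ∈ Wt ρ a) {k l : Fin n} (hl : (l : ℕ) = k + 1) (h : a l = a k + 1) :
    ρ (swap k l) v = v := by
  have h1 : a l - a k = 1 := by linarith
  have h2 := key hρ hv hl (by intro h3; linarith)
  rw [h1, inv_one, one_smul] at h2
  have h3 : inner ℝ (ρ (swap k l) v - v) (ρ (swap k l) v - v) = 0 := by
    rw [h2]
    ring
  exact sub_eq_zero.1 (inner_self_eq_zero.1 h3)

theorem rw_neg (hρ : ∀ g x y, inner ℝ (ρ g x) (ρ g y) = inner ℝ x y) {a : Fin n → ℝ} {v : E}
    (hv : v ∈ Wt ρ a) {k l : Fin n} (hl : (l : ℕ) = k + 1) (h : a l = a k - 1) :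
    ρ (swap k l) v = - v := by
  have h1 : a l - a k = -1 := by linarith
  have h2 := key hρ hv hl (by intro h3; linarith)
  rw [h1] at h2
  have h4 : ((-1 : ℝ))⁻¹ = -1 := by norm_num
  rw [h4, neg_one_smul] at h2
  have h3 : inner ℝ (ρ (swap k l) v - -v) (ρ (swap k l) v - -v) = 0 := by
    rw [h2]
    ring
  exact sub_eq_zero.1 (inner_self_eq_zero.1 h3)

theorem rw_sw (hρ : ∀ g x y, inner ℝ (ρ g x) (ρ g y) = inner ℝ x y) {a : Fin n → ℝ} {v : E}
    (hv : v ∈ Wt ρ a) (h0 : v ≠ 0) {k l : Fin n} (hl : (l : ℕ) = k + 1) (h1 : a l ≠ a k + 1)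
    (h2 : a l ≠ a k - 1) : ∃ u, u ≠ 0 ∧ u ∈ Wt ρ (sq a k l) := by
  have hne := rw_ne hρ hv h0 hl
  refine ⟨_, ?_, iw_mem hv hl hne⟩
  intro hu
  have h3 := key hρ hv hl hne
  rw [hu, inner_zero_left] at h3
  rcases mul_eq_zero.1 h3.symm with h4 | h4
  · have h5 : (a l - a k) ≠ 0 := by
      intro h6
      exact hne (by linarith)
    have h6 : (a l - a k) ^ 2 = 1 := by
      have h7 : ((a l - a k)⁻¹) ^ 2 = 1 := by linarith
      rw [inv_pow] at h7
      exact inv_eq_one.1 h7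
    rcases (by
      have h8 : (a l - a k - 1) * (a l - a k + 1) = 0 := by linarith
      exact mul_eq_zero.1 h8 : a l - a k - 1 = 0 ∨ a l - a k + 1 = 0) with h7 | h7
    · exact h1 (by linarith)
    · exact h2 (by linarith)
  · exact h0 (inner_self_eq_zero.1 h4)

theorem rw_pat (hρ : ∀ g x y, inner ℝ (ρ g x) (ρ g y) = inner ℝ x y) {a : Fin n → ℝ} {v : E}
    (hv : v ∈ Wt ρ a) (h0 : v ≠ 0) {j k l : Fin n} (hk : (k : ℕ) = j + 1) (hl : (l : ℕ) = k + 1)
    (h : a l = a j) : ¬ (a k = a j + 1 ∨ a k = a j - 1) := by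
  have hb := LinearMap.congr_fun (braid (ρ := ρ) hk hl) v
  have hb' : ρ (swap j k) (ρ (swap k l) (ρ (swap j k) v)) = ρ (swap k l) (ρ (swap j k) (ρ (swap k l) v)) := hb
  have hcon : v = -v → False := by
    intro h1
    apply h0
    have h2 : (2 : ℝ) • v = 0 := by
      rw [two_smul]
      nth_rewrite 1 [h1]
      exact neg_add_cancel v
    rcases smul_eq_zero.1 h2 with h3 | h3
    · norm_num at h3
    · exact h3
  rintro (h1 | h1)
  · have hS := rw_one hρ hv hk h1
    have hT := rw_neg hρ hv hl (by rw [h, h1]; ring)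
    rw [hS, hT, map_neg, hS, map_neg, hT, neg_neg] at hb'
    exact hcon hb'.symm
  · have hS := rw_neg hρ hv hk h1
    have hT := rw_one hρ hv hl (by rw [h, h1]; ring)
    rw [hS, map_neg, hT, map_neg, hS, neg_neg, map_neg, hT] at hb'
    exact hcon hb'

end

end AN
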