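import Pool.Agent.AN.C02

/-!
# MP_6c3636_al, AN, module J04: the weights are legal sequences (helper7)

Claim for `m ≤ n`, by induction on `m`, for all `a ∈ W`: the entries `a 0, ..., a (m - 1)` are integers, and the steps with these contents are legal (formulate it with `α k = ⌊a k⌋`: for `k < m`: `a k = α k`, `occ α k (α k) = 1`, `occ α k (α k + 1) = 0`). `m = 1`: `a 0 = 0` (`h0`). Step: let `b = a (m - 1)`, `x = a m`, `x ≠ b` (`hne`), `Z` the set of beads before the step `m - 1`. (1) `x ≠ b + 1, b - 1`: the claim for `sq a (m - 1) m ∈ W` and `m`: `x` is an integer and the step `x` is legal at `Z`; `|x - b| ≥ 2`, so it is legal after the step `b`. (2) `x = b + 1`: `Z` has a bead at `b` and none at `b + 1`. After the step `b` there is a bead at `x`. Assume there is a bead at `x + 1`. It is in `Z`, and `Z` has no bead at `x`: so there is a `j < m - 1` with `a j = x` (otherwise the bead at `x + 1`, if `x + 1 > 0`, does not exist, and if `x + 1 ≤ 0` the bead at `x ≤ 0` is still there).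 Take the last one. Between `j` and `m - 1` there is no entry `x`, no entry `x - 1` (it would put a bead at `x`), no entry `x + 1` (it would remove the bead at `x + 1`). So by repeated use of `hsw` we can move the entry `x` from `j` to `m - 2` and get an element of `W` with the entries `x, x - 1, x` at `m - 2, m - 1, m`: contradiction to `hpat`. (3) `x = b - 1`: `Z` has a bead at `b`. After the step `b` there is none at `b = x + 1`. Assume that there is no bead at `x`, so there is none in `Z`. There is a `j < m - 1` with `a j = x` (otherwise, if `x ≤ 0` the bead at `x` is still there, if `x > 0` there is no bead at `x + 1 = b > 0`). Take the last one; between `j` and `m - 1` there are no entries `x - 1`, `x`, `x + 1`; move `x` to `m - 2`, contradiction to `hpat`.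
-/

namespace AN

noncomputable section

open Classical Equiv

variable {n : ℕ}

namespace J04_aux

theorem occ_congr {α β : Fin n → ℤ} {k : ℕ} (h : ∀ j : Fin n, (j : ℕ) < k → α j = β j) (x : ℤ) :
    occ α k x = occ β k x := by
  have hc : ∀ y : ℤ, cn α k y = cn β k y := by
    intro y
    unfold cn
    congr 1
    ext j
    simp only [Finset.mem_filter, Finset.mem_univ, true_and]
    constructor
    · rintro ⟨h1, h2⟩
      exact ⟨h1, by rw [← h j h1]; exact h2⟩
    · rintro ⟨h1, h2⟩
      exact ⟨h1, by rw [h j h1]; exact h2⟩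
  unfold occ
  rw [hc x, hc (x - 1)]

theorem occ_01' {α : Fin n → ℤ} {m : ℕ} (hm : m ≤ n)
    (h : ∀ k : Fin n, (k : ℕ) < m → occ α k (α k) = 1 ∧ occ α k (α k + 1) = 0) :
    ∀ k : ℕ, k ≤ m → ∀ x : ℤ, occ α k x = 0 ∨ occ α k x = 1 := by
  intro k
  induction k with
  | zero =>
    intro _ x
    rw [occ_zero]
    split_ifs
    · exact Or.inr rfl
    · exact Or.inl rfl
  | succ k ih =>
    intro hk x
    have hkn : k < n := by omega
    have h1 := h ⟨k, hkn⟩ (by simpa using hk)
    have h2 := occ_succ α ⟨k, hkn⟩ x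
    simp only at h1 h2
    rw [h2]
    rcases ih (by omega) x with h3 | h3
    · rw [h3]
      by_cases hx : x = α ⟨k, hkn⟩
      · exfalso
        rw [hx] at h3
        rw [h3] at h1
        exact zero_ne_one h1.1
      · rw [if_neg hx]
        split_ifs
        · exact Or.inr (by norm_num)
        · exact Or.inl (by norm_num)
    · rw [h3]
      by_cases hx : x = α ⟨k, hkn⟩ + 1
      · exfalso
        rw [hx] at h3
        rw [h3] at h1
        exact one_ne_zero h1.2
      · rw [if_neg hx]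
        split_ifs
        · exact Or.inl (by norm_num)
        · exact Or.inr (by norm_num)

theorem gap {α : Fin n → ℤ} (x : ℤ) : ∀ m : ℕ, m ≤ n →
    (∀ k : Fin n, (k : ℕ) < m → occ α k (α k) = 1 ∧ occ α k (α k + 1) = 0) →
    occ α m x = 0 → occ α m (x + 1) = 1 →
    ∃ j : Fin n, (j : ℕ) < m ∧ α j = x ∧
      ∀ i : Fin n, (j : ℕ) < i → (i : ℕ) < m → α i ≠ x - 1 ∧ α i ≠ x ∧ α i ≠ x + 1 := by
  intro m
  induction m with
  | zero =>
    intro _ _ h1 h2
    exfalso
    rw [occ_zero] at h1 h2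
    split_ifs at h1 h2
    all_goals omega
  | succ m ih =>
    intro hm h h1 h2
    have hmn : m < n := by omega
    have h3 := h ⟨m, hmn⟩ (by simp)
    have h4 := occ_succ α ⟨m, hmn⟩ x
    have h5 := occ_succ α ⟨m, hmn⟩ (x + 1)
    simp only at h3 h4 h5
    rw [h4] at h1
    rw [h5] at h2
    by_cases c1 : α ⟨m, hmn⟩ = x
    · refine ⟨⟨m, hmn⟩, by simp, c1, fun i hi1 hi2 => ?_⟩
      exfalso
      simp only at hi1
      omega
    by_cases c2 : α ⟨m, hmn⟩ = x - 1
    · exfalso
      have e : α ⟨m, hmn⟩ + 1 = x := by omega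
      rw [e] at h3 h1
      rw [h3.2, if_pos rfl, if_neg (by omega)] at h1
      omega
    by_cases c3 : α ⟨m, hmn⟩ = x + 1
    · exfalso
      rw [c3] at h3 h2
      rw [h3.1, if_pos rfl, if_neg (by omega)] at h2
      omega
    rw [if_neg (by omega), if_neg (by omega)] at h1 h2
    obtain ⟨j, j1, j2, j3⟩ := ih (by omega) (fun k hk => h k (by omega)) (by omega) (by omega)
    refine ⟨j, by omega, j2, fun i hi1 hi2 => ?_⟩
    by_cases hi : (i : ℕ) = m
    · have e : i = ⟨m, hmn⟩ := Fin.ext hi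
      rw [e]
      exact ⟨c2, c1, c3⟩
    · exact j3 i hi1 (by omega)

theorem sq_k' (a : Fin n → ℝ) (k l : Fin n) : sq a k l k = a l := by
  unfold sq
  rw [swap_apply_left]

theorem sq_l' (a : Fin n → ℝ) (k l : Fin n) : sq a k l l = a k := by
  unfold sq
  rw [swap_apply_right]

theorem sq_o' (a : Fin n → ℝ) {k l j : Fin n} (hk : j ≠ k) (hl : j ≠ l) : sq a k l j = a j := by
  unfold sq
  rw [swap_apply_of_ne_of_ne hk hl]

theorem move {W : Set (Fin n → ℝ)}
    (hsw : ∀ a ∈ W, ∀ k l : Fin n, (l : ℕ) = k + 1 → a l ≠ a k + 1 → a l ≠ a k - 1 → sq a k l ∈ W)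
    (l : Fin n) : ∀ d : ℕ, ∀ k : Fin n, (l : ℕ) = k + d → ∀ a ∈ W,
      (∀ i : Fin n, (k : ℕ) < i → (i : ℕ) ≤ l → a i ≠ a k + 1 ∧ a i ≠ a k - 1) →
      ∃ a' ∈ W, a' l = a k ∧ ∀ i : Fin n, (l : ℕ) < i → a' i = a i := by
  intro d
  induction d with
  | zero =>
    intro k hk a ha _
    have e : l = k := Fin.ext (by simpa using hk)
    exact ⟨a, ha, by rw [e], fun _ _ => rfl⟩
  | succ d ih =>
    intro k hk a ha h
    have hl : (k : ℕ) + 1 < n := by have := l.isLt; omega
    set p : Fin n := ⟨(k : ℕ) + 1, hl⟩ with hp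
    have hp1 : (p : ℕ) = k + 1 := rfl
    have h1 := h p (by omega) (by omega)
    have h2 := hsw a ha k p hp1 h1.1 h1.2
    have hkp : k ≠ p := by
      intro e
      rw [← e] at hp1
      omega
    obtain ⟨a', a1, a2, a3⟩ := ih p (by omega) (sq a k p) h2 (by
      intro i hi1 hi2
      have e1 : i ≠ k := by
        intro e
        rw [e] at hi1
        omega
      have e2 : i ≠ p := by
        intro e
        rw [e] at hi1
        omega
      rw [sq_o' a e1 e2, sq_l']
      exact h i (by omega) hi2)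
    refine ⟨a', a1, ?_, ?_⟩
    · rw [a2, sq_l']
    · intro i hi
      have e1 : i ≠ k := by
        intro e
        rw [e] at hi
        omega
      have e2 : i ≠ p := by
        intro e
        rw [e] at hi
        omega
      rw [a3 i hi, sq_o' a e1 e2]

/-- the steps before `m` are legal -/
def gd (a : Fin n → ℝ) (m : ℕ) : Prop := ∀ k : Fin n, (k : ℕ) < m → a k = ((⌊a k⌋ : ℤ) : ℝ) ∧
  occ (fun i => ⌊a i⌋) k ⌊a k⌋ = 1 ∧ occ (fun i => ⌊a i⌋) k (⌊a k⌋ + 1) = 0

/-- there is no gap at `x` below a bead at `x + 1` if the next two entries are `x ± 1`, `x` -/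
theorem nogap {W : Set (Fin n → ℝ)}
    (hsw : ∀ a ∈ W, ∀ k l : Fin n, (l : ℕ) = k + 1 → a l ≠ a k + 1 → a l ≠ a k - 1 → sq a k l ∈ W)
    (hpat : ∀ a ∈ W, ∀ j k l : Fin n, (k : ℕ) = j + 1 → (l : ℕ) = k + 1 → a l = a j →
      ¬ (a k = a j + 1 ∨ a k = a j - 1)) {a : Fin n → ℝ} (ha : a ∈ W) {p l : Fin n}
    (hl : (l : ℕ) = p + 1) (hg : gd a p) (x : ℤ) (hx : a l = x)
    (hb : a p = x + 1 ∨ a p = x - 1) (h1 : occ (fun i => ⌊a i⌋) p x = 0)
    (h2 : occ (fun i => ⌊a i⌋) p (x + 1) = 1) : False := by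
  obtain ⟨j, j1, j2, j3⟩ := gap x (p : ℕ) (le_of_lt p.isLt) (fun k hk => (hg k hk).2) h1 h2
  have hq : (p : ℕ) - 1 < n := by have := p.isLt; omega
  set q : Fin n := ⟨(p : ℕ) - 1, hq⟩ with hqd
  have hq1 : (q : ℕ) = p - 1 := rfl
  have hj : a j = x := by
    rw [(hg j j1).1]
    rw [j2]
  obtain ⟨a', a1, a2, a3⟩ := move hsw q ((q : ℕ) - j) j (by omega) a ha (by
    intro i hi1 hi2
    have hi3 := j3 i hi1 (by omega)
    have hi4 := (hg i (by omega)).1
    rw [hj, hi4]
    constructor
    · intro e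
      apply hi3.2.2
      exact_mod_cast e
    · intro e
      apply hi3.1
      exact_mod_cast e)
  have b1 := a3 p (by omega)
  have b2 := a3 l (by omega)
  apply hpat a' a1 q p l (by omega) hl
  · rw [b2, a2, hx, hj]
  · rw [b1, a2, hj]
    exact hb

theorem step {W : Set (Fin n → ℝ)} (h0 : ∀ a ∈ W, ∀ k : Fin n, (k : ℕ) = 0 → a k = 0)
    (hne : ∀ a ∈ W, ∀ k l : Fin n, (l : ℕ) = k + 1 → a k ≠ a l)
    (hsw : ∀ a ∈ W, ∀ k l : Fin n, (l : ℕ) = k + 1 → a l ≠ a k + 1 → a l ≠ a k - 1 → sq a k l ∈ W)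
    (hpat : ∀ a ∈ W, ∀ j k l : Fin n, (k : ℕ) = j + 1 → (l : ℕ) = k + 1 → a l = a j →
      ¬ (a k = a j + 1 ∨ a k = a j - 1)) (m : ℕ) (ih : ∀ a ∈ W, gd a m) : ∀ a ∈ W, gd a (m + 1) := by
  intro a ha l hlm
  by_cases hlt : (l : ℕ) < m
  · exact ih a ha l hlt
  have hle : (l : ℕ) = m := by omega
  rcases Nat.eq_zero_or_pos m with hm | hm
  · have e0 : (l : ℕ) = 0 := by omega
    have e1 := h0 a ha l e0
    have e2 : ⌊a l⌋ = 0 := by rw [e1]; exact Int.floor_zero
    rw [e2, e0, occ_zero, occ_zero, e1]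
    refine ⟨by norm_num, by norm_num, by norm_num⟩
  -- the previous step
  have hp : m - 1 < n := by have := l.isLt; omega
  set p : Fin n := ⟨m - 1, hp⟩ with hpd
  have hp1 : (p : ℕ) = m - 1 := rfl
  have hl : (l : ℕ) = p + 1 := by omega
  have hg := ih a ha
  have hgp : gd a p := fun k hk => hg k (by omega)
  obtain ⟨hb0, hb1, hb2⟩ := hg p (by omega)
  set α : Fin n → ℤ := fun i => ⌊a i⌋ with hα
  have hbα : ⌊a p⌋ = α p := rfl
  rw [hbα] at hb0 hb1 hb2
  have h01 := occ_01' (α := α) (m := m) (by have := l.isLt; omega) (fun k hk => (hg k hk).2)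
  have hs : ∀ x : ℤ, occ α l x = occ α p x + (if x = α p + 1 then 1 else 0) - (if x = α p then 1 else 0) := by
    intro x
    rw [hl]
    exact occ_succ α p x
  have hlα : ⌊a l⌋ = α l := rfl
  rw [hlα]
  by_cases c1 : a l = a p + 1
  · have c1' : α l = α p + 1 := by
      have : a l = ((α p + 1 : ℤ) : ℝ) := by
        rw [c1, hb0]
        push_cast
        ring
      rw [← hlα, this]
      exact Int.floor_intCast _
    have hx : a l = ((α l : ℤ) : ℝ) := by
      rw [c1', c1, hb0]
      push_cast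
      ring
    refine ⟨hx, ?_, ?_⟩
    · rw [hs, c1', hb2, if_pos rfl, if_neg (by omega)]
      norm_num
    · rcases h01 l (by omega) (α l + 1) with h | h
      · exact h
      · exfalso
        rw [hs, if_neg (by omega), if_neg (by omega)] at h
        refine nogap hsw hpat ha hl hgp (α l) hx (Or.inr ?_) ?_ ?_
        · rw [← hx, c1]
          ring
        · rw [c1']
          exact hb2
        · change occ α p (α l + 1) = 1
          omega
  by_cases c2 : a l = a p - 1
  · have c2' : α l = α p - 1 := by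
      have : a l = ((α p - 1 : ℤ) : ℝ) := by
        rw [c2, hb0]
        push_cast
        ring
      rw [← hlα, this]
      exact Int.floor_intCast _
    have hx : a l = ((α l : ℤ) : ℝ) := by
      rw [c2', c2, hb0]
      push_cast
      ring
    refine ⟨hx, ?_, ?_⟩
    · rcases h01 l (by omega) (α l) with h | h
      · exfalso
        rw [hs, if_neg (by omega), if_neg (by omega)] at h
        refine nogap hsw hpat ha hl hgp (α l) hx (Or.inl ?_) ?_ ?_
        · rw [← hx, c2]
          ring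
        · change occ α p (α l) = 0
          omega
        · rw [c2']
          have : α p - 1 + 1 = α p := by ring
          rw [this]
          exact hb1
      · exact h
    · rw [hs, c2']
      have : α p - 1 + 1 = α p := by ring
      rw [this, hb1, if_pos rfl, if_neg (by omega)]
      norm_num
  -- the steps commute
  have hne' : a p ≠ a l := hne a ha p l hl
  have hw := hsw a ha p l hl c1 c2
  have hpl : p ≠ l := by
    intro e
    rw [← e] at hl
    omega
  obtain ⟨g0, g1, g2⟩ := ih _ hw p (by omega)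
  rw [sq_k'] at g0 g1 g2
  rw [hlα] at g0 g1 g2
  have hcg : ∀ x, occ (fun i => ⌊sq a p l i⌋) p x = occ α p x := by
    intro x
    apply occ_congr
    intro j hj
    have e1 : j ≠ p := by
      intro e
      rw [e] at hj
      omega
    have e2 : j ≠ l := by
      intro e
      rw [e] at hj
      omega
    change ⌊sq a p l j⌋ = ⌊a j⌋
    rw [sq_o' a e1 e2]
  rw [hcg] at g1 g2
  have d1 : α l ≠ α p + 1 := by
    intro e
    apply c1
    rw [g0, e, hb0]
    push_cast
    ring
  have d2 : α l ≠ α p - 1 := by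
    intro e
    apply c2
    rw [g0, e, hb0]
    push_cast
    ring
  have d3 : α l ≠ α p := by
    intro e
    apply hne'
    rw [g0, e, hb0]
  refine ⟨g0, ?_, ?_⟩
  · rw [hs, g1, if_neg d1, if_neg d3]
    norm_num
  · rw [hs, g2, if_neg (by omega), if_neg (by omega)]
    norm_num

end J04_aux

theorem lg_of_set (W : Set (Fin n → ℝ)) (h0 : ∀ a ∈ W, ∀ k : Fin n, (k : ℕ) = 0 → a k = 0)
    (hne : ∀ a ∈ W, ∀ k l : Fin n, (l : ℕ) = k + 1 → a k ≠ a l)
    (hsw : ∀ a ∈ W, ∀ k l : Fin n, (l : ℕ) = k + 1 → a l ≠ a k + 1 → a l ≠ a k - 1 → sq a k l ∈ W)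
    (hpat : ∀ a ∈ W, ∀ j k l : Fin n, (k : ℕ) = j + 1 → (l : ℕ) = k + 1 → a l = a j →
      ¬ (a k = a j + 1 ∨ a k = a j - 1)) :
    ∀ a ∈ W, ∃ α : Fin n → ℤ, Lg α ∧ ∀ k, a k = α k := by
  have h : ∀ m : ℕ, ∀ a ∈ W, J04_aux.gd a m := by
    intro m
    induction m with
    | zero =>
      intro a _ k hk
      exact absurd hk (Nat.not_lt_zero _)
    | succ m ih => exact J04_aux.step h0 hne hsw hpat m ih
  intro a ha
  refine ⟨fun i => ⌊a i⌋, fun k => ?_, fun k => ?_⟩
  · exact (h n a ha k k.isLt).2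
  · exact (h n a ha k k.isLt).1

end

end AN
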