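import Pool.Agent.AN.J03
import Pool.Agent.AN.J04

/-!
# MP_6c3636_al, AN, module J05: the weights of a real orthogonal representation (helper7)

The operators `jm ρ k` are symmetric (`jm_symm`) and commute (`jm_comm`), so `E` is the sum of the joint eigenspaces (Mathlib: `LinearMap.IsSymmetric.iSup_iInf_eq_top_of_commute` or `directSum_isInternal_of_pairwise_commute`; or by induction on the operators): `⨆ a : Fin n → ℝ, Wt ρ a = ⊤`. Let `W` be the set of the `a` with `Wt ρ a ≠ ⊥`: `lg_of_set` (J04) with `rw_zero`, `rw_ne`, `rw_sw`, `rw_pat` (J03).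
-/

namespace AN

noncomputable section

open Classical Equiv


variable {E : Type} [NormedAddCommGroup E] [InnerProductSpace ℝ E] [FiniteDimensional ℝ E] {n : ℕ}
  {ρ : Representation ℝ (Perm (Fin n)) E}

theorem real_lg (hρ : ∀ g x y, inner ℝ (ρ g x) (ρ g y) = inner ℝ x y) {a : Fin n → ℝ}
    (h : Wt ρ a ≠ ⊥) : ∃ α : Fin n → ℤ, Lg α ∧ ∀ k, a k = α k := by
  have key : ∀ b ∈ {b : Fin n → ℝ | Wt ρ b ≠ ⊥}, ∃ v ∈ Wt ρ b, v ≠ 0 :=
    fun b hb => Submodule.exists_mem_ne_zero_of_ne_bot hb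
  refine lg_of_set {b : Fin n → ℝ | Wt ρ b ≠ ⊥} ?_ ?_ ?_ ?_ a h
  · intro b hb k hk
    obtain ⟨v, hv, h0⟩ := key b hb
    exact rw_zero hv h0 hk
  · intro b hb k l hl
    obtain ⟨v, hv, h0⟩ := key b hb
    exact rw_ne hρ hv h0 hl
  · intro b hb k l hl h1 h2
    obtain ⟨v, hv, h0⟩ := key b hb
    obtain ⟨u, hu0, hu⟩ := rw_sw hρ hv h0 hl h1 h2
    exact (Submodule.ne_bot_iff _).2 ⟨u, hu, hu0⟩
  · intro b hb j k l hk hl hab
    obtain ⟨v, hv, h0⟩ := key b hb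
    exact rw_pat hρ hv h0 hk hl hab

theorem real_sup (hρ : ∀ g x y, inner ℝ (ρ g x) (ρ g y) = inner ℝ x y) :
    ⨆ α : {α : Fin n → ℤ // Lg α}, Wt ρ (fun k => ((α : Fin n → ℤ) k : ℝ)) = ⊤ := by
  have h1 : ∀ k : Fin n, (jm ρ k : E →ₗ[ℝ] E).IsSymmetric := fun k x y => jm_symm hρ k x y
  have h2 : Pairwise (Function.onFun Commute fun k : Fin n => (jm ρ k : E →ₗ[ℝ] E)) :=
    fun k l _ => jm_comm k l
  have h3 := LinearMap.IsSymmetric.iSup_iInf_eq_top_of_commute h1 h2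
  rw [eq_top_iff, ← h3]
  refine iSup_le fun χ => ?_
  have h4 : (⨅ i, Module.End.eigenspace (jm ρ i : E →ₗ[ℝ] E) (χ i)) = Wt ρ χ := by
    ext v
    rw [Submodule.mem_iInf, mem_Wt]
    exact forall_congr' fun i => Module.End.mem_eigenspace_iff
  rw [h4]
  by_cases hb : Wt ρ χ = ⊥
  · rw [hb]
    exact bot_le
  · obtain ⟨α, hα, hk⟩ := real_lg hρ hb
    have e : χ = fun k => (α k : ℝ) := funext hk
    rw [e]
    exact le_iSup (fun α : {α : Fin n → ℤ // Lg α} => Wt ρ (fun k => ((α : Fin n → ℤ) k : ℝ)))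
      ⟨α, hα⟩

end

end AN
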