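import Pool.Agent.AN.Defs

/-!
# MP_6c3636_al, AN, module J06: the integral group ring (helper7)

`ev ρ` is the ring homomorphism `∑ c_g g ↦ ∑ c_g ρ g` (`MonoidAlgebra.lift`; choose the form which works, `Module.End K V` is a `ℤ`-algebra). `exists_reg`: `E = EuclideanSpace ℝ G`, `(ρ g f) h = f (g⁻¹ h)`; `ev ρ x` maps the basis vector of `1` to `∑ x_g e_g`, so `ev ρ x = 0` implies `x_g = 0` for all `g`.
-/

namespace AN

noncomputable section

open Classical Equiv


/-- the ring homomorphism of the integral group ring -/
def ev {K : Type} [Field K] {V : Type} [AddCommGroup V] [Module K V] {G : Type} [Group G]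
    (ρ : Representation K G V) : MonoidAlgebra ℤ G →+* Module.End K V :=
  (MonoidAlgebra.liftNCRingHom (Int.castRingHom (Module.End K V)) (ρ : G →* Module.End K V)
    (fun n g => Int.cast_commute n (ρ g)))

theorem ev_single {K : Type} [Field K] {V : Type} [AddCommGroup V] [Module K V] {G : Type} [Group G]
    (ρ : Representation K G V) (g : G) (c : ℤ) :
    ev ρ (MonoidAlgebra.single g c) = (c : Module.End K V) * ρ g := by
  exact MonoidAlgebra.liftNCRingHom_single _ _ _ _ _

theorem exists_reg (G : Type) [Group G] [Finite G] :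
    ∃ (E : Type) (_ : NormedAddCommGroup E) (_ : InnerProductSpace ℝ E) (_ : FiniteDimensional ℝ E)
      (ρ : Representation ℝ G E), (∀ g x y, inner ℝ (ρ g x) (ρ g y) = inner ℝ x y) ∧
        ∀ x : MonoidAlgebra ℤ G, ev ρ x = 0 → x = 0 := by
  have : Fintype G := Fintype.ofFinite G
  let ρ : Representation ℝ G (EuclideanSpace ℝ G) :=
    { toFun := fun g => ((LinearIsometryEquiv.piLpCongrLeft 2 ℝ ℝ (Equiv.mulLeft g)).toLinearEquiv :
        EuclideanSpace ℝ G →ₗ[ℝ] EuclideanSpace ℝ G)
      map_one' := by
        ext x h
        change x (1⁻¹ * h) = x h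
        rw [inv_one, one_mul]
      map_mul' := by
        intro a b
        ext x h
        change x ((a * b)⁻¹ * h) = x (b⁻¹ * (a⁻¹ * h))
        rw [mul_inv_rev, mul_assoc] }
  have hρ : ∀ g x h, (ρ g x) h = x (g⁻¹ * h) := by
    intro g x h
    rfl
  refine ⟨EuclideanSpace ℝ G, inferInstance, inferInstance, inferInstance, ρ, ?_, ?_⟩
  · intro g x y
    exact (LinearIsometryEquiv.piLpCongrLeft 2 ℝ ℝ (Equiv.mulLeft g)).inner_map_map x y
  · intro x hx
    have key : ∀ x : MonoidAlgebra ℤ G, ∀ h,
        (ev ρ x (EuclideanSpace.single 1 (1 : ℝ))) h = (x.coeff h : ℝ) := by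
      intro x
      induction x using MonoidAlgebra.induction_linear with
      | zero => intro h; simp
      | add f g hf hg =>
        intro h
        rw [map_add, LinearMap.add_apply, PiLp.add_apply, hf, hg]
        simp
      | single g c =>
        intro h
        rw [ev_single]
        have h1 : ((c : Module.End ℝ (EuclideanSpace ℝ G)) * ρ g) (EuclideanSpace.single 1 (1 : ℝ)) =
            (c : ℤ) • (ρ g (EuclideanSpace.single 1 (1 : ℝ))) := by
          rw [Module.End.mul_apply]
          simp
        rw [h1]
        have h2 : ((c : ℤ) • (ρ g (EuclideanSpace.single 1 (1 : ℝ)))) h =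
            (c : ℤ) • ((ρ g (EuclideanSpace.single 1 (1 : ℝ))) h) := rfl
        rw [h2, hρ, MonoidAlgebra.coeff_single, Finsupp.single_apply]
        by_cases hg : g = h
        · subst hg
          simp
        · have : g⁻¹ * h ≠ 1 := by
            intro h3
            exact hg (inv_mul_eq_one.mp h3)
          simp [hg, this]
    ext h
    have := key x h
    rw [hx] at this
    simpa using this.symm

end

end AN
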