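import Pool.Agent.AN.J05
import Pool.Agent.AN.J06
import Pool.Agent.AN.C01

/-!
# MP_6c3636_al, AN, module J07: the weights over a field of characteristic zero (helper7)

`JX k = ∑ i < k, single (swap i k) 1` in `ℤ[S_n]`, `ev ρ (JX k) = jm ρ k`. Let `E`, `ρ0` be as in `exists_reg`. (1) `∏ m ∈ [-n, n], (JX k - m) = 0` in `ℤ[S_n]`: `ev ρ0` of it is zero as `E` is spanned by eigenvectors with eigenvalues in `[-n, n]` (`real_sup`, `Lg_bd`). So `∏ (jm ρ k - m) = 0`, in `V` every `jm ρ k` is diagonalizable with integral eigenvalues in `[-n, n]`, and (commuting operators) `V` is the sum of the `Wt ρ α`, `α` with entries in `[-n, n]`. (For example: `1` is the sum over all such `α` of the products of the Lagrange projections; or induction over `k`.) (2) For such `α` put `Π α = ∏ k, ∏ m ∈ [-n, n], m ≠ α k, (JX k - m)` (the factors commute: `jm_comm` for `ρ0`, or use a noncommutative product in a fixed order). `ev ρ0 (Π α)` is zero on `Wt ρ0 β` for `β ≠ α`,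 and a nonzero scalar on `Wt ρ0 α`; the same in `V`. If `α` is not legal: `Wt ρ0 α = ⊥` (`real_lg`), so `Π α = 0`, `Wt ρ α = ⊥`. If `α l = α k + 1` then `(single (swap k l) 1 - 1) * Π α = 0` because it is zero on all `Wt ρ0 β` (`rw_one` for `β = α`), and so `ρ (swap k l) v = v` for `v ∈ Wt ρ α`. In the same way `wt_neg`. (For `α` with an entry outside `[-n, n]`: `Wt ρ α = ⊥` by (1).)
-/

namespace AN

noncomputable section

open Classical Equiv

variable {K : Type} [Field K] {V : Type} [AddCommGroup V] [Module K V] {n : ℕ}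
  {ρ : Representation K (Perm (Fin n)) V}

namespace J07_aux

/-- the Jucys-Murphy elements of the integral group ring -/
def JX (k : Fin n) : MonoidAlgebra ℤ (Perm (Fin n)) :=
  ∑ i ∈ Finset.univ.filter (fun i : Fin n => i < k), MonoidAlgebra.single (swap i k) 1

theorem ev_JX (ρ : Representation K (Perm (Fin n)) V) (k : Fin n) : ev ρ (JX k) = jm ρ k := by
  rw [JX, map_sum, jm]
  refine Finset.sum_congr rfl fun i _ => ?_
  rw [ev_single, Int.cast_one, one_mul]

/-- the pairs of the factors of the projection onto the weight `α` -/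
def S (α : Fin n → ℤ) : Finset (Fin n × ℤ) :=
  (Finset.univ ×ˢ Finset.Icc (-(n : ℤ)) n).filter (fun p => p.2 ≠ α p.1)

/-- a product of factors -/
def PL (L : List (Fin n × ℤ)) : MonoidAlgebra ℤ (Perm (Fin n)) :=
  (L.map (fun p => JX p.1 - (p.2 : MonoidAlgebra ℤ (Perm (Fin n))))).prod

theorem ev_intCast (ρ : Representation K (Perm (Fin n)) V) (m : ℤ) (v : V) :
    ev ρ (m : MonoidAlgebra ℤ (Perm (Fin n))) v = (m : K) • v := by
  rw [map_intCast]
  rw [← zsmul_one m, LinearMap.smul_apply, Module.End.one_apply, Int.cast_smul_eq_zsmul]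

theorem ev_PL (ρ : Representation K (Perm (Fin n)) V) {a : Fin n → K} {v : V} (hv : v ∈ Wt ρ a)
    (L : List (Fin n × ℤ)) : ev ρ (PL L) v = (L.map (fun p => a p.1 - (p.2 : K))).prod • v := by
  induction L with
  | nil =>
    rw [PL, List.map_nil, List.prod_nil, map_one, List.map_nil, List.prod_nil, one_smul, Module.End.one_apply]
  | cons p L ih =>
    have h1 : PL (p :: L) = (JX p.1 - (p.2 : MonoidAlgebra ℤ (Perm (Fin n)))) * PL L := by
      rw [PL, List.map_cons, List.prod_cons]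
      rfl
    rw [h1, map_mul, Module.End.mul_apply, ih, map_smul, map_sub, LinearMap.sub_apply, ev_JX,
      hv p.1, ev_intCast, List.map_cons, List.prod_cons, ← sub_smul, smul_smul, mul_comm]

/-- the projection onto the weight `α` up to a scalar -/
def PI (α : Fin n → ℤ) : MonoidAlgebra ℤ (Perm (Fin n)) := PL (S α).toList

/-- the scalar by which `PI α` acts on the weight `β` -/
def cc (α β : Fin n → ℤ) : ℤ := ∏ p ∈ S α, (β p.1 - p.2)

theorem ev_PI (ρ : Representation K (Perm (Fin n)) V) {β : Fin n → ℤ} {v : V}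
    (hv : v ∈ Wt ρ (fun k => (β k : K))) (α : Fin n → ℤ) : ev ρ (PI α) v = (cc α β : K) • v := by
  rw [PI, ev_PL ρ hv, cc, Finset.prod_map_toList, Int.cast_prod]
  congr 1
  exact Finset.prod_congr rfl fun p _ => by rw [Int.cast_sub]

theorem cc_ne {α β : Fin n → ℤ} (h : β ≠ α) (hb : ∀ k, β k ∈ Finset.Icc (-(n : ℤ)) n) : cc α β = 0 := by
  obtain ⟨k, hk⟩ : ∃ k, β k ≠ α k := by
    by_contra hc
    push Not at hc
    exact h (funext hc)
  rw [cc]
  refine Finset.prod_eq_zero (i := (k, β k)) ?_ (sub_self _)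
  rw [S, Finset.mem_filter, Finset.mem_product]
  exact ⟨⟨Finset.mem_univ _, hb k⟩, hk⟩

theorem cc_self (α : Fin n → ℤ) : cc α α ≠ 0 := by
  rw [cc, Finset.prod_ne_zero_iff]
  intro p hp
  rw [S, Finset.mem_filter] at hp
  exact sub_ne_zero.2 (Ne.symm hp.2)

theorem Lg_mem {β : Fin n → ℤ} (h : Lg β) (k : Fin n) : β k ∈ Finset.Icc (-(n : ℤ)) n := by
  have h1 := Lg_bd h k
  have h2 : ((k : ℕ) : ℤ) < n := by exact_mod_cast k.2
  rw [Finset.mem_Icc]
  omega

/-- an element of the integral group ring which kills all weight spaces of all real orthogonal representations is zero -/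
theorem zero_of {x : MonoidAlgebra ℤ (Perm (Fin n))}
    (hx : ∀ (E : Type) (_ : NormedAddCommGroup E) (_ : InnerProductSpace ℝ E) (_ : FiniteDimensional ℝ E)
      (ρ : Representation ℝ (Perm (Fin n)) E), (∀ g x y, inner ℝ (ρ g x) (ρ g y) = inner ℝ x y) →
      ∀ β : Fin n → ℤ, Lg β → ∀ w ∈ Wt ρ (fun k => (β k : ℝ)), ev ρ x w = 0) : x = 0 := by
  obtain ⟨E, i1, i2, i3, ρ, hρ, hz⟩ := exists_reg (Perm (Fin n))
  apply hz
  have h1 : ∀ w ∈ (⨆ α : {α : Fin n → ℤ // Lg α}, Wt ρ (fun k => ((α : Fin n → ℤ) k : ℝ))),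
      ev ρ x w = 0 := by
    intro w hw
    refine Submodule.iSup_induction _ (motive := fun w => ev ρ x w = 0) hw ?_ (map_zero _) ?_
    · intro β w hw
      exact hx E i1 i2 i3 ρ hρ β.1 β.2 w hw
    · intro a b ha hb
      rw [map_add, ha, hb, add_zero]
  rw [real_sup hρ] at h1
  ext w
  exact h1 w Submodule.mem_top

/-- the scalars -/
def AA (n : ℕ) : Finset (Fin n → ℤ) := Fintype.piFinset fun _ : Fin n => Finset.Icc (-(n : ℤ)) n

theorem Lg_AA {β : Fin n → ℤ} (h : Lg β) : β ∈ AA n := by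
  rw [AA, Fintype.mem_piFinset]
  exact Lg_mem h

theorem decomp : ((∏ α ∈ AA n, cc α α : ℤ) : MonoidAlgebra ℤ (Perm (Fin n))) =
    ∑ α ∈ AA n, ((∏ β ∈ (AA n).erase α, cc β β : ℤ) : MonoidAlgebra ℤ (Perm (Fin n))) * PI α := by
  rw [← sub_eq_zero]
  apply zero_of
  intro E i1 i2 i3 ρ hρ β hβ w hw
  rw [map_sub, LinearMap.sub_apply, map_sum, LinearMap.sum_apply, ev_intCast]
  rw [Finset.sum_eq_single β]
  · rw [map_mul, Module.End.mul_apply, ev_PI ρ hw, ev_intCast, smul_smul, ← Int.cast_mul,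
      Finset.prod_erase_mul _ _ (Lg_AA hβ), sub_self]
  · intro α _ hα
    rw [map_mul, Module.End.mul_apply, ev_PI ρ hw, cc_ne (Ne.symm hα) (Lg_mem hβ), Int.cast_zero, zero_smul,
      map_zero]
  · intro h
    exact absurd (Lg_AA hβ) h

theorem PI_not_Lg {α : Fin n → ℤ} (h : ¬ Lg α) : PI α = 0 := by
  apply zero_of
  intro E i1 i2 i3 ρ hρ β hβ w hw
  rw [ev_PI ρ hw, cc_ne (by rintro rfl; exact h hβ) (Lg_mem hβ), Int.cast_zero, zero_smul]

theorem JX_PI (k : Fin n) (α : Fin n → ℤ) :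
    (JX k - ((α k : ℤ) : MonoidAlgebra ℤ (Perm (Fin n)))) * PI α = 0 := by
  apply zero_of
  intro E i1 i2 i3 ρ hρ β hβ w hw
  rw [map_mul, Module.End.mul_apply, ev_PI ρ hw, map_smul, map_sub, LinearMap.sub_apply, ev_JX, hw k,
    ev_intCast]
  by_cases h : β = α
  · rw [h, sub_self, smul_zero]
  · rw [cc_ne h (Lg_mem hβ), Int.cast_zero, zero_smul]

/-- the decomposition of a vector -/
theorem vec [CharZero K] (ρ : Representation K (Perm (Fin n)) V) (v : V) :
    v = ∑ α ∈ AA n, ((cc α α : K)⁻¹) • ev ρ (PI α) v := by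
  have h := congrArg (fun x => ev ρ x v) (decomp (n := n))
  rw [ev_intCast, map_sum, LinearMap.sum_apply] at h
  have hD : ((∏ α ∈ AA n, cc α α : ℤ) : K) ≠ 0 := by
    rw [Int.cast_ne_zero, Finset.prod_ne_zero_iff]
    exact fun α _ => cc_self α
  have h2 := congrArg (fun x => ((∏ α ∈ AA n, cc α α : ℤ) : K)⁻¹ • x) h
  rw [smul_smul, inv_mul_cancel₀ hD, one_smul, Finset.smul_sum] at h2
  rw [h2]
  refine Finset.sum_congr rfl fun α hα => ?_
  rw [← h2, map_mul, Module.End.mul_apply, ev_intCast, smul_smul]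
  congr 1
  have h3 : ((cc α α : ℤ) : K) ≠ 0 := by
    rw [Int.cast_ne_zero]
    exact cc_self α
  have h4 : ((∏ α ∈ AA n, cc α α : ℤ) : K) = ((∏ β ∈ (AA n).erase α, cc β β : ℤ) : K) * ((cc α α : ℤ) : K) := by
    rw [← Int.cast_mul, Finset.prod_erase_mul _ _ hα]
  have h5 : ((∏ β ∈ (AA n).erase α, cc β β : ℤ) : K) ≠ 0 := by
    intro h6
    rw [h6, zero_mul] at h4
    exact hD h4
  rw [h4]
  field_simp

theorem PI_mem (ρ : Representation K (Perm (Fin n)) V) (α : Fin n → ℤ) (v : V) :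
    ev ρ (PI α) v ∈ Wt ρ (fun k => (α k : K)) := by
  intro k
  have h := congrArg (fun x => ev ρ x v) (JX_PI k α)
  rw [map_mul, Module.End.mul_apply, map_sub, LinearMap.sub_apply, ev_JX, ev_intCast, map_zero,
    LinearMap.zero_apply, sub_eq_zero] at h
  exact h

/-- the weights are in the range -/
theorem range_of [CharZero K] {α : Fin n → ℤ} {v : V} (hv : v ∈ Wt ρ (fun k => (α k : K))) (h0 : v ≠ 0)
    (k : Fin n) : α k ∈ Finset.Icc (-(n : ℤ)) n := by
  set L : List (Fin n × ℤ) := (Finset.Icc (-(n : ℤ)) n).toList.map (fun m => (k, m)) with hL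
  have h1 : PL L = 0 := by
    apply zero_of
    intro E i1 i2 i3 ρ hρ β hβ w hw
    rw [ev_PL ρ hw]
    have h2 : (L.map (fun p => ((β p.1 : ℤ) : ℝ) - ((p.2 : ℤ) : ℝ))).prod = 0 := by
      rw [List.prod_eq_zero_iff, List.mem_map]
      refine ⟨(k, β k), ?_, sub_self _⟩
      rw [hL, List.mem_map]
      exact ⟨β k, Finset.mem_toList.2 (Lg_mem hβ k), rfl⟩
    rw [h2, zero_smul]
  have h2 := ev_PL ρ hv L
  rw [h1, map_zero, LinearMap.zero_apply] at h2
  rcases smul_eq_zero.1 h2.symm with h3 | h3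
  · rw [List.prod_eq_zero_iff, List.mem_map] at h3
    obtain ⟨p, hp, hp2⟩ := h3
    rw [hL, List.mem_map] at hp
    obtain ⟨m, hm, rfl⟩ := hp
    have h4 : ((α k : ℤ) : K) = ((m : ℤ) : K) := sub_eq_zero.1 hp2
    have h5 : α k = m := by exact_mod_cast h4
    rw [h5]
    exact Finset.mem_toList.1 hm
  · exact absurd h3 h0

theorem lg_of [CharZero K] {α : Fin n → ℤ} {v : V} (hv : v ∈ Wt ρ (fun k => (α k : K))) (h0 : v ≠ 0) :
    Lg α := by
  by_contra hα
  have hr := range_of hv h0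
  have h1 := vec ρ v
  rw [Finset.sum_eq_zero] at h1
  · exact h0 h1
  · intro β _
    rw [ev_PI ρ hv]
    by_cases h : α = β
    · rw [← h]
      have h2 := PI_not_Lg hα
      have h3 := ev_PI ρ hv α
      rw [h2, map_zero, LinearMap.zero_apply] at h3
      rw [← h3, smul_zero]
    · rw [cc_ne h hr, Int.cast_zero, zero_smul, smul_zero]

theorem swap_of [CharZero K] {α : Fin n → ℤ} {v : V} (hv : v ∈ Wt ρ (fun k => (α k : K))) {k l : Fin n} (ε : ℤ)
    (H : ∀ (E : Type) (_ : NormedAddCommGroup E) (_ : InnerProductSpace ℝ E) (_ : FiniteDimensional ℝ E)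
      (ρ : Representation ℝ (Perm (Fin n)) E), (∀ g x y, inner ℝ (ρ g x) (ρ g y) = inner ℝ x y) →
      ∀ w ∈ Wt ρ (fun k => (α k : ℝ)), ρ (swap k l) w = (ε : ℝ) • w) :
    ρ (swap k l) v = (ε : K) • v := by
  have h1 : (MonoidAlgebra.single (swap k l) 1 - (ε : MonoidAlgebra ℤ (Perm (Fin n)))) * PI α = 0 := by
    apply zero_of
    intro E i1 i2 i3 ρ hρ β hβ w hw
    rw [map_mul, Module.End.mul_apply, ev_PI ρ hw, map_smul, map_sub, LinearMap.sub_apply, ev_single,
      Int.cast_one, one_mul, ev_intCast]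
    by_cases h : β = α
    · subst h
      rw [H E i1 i2 i3 ρ hρ w hw, sub_self, smul_zero]
    · rw [cc_ne h (Lg_mem hβ), Int.cast_zero, zero_smul]
  have h2 := congrArg (fun x => ev ρ x v) h1
  rw [map_mul, Module.End.mul_apply, ev_PI ρ hv, map_smul, map_sub, LinearMap.sub_apply, ev_single,
    Int.cast_one, one_mul, ev_intCast, map_zero, LinearMap.zero_apply] at h2
  rcases smul_eq_zero.1 h2 with h3 | h3
  · exact absurd (by exact_mod_cast h3) (cc_self α)
  · exact sub_eq_zero.1 h3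

end J07_aux

theorem wt_lg [CharZero K] {α : Fin n → ℤ} (h : Wt ρ (fun k => (α k : K)) ≠ ⊥) : Lg α := by
  obtain ⟨v, hv, h0⟩ := Submodule.exists_mem_ne_zero_of_ne_bot h
  exact J07_aux.lg_of hv h0

theorem wt_sup [CharZero K] :
    ⨆ α : {α : Fin n → ℤ // Lg α}, Wt ρ (fun k => ((α : Fin n → ℤ) k : K)) = ⊤ := by
  rw [eq_top_iff]
  intro v _
  rw [J07_aux.vec ρ v]
  refine Submodule.sum_mem _ fun α _ => ?_
  refine Submodule.smul_mem _ _ ?_
  by_cases h : Lg α
  · exact Submodule.mem_iSup_of_mem (⟨α, h⟩ : {α : Fin n → ℤ // Lg α}) (J07_aux.PI_mem ρ α v)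
  · rw [J07_aux.PI_not_Lg h, map_zero, LinearMap.zero_apply]
    exact Submodule.zero_mem _

theorem wt_one [CharZero K] {α : Fin n → ℤ} {v : V} (hv : v ∈ Wt ρ (fun k => (α k : K))) {k l : Fin n}
    (hl : (l : ℕ) = k + 1) (h : α l = α k + 1) : ρ (swap k l) v = v := by
  have h1 := J07_aux.swap_of hv (k := k) (l := l) 1 (by
    intro E i1 i2 i3 ρ hρ w hw
    rw [Int.cast_one, one_smul]
    exact rw_one hρ hw hl (by show ((α l : ℤ) : ℝ) = ((α k : ℤ) : ℝ) + 1; rw [h]; push_cast; ring))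
  rw [Int.cast_one, one_smul] at h1
  exact h1

theorem wt_neg [CharZero K] {α : Fin n → ℤ} {v : V} (hv : v ∈ Wt ρ (fun k => (α k : K))) {k l : Fin n}
    (hl : (l : ℕ) = k + 1) (h : α l = α k - 1) : ρ (swap k l) v = - v := by
  have h1 := J07_aux.swap_of hv (k := k) (l := l) (-1) (by
    intro E i1 i2 i3 ρ hρ w hw
    rw [Int.cast_neg, Int.cast_one, neg_one_smul]
    exact rw_neg hρ hw hl (by show ((α l : ℤ) : ℝ) = ((α k : ℤ) : ℝ) - 1; rw [h]; push_cast; ring))
  rw [Int.cast_neg, Int.cast_one, neg_one_smul] at h1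
  exact h1

end

end AN
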