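import Pool.Agent.AN.J07
import Pool.Agent.AN.J02
import Pool.Agent.AN.C03

/-!
# MP_6c3636_al, AN, module J08: existence of a seminormal basis (helper7)

Define `v α` for `α ∈ Sq n f` by recursion on `ms α` (C03): if `α` has a descent, that is places `k`, `l = k + 1` with `α l + 2 ≤ α k`, choose one and put `v α = S (v γ) - r⁻¹ • v γ`, `γ = sq α k l`, `S = ρ (swap k l)`, `r = γ l - γ k = α k - α l ≥ 2`; otherwise `α` is minimal (note `α k = α l + 1` is allowed), so `α = α₀` (`mi_unique`) and `v α₀ = v₀`. CLAIM by strong induction on `ms α`: for every descent `(k, l)` of `α` one has `v α = ρ (swap k l) (v γ) - r⁻¹ • v γ`. Let `(k, l)` be the chosen descent and `(k', l')` another one. If `k' ≥ k + 2` or `k ≥ k' + 2`: `δ = sq (sq α k l) k' l'`; by the induction hypothesis for `sq α k l` and `sq α k' l'` both sides are `(S - r⁻¹) (S' - r'⁻¹) (v δ)` and the operators commute (disjoint transpositions). If `k' = k + 1` (`l = k'`), entries `x, y, z` at `k, k + 1, k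 + 2`, `x ≥ y + 2`, `y ≥ z + 2`: with `δ` the sequence with the entries `z, y, x`: `v (y, x, z) = (T - (x - z)⁻¹) (v (y, z, x))`, `v (y, z, x) = (S - (y - z)⁻¹) (v δ)`, and `v (x, z, y) = (S - (x - z)⁻¹) (v (z, x, y))`, `v (z, x, y) = (T - (x - y)⁻¹) (v δ)` by the induction hypothesis; the claim is `yb` (J02) with `u = x - y`, `v = y - z`. Then `wt` (from `iw_mem`), `nz` (`iw_iw`: `(1 - r⁻²) ≠ 0`), `one`, `neg` (`wt_one`, `wt_neg`), `up` (the claim for `sq α k l`, whose descent is `(k, l)`; `sq_sq`).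
-/

namespace AN

noncomputable section

open Classical Equiv

variable {K : Type} [Field K] {V : Type} [AddCommGroup V] [Module K V] {n : ℕ}
  {ρ : Representation K (Perm (Fin n)) V}

/-- the vector of `α`, by recursion over the descents -/
def J08_vv (ρ : Representation K (Perm (Fin n)) V) (v₀ : V) (α : Fin n → ℤ) : V :=
  if h : ∃ p : Fin n × Fin n, (p.2 : ℕ) = p.1 + 1 ∧ α p.2 + 2 ≤ α p.1 then
    ρ (swap h.choose.1 h.choose.2) (J08_vv ρ v₀ (sq α h.choose.1 h.choose.2)) -
      (((α h.choose.1 - α h.choose.2 : ℤ) : K))⁻¹ • J08_vv ρ v₀ (sq α h.choose.1 h.choose.2)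
  else v₀
termination_by ms α
decreasing_by
  all_goals
    have h1 := h.choose_spec.1
    have h2 := h.choose_spec.2
    exact ms_lt h1 (by omega)

/-- the operator of a descent -/
def J08_U (ρ : Representation K (Perm (Fin n)) V) (k l : Fin n) (r : ℤ) : Module.End K V :=
  ρ (swap k l) - algebraMap K (Module.End K V) ((r : K))⁻¹

theorem J08_U_apply (k l : Fin n) (r : ℤ) (w : V) :
    J08_U ρ k l r w = ρ (swap k l) w - ((r : K))⁻¹ • w := by
  unfold J08_U
  rw [LinearMap.sub_apply, Module.algebraMap_end_apply]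

theorem J08_vv_desc (v₀ : V) (α : Fin n → ℤ)
    (h : ∃ p : Fin n × Fin n, (p.2 : ℕ) = p.1 + 1 ∧ α p.2 + 2 ≤ α p.1) :
    ∃ k l : Fin n, (l : ℕ) = k + 1 ∧ α l + 2 ≤ α k ∧
      J08_vv ρ v₀ α = J08_U ρ k l (α k - α l) (J08_vv ρ v₀ (sq α k l)) := by
  refine ⟨h.choose.1, h.choose.2, h.choose_spec.1, h.choose_spec.2, ?_⟩
  rw [J08_U_apply]
  conv_lhs => rw [J08_vv]
  rw [dif_pos h]

theorem J08_vv_min (v₀ : V) (α : Fin n → ℤ) (h : Mi α) : J08_vv ρ v₀ α = v₀ := by
  rw [J08_vv, dif_neg]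
  rintro ⟨⟨k, l⟩, h1, h2⟩
  have := h k l h1
  simp only at h2
  omega

theorem J08_swap_comm {k l k' l' : Fin n} (hl : (l : ℕ) = k + 1) (hl' : (l' : ℕ) = k' + 1)
    (h : (k : ℕ) + 2 ≤ k') : swap k l * swap k' l' = swap k' l' * swap k l := by
  have h1 : k ≠ k' := fun h' => by rw [h'] at h; omega
  have h2 : k ≠ l' := fun h' => by rw [h'] at h; omega
  have h3 : l ≠ k' := fun h' => by rw [h'] at hl; omega
  have h4 : l ≠ l' := fun h' => by rw [h'] at hl; omega
  have hd : Equiv.Perm.Disjoint (swap k l) (swap k' l') := by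
    intro i
    by_cases hi : i = k ∨ i = l
    · right
      rcases hi with rfl | rfl
      · exact swap_apply_of_ne_of_ne h1 h2
      · exact swap_apply_of_ne_of_ne h3 h4
    · left
      push Not at hi
      exact swap_apply_of_ne_of_ne hi.1 hi.2
  exact hd.commute

theorem J08_U_comm {k l k' l' : Fin n} (hl : (l : ℕ) = k + 1) (hl' : (l' : ℕ) = k' + 1)
    (h : (k : ℕ) + 2 ≤ k') (r r' : ℤ) (w : V) :
    J08_U ρ k l r (J08_U ρ k' l' r' w) = J08_U ρ k' l' r' (J08_U ρ k l r w) := by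
  have h1 : ρ (swap k l) * ρ (swap k' l') = ρ (swap k' l') * ρ (swap k l) := by
    rw [← map_mul, ← map_mul, J08_swap_comm hl hl' h]
  have h2 : J08_U ρ k l r * J08_U ρ k' l' r' = J08_U ρ k' l' r' * J08_U ρ k l r := by
    unfold J08_U
    have c1 := Algebra.commutes ((r : K))⁻¹ (ρ (swap k' l'))
    have c2 := Algebra.commutes ((r' : K))⁻¹ (ρ (swap k l))
    have c3 := Algebra.commutes ((r : K))⁻¹ (algebraMap K (Module.End K V) ((r' : K))⁻¹)
    rw [sub_mul, sub_mul, mul_sub, mul_sub, mul_sub, mul_sub, h1, c1, ← c2, c3]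
    abel
  exact congrArg (fun T : Module.End K V => T w) h2

/-- the two ways from `α` give the same vector -/
theorem J08_conf [CharZero K] {f : ℤ → ℤ} (v : (Fin n → ℤ) → V) {α : Fin n → ℤ} (hα : α ∈ Sq n f)
    (IH : ∀ β ∈ Sq n f, ms β < ms α → ∀ k l : Fin n, (l : ℕ) = k + 1 → β l + 2 ≤ β k →
      v β = J08_U ρ k l (β k - β l) (v (sq β k l)))
    {k l k' l' : Fin n} (hl : (l : ℕ) = k + 1) (hd : α l + 2 ≤ α k) (hl' : (l' : ℕ) = k' + 1)
    (hd' : α l' + 2 ≤ α k') (hkk : (k : ℕ) < k') :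
    J08_U ρ k l (α k - α l) (v (sq α k l)) = J08_U ρ k' l' (α k' - α l') (v (sq α k' l')) := by
  have a1 : sq α k l ∈ Sq n f := Sq_sq hα hl (Or.inr hd)
  have a2 : sq α k' l' ∈ Sq n f := Sq_sq hα hl' (Or.inr hd')
  have m1 : ms (sq α k l) < ms α := ms_lt hl (by omega)
  have m2 : ms (sq α k' l') < ms α := ms_lt hl' (by omega)
  by_cases hc : (k : ℕ) + 2 ≤ k'
  · -- disjoint transpositions
    have h1 : k ≠ k' := fun h' => by rw [h'] at hc; omega
    have h2 : k ≠ l' := fun h' => by rw [h'] at hc; omega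
    have h3 : l ≠ k' := fun h' => by rw [h'] at hl; omega
    have h4 : l ≠ l' := fun h' => by rw [h'] at hl; omega
    have e1 := IH _ a1 m1 k' l' hl' (by
      rw [sq_other α h2.symm h4.symm, sq_other α h1.symm h3.symm]
      exact hd')
    have e2 := IH _ a2 m2 k l hl (by
      rw [sq_other α h1 h2, sq_other α h3 h4]
      exact hd)
    rw [sq_other α h2.symm h4.symm, sq_other α h1.symm h3.symm] at e1
    rw [sq_other α h1 h2, sq_other α h3 h4] at e2
    have e3 : sq (sq α k l) k' l' = sq (sq α k' l') k l := by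
      funext i
      show α (swap k l (swap k' l' i)) = α (swap k' l' (swap k l i))
      have := congrArg (fun σ : Perm (Fin n) => σ i) (J08_swap_comm hl hl' hc)
      exact congrArg α this
    rw [e1, e2, e3]
    exact J08_U_comm hl hl' hc _ _ _
  · -- neighbouring transpositions
    have hk' : k' = l := Fin.ext (by omega)
    subst hk'
    have n1 : k ≠ k' := fun h' => by rw [h'] at hkk; omega
    have n2 : k ≠ l' := fun h' => by rw [h'] at hkk; omega
    have n3 : k' ≠ l' := fun h' => by rw [← h'] at hl'; omega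
    -- the entries x, y, z
    obtain ⟨x, hx⟩ : ∃ x, x = α k := ⟨_, rfl⟩
    obtain ⟨y, hy⟩ : ∃ y, y = α k' := ⟨_, rfl⟩
    obtain ⟨z, hz⟩ : ∃ z, z = α l' := ⟨_, rfl⟩
    -- (y, x, z)
    have b1k : sq α k k' k = y := by rw [sq_k, hy]
    have b1l : sq α k k' k' = x := by rw [sq_l, hx]
    have b1z : sq α k k' l' = z := by rw [sq_other α n2.symm n3.symm, hz]
    -- (y, z, x)
    have a3 : sq (sq α k k') k' l' ∈ Sq n f := Sq_sq a1 hl' (Or.inr (by rw [b1l, b1z]; omega))
    have m3 : ms (sq (sq α k k') k' l') < ms (sq α k k') := ms_lt hl' (by rw [b1l, b1z]; omega)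
    have b2k : sq (sq α k k') k' l' k = y := by rw [sq_other _ n1 n2, b1k]
    have b2l : sq (sq α k k') k' l' k' = z := by rw [sq_k, b1z]
    -- (x, z, y)
    have c1k : sq α k' l' k = x := by rw [sq_other α n1 n2, hx]
    have c1l : sq α k' l' k' = z := by rw [sq_k, hz]
    have c1z : sq α k' l' l' = y := by rw [sq_l, hy]
    -- (z, x, y)
    have a4 : sq (sq α k' l') k k' ∈ Sq n f := Sq_sq a2 hl (Or.inr (by rw [c1k, c1l]; omega))
    have m4 : ms (sq (sq α k' l') k k') < ms (sq α k' l') := ms_lt hl (by rw [c1k, c1l]; omega)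
    have c2l : sq (sq α k' l') k k' k' = x := by rw [sq_l, c1k]
    have c2z : sq (sq α k' l') k k' l' = y := by rw [sq_other _ n2.symm n3.symm, c1z]
    have e1 := IH _ a1 m1 k' l' hl' (by rw [b1l, b1z]; omega)
    have e2 := IH _ a3 (by omega) k k' hl (by rw [b2k, b2l]; omega)
    have e3 := IH _ a2 m2 k k' hl (by rw [c1k, c1l]; omega)
    have e4 := IH _ a4 (by omega) k' l' hl' (by rw [c2l, c2z]; omega)
    rw [b1l, b1z] at e1
    rw [b2k, b2l] at e2
    rw [c1k, c1l] at e3
    rw [c2l, c2z] at e4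
    have e5 : sq (sq (sq α k k') k' l') k k' = sq (sq (sq α k' l') k k') k' l' := by
      have hb : swap k k' * (swap k' l' * swap k k') = swap k' l' * (swap k k' * swap k' l') := by
        rw [← mul_assoc, ← mul_assoc]
        have h5 : swap k k' * swap k' l' * swap k k' = swap k l' := by
          have := swap_mul_swap_mul_swap (x := l') (y := k') (z := k) n3.symm n2.symm
          rw [swap_comm k k', swap_comm k' l']
          exact this
        have h6 : swap k' l' * swap k k' * swap k' l' = swap k l' := by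
          have := swap_mul_swap_mul_swap (x := k) (y := k') (z := l') n1 n2
          exact this.trans (swap_comm _ _)
        rw [h5, h6]
      funext i
      exact congrArg α (congrArg (fun σ : Perm (Fin n) => σ i) hb)
    rw [e1, e2, e3, e4, e5, ← hx, ← hy, ← hz]
    have hxy : (((x - y : ℤ) : K)) ≠ 0 := by
      rw [Int.cast_ne_zero]
      omega
    have hyz : (((y - z : ℤ) : K)) ≠ 0 := by
      rw [Int.cast_ne_zero]
      omega
    have hs : ((x - z : ℤ) : K) = ((x - y : ℤ) : K) + ((y - z : ℤ) : K) := by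
      push_cast
      ring
    have hxz : ((x - y : ℤ) : K) + ((y - z : ℤ) : K) ≠ 0 := by
      rw [← hs, Int.cast_ne_zero]
      omega
    have h7 := yb (ρ := ρ) hl hl' hxy hyz hxz
    unfold J08_U
    rw [hs]
    exact congrArg (fun T : Module.End K V => T (v (sq (sq (sq α k' l') k k') k' l'))) h7

theorem J08_claim [CharZero K] {f : ℤ → ℤ} (v₀ : V) : ∀ m : ℕ, ∀ α ∈ Sq n f, ms α = m →
    ∀ k l : Fin n, (l : ℕ) = k + 1 → α l + 2 ≤ α k →
      J08_vv ρ v₀ α = J08_U ρ k l (α k - α l) (J08_vv ρ v₀ (sq α k l)) := by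
  intro m
  induction m using Nat.strong_induction_on with
  | _ m ih =>
    intro α hα hm k l hl hd
    have IH : ∀ β ∈ Sq n f, ms β < ms α → ∀ k l : Fin n, (l : ℕ) = k + 1 → β l + 2 ≤ β k →
        J08_vv ρ v₀ β = J08_U ρ k l (β k - β l) (J08_vv ρ v₀ (sq β k l)) := by
      intro β hβ hlt
      exact ih (ms β) (hm ▸ hlt) β hβ rfl
    obtain ⟨k', l', hl', hd', he⟩ := J08_vv_desc (ρ := ρ) v₀ α ⟨(k, l), hl, hd⟩
    rw [he]
    rcases lt_trichotomy (k : ℕ) k' with hlt | heq | hgt
    · exact (J08_conf (J08_vv ρ v₀) hα IH hl hd hl' hd' hlt).symm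
    · have h1 : k = k' := Fin.ext heq
      have h2 : l = l' := Fin.ext (by omega)
      rw [h1, h2]
    · exact J08_conf (J08_vv ρ v₀) hα IH hl' hd' hl hd hgt

theorem exists_sn [CharZero K] {f : ℤ → ℤ} {α₀ : Fin n → ℤ} (hα : α₀ ∈ Sq n f) (hm : Mi α₀) {v₀ : V}
    (hv : v₀ ∈ Wt ρ (fun k => (α₀ k : K))) (h0 : v₀ ≠ 0) :
    ∃ v : (Fin n → ℤ) → V, SN ρ f v ∧ v α₀ = v₀ := by
  have hcl : ∀ α ∈ Sq n f, ∀ k l : Fin n, (l : ℕ) = k + 1 → α l + 2 ≤ α k →
      J08_vv ρ v₀ α = J08_U ρ k l (α k - α l) (J08_vv ρ v₀ (sq α k l)) :=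
    fun α hα => J08_claim v₀ _ α hα rfl
  have hwt : ∀ α ∈ Sq n f, J08_vv ρ v₀ α ∈ Wt ρ (fun k => (α k : K)) := by
    refine desc_induct ?_ ?_
    · intro α h1 h2
      rw [mi_unique h1 hα h2 hm, J08_vv_min v₀ α₀ hm]
      exact hv
    · intro α h1 k l hl hd h2
      rw [hcl α h1 k l hl hd, J08_U_apply]
      have h3 := iw_mem h2 hl (by
        show (((sq α k l) k : ℤ) : K) ≠ (((sq α k l) l : ℤ) : K)
        rw [sq_k, sq_l]
        intro h4
        have h5 : α l = α k := by exact_mod_cast h4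
        omega)
      have h4 : sq (fun i => (((sq α k l) i : ℤ) : K)) k l = fun i => (α i : K) := by
        funext i
        show (((sq (sq α k l) k l) i : ℤ) : K) = (α i : K)
        rw [sq_sq]
      have h5 : (((sq α k l) l : ℤ) : K) - (((sq α k l) k : ℤ) : K) = ((α k - α l : ℤ) : K) := by
        rw [sq_k, sq_l]
        push_cast
        ring
      rw [h4] at h3
      rw [← h5]
      exact h3
  have hnz : ∀ α ∈ Sq n f, J08_vv ρ v₀ α ≠ 0 := by
    refine desc_induct ?_ ?_
    · intro α h1 h2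
      rw [J08_vv_min v₀ α h2]
      exact h0
    · intro α h1 k l hl hd h2 h3
      rw [hcl α h1 k l hl hd, J08_U_apply] at h3
      have h4 := iw_iw (ρ := ρ) k l ((α k - α l : ℤ) : K) (J08_vv ρ v₀ (sq α k l))
      rw [h3, map_zero, smul_zero, add_zero] at h4
      rcases smul_eq_zero.1 h4.symm with h5 | h5
      · have hr : (((α k - α l : ℤ) : K)) ≠ 0 := by
          rw [Int.cast_ne_zero]
          omega
        have h6 : (((α k - α l : ℤ) : K)) ^ 2 = 1 := by
          field_simp at h5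
          linear_combination h5
        have h7 : (α k - α l) ^ 2 = 1 := by exact_mod_cast h6
        have h8 : 2 ≤ α k - α l := by omega
        nlinarith
      · exact h2 h5
  refine ⟨J08_vv ρ v₀, ⟨⟨α₀, hα⟩, hnz, hwt, ?_, ?_, ?_⟩, J08_vv_min v₀ α₀ hm⟩
  · intro α h1 k l hl h
    exact wt_one (hwt α h1) hl h
  · intro α h1 k l hl h
    exact wt_neg (hwt α h1) hl h
  · intro α h1 k l hl h
    have h2 : sq α k l ∈ Sq n f := Sq_sq h1 hl (Or.inl h)
    have h3 := hcl _ h2 k l hl (by
      rw [sq_k, sq_l]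
      exact h)
    rw [sq_sq, sq_k, sq_l, J08_U_apply] at h3
    rw [h3]
    abel

end

end AN
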