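import Pool.Agent.AN.J09
import Pool.Agent.AN.C04

/-!
# MP_6c3636_al, AN, module J11: rational coefficients and invariant forms (helper7)

`SN.rat`: the set of the `g` with this property (for all `α`) contains the adjacent transpositions (`one`, `neg`, `up`, `SN.dn`) and is closed under products. `SN.orth`: `jm ρ k` is self adjoint for `B` (transpositions are involutions), `α k ≠ β k` for some `k`. `SN.norm`: by `desc_induct` (C03; compare with the minimal sequence): if `β = sq α k l`, `α l + 2 ≤ α k`, `r = α k - α l`: `B (v β) (v β) = B (S v β) (S v β) = r⁻² B (v β) (v β) + B (v α) (v α)` by `up` for `β` and `SN.orth`, so `B (v α) (v α) = (1 - r⁻²) B (v β) (v β)`; `nm_sq`.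
-/

namespace AN

noncomputable section

open Classical Equiv

variable {K : Type} [Field K] {V : Type} [AddCommGroup V] [Module K V] {n : ℕ}
  {ρ : Representation K (Perm (Fin n)) V}

/-- rational combinations of the basis -/
private def J11_R (K : Type) [Field K] {V : Type} [AddCommGroup V] [Module K V] {n : ℕ} (f : ℤ → ℤ)
    (v : (Fin n → ℤ) → V) (x : V) : Prop :=
  ∃ M : (Fin n → ℤ) → ℚ, x = ∑ β ∈ SF n f, (M β : K) • v β

private theorem J11_add [CharZero K] {f : ℤ → ℤ} {v : (Fin n → ℤ) → V} {x y : V} (hx : J11_R K f v x)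
    (hy : J11_R K f v y) : J11_R K f v (x + y) := by
  obtain ⟨M, hM⟩ := hx
  obtain ⟨N, hN⟩ := hy
  refine ⟨fun β => M β + N β, ?_⟩
  rw [hM, hN, ← Finset.sum_add_distrib]
  refine Finset.sum_congr rfl fun β _ => ?_
  rw [Rat.cast_add, add_smul]

private theorem J11_smul [CharZero K] {f : ℤ → ℤ} {v : (Fin n → ℤ) → V} {x : V} (hx : J11_R K f v x)
    (q : ℚ) : J11_R K f v ((q : K) • x) := by
  obtain ⟨M, hM⟩ := hx
  refine ⟨fun β => q * M β, ?_⟩
  rw [hM, Finset.smul_sum]
  refine Finset.sum_congr rfl fun β _ => ?_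
  rw [Rat.cast_mul, smul_smul]

private theorem J11_v [CharZero K] {f : ℤ → ℤ} {v : (Fin n → ℤ) → V} {α : Fin n → ℤ} (hα : α ∈ Sq n f) :
    J11_R K f v (v α) := by
  refine ⟨fun β => if β = α then 1 else 0, ?_⟩
  rw [Finset.sum_eq_single_of_mem α (mem_SF.2 hα)]
  · simp
  · intro β _ hne
    simp [hne]

private theorem J11_zero [CharZero K] {f : ℤ → ℤ} {v : (Fin n → ℤ) → V} : J11_R K f v (0 : V) :=
  ⟨fun _ => 0, by simp⟩

private theorem J11_sum [CharZero K] {f : ℤ → ℤ} {v : (Fin n → ℤ) → V} {ι : Type} (s : Finset ι) (F : ι → V)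
    (h : ∀ i ∈ s, J11_R K f v (F i)) : J11_R K f v (∑ i ∈ s, F i) := by
  induction s using Finset.induction_on with
  | empty => exact J11_zero
  | insert a s ha ih =>
    rw [Finset.sum_insert ha]
    exact J11_add (h a (Finset.mem_insert_self _ _)) (ih fun i hi => h i (Finset.mem_insert_of_mem hi))

private theorem J11_swap {f : ℤ → ℤ} {v : (Fin n → ℤ) → V} (h : SN ρ f v) [CharZero K] {k l : Fin n}
    (hl : (l : ℕ) = k + 1) {α : Fin n → ℤ} (hα : α ∈ Sq n f) : J11_R K f v (ρ (swap k l) (v α)) := by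
  have hne : α k ≠ α l := Lg_ne hα.1 hl
  rcases lt_or_gt_of_ne hne with h1 | h1
  · rcases eq_or_lt_of_le (show α k + 1 ≤ α l by omega) with h2 | h2
    · rw [h.one α hα k l hl h2.symm]
      exact J11_v hα
    · rw [h.up α hα k l hl (by omega)]
      refine J11_add ?_ (J11_v (Sq_sq hα hl (Or.inl (by omega))))
      have : (((α l - α k : ℤ) : K)⁻¹) = ((((α l - α k : ℤ) : ℚ)⁻¹ : ℚ) : K) := by
        push_cast
        rfl
      rw [this]
      exact J11_smul (J11_v hα) _
  · rcases eq_or_lt_of_le (show α l + 1 ≤ α k by omega) with h2 | h2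
    · rw [h.neg α hα k l hl (by omega)]
      have : - v α = (((-1 : ℚ)) : K) • v α := by
        push_cast
        rw [neg_smul, one_smul]
      rw [this]
      exact J11_smul (J11_v hα) _
    · rw [h.dn hα hl (by omega)]
      have h3 : (-(((α k - α l : ℤ) : K)⁻¹)) = (((-((α k - α l : ℤ) : ℚ)⁻¹ : ℚ)) : K) := by
        push_cast
        rfl
      have h4 : (1 - (((α k - α l : ℤ) : K)⁻¹) ^ 2) = (((1 - (((α k - α l : ℤ) : ℚ)⁻¹) ^ 2 : ℚ)) : K) := by
        push_cast
        rfl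
      rw [h3, h4]
      exact J11_add (J11_smul (J11_v hα) _) (J11_smul (J11_v (Sq_sq hα hl (Or.inr (by omega)))) _)

private theorem J11_apply {f : ℤ → ℤ} {v : (Fin n → ℤ) → V} [CharZero K] {g : Perm (Fin n)}
    (hg : ∀ α ∈ Sq n f, J11_R K f v (ρ g (v α))) {x : V} (hx : J11_R K f v x) : J11_R K f v (ρ g x) := by
  obtain ⟨M, hM⟩ := hx
  rw [hM, map_sum]
  refine J11_sum _ _ fun β hβ => ?_
  rw [map_smul]
  exact J11_smul (hg β (mem_SF.1 hβ)) _

private theorem J11_all {f : ℤ → ℤ} {v : (Fin n → ℤ) → V} (h : SN ρ f v) [CharZero K] (g : Perm (Fin n)) :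
    ∀ α ∈ Sq n f, J11_R K f v (ρ g (v α)) := by
  cases n with
  | zero =>
    intro α hα
    have : g = 1 := Subsingleton.elim _ _
    rw [this, map_one]
    exact J11_v hα
  | succ m =>
    have hg : g ∈ Submonoid.closure (Set.range fun i : Fin m => swap i.castSucc i.succ) := by
      rw [Equiv.Perm.mclosure_swap_castSucc_succ]
      exact Submonoid.mem_top _
    induction hg using Submonoid.closure_induction with
    | mem x hx =>
      obtain ⟨i, rfl⟩ := hx
      intro α hα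
      exact J11_swap h (by simp) hα
    | one =>
      intro α hα
      rw [map_one]
      exact J11_v hα
    | mul x y _ _ hx hy =>
      intro α hα
      rw [map_mul]
      exact J11_apply hx (hy α hα)

theorem SN.rat {f : ℤ → ℤ} {v : (Fin n → ℤ) → V} (h : SN ρ f v) [CharZero K] (g : Perm (Fin n)) :
    ∀ α ∈ Sq n f, ∃ M : (Fin n → ℤ) → ℚ, ρ g (v α) = ∑ β ∈ SF n f, (M β : K) • v β :=
  J11_all h g

private theorem J11_adj {B : LinearMap.BilinForm K V} (hB : ∀ g x y, B (ρ g x) (ρ g y) = B x y)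
    (k : Fin n) (x y : V) : B (jm ρ k x) y = B x (jm ρ k y) := by
  unfold jm
  rw [LinearMap.sum_apply, LinearMap.sum_apply, map_sum, map_sum, LinearMap.sum_apply]
  refine Finset.sum_congr rfl fun i _ => ?_
  have h1 : ρ (swap i k) (ρ (swap i k) x) = x := by
    rw [← Module.End.mul_apply, ← map_mul, Equiv.swap_mul_self, map_one, Module.End.one_apply]
  have h2 := hB (swap i k) (ρ (swap i k) x) y
  rw [h1] at h2
  exact h2.symm

theorem SN.orth {f : ℤ → ℤ} {v : (Fin n → ℤ) → V} (h : SN ρ f v) [CharZero K]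
    {B : LinearMap.BilinForm K V} (hB : ∀ g x y, B (ρ g x) (ρ g y) = B x y) {α β : Fin n → ℤ}
    (hα : α ∈ Sq n f) (hβ : β ∈ Sq n f) (hne : α ≠ β) : B (v α) (v β) = 0 := by
  obtain ⟨k, hk⟩ := Function.ne_iff.1 hne
  have h1 := J11_adj hB k (v α) (v β)
  rw [h.wt α hα k, h.wt β hβ k, map_smul, map_smul, LinearMap.smul_apply] at h1
  simp only [smul_eq_mul] at h1
  have h2 : ((α k : K) - (β k : K)) * B (v α) (v β) = 0 := by
    rw [sub_mul, h1, sub_self]
  rcases mul_eq_zero.1 h2 with h3 | h3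
  · exfalso
    apply hk
    have h4 : (α k : K) = (β k : K) := sub_eq_zero.1 h3
    exact_mod_cast h4
  · exact h3

private theorem J11_step {f : ℤ → ℤ} {v : (Fin n → ℤ) → V} (h : SN ρ f v) [CharZero K]
    {B : LinearMap.BilinForm K V} (hB : ∀ g x y, B (ρ g x) (ρ g y) = B x y) {α : Fin n → ℤ}
    (hα : α ∈ Sq n f) {k l : Fin n} (hl : (l : ℕ) = k + 1) (hd : α l + 2 ≤ α k) :
    B (v α) (v α) = (1 - 1 / ((α k - α l : ℤ) : K) ^ 2) * B (v (sq α k l)) (v (sq α k l)) := by
  have hγ : sq α k l ∈ Sq n f := Sq_sq hα hl (Or.inr hd)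
  have hne : sq α k l ≠ α := by
    intro hc
    have := congrFun hc k
    rw [sq_k] at this
    omega
  have h1 := h.up (sq α k l) hγ k l hl (by rw [sq_k, sq_l]; exact hd)
  rw [sq_k, sq_l, sq_sq] at h1
  have h2 := hB (swap k l) (v (sq α k l)) (v (sq α k l))
  have h3 := h.orth hB hγ hα hne
  have h4 := h.orth hB hα hγ hne.symm
  rw [h1] at h2
  simp only [map_add, LinearMap.add_apply, map_smul, LinearMap.smul_apply, smul_eq_mul, h3, h4, mul_zero,
    add_zero, zero_add] at h2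
  have h5 : B (v α) (v α) = B (v (sq α k l)) (v (sq α k l)) -
      (((α k - α l : ℤ) : K)⁻¹ * (((α k - α l : ℤ) : K)⁻¹ * B (v (sq α k l)) (v (sq α k l)))) := by
    rw [eq_sub_iff_add_eq, add_comm]
    exact h2
  rw [h5, one_div, ← inv_pow]
  ring

private theorem J11_min {f : ℤ → ℤ} {v : (Fin n → ℤ) → V} (h : SN ρ f v) [CharZero K]
    {B : LinearMap.BilinForm K V} (hB : ∀ g x y, B (ρ g x) (ρ g y) = B x y) {μ : Fin n → ℤ}
    (hμ : μ ∈ Sq n f) (hm : Mi μ) : ∀ α ∈ Sq n f,
    B (v α) (v α) * (nm μ : K) = B (v μ) (v μ) * (nm α : K) := by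
  refine desc_induct ?_ ?_
  · intro α hα hm'
    rw [mi_unique hα hμ hm' hm]
  · intro α hα k l hl hd ih
    rw [J11_step h hB hα hl hd, nm_sq hl hd, mul_assoc, ih]
    push_cast
    ring

theorem SN.norm {f : ℤ → ℤ} {v : (Fin n → ℤ) → V} (h : SN ρ f v) [CharZero K]
    {B : LinearMap.BilinForm K V} (hB : ∀ g x y, B (ρ g x) (ρ g y) = B x y) {α β : Fin n → ℤ}
    (hα : α ∈ Sq n f) (hβ : β ∈ Sq n f) :
    B (v α) (v α) * (nm β : K) = B (v β) (v β) * (nm α : K) := by
  obtain ⟨μ, hμ, hm⟩ := exists_mi ⟨α, hα⟩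
  have h1 := J11_min h hB hμ hm α hα
  have h2 := J11_min h hB hμ hm β hβ
  have h3 : (nm μ : K) ≠ 0 := by
    have := (nm_pos μ).ne'
    exact_mod_cast this
  apply mul_right_cancel₀ h3
  calc B (v α) (v α) * (nm β : K) * (nm μ : K) = (B (v α) (v α) * (nm μ : K)) * (nm β : K) := by ring
    _ = (B (v μ) (v μ) * (nm β : K)) * (nm α : K) := by rw [h1]; ring
    _ = (B (v β) (v β) * (nm μ : K)) * (nm α : K) := by rw [h2]
    _ = _ := by ring

end

end AN
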