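import Pool.Agent.AN.C04

/-!
# MP_6c3636_al, AN, module V01: the valuation of the norm (helper7)

For a factor with `r = α i - α j ≥ 2`, `r < n` (`Lg_diff`): `1 - 1 / r ^ 2 = (r - 1) (r + 1) / r ^ 2`, its `2`-adic valuation is `v (r - 1) + v (r + 1) - 2 v r`, and `v (r - 1) + v (r + 1)` is the sum over `t ≥ 1` of `[2 ^ t ∣ r - 1] + [2 ^ t ∣ r + 1]` (only `t ≤ n + 2` occur: `r + 1 ≤ n < 2 ^ (n + 2)`; `padicValRat`, `padicValNat`, `Nat.factorization`; the number of the `t ∈ [1, N]` with `2 ^ t ∣ x` is `padicValNat 2 x` for `0 < x < 2 ^ (N + 1)`: `Nat.Prime.emultiplicity..`, `padicValNat_def`, or `Nat.card_multiples`-style lemmas). For `t = 1` the two conditions are equivalent, so this term is even; for `t ≥ 2` they exclude each other, so the term is `1` if `2 ^ t ∣ r - 1 ∨ 2 ^ t ∣ r + 1` and `0` otherwise. Sum over the pairs `i < j` with `α j + 2 ≤ α i`.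
-/

namespace AN

noncomputable section

open Classical Equiv

variable {n : ℕ}

namespace V01_aux

theorem val_prod {ι : Type} (s : Finset ι) (g : ι → ℚ) (hg : ∀ i ∈ s, g i ≠ 0) :
    padicValRat 2 (∏ i ∈ s, g i) = ∑ i ∈ s, padicValRat 2 (g i) := by
  induction s using Finset.induction_on with
  | empty => simp
  | insert a s ha ih =>
    rw [Finset.prod_insert ha, Finset.sum_insert ha,
      padicValRat.mul (hg a (Finset.mem_insert_self a s))
        (Finset.prod_ne_zero_iff.2 fun i hi => hg i (Finset.mem_insert_of_mem hi)),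
      ih fun i hi => hg i (Finset.mem_insert_of_mem hi)]

theorem val_card {x N : ℕ} (hx : x ≠ 0) (hN : x < 2 ^ (N + 1)) :
    (padicValNat 2 x : ℤ) = ∑ t ∈ Finset.Icc 1 N, if 2 ^ t ∣ x then 1 else 0 := by
  have h1 : padicValNat 2 x ≤ N := by
    have h2 : 2 ^ padicValNat 2 x ≤ x := Nat.le_of_dvd (Nat.pos_of_ne_zero hx) pow_padicValNat_dvd
    have h3 : 2 ^ padicValNat 2 x < 2 ^ (N + 1) := lt_of_le_of_lt h2 hN
    have h4 := (Nat.pow_lt_pow_iff_right (by norm_num : 1 < 2)).1 h3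
    omega
  have h5 : (Finset.Icc 1 N).filter (fun t => 2 ^ t ∣ x) = Finset.Icc 1 (padicValNat 2 x) := by
    ext t
    rw [Finset.mem_filter, Finset.mem_Icc, Finset.mem_Icc, padicValNat_dvd_iff_le hx]
    constructor
    · rintro ⟨⟨a, _⟩, b⟩
      exact ⟨a, b⟩
    · rintro ⟨a, b⟩
      exact ⟨⟨a, by omega⟩, b⟩
  rw [← Finset.sum_filter, h5]
  simp

theorem fac (n r : ℕ) (h2 : 2 ≤ r) (hr : r < n) :
    ∃ z : ℤ, padicValRat 2 (1 - 1 / ((r : ℚ) ^ 2)) = 2 * z +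
      ∑ i ∈ Finset.Icc 2 (n + 2), if (2 ^ i ∣ r - 1 ∨ 2 ^ i ∣ r + 1) then 1 else 0 := by
  have hlt : n < 2 ^ n := Nat.lt_two_pow_self
  have hb : 2 ^ (n + 2 + 1) = 8 * 2 ^ n := by ring
  have h1 : (padicValNat 2 (r - 1) : ℤ) =
      ∑ t ∈ Finset.Icc 1 (n + 2), if 2 ^ t ∣ r - 1 then 1 else 0 :=
    val_card (by omega) (by omega)
  have h3 : (padicValNat 2 (r + 1) : ℤ) =
      ∑ t ∈ Finset.Icc 1 (n + 2), if 2 ^ t ∣ r + 1 then 1 else 0 :=
    val_card (by omega) (by omega)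
  have hq : (1 - 1 / ((r : ℚ) ^ 2)) = (((r - 1 : ℕ) : ℚ) * ((r + 1 : ℕ) : ℚ)) / ((r : ℚ) * (r : ℚ)) := by
    have hr0 : (r : ℚ) ≠ 0 := by
      have : (0 : ℚ) < r := by exact_mod_cast (by omega : 0 < r)
      exact this.ne'
    rw [Nat.cast_sub (by omega)]
    push_cast
    field_simp
    ring
  have hr0 : (r : ℚ) ≠ 0 := by
    have : (0 : ℚ) < r := by exact_mod_cast (by omega : 0 < r)
    exact this.ne'
  have hr1 : ((r - 1 : ℕ) : ℚ) ≠ 0 := by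
    exact_mod_cast (by omega : r - 1 ≠ 0)
  have hr2 : ((r + 1 : ℕ) : ℚ) ≠ 0 := by
    exact_mod_cast (by omega : r + 1 ≠ 0)
  rw [hq, padicValRat.div (mul_ne_zero hr1 hr2) (mul_ne_zero hr0 hr0), padicValRat.mul hr1 hr2,
    padicValRat.mul hr0 hr0, padicValRat.of_nat, padicValRat.of_nat, padicValRat.of_nat, h1, h3]
  have hsplit : Finset.Icc 1 (n + 2) = insert 1 (Finset.Icc 2 (n + 2)) := by
    ext t
    rw [Finset.mem_insert, Finset.mem_Icc, Finset.mem_Icc]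
    omega
  have hnot : (1 : ℕ) ∉ Finset.Icc 2 (n + 2) := by
    rw [Finset.mem_Icc]
    omega
  rw [hsplit, Finset.sum_insert hnot, Finset.sum_insert hnot]
  have hsum : (∑ t ∈ Finset.Icc 2 (n + 2), if 2 ^ t ∣ r - 1 then (1 : ℤ) else 0) +
      (∑ t ∈ Finset.Icc 2 (n + 2), if 2 ^ t ∣ r + 1 then (1 : ℤ) else 0) =
      ∑ i ∈ Finset.Icc 2 (n + 2), if (2 ^ i ∣ r - 1 ∨ 2 ^ i ∣ r + 1) then (1 : ℤ) else 0 := by
    rw [← Finset.sum_add_distrib]
    refine Finset.sum_congr rfl fun t ht => ?_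
    rw [Finset.mem_Icc] at ht
    have h4 : ∀ x, 2 ^ t ∣ x → 4 ∣ x := fun x hx =>
      (by
        have : (4 : ℕ) = 2 ^ 2 := by norm_num
        rw [this]
        exact (pow_dvd_pow 2 ht.1).trans hx)
    by_cases e1 : 2 ^ t ∣ r - 1
    · by_cases e2 : 2 ^ t ∣ r + 1
      · exfalso
        have := h4 _ e1
        have := h4 _ e2
        omega
      · rw [if_pos e1, if_neg e2, if_pos (Or.inl e1)]
        rfl
    · by_cases e2 : 2 ^ t ∣ r + 1
      · rw [if_neg e1, if_pos e2, if_pos (Or.inr e2)]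
        rfl
      · rw [if_neg e1, if_neg e2, if_neg (by tauto)]
        rfl
  have hone : (if 2 ^ 1 ∣ r - 1 then (1 : ℤ) else 0) = if 2 ^ 1 ∣ r + 1 then (1 : ℤ) else 0 := by
    have : (2 ^ 1 ∣ r - 1) ↔ (2 ^ 1 ∣ r + 1) := by
      rw [pow_one]
      omega
    simp only [this]
  refine ⟨(if 2 ^ 1 ∣ r + 1 then (1 : ℤ) else 0) - (padicValNat 2 r : ℤ), ?_⟩
  rw [← hsum, hone]
  ring

end V01_aux

open V01_aux

theorem vn_nm {α : Fin n → ℤ} (h : Lg α) :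
    ∃ z : ℤ, padicValRat 2 (nm α) =
      2 * z + ∑ i ∈ Finset.Icc 2 (n + 2), (dq ((2 ^ i : ℕ) : ℤ) α : ℤ) := by
  have key : ∀ p : Fin n × Fin n, ∃ z : ℤ,
      padicValRat 2 (if p.1 < p.2 ∧ α p.2 + 2 ≤ α p.1 then
        1 - 1 / (((α p.1 - α p.2 : ℤ) : ℚ) ^ 2) else 1) = 2 * z +
      ∑ i ∈ Finset.Icc 2 (n + 2), (if p.1 < p.2 ∧ α p.2 + 2 ≤ α p.1 ∧
        (((2 ^ i : ℕ) : ℤ) ∣ α p.1 - α p.2 - 1 ∨ ((2 ^ i : ℕ) : ℤ) ∣ α p.1 - α p.2 + 1)
          then (1 : ℤ) else 0) := by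
    rintro ⟨i, j⟩
    simp only
    by_cases hc : i < j ∧ α j + 2 ≤ α i
    · rw [if_pos hc]
      obtain ⟨r, hr⟩ : ∃ r : ℕ, α i - α j = r := ⟨(α i - α j).toNat, by omega⟩
      have hd := Lg_diff h i j
      obtain ⟨z, hz⟩ := fac n r (by omega) (by omega)
      refine ⟨z, ?_⟩
      rw [hr, Int.cast_natCast, hz]
      congr 1
      refine Finset.sum_congr rfl fun t _ => ?_
      have e1 : ((2 ^ t : ℕ) : ℤ) ∣ (r : ℤ) - 1 ↔ 2 ^ t ∣ r - 1 := by
        rw [← Int.natCast_dvd_natCast, Nat.cast_sub (by omega), Nat.cast_one]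
      have e2 : ((2 ^ t : ℕ) : ℤ) ∣ (r : ℤ) + 1 ↔ 2 ^ t ∣ r + 1 := by
        rw [← Int.natCast_dvd_natCast]
        push_cast
        rfl
      have e3 : (i < j ∧ α j + 2 ≤ α i ∧
          (((2 ^ t : ℕ) : ℤ) ∣ (r : ℤ) - 1 ∨ ((2 ^ t : ℕ) : ℤ) ∣ (r : ℤ) + 1)) ↔
          (2 ^ t ∣ r - 1 ∨ 2 ^ t ∣ r + 1) := by
        rw [e1, e2]
        exact ⟨fun hh => hh.2.2, fun hh => ⟨hc.1, hc.2, hh⟩⟩
      simp only [e3]
    · rw [if_neg hc]
      refine ⟨0, ?_⟩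
      rw [Finset.sum_eq_zero]
      · simp
      · intro t _
        rw [if_neg]
        rintro ⟨h1, h2, _⟩
        exact hc ⟨h1, h2⟩
  choose z hz using key
  refine ⟨∑ p, z p, ?_⟩
  have h1 : nm α = ∏ p : Fin n × Fin n, (if p.1 < p.2 ∧ α p.2 + 2 ≤ α p.1 then
        1 - 1 / (((α p.1 - α p.2 : ℤ) : ℚ) ^ 2) else 1) := by
    rw [nm, Fintype.prod_prod_type]
  rw [h1, val_prod]
  · rw [Finset.sum_congr rfl fun p _ => hz p, Finset.sum_add_distrib, ← Finset.mul_sum,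
      Finset.sum_comm]
    congr 1
    refine Finset.sum_congr rfl fun t _ => ?_
    rw [dq, Finset.card_filter]
    push_cast
    rfl
  · rintro ⟨i, j⟩ _
    simp only
    split_ifs with hc
    · have h2 : (2 : ℚ) ≤ ((α i - α j : ℤ) : ℚ) := by exact_mod_cast (by omega : 2 ≤ α i - α j)
      have h3 : (1 : ℚ) < ((α i - α j : ℤ) : ℚ) ^ 2 := by nlinarith
      have h4 : 1 / ((α i - α j : ℤ) : ℚ) ^ 2 < 1 := by
        rw [div_lt_one (by linarith)]
        exact h3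
      linarith
    · exact one_ne_zero

end

end AN
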