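import Pool.Agent.AN.Defs
import Pool.Agent.CF.E01

/-!
# MP_6c3636_al, AN, module X01: closure properties of Ex (helper7)

`ex_prod`: `ex_hom` (CF/E01) for the projection `R × Q → R`; its kernel is isomorphic to `Q` (`ex_congr`), its range to `R`. `ex_pi`: induction on the finite index type (`Finite.induction_empty_option`), `ex_congr`, `ex_prod`. `ex_inj`: if `f : R →* Q` is injective and `Q` is solvable then `R` is solvable, `ex_solv`. `ex_ge_alt`: `H → Perm α / alternatingGroup α`: the kernel of `sign` on `H` is isomorphic to `alternatingGroup α` (as `alternatingGroup α ≤ H`), its range is commutative; `ex_hom`. `ex_alt_congr`: `Equiv.altCongrHom` and `Finite.equivFin`.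
-/

namespace AN

noncomputable section

open Classical Equiv


theorem ex_prod {R Q : Type} [Group R] [Group Q] (h1 : CF.Ex R) (h2 : CF.Ex Q) : CF.Ex (R × Q) := by
  apply CF.ex_hom (MonoidHom.fst R Q)
  · let θ : Q →* (MonoidHom.fst R Q).ker :=
      { toFun := fun q => ⟨(1, q), MonoidHom.mem_ker.2 rfl⟩
        map_one' := rfl
        map_mul' := fun a b => by
          apply Subtype.ext
          show ((1, a * b) : R × Q) = (1, a) * (1, b)
          rw [Prod.mk_mul_mk, one_mul] }
    refine CF.ex_congr (MulEquiv.ofBijective θ ⟨?_, ?_⟩) h2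
    · intro a b hab
      have h3 := congrArg (fun x : (MonoidHom.fst R Q).ker => (x : R × Q).2) hab
      exact h3
    · rintro ⟨⟨a, b⟩, hab⟩
      refine ⟨b, ?_⟩
      apply Subtype.ext
      have h3 : a = 1 := MonoidHom.mem_ker.1 hab
      show ((1, b) : R × Q) = (a, b)
      rw [h3]
  · have h3 : (MonoidHom.fst R Q).range = ⊤ := MonoidHom.range_eq_top.2 Prod.fst_surjective
    rw [h3]
    exact CF.ex_congr Subgroup.topEquiv.symm h1

theorem ex_pi {ι : Type} [Finite ι] {R : ι → Type} [∀ i, Group (R i)] (h : ∀ i, CF.Ex (R i)) :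
    CF.Ex (∀ i, R i) := by
  let P : Type → Prop := fun κ => ∀ (S : κ → Type) [∀ i, Group (S i)], (∀ i, CF.Ex (S i)) → CF.Ex (∀ i, S i)
  have key : P ι := by
    refine Finite.induction_empty_option (P := P) ?_ ?_ ?_ ι
    · intro κ κ' e ih S _ hS
      let θ : (∀ i, S i) →* (∀ i, S (e i)) :=
        { toFun := fun f i => f (e i)
          map_one' := rfl
          map_mul' := fun f g => rfl }
      refine CF.ex_congr (MulEquiv.ofBijective θ ⟨?_, ?_⟩).symm (ih (fun i => S (e i)) fun i => hS (e i))
      · intro f g hfg
        funext i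
        obtain ⟨j, rfl⟩ := e.surjective i
        exact congrFun hfg j
      · intro f
        refine ⟨Equiv.piCongrLeft S e f, ?_⟩
        funext i
        exact Equiv.piCongrLeft_apply_apply S e f i
    · intro S _ _
      exact CF.ex_solv inferInstance
    · intro κ _ ih S _ hS
      let θ : (∀ i, S i) →* (S none × ∀ i, S (some i)) :=
        { toFun := fun f => (f none, fun i => f (some i))
          map_one' := rfl
          map_mul' := fun f g => rfl }
      refine CF.ex_congr (MulEquiv.ofBijective θ ⟨?_, ?_⟩).symm
        (ex_prod (hS none) (ih (fun i => S (some i)) fun i => hS (some i)))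
      · intro f g hfg
        funext i
        cases i with
        | none => exact congrArg Prod.fst hfg
        | some i => exact congrFun (congrArg Prod.snd hfg) i
      · rintro ⟨a, f⟩
        exact ⟨fun i => Option.rec a f i, rfl⟩
  exact key R h

theorem ex_ge_alt {α : Type} [Fintype α] [DecidableEq α] (h : CF.Ex (alternatingGroup α))
    (H : Subgroup (Perm α)) (hH : alternatingGroup α ≤ H) : CF.Ex H := by
  apply CF.ex_hom (Perm.sign.comp H.subtype)
  · let θ : alternatingGroup α →* (Perm.sign.comp H.subtype).ker :=
      { toFun := fun g => ⟨⟨g, hH g.2⟩, MonoidHom.mem_ker.2 (Perm.mem_alternatingGroup.1 g.2)⟩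
        map_one' := rfl
        map_mul' := fun a b => rfl }
    refine CF.ex_congr (MulEquiv.ofBijective θ ⟨?_, ?_⟩) h
    · intro a b hab
      apply Subtype.ext
      exact congrArg (fun x : (Perm.sign.comp H.subtype).ker => ((x : H) : Perm α)) hab
    · rintro ⟨⟨a, ha⟩, hab⟩
      exact ⟨⟨a, Perm.mem_alternatingGroup.2 (MonoidHom.mem_ker.1 hab)⟩, rfl⟩
  · exact CF.ex_solv inferInstance

theorem ex_alt_congr {α : Type} [Fintype α] [DecidableEq α]
    (h : CF.Ex (alternatingGroup (Fin (Nat.card α)))) : CF.Ex (alternatingGroup α) := by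
  exact CF.ex_congr (Equiv.altCongrHom (Finite.equivFin α).symm) h

end

end AN
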