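import Pool.Agent.AN.X01

/-!
# MP_6c3636_al, AN, module X02: stabilizers of sets (helper7)

`ex_stS`: restriction to `s` is a homomorphism `stS s →* Perm s` (`Equiv.Perm.subtypePerm`). Its range contains `alternatingGroup s` (extend an even permutation of `s` by the identity, `Equiv.Perm.ofSubtype`, it is even), so `Ex` by `ex_ge_alt`, `ex_alt_congr` and the hypothesis for `m = card s < n`. Its kernel is isomorphic to `alternatingGroup` of the complement (an even permutation which fixes `s` pointwise restricts to an even permutation of the complement). `ex_hom`. `stS_ne_top`: for `n ≥ 3` the group `alternatingGroup (Fin n)` is transitive: a 3-cycle moves a point of `s` to a point outside of `s`.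
-/

namespace AN

noncomputable section

open Classical Equiv


/-- the stabilizer of a set in the alternating group -/
def stS {n : ℕ} (s : Set (Fin n)) : Subgroup (alternatingGroup (Fin n)) where
  carrier := {g | ∀ x, (g : Perm (Fin n)) x ∈ s ↔ x ∈ s}
  mul_mem' := by
    intro a b ha hb x
    exact (ha ((b : Perm (Fin n)) x)).trans (hb x)
  one_mem' := fun x => Iff.rfl
  inv_mem' := by
    intro a ha x
    have h := ha (((a⁻¹ : alternatingGroup (Fin n)) : Perm (Fin n)) x)
    rw [← h]
    simp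

private theorem X02_card {n : ℕ} {s : Set (Fin n)} (h : s ≠ Set.univ) :
    Nat.card (Subtype (· ∈ s)) < n := by
  have h1 : s.ncard < (Set.univ : Set (Fin n)).ncard :=
    Set.ncard_lt_ncard (Set.ssubset_univ_iff.2 h) (Set.toFinite _)
  rw [Set.ncard_univ, Nat.card_eq_fintype_card, Fintype.card_fin] at h1
  exact h1

/-- restriction to `s` -/
private def X02_res {n : ℕ} (s : Set (Fin n)) : stS s →* Perm (Subtype (· ∈ s)) :=
  MonoidHom.mk' (fun g => ((g : alternatingGroup (Fin n)) : Perm (Fin n)).subtypePerm g.2)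
    (fun a b => by
      rw [Perm.subtypePerm_mul]
      rfl)

private theorem X02_res_range {n : ℕ} (s : Set (Fin n)) :
    alternatingGroup (Subtype (· ∈ s)) ≤ (X02_res s).range := by
  intro σ hσ
  have h1 : (Perm.ofSubtype σ : Perm (Fin n)) ∈ alternatingGroup (Fin n) := by
    rw [Perm.mem_alternatingGroup, Perm.sign_ofSubtype]
    exact Perm.mem_alternatingGroup.1 hσ
  refine ⟨⟨⟨Perm.ofSubtype σ, h1⟩, fun x => Perm.ofSubtype_apply_mem_iff_mem σ x⟩, ?_⟩
  exact Perm.subtypePerm_ofSubtype σ

/-- the even permutations of the complement -/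
private def X02_inc {n : ℕ} (s : Set (Fin n)) :
    alternatingGroup (Subtype (· ∈ sᶜ)) →* stS s :=
  MonoidHom.mk' (fun σ => ⟨⟨Perm.ofSubtype (σ : Perm (Subtype (· ∈ sᶜ))), by
    rw [Perm.mem_alternatingGroup, Perm.sign_ofSubtype]
    exact Perm.mem_alternatingGroup.1 σ.2⟩, fun x => by
      have h := Perm.ofSubtype_apply_mem_iff_mem (σ : Perm (Subtype (· ∈ sᶜ))) x
      exact not_iff_not.1 h⟩)
    (fun a b => by
      apply Subtype.ext
      apply Subtype.ext
      exact map_mul Perm.ofSubtype (a : Perm (Subtype (· ∈ sᶜ))) (b : Perm (Subtype (· ∈ sᶜ))))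

private theorem X02_inc_inj {n : ℕ} (s : Set (Fin n)) : Function.Injective (X02_inc s) := by
  intro a b h
  apply Subtype.ext
  apply Perm.ofSubtype_injective
  have h1 : (((X02_inc s a : stS s) : alternatingGroup (Fin n)) : Perm (Fin n)) =
      (((X02_inc s b : stS s) : alternatingGroup (Fin n)) : Perm (Fin n)) := by rw [h]
  exact h1

private theorem X02_inc_range {n : ℕ} (s : Set (Fin n)) : (X02_inc s).range = (X02_res s).ker := by
  ext g
  constructor
  · rintro ⟨σ, rfl⟩
    rw [MonoidHom.mem_ker]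
    apply Equiv.ext
    rintro ⟨x, hx⟩
    apply Subtype.ext
    exact Perm.ofSubtype_apply_of_not_mem (σ : Perm (Subtype (· ∈ sᶜ))) (not_not.2 hx)
  · intro hg
    rw [MonoidHom.mem_ker] at hg
    have hfix : ∀ x ∈ s, ((g : alternatingGroup (Fin n)) : Perm (Fin n)) x = x := by
      intro x hx
      have h1 := congrArg (fun e : Perm (Subtype (· ∈ s)) => ((e ⟨x, hx⟩ : Subtype (· ∈ s)) : Fin n)) hg
      exact h1
    have h1 : ∀ x, ((g : alternatingGroup (Fin n)) : Perm (Fin n)) x ∈ sᶜ ↔ x ∈ sᶜ :=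
      fun x => not_congr (g.2 x)
    have h2 : ∀ x, ((g : alternatingGroup (Fin n)) : Perm (Fin n)) x ≠ x → x ∈ sᶜ :=
      fun x hx hs => hx (hfix x hs)
    have h3 : (((g : alternatingGroup (Fin n)) : Perm (Fin n)).subtypePerm h1) ∈
        alternatingGroup (Subtype (· ∈ sᶜ)) := by
      rw [Perm.mem_alternatingGroup, Perm.sign_subtypePerm _ h1 h2]
      exact Perm.mem_alternatingGroup.1 (g : alternatingGroup (Fin n)).2
    refine ⟨⟨_, h3⟩, ?_⟩
    apply Subtype.ext
    apply Subtype.ext
    exact Perm.ofSubtype_subtypePerm h1 h2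

theorem ex_stS {n : ℕ} (h : ∀ m < n, CF.Ex (alternatingGroup (Fin m))) {s : Set (Fin n)}
    (h1 : s.Nonempty) (h2 : s ≠ Set.univ) : CF.Ex (stS s) := by
  have h3 : sᶜ ≠ Set.univ := by
    intro he
    obtain ⟨x, hx⟩ := h1
    have : x ∈ sᶜ := by
      rw [he]
      exact Set.mem_univ x
    exact this hx
  have e1 : CF.Ex (alternatingGroup (Subtype (· ∈ s))) := ex_alt_congr (h _ (X02_card h2))
  have e2 : CF.Ex (alternatingGroup (Subtype (· ∈ sᶜ))) := ex_alt_congr (h _ (X02_card h3))
  refine CF.ex_hom (X02_res s) ?_ (ex_ge_alt e1 _ (X02_res_range s))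
  exact CF.ex_congr ((MonoidHom.ofInjective (X02_inc_inj s)).trans
    (MulEquiv.subgroupCongr (X02_inc_range s))) e2

theorem stS_ne_top {n : ℕ} (hn : 3 ≤ n) {s : Set (Fin n)} (h1 : s.Nonempty) (h2 : s ≠ Set.univ) :
    stS s ≠ ⊤ := by
  obtain ⟨x, hx⟩ := h1
  obtain ⟨y, hy⟩ := (Set.ne_univ_iff_exists_notMem s).1 h2
  have hxy : x ≠ y := fun e => hy (e ▸ hx)
  obtain ⟨z, -, hz⟩ : ∃ z ∈ (Finset.univ : Finset (Fin n)), z ∉ ({x, y} : Finset (Fin n)) := by
    apply Finset.exists_mem_notMem_of_card_lt_card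
    rw [Finset.card_pair hxy, Finset.card_univ, Fintype.card_fin]
    omega
  have hzx : z ≠ x := fun e => hz (by simp [e])
  have hzy : z ≠ y := fun e => hz (by simp [e])
  intro htop
  have hg : (swap x z * swap x y : Perm (Fin n)) ∈ alternatingGroup (Fin n) := by
    rw [Perm.mem_alternatingGroup, Perm.sign_mul, Perm.sign_swap hzx.symm, Perm.sign_swap hxy]
    rfl
  have hm : (⟨swap x z * swap x y, hg⟩ : alternatingGroup (Fin n)) ∈ stS s := by
    rw [htop]
    exact Subgroup.mem_top _
  have h3 : (swap x z * swap x y : Perm (Fin n)) x ∈ s ↔ x ∈ s := hm x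
  rw [Perm.mul_apply, swap_apply_left, swap_apply_of_ne_of_ne hxy.symm hzy.symm] at h3
  exact hy (h3.2 hx)

end

end AN
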