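import Pool.Agent.AN.X01

/-!
# MP_6c3636_al, AN, module X03: stabilizers of partitions (helper7)

`ex_stR`: the classes of `r` have the same number `a` of elements, `1 < a < n` (`r ≠ ⊥, ⊤`), their number `b = n / a` satisfies `1 < b < n`. `φ : stR r →* Perm (Quotient r)`. Its range contains `alternatingGroup (Quotient r)` (in fact it is everything): for a permutation `p` of the classes choose bijections of the class `c` onto the class `p c` (all classes have `a` elements), which gives a permutation of `Fin n`; if it is odd multiply it with a transposition inside of a class (`a ≥ 2`). So `Ex` of the range by `ex_ge_alt`, `ex_alt_congr` (`b < n`). The kernel `K` of `φ` consists of the even permutations which preserve every class; restriction gives an injective homomorphism of `K` into `∏ c, Perm (class c)`. Let `ψ : K → ∏ c, ℤˣ` be the family of the signs: its range is commutative, `ex_solv`; its kernel is isomorphic to `∏ c, alternatingGroup (class c)` (a family of even permutations of the classes gives an even permutation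 of `Fin n`), `Ex` by `ex_pi`, `ex_alt_congr` (`a < n`). `stR_ne_top`: `n ≥ 5` (or: `alternatingGroup (Fin n)` is 2-transitive for `n ≥ 4`): choose `x, y` in one class, `x ≠ y`, and `z` not in this class, and an even permutation with `x ↦ x`, `y ↦ z` (a 3-cycle `(y z w)` with `w ≠ x, y, z`).
-/

namespace AN

noncomputable section

open Classical Equiv


/-- the stabilizer of a partition in the alternating group -/
def stR {n : ℕ} (r : Setoid (Fin n)) : Subgroup (alternatingGroup (Fin n)) where
  carrier := {g | ∀ x y, r ((g : Perm (Fin n)) x) ((g : Perm (Fin n)) y) ↔ r x y}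
  mul_mem' := by
    intro a b ha hb x y
    exact (ha ((b : Perm (Fin n)) x) ((b : Perm (Fin n)) y)).trans (hb x y)
  one_mem' := fun x y => Iff.rfl
  inv_mem' := by
    intro a ha x y
    have h := ha (((a⁻¹ : alternatingGroup (Fin n)) : Perm (Fin n)) x)
      (((a⁻¹ : alternatingGroup (Fin n)) : Perm (Fin n)) y)
    rw [← h]
    simp

namespace X03_aux

variable {X Q A : Type}

theorem key {f : X → Q} (E : X ≃ Q × A) (hE : ∀ x, (E x).1 = f x) {g : Perm X}
    (hg : ∀ x, f (g x) = f x) (q : Q) (a : A) :
    E (g (E.symm (q, a))) = (q, (E (g (E.symm (q, a)))).2) := by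
  apply Prod.ext
  · rw [hE, hg, ← hE, Equiv.apply_symm_apply]
  · rfl

theorem inv_f {f : X → Q} {g : Perm X} (hg : ∀ x, f (g x) = f x) (x : X) : f (g⁻¹ x) = f x := by
  have h := hg (g.symm x)
  rw [Equiv.apply_symm_apply] at h
  exact h.symm

/-- the permutations of the classes -/
def resP {f : X → Q} (E : X ≃ Q × A) (hE : ∀ x, (E x).1 = f x) (g : Perm X)
    (hg : ∀ x, f (g x) = f x) (q : Q) : Perm A where
  toFun a := (E (g (E.symm (q, a)))).2
  invFun a := (E (g⁻¹ (E.symm (q, a)))).2
  left_inv a := by
    show (E (g.symm (E.symm (q, (E (g (E.symm (q, a)))).2)))).2 = a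
    rw [← key E hE hg, Equiv.symm_apply_apply, Equiv.symm_apply_apply, Equiv.apply_symm_apply]
  right_inv a := by
    show (E (g (E.symm (q, (E (g⁻¹ (E.symm (q, a)))).2)))).2 = a
    rw [← key E hE (inv_f hg), Equiv.symm_apply_apply]
    show (E (g (g.symm (E.symm (q, a))))).2 = a
    rw [Equiv.apply_symm_apply, Equiv.apply_symm_apply]

theorem resP_spec {f : X → Q} (E : X ≃ Q × A) (hE : ∀ x, (E x).1 = f x) (g : Perm X)
    (hg : ∀ x, f (g x) = f x) (q : Q) (a : A) :
    E (g (E.symm (q, a))) = (q, resP E hE g hg q a) := key E hE hg q a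

theorem resP_one {f : X → Q} (E : X ≃ Q × A) (hE : ∀ x, (E x).1 = f x)
    (hg : ∀ x, f ((1 : Perm X) x) = f x) (q : Q) : resP E hE 1 hg q = 1 := by
  ext a
  show (E ((1 : Perm X) (E.symm (q, a)))).2 = a
  rw [Perm.one_apply, Equiv.apply_symm_apply]

theorem resP_mul {f : X → Q} (E : X ≃ Q × A) (hE : ∀ x, (E x).1 = f x) (g h : Perm X)
    (hg : ∀ x, f (g x) = f x) (hh : ∀ x, f (h x) = f x) (hgh : ∀ x, f ((g * h) x) = f x) (q : Q) :
    resP E hE (g * h) hgh q = resP E hE g hg q * resP E hE h hh q := by
  ext a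
  show (E ((g * h) (E.symm (q, a)))).2 = (E (g (E.symm (q, (E (h (E.symm (q, a)))).2)))).2
  rw [← key E hE hh, Equiv.symm_apply_apply, Perm.mul_apply]

theorem resP_inj {f : X → Q} (E : X ≃ Q × A) (hE : ∀ x, (E x).1 = f x) (g h : Perm X)
    (hg : ∀ x, f (g x) = f x) (hh : ∀ x, f (h x) = f x)
    (H : ∀ q, resP E hE g hg q = resP E hE h hh q) : g = h := by
  ext x
  obtain ⟨⟨q, a⟩, rfl⟩ := E.symm.surjective x
  apply E.injective
  rw [resP_spec E hE g hg, resP_spec E hE h hh, H]

/-- the permutation of `X` given by permutations of the classes -/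
def ext (E : X ≃ Q × A) (τ : Q → Perm A) : Perm X :=
  E.symm.permCongr (Equiv.prodCongrRight τ)

theorem ext_spec (E : X ≃ Q × A) (τ : Q → Perm A) (q : Q) (a : A) :
    E (ext E τ (E.symm (q, a))) = (q, τ q a) := by
  show E (E.symm (Equiv.prodCongrRight τ (E.symm.symm (E.symm (q, a))))) = (q, τ q a)
  rw [Equiv.symm_symm, Equiv.apply_symm_apply, Equiv.apply_symm_apply]
  rfl

theorem ext_f {f : X → Q} (E : X ≃ Q × A) (hE : ∀ x, (E x).1 = f x) (τ : Q → Perm A) (x : X) :
    f (ext E τ x) = f x := by
  obtain ⟨⟨q, a⟩, rfl⟩ := E.symm.surjective x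
  rw [← hE, ← hE, ext_spec, Equiv.apply_symm_apply]

theorem resP_ext {f : X → Q} (E : X ≃ Q × A) (hE : ∀ x, (E x).1 = f x) (τ : Q → Perm A)
    (h : ∀ x, f (ext E τ x) = f x) (q : Q) : resP E hE (ext E τ) h q = τ q := by
  ext a
  have h1 := resP_spec E hE (ext E τ) h q a
  rw [ext_spec] at h1
  exact (congrArg Prod.snd h1).symm

theorem sign_ext [Fintype X] [DecidableEq X] [Fintype Q] [DecidableEq Q] [Fintype A] [DecidableEq A]
    (E : X ≃ Q × A) (τ : Q → Perm A) : Perm.sign (ext E τ) = ∏ q, Perm.sign (τ q) := by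
  rw [ext, Perm.sign_permCongr, Perm.sign_prodCongrRight]

variable {n : ℕ} {r : Setoid (Fin n)}

/-- the action on the classes -/
def act (r : Setoid (Fin n)) : stR r →* Perm (Quotient r) where
  toFun g := Quotient.congr ((g : alternatingGroup (Fin n)) : Perm (Fin n)) (fun a b => (g.2 a b).symm)
  map_one' := by
    ext q
    induction q using Quotient.inductionOn with
    | h x => rfl
  map_mul' g h := by
    ext q
    induction q using Quotient.inductionOn with
    | h x => rfl

theorem act_mk (g : stR r) (x : Fin n) :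
    act r g (Quotient.mk r x) = Quotient.mk r (((g : alternatingGroup (Fin n)) : Perm (Fin n)) x) := rfl

theorem ker_f (g : (act r).ker) (x : Fin n) :
    Quotient.mk r ((((g : stR r) : alternatingGroup (Fin n)) : Perm (Fin n)) x) = Quotient.mk r x := by
  rw [← act_mk, MonoidHom.mem_ker.1 g.2, Perm.one_apply]

theorem exists_triv (hc : ∀ x y, Nat.card {z : Fin n // r x z} = Nat.card {z : Fin n // r y z}) (x0 : Fin n) :
    ∃ E : Fin n ≃ Quotient r × Fin (Nat.card {z : Fin n // r x0 z}), ∀ x, (E x).1 = Quotient.mk r x := by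
  have h1 : ∀ q : Quotient r, Nonempty ({z : Fin n // Quotient.mk r z = q} ≃
      Fin (Nat.card {z : Fin n // r x0 z})) := by
    intro q
    induction q using Quotient.inductionOn with
    | h x =>
      have e1 : {z : Fin n // Quotient.mk r z = Quotient.mk r x} ≃ {z : Fin n // r x z} :=
        Equiv.subtypeEquivRight fun z => by
          rw [Quotient.eq]
          exact ⟨fun h => r.symm h, fun h => r.symm h⟩
      exact ⟨e1.trans (Finite.equivFinOfCardEq (hc x x0))⟩
  let e : ∀ q : Quotient r, {z : Fin n // Quotient.mk r z = q} ≃ Fin (Nat.card {z : Fin n // r x0 z}) :=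
    fun q => Classical.choice (h1 q)
  refine ⟨(Equiv.sigmaFiberEquiv (Quotient.mk r)).symm.trans ((Equiv.sigmaCongrRight e).trans
    (Equiv.sigmaEquivProd _ _)), fun x => rfl⟩

/-- the restrictions of the elements of the kernel to the classes -/
def res {A : Type} (E : Fin n ≃ Quotient r × A) (hE : ∀ x, (E x).1 = Quotient.mk r x) :
    (act r).ker →* (Quotient r → Perm A) where
  toFun g := resP E hE (((g : stR r) : alternatingGroup (Fin n)) : Perm (Fin n)) (ker_f g)
  map_one' := by
    funext q
    exact resP_one E hE _ q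
  map_mul' g h := by
    funext q
    exact resP_mul E hE _ _ (ker_f g) (ker_f h) _ q

theorem ext_mem {a : ℕ} (E : Fin n ≃ Quotient r × Fin a) (hE : ∀ x, (E x).1 = Quotient.mk r x)
    (τ : Quotient r → Perm (Fin a)) (hτ : ∀ q, Perm.sign (τ q) = 1) :
    ∃ g : (act r).ker, (((g : stR r) : alternatingGroup (Fin n)) : Perm (Fin n)) = ext E τ := by
  have h1 : ext E τ ∈ alternatingGroup (Fin n) := by
    rw [Perm.mem_alternatingGroup, sign_ext]
    exact Finset.prod_eq_one fun q _ => hτ q
  have hf := ext_f E hE τ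
  have h2 : (⟨ext E τ, h1⟩ : alternatingGroup (Fin n)) ∈ stR r := by
    intro x y
    show r (ext E τ x) (ext E τ y) ↔ r x y
    rw [← Quotient.eq, ← Quotient.eq, hf, hf]
  refine ⟨⟨⟨⟨ext E τ, h1⟩, h2⟩, ?_⟩, rfl⟩
  rw [MonoidHom.mem_ker]
  ext q
  induction q using Quotient.inductionOn with
  | h x =>
    rw [act_mk]
    exact hf x

theorem ex_ker {a : ℕ} (ha : CF.Ex (alternatingGroup (Fin a))) (E : Fin n ≃ Quotient r × Fin a)
    (hE : ∀ x, (E x).1 = Quotient.mk r x) : CF.Ex (act r).ker := by
  let ψ : (act r).ker →* (Quotient r → ℤˣ) := (MonoidHom.compLeft Perm.sign (Quotient r)).comp (res E hE)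
  have hψ : ∀ g q, ψ g q = Perm.sign (res E hE g q) := fun g q => rfl
  apply CF.ex_hom ψ
  · let θ : ψ.ker →* (Quotient r → alternatingGroup (Fin a)) :=
      { toFun := fun g q => ⟨res E hE g q, by
          rw [Perm.mem_alternatingGroup, ← hψ, MonoidHom.mem_ker.1 g.2]
          rfl⟩
        map_one' := by
          funext q
          apply Subtype.ext
          show res E hE ((1 : ψ.ker) : (act r).ker) q = 1
          rw [OneMemClass.coe_one, map_one, Pi.one_apply]
        map_mul' := fun g h => by
          funext q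
          apply Subtype.ext
          show res E hE ((g * h : ψ.ker) : (act r).ker) q = res E hE g q * res E hE h q
          rw [Subgroup.coe_mul, map_mul, Pi.mul_apply] }
    have hθ : ∀ g q, (θ g q : Perm (Fin a)) = res E hE g q := fun g q => rfl
    have hinj : Function.Injective θ := by
      intro g h hgh
      apply Subtype.ext
      apply Subtype.ext
      apply Subtype.ext
      apply Subtype.ext
      refine resP_inj E hE _ _ (ker_f g.1) (ker_f h.1) ?_
      intro q
      have h1 := congrArg (fun F : Quotient r → alternatingGroup (Fin a) => (F q : Perm (Fin a))) hgh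
      exact h1
    have hsurj : Function.Surjective θ := by
      intro τ
      obtain ⟨g, hg⟩ := ext_mem E hE (fun q => (τ q : Perm (Fin a)))
        (fun q => Perm.mem_alternatingGroup.1 (τ q).2)
      have h1 : ∀ q, res E hE g q = (τ q : Perm (Fin a)) := by
        intro q
        have h2 : ∀ (g' : Perm (Fin n)) (hg' : ∀ x, Quotient.mk r (g' x) = Quotient.mk r x),
            g' = ext E (fun q => (τ q : Perm (Fin a))) → resP E hE g' hg' q = (τ q : Perm (Fin a)) := by
          intro g' hg' h
          subst h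
          exact resP_ext E hE _ _ q
        exact h2 _ (ker_f g) hg
      refine ⟨⟨g, ?_⟩, ?_⟩
      · rw [MonoidHom.mem_ker]
        funext q
        rw [hψ, h1, Perm.mem_alternatingGroup.1 (τ q).2]
        rfl
      · funext q
        apply Subtype.ext
        rw [hθ]
        exact h1 q
    exact CF.ex_congr (MulEquiv.ofBijective θ ⟨hinj, hsurj⟩).symm (ex_pi fun _ => ha)
  · apply CF.ex_solv
    infer_instance

theorem range_top {a : ℕ} (E : Fin n ≃ Quotient r × Fin a) (hE : ∀ x, (E x).1 = Quotient.mk r x)
    {x0 y0 : Fin n} (h0 : r x0 y0) (hne : x0 ≠ y0) (p : Perm (Quotient r)) : p ∈ (act r).range := by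
  have key : ∀ σ : Perm (Fin n), (∀ x, Quotient.mk r (σ x) = p (Quotient.mk r x)) → Perm.sign σ = 1 →
      p ∈ (act r).range := by
    intro σ hσ hs
    have h2 : (⟨σ, Perm.mem_alternatingGroup.2 hs⟩ : alternatingGroup (Fin n)) ∈ stR r := by
      intro x y
      show r (σ x) (σ y) ↔ r x y
      rw [← Quotient.eq, ← Quotient.eq, hσ, hσ]
      exact p.injective.eq_iff
    refine ⟨⟨⟨σ, _⟩, h2⟩, ?_⟩
    ext q
    induction q using Quotient.inductionOn with
    | h x =>
      rw [act_mk]
      exact hσ x
  let σ : Perm (Fin n) := E.trans ((Equiv.prodCongr p (Equiv.refl _)).trans E.symm)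
  have hσ : ∀ x, Quotient.mk r (σ x) = p (Quotient.mk r x) := by
    intro x
    rw [← hE, ← hE]
    show (E (E.symm (Equiv.prodCongr p (Equiv.refl _) (E x)))).1 = p (E x).1
    rw [Equiv.apply_symm_apply]
    rfl
  rcases Int.units_eq_one_or (Perm.sign σ) with hs | hs
  · exact key σ hσ hs
  · refine key (σ * swap x0 y0) (fun x => ?_) ?_
    · rw [Perm.mul_apply, hσ]
      congr 1
      rw [Quotient.eq]
      by_cases h1 : x = x0
      · subst h1
        rw [swap_apply_left]
        exact r.symm h0
      · by_cases h2 : x = y0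
        · subst h2
          rw [swap_apply_right]
          exact h0
        · rw [swap_apply_of_ne_of_ne h1 h2]
    · rw [map_mul, hs, Perm.sign_swap hne]
      decide

theorem exists_pair (h1 : r ≠ ⊥) : ∃ x y, r x y ∧ x ≠ y := by
  by_contra hcon
  push Not at hcon
  apply h1
  ext x y
  constructor
  · intro h
    exact hcon x y h
  · intro h
    have h' : x = y := h
    rw [h']

theorem exists_npair (h2 : r ≠ ⊤) : ∃ x y, ¬ r x y := by
  by_contra hcon
  push Not at hcon
  apply h2
  ext x y
  exact ⟨fun _ => trivial, fun _ => hcon x y⟩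

end X03_aux

open X03_aux

theorem ex_stR {n : ℕ} (h : ∀ m < n, CF.Ex (alternatingGroup (Fin m))) {r : Setoid (Fin n)}
    (h1 : r ≠ ⊥) (h2 : r ≠ ⊤)
    (hc : ∀ x y, Nat.card {z : Fin n // r x z} = Nat.card {z : Fin n // r y z}) : CF.Ex (stR r) := by
  obtain ⟨x0, y0, h0, hne⟩ := exists_pair h1
  obtain ⟨u, v, huv⟩ := exists_npair h2
  obtain ⟨E, hE⟩ := exists_triv hc x0
  have ha : Nat.card {z : Fin n // r x0 z} < n := by
    rw [hc x0 u, Nat.card_eq_fintype_card]
    conv_rhs => rw [← Fintype.card_fin n]
    exact Fintype.card_subtype_lt (x := v) huv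
  have hq : Nat.card (Quotient r) < n := by
    rw [Nat.card_eq_fintype_card]
    conv_rhs => rw [← Fintype.card_fin n]
    refine Fintype.card_lt_of_surjective_not_injective (Quotient.mk r) Quotient.mk_surjective fun hinj => hne ?_
    exact hinj (Quotient.eq.2 h0)
  apply CF.ex_hom (X03_aux.act r)
  · exact ex_ker (h _ ha) E hE
  · refine ex_ge_alt (ex_alt_congr (h _ hq)) _ ?_
    intro p _
    exact range_top E hE h0 hne p

theorem stR_ne_top {n : ℕ} (hn : 4 ≤ n) {r : Setoid (Fin n)} (h1 : r ≠ ⊥) (h2 : r ≠ ⊤) :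
    stR r ≠ ⊤ := by
  intro htop
  obtain ⟨x, y, hxy, hne⟩ := exists_pair h1
  obtain ⟨z, hxz⟩ : ∃ z, ¬ r x z := by
    obtain ⟨u, v, huv⟩ := exists_npair h2
    by_contra hcon
    push Not at hcon
    exact huv (r.trans (r.symm (hcon u)) (hcon v))
  have hzx : z ≠ x := by
    rintro rfl
    exact hxz (r.refl _)
  have hzy : z ≠ y := by
    rintro rfl
    exact hxz hxy
  obtain ⟨w, hw⟩ : ∃ w, w ∉ ({x, y, z} : Finset (Fin n)) := by
    by_contra hcon
    push Not at hcon
    have h3 : (Finset.univ : Finset (Fin n)).card ≤ ({x, y, z} : Finset (Fin n)).card :=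
      Finset.card_le_card fun w _ => hcon w
    have h4 := Finset.card_le_three (a := x) (b := y) (c := z)
    rw [Finset.card_univ, Fintype.card_fin] at h3
    omega
  simp only [Finset.mem_insert, Finset.mem_singleton, not_or] at hw
  obtain ⟨hwx, hwy, hwz⟩ := hw
  have hs : swap y z * swap z w ∈ alternatingGroup (Fin n) := by
    rw [Perm.mem_alternatingGroup, map_mul, Perm.sign_swap hzy.symm, Perm.sign_swap (Ne.symm hwz)]
    decide
  have hmem : (⟨swap y z * swap z w, hs⟩ : alternatingGroup (Fin n)) ∈ stR r := by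
    rw [htop]
    trivial
  have h3 := (hmem x y).2 hxy
  have h4 : (swap y z * swap z w) x = x := by
    rw [Perm.mul_apply, swap_apply_of_ne_of_ne (Ne.symm hzx) (Ne.symm hwx),
      swap_apply_of_ne_of_ne hne (Ne.symm hzx)]
  have h5 : (swap y z * swap z w) y = z := by
    rw [Perm.mul_apply, swap_apply_of_ne_of_ne (Ne.symm hzy) (Ne.symm hwy), swap_apply_left]
  have h6 : r ((swap y z * swap z w) x) ((swap y z * swap z w) y) := h3
  rw [h4, h5] at h6
  exact hxz h6

end

end AN
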