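import Pool.Agent.AN.X02
import Pool.Agent.AN.X03
import Pool.Agent.CF.E02

/-!
# MP_6c3636_al, AN, module X04: intransitive, imprimitive, primitive (helper7)

`Prim X`: the action of `X` on `Fin n` is primitive. `trichotomy`: if `X` is not transitive take for `s` an orbit. If `X` is transitive and not primitive there is a block `B` which has more than one element and is not everything (`MulAction.IsPreprimitive`, `MulAction.IsTrivialBlock`); `r x y` iff `x` and `y` are in the same translate of `B`; the classes are permuted transitively by `X`, so they have the same number of elements. `top_of_three`: `Equiv.Perm.alternatingGroup_le_of_isPreprimitive_of_isThreeCycle_mem` (Mathlib/GroupTheory/GroupAction/Jordan) for the image of `X` in `Perm (Fin n)`. `three_cycle`: if the supports of `s` and `t` meet in exactly one point then `s * t * s⁻¹ * t⁻¹` is a 3-cycle.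
-/

namespace AN

noncomputable section

open Classical Equiv


/-- the action of `X` on `Fin n` is primitive -/
def Prim {n : ℕ} (X : Subgroup (alternatingGroup (Fin n))) : Prop :=
  MulAction.IsPreprimitive (X.map (alternatingGroup (Fin n)).subtype) (Fin n)

private theorem p_ai {α : Type} (f : Perm α) (x : α) : f (f⁻¹ x) = x := f.apply_symm_apply x

private theorem p_ia {α : Type} (f : Perm α) (x : α) : f⁻¹ (f x) = x := f.symm_apply_apply x

/-- the element of the image -/
private def im {n : ℕ} {X : Subgroup (alternatingGroup (Fin n))} {g : alternatingGroup (Fin n)}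
    (hg : g ∈ X) : X.map (alternatingGroup (Fin n)).subtype := ⟨(g : Perm (Fin n)), ⟨g, hg, rfl⟩⟩

private theorem im_smul {n : ℕ} {X : Subgroup (alternatingGroup (Fin n))}
    {g : alternatingGroup (Fin n)} (hg : g ∈ X) (x : Fin n) : im hg • x = (g : Perm (Fin n)) x := rfl

private theorem ex_im {n : ℕ} {X : Subgroup (alternatingGroup (Fin n))}
    (k : X.map (alternatingGroup (Fin n)).subtype) :
    ∃ (g : alternatingGroup (Fin n)) (hg : g ∈ X), k = im hg := by
  obtain ⟨p, g, hg, rfl⟩ := k
  exact ⟨g, hg, rfl⟩

theorem trichotomy {n : ℕ} (hn : 2 ≤ n) (X : Subgroup (alternatingGroup (Fin n))) :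
    (∃ s : Set (Fin n), s.Nonempty ∧ s ≠ Set.univ ∧ X ≤ stS s) ∨
      (∃ r : Setoid (Fin n), r ≠ ⊥ ∧ r ≠ ⊤ ∧
        (∀ x y, Nat.card {z : Fin n // r x z} = Nat.card {z : Fin n // r y z}) ∧ X ≤ stR r) ∨
      Prim X := by
  by_cases hT : MulAction.IsPretransitive (X.map (alternatingGroup (Fin n)).subtype) (Fin n)
  · right
    by_cases hP : Prim X
    · exact Or.inr hP
    · left
      have hB : ∃ B : Set (Fin n), MulAction.IsBlock (X.map (alternatingGroup (Fin n)).subtype) B ∧
          ¬ MulAction.IsTrivialBlock B := by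
        by_contra hc
        push Not at hc
        exact hP ⟨fun {B} hB => hc B hB⟩
      obtain ⟨B, hB, hB'⟩ := hB
      unfold MulAction.IsTrivialBlock at hB'
      push Not at hB'
      obtain ⟨hB1, hB2⟩ := hB'
      obtain ⟨a, ha, b, hb, hab⟩ := hB1
      obtain ⟨c, hc⟩ := (Set.ne_univ_iff_exists_notMem B).1 hB2
      let r : Setoid (Fin n) :=
        { r := fun x y => ∀ g : X.map (alternatingGroup (Fin n)).subtype, g • x ∈ B ↔ g • y ∈ B
          iseqv := ⟨fun x g => Iff.rfl, fun h g => (h g).symm, fun h h' g => (h g).trans (h' g)⟩ }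
      have hr : ∀ x y, r x y ↔ ∀ g : X.map (alternatingGroup (Fin n)).subtype, g • x ∈ B ↔ g • y ∈ B :=
        fun x y => Iff.rfl
      have hinv : ∀ (k : X.map (alternatingGroup (Fin n)).subtype) (x y : Fin n),
          r (k • x) (k • y) ↔ r x y := by
        intro k x y
        rw [hr, hr]
        constructor
        · intro h g
          have := h (g * k⁻¹)
          rw [← mul_smul, ← mul_smul, inv_mul_cancel_right] at this
          exact this
        · intro h g
          have := h (g * k)
          rw [mul_smul, mul_smul] at this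
          exact this
      refine ⟨r, ?_, ?_, ?_, ?_⟩
      · intro h
        have h1 : r a b := by
          rw [hr]
          intro g
          have key : ∀ x y : Fin n, x ∈ B → y ∈ B → g • x ∈ B → g • y ∈ B := by
            intro x y hx hy hgx
            have h2 := (MulAction.isBlock_iff_smul_eq_of_mem.1 hB) hx hgx
            rw [← h2]
            exact Set.smul_mem_smul_set hy
          exact ⟨key a b ha hb, key b a hb ha⟩
        rw [h] at h1
        exact hab h1
      · intro h
        have h1 : r a c := by
          rw [h]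
          trivial
        rw [hr] at h1
        have h2 := (h1 1).1
        rw [one_smul, one_smul] at h2
        exact hc (h2 ha)
      · intro x y
        obtain ⟨g, hg⟩ := hT.exists_smul_eq x y
        refine Nat.card_congr ((MulAction.toPerm g).subtypeEquiv fun z => ?_)
        rw [MulAction.toPerm_apply, ← hg, hinv]
      · intro g hg x y
        exact hinv (im hg) x y
  · left
    have h1 : ∃ x y : Fin n, ∀ g : X.map (alternatingGroup (Fin n)).subtype, g • x ≠ y := by
      by_contra hc
      push Not at hc
      exact hT ⟨fun x y => hc x y⟩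
    obtain ⟨x, y, hxy⟩ := h1
    refine ⟨MulAction.orbit (X.map (alternatingGroup (Fin n)).subtype) x,
      ⟨x, MulAction.mem_orbit_self x⟩, ?_, ?_⟩
    · intro h
      have h2 : y ∈ MulAction.orbit (X.map (alternatingGroup (Fin n)).subtype) x := by
        rw [h]
        exact Set.mem_univ y
      obtain ⟨g, hg⟩ := h2
      exact hxy g hg
    · intro g hg z
      show im hg • z ∈ MulAction.orbit (X.map (alternatingGroup (Fin n)).subtype) x ↔ _
      constructor
      · intro h3
        have h4 := MulAction.mem_orbit_of_mem_orbit (im hg)⁻¹ h3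
        rw [inv_smul_smul] at h4
        exact h4
      · exact MulAction.mem_orbit_of_mem_orbit (im hg)

theorem Prim.trans {n : ℕ} {X : Subgroup (alternatingGroup (Fin n))} (h : Prim X) (x y : Fin n) :
    ∃ g ∈ X, (g : Perm (Fin n)) x = y := by
  obtain ⟨k, hk⟩ := h.toIsPretransitive.exists_smul_eq x y
  obtain ⟨g, hg, rfl⟩ := ex_im k
  exact ⟨g, hg, hk⟩

theorem Prim.not_stR {n : ℕ} {X : Subgroup (alternatingGroup (Fin n))} (h : Prim X)
    {r : Setoid (Fin n)} (hr : X ≤ stR r) : r = ⊥ ∨ r = ⊤ := by
  by_cases hb : r = ⊥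
  · exact Or.inl hb
  · right
    have h1 : ∃ a b : Fin n, r a b ∧ a ≠ b := by
      by_contra hc
      push Not at hc
      apply hb
      ext a b
      constructor
      · intro hab
        exact hc a b hab
      · intro hab
        have : a = b := hab
        rw [this]
    obtain ⟨a, b, hab, hne⟩ := h1
    have hB : MulAction.IsBlock (X.map (alternatingGroup (Fin n)).subtype) {z | r a z} := by
      rw [MulAction.isBlock_iff_smul_eq_of_mem]
      intro g z hz hgz
      obtain ⟨g, hg, rfl⟩ := ex_im g
      have hz' : r a z := hz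
      have hgz' : r a ((g : Perm (Fin n)) z) := hgz
      have h2 : r ((g : Perm (Fin n)) a) ((g : Perm (Fin n)) z) := (hr hg a z).2 hz'
      have h3 : r a ((g : Perm (Fin n)) a) := r.trans' hgz' (r.symm' h2)
      ext w
      constructor
      · rintro ⟨v, hv, rfl⟩
        have hv' : r a v := hv
        exact r.trans' h3 ((hr hg a v).2 hv')
      · intro hw
        have hw' : r a w := hw
        refine ⟨((g : Perm (Fin n)))⁻¹ w, ?_, ?_⟩
        · show r a ((g : Perm (Fin n))⁻¹ w)
          rw [← hr hg, p_ai]
          exact r.trans' (r.symm' h3) hw'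
        · exact p_ai _ _
    rcases h.isTrivialBlock_of_isBlock hB with h4 | h4
    · exact absurd (h4 (r.refl' a) hab) hne
    · ext x y
      constructor
      · intro _
        trivial
      · intro _
        have hx : x ∈ {z | r a z} := by
          rw [h4]
          trivial
        have hy : y ∈ {z | r a z} := by
          rw [h4]
          trivial
        exact r.trans' (r.symm' hx) hy

theorem top_of_three {n : ℕ} {X : Subgroup (alternatingGroup (Fin n))} (h : Prim X)
    {g : alternatingGroup (Fin n)} (hg : g ∈ X) (h3 : (g : Perm (Fin n)).IsThreeCycle) : X = ⊤ := by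
  have h1 : alternatingGroup (Fin n) ≤ X.map (alternatingGroup (Fin n)).subtype :=
    Equiv.Perm.alternatingGroup_le_of_isPreprimitive_of_isThreeCycle_mem h h3 ⟨g, hg, rfl⟩
  rw [eq_top_iff]
  intro a _
  obtain ⟨x, hx, hxa⟩ := h1 a.2
  have : x = a := Subtype.ext hxa
  rw [← this]
  exact hx

theorem three_cycle {n : ℕ} {s t : Perm (Fin n)} (h : (s.support ∩ t.support).card = 1) :
    (s * t * s⁻¹ * t⁻¹).IsThreeCycle := by
  obtain ⟨a, ha⟩ := Finset.card_eq_one.1 h
  have hmem : ∀ x, s x ≠ x → t x ≠ x → x = a := by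
    intro x h1 h2
    have : x ∈ s.support ∩ t.support :=
      Finset.mem_inter.2 ⟨Perm.mem_support.2 h1, Perm.mem_support.2 h2⟩
    rw [ha, Finset.mem_singleton] at this
    exact this
  have ha' : a ∈ s.support ∩ t.support := by
    rw [ha]
    exact Finset.mem_singleton_self a
  rw [Finset.mem_inter, Perm.mem_support, Perm.mem_support] at ha'
  obtain ⟨hs, ht⟩ := ha'
  have hssa : s (s a) ≠ s a := fun h1 => hs (s.injective h1)
  have htta : t (t a) ≠ t a := fun h1 => ht (t.injective h1)
  have htsa : t (s a) = s a := by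
    by_contra h1
    exact hs (hmem (s a) hssa h1)
  have hsta : s (t a) = t a := by
    by_contra h1
    exact ht (hmem (t a) h1 htta)
  have hne : s a ≠ t a := by
    intro h1
    rw [h1] at htsa
    exact htta htsa
  -- inverses
  have hsi : s (s⁻¹ a) = a := p_ai _ _
  have hti : t (t⁻¹ a) = a := p_ai _ _
  have hsia : t (s⁻¹ a) = s⁻¹ a := by
    by_contra h1
    have h2 := hmem (s⁻¹ a) (by rw [hsi]; intro h2; rw [← h2] at hsi; exact hs hsi) h1
    rw [h2] at hsi
    exact hs hsi
  have htia : s (t⁻¹ a) = t⁻¹ a := by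
    by_contra h1
    have h2 := hmem (t⁻¹ a) h1 (by rw [hti]; intro h2; rw [← h2] at hti; exact ht hti)
    rw [h2] at hti
    exact ht hti
  have key : s * t * s⁻¹ * t⁻¹ = swap a (t a) * swap a (s a) := by
    ext x
    congr 1
    rw [Perm.mul_apply, Perm.mul_apply, Perm.mul_apply, Perm.mul_apply]
    by_cases h1 : x = a
    · rw [h1, swap_apply_left, swap_apply_of_ne_of_ne hs hne]
      have h2 : s⁻¹ (t⁻¹ a) = t⁻¹ a := by rw [Perm.inv_eq_iff_eq, htia]
      rw [h2, hti]
    by_cases h2 : x = s a
    · rw [h2, swap_apply_right, swap_apply_left]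
      have h3 : t⁻¹ (s a) = s a := by rw [Perm.inv_eq_iff_eq, htsa]
      rw [h3, p_ia, hsta]
    by_cases h3 : x = t a
    · rw [h3, p_ia, hsia, hsi, swap_apply_of_ne_of_ne ht (Ne.symm hne),
        swap_apply_right]
    rw [swap_apply_of_ne_of_ne h1 h2, swap_apply_of_ne_of_ne h1 h3]
    by_cases h4 : t x = x
    · have h5 : t⁻¹ x = x := by rw [Perm.inv_eq_iff_eq, h4]
      rw [h5]
      have h6 : t (s⁻¹ x) = s⁻¹ x := by
        by_contra h7
        have h8 : s (s⁻¹ x) ≠ s⁻¹ x := by
          intro h9
          rw [p_ai] at h9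
          rw [← h9] at h7
          exact h7 h4
        have h9 := hmem _ h8 h7
        rw [Perm.inv_eq_iff_eq] at h9
        exact h2 h9
      rw [h6, p_ai]
    · have h5 : s x = x := by
        by_contra h6
        exact h1 (hmem x h6 h4)
      have h6 : s (t⁻¹ x) = t⁻¹ x := by
        by_contra h7
        have h8 : t (t⁻¹ x) ≠ t⁻¹ x := by
          intro h9
          rw [p_ai, eq_comm, Perm.inv_eq_iff_eq] at h9
          exact h4 h9.symm
        have h9 := hmem _ h7 h8
        rw [Perm.inv_eq_iff_eq] at h9
        exact h3 h9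
      have h7 : s⁻¹ (t⁻¹ x) = t⁻¹ x := by rw [Perm.inv_eq_iff_eq, h6]
      rw [h7, p_ai, h5]
  rw [key]
  exact Perm.isThreeCycle_swap_mul_swap_same (Ne.symm ht) (Ne.symm hs) (Ne.symm hne)

/-- the general step of the induction -/
theorem ex_step {n : ℕ} (hn : 5 ≤ n) (h : ∀ m < n, CF.Ex (alternatingGroup (Fin m)))
    (hAB : CF.AB2 (alternatingGroup (Fin n))) (U : Subgroup (alternatingGroup (Fin n)))
    (hU : ∀ u ∈ U, ∃ k : ℕ, u ^ (2 ^ k) = 1)
    (hM : ∀ X : Subgroup (alternatingGroup (Fin n)), X ≠ ⊤ → U ≤ X → Prim X → CF.Ex X) :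
    CF.Ex (alternatingGroup (Fin n)) := by
  refine CF.ex_perf (commutator_alternatingGroup_eq_top (by simpa using hn)) hAB U hU ?_
  intro X hX hUX
  rcases trichotomy (by omega) X with ⟨s, h1, h2, h3⟩ | ⟨r, h1, h2, hc, h3⟩ | h1
  · exact ⟨stS s, h3, stS_ne_top (by omega) h1 h2, ex_stS h h1 h2⟩
  · exact ⟨stR r, h3, stR_ne_top (by omega) h1 h2, ex_stR h h1 h2 hc⟩
  · exact ⟨X, le_rfl, hX, hM X hX hUX h1⟩

end

end AN
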