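import Pool.Agent.AN.X04

/-!
# MP_6c3636_al, AN, module X05: degree at least nine (helper7)

`P i = {2 i, 2 i + 1}`, `i < m = n / 2`, `pr i` the transposition of `P i`. `Un_two`: the `pr i * pr j` commute and have order `2`, so every element of `Un n` has order at most `2` (closure of commuting involutions). `three_of_prim`: assume that `X` contains no 3-cycle. For `g ∈ X`, `i ≠ j`: `S = g (P i ∪ P j)` is the support of `g (pr i pr j) g⁻¹ ∈ X`; for `k ≠ l` the intersection with `P k ∪ P l`, the support of `pr k pr l ∈ X`, does not have exactly one element (`three_cycle`). Put `x k = card (S ∩ P k)`. If `x k = 1` for some `k` then `x l ≥ 1` for all `l ≠ k`, so `4 = card S ≥ m`. CASE `m ≥ 5`: so all `x k` are `0` or `2`; at most one point (the last one, if `n` is odd) is in no `P k`, and `card S = 4` is even, so this point is not in `S`, and `S` is the union of two of the `P k`. For three different `i, j, k`: `g (P i) = g (P i ∪ P j) ∩ g (P i ∪ P k)` is a union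 of some `P l` with two elements, so `g (P i) = P l`. So `X` preserves the partition into the `P i` (and the last point, if `n` is odd): contradiction to `Prim.not_stR`. CASE `m = 4`, so `n = 9`: choose `g ∈ X` with `g 0 = 8`, `i = 0`, `j = 1`: `8 ∈ S`, `∑ k < 4, x k = 3`: if some `x k = 1` then all are `≥ 1`, the sum is `≥ 4`, contradiction; otherwise all `x k` are even, contradiction. `ex_large`: `ex_step`, `top_of_three`.
-/

namespace AN

noncomputable section

open Classical Equiv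


/-- the transposition of `2 i` and `2 i + 1` -/
def pr (n i : ℕ) (h : 2 * i + 1 < n) : Perm (Fin n) := swap ⟨2 * i, by omega⟩ ⟨2 * i + 1, h⟩

/-- the group of the even products of the `pr n i` -/
def Un (n : ℕ) : Subgroup (alternatingGroup (Fin n)) :=
  Subgroup.closure {g | ∃ (i j : ℕ) (hi : 2 * i + 1 < n) (hj : 2 * j + 1 < n), i ≠ j ∧
    (g : Perm (Fin n)) = pr n i hi * pr n j hj}

namespace X05_aux

theorem inv_ap {α : Type} (g : Perm α) (x : α) : g⁻¹ (g x) = x := Equiv.symm_apply_apply g x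

theorem ap_inv {α : Type} (g : Perm α) (x : α) : g (g⁻¹ x) = x := Equiv.apply_symm_apply g x

theorem pr_sq {n i : ℕ} (h : 2 * i + 1 < n) : pr n i h * pr n i h = 1 := by
  unfold pr
  exact swap_mul_self _ _

theorem pr_disj {n i j : ℕ} (hi : 2 * i + 1 < n) (hj : 2 * j + 1 < n) (h : i ≠ j) :
    (pr n i hi).Disjoint (pr n j hj) := by
  intro x
  by_cases hx : x.val / 2 = i
  · right
    unfold pr
    apply swap_apply_of_ne_of_ne
    · intro e
      have := congrArg Fin.val e
      simp only at this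
      omega
    · intro e
      have := congrArg Fin.val e
      simp only at this
      omega
  · left
    unfold pr
    apply swap_apply_of_ne_of_ne
    · intro e
      have := congrArg Fin.val e
      simp only at this
      omega
    · intro e
      have := congrArg Fin.val e
      simp only at this
      omega

theorem pr_comm {n i j : ℕ} (hi : 2 * i + 1 < n) (hj : 2 * j + 1 < n) :
    Commute (pr n i hi) (pr n j hj) := by
  by_cases h : i = j
  · subst h
    exact Commute.refl _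
  · exact (pr_disj hi hj h).commute

theorem supp {n i j : ℕ} (hi : 2 * i + 1 < n) (hj : 2 * j + 1 < n) (h : i ≠ j) (x : Fin n) :
    x ∈ (pr n i hi * pr n j hj).support ↔ (x.val / 2 = i ∨ x.val / 2 = j) := by
  rw [(pr_disj hi hj h).support_mul, Finset.mem_union]
  unfold pr
  rw [Perm.support_swap (by rw [Ne, Fin.ext_iff]; simp only; omega),
    Perm.support_swap (by rw [Ne, Fin.ext_iff]; simp only; omega)]
  simp only [Finset.mem_insert, Finset.mem_singleton, Fin.ext_iff]
  omega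

theorem supp_card {n i j : ℕ} (hi : 2 * i + 1 < n) (hj : 2 * j + 1 < n) (h : i ≠ j) :
    (pr n i hi * pr n j hj).support.card = 4 := by
  rw [(pr_disj hi hj h).card_support_mul]
  unfold pr
  rw [Perm.card_support_swap (by rw [Ne, Fin.ext_iff]; simp only; omega),
    Perm.card_support_swap (by rw [Ne, Fin.ext_iff]; simp only; omega)]

theorem ev {n i j : ℕ} (hi : 2 * i + 1 < n) (hj : 2 * j + 1 < n) :
    pr n i hi * pr n j hj ∈ alternatingGroup (Fin n) := by
  rw [Perm.mem_alternatingGroup, Perm.sign_mul]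
  unfold pr
  rw [Perm.sign_swap (by rw [Ne, Fin.ext_iff]; simp only; omega),
    Perm.sign_swap (by rw [Ne, Fin.ext_iff]; simp only; omega)]
  rfl

/-- the generators -/
def el {n i j : ℕ} (hi : 2 * i + 1 < n) (hj : 2 * j + 1 < n) : alternatingGroup (Fin n) :=
  ⟨pr n i hi * pr n j hj, ev hi hj⟩

theorem el_mem {n i j : ℕ} (hi : 2 * i + 1 < n) (hj : 2 * j + 1 < n) (h : i ≠ j) : el hi hj ∈ Un n :=
  Subgroup.subset_closure ⟨i, j, hi, hj, h, rfl⟩

end X05_aux

open X05_aux

theorem Un_two {n : ℕ} : ∀ u ∈ Un n, ∃ k : ℕ, u ^ (2 ^ k) = 1 := by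
  have hc : ∀ x ∈ {g : alternatingGroup (Fin n) | ∃ (i j : ℕ) (hi : 2 * i + 1 < n) (hj : 2 * j + 1 < n), i ≠ j ∧
      (g : Perm (Fin n)) = pr n i hi * pr n j hj}, ∀ y ∈ {g : alternatingGroup (Fin n) |
      ∃ (i j : ℕ) (hi : 2 * i + 1 < n) (hj : 2 * j + 1 < n), i ≠ j ∧
      (g : Perm (Fin n)) = pr n i hi * pr n j hj}, x * y = y * x := by
    rintro x ⟨i, j, hi, hj, _, hx⟩ y ⟨k, l, hk, hl, _, hy⟩
    apply Subtype.ext
    rw [Subgroup.coe_mul, Subgroup.coe_mul, hx, hy]
    exact (((pr_comm hi hk).mul_left (pr_comm hj hk)).mul_right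
      ((pr_comm hi hl).mul_left (pr_comm hj hl))).eq
  have hcc : ∀ x ∈ Un n, ∀ y ∈ Un n, x * y = y * x := by
    intro x hx y hy
    have h1 := Subgroup.isMulCommutative_closure hc
    have h2 := h1.is_comm.comm (⟨x, hx⟩ : Subgroup.closure _) ⟨y, hy⟩
    exact congrArg Subtype.val h2
  have h2 : ∀ u ∈ Un n, u * u = 1 := by
    intro u hu
    unfold Un at hu
    induction hu using Subgroup.closure_induction with
    | mem x hx =>
      obtain ⟨i, j, hi, hj, _, hx⟩ := hx
      apply Subtype.ext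
      rw [Subgroup.coe_mul, hx, Subgroup.coe_one]
      calc pr n i hi * pr n j hj * (pr n i hi * pr n j hj)
          = pr n i hi * (pr n j hj * pr n i hi) * pr n j hj := by group
        _ = pr n i hi * (pr n i hi * pr n j hj) * pr n j hj := by rw [(pr_comm hi hj).eq]
        _ = (pr n i hi * pr n i hi) * (pr n j hj * pr n j hj) := by group
        _ = 1 := by rw [pr_sq, pr_sq, one_mul]
    | one => rw [one_mul]
    | mul x y hx hy h1 h2 =>
      have h3 := hcc x hx y hy
      calc x * y * (x * y) = x * (y * x) * y := by group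
        _ = x * (x * y) * y := by rw [h3]
        _ = (x * x) * (y * y) := by group
        _ = 1 := by rw [h1, h2, one_mul]
    | inv x hx h1 =>
      rw [← mul_inv_rev, h1, inv_one]
  intro u hu
  refine ⟨1, ?_⟩
  rw [pow_one, pow_two]
  exact h2 u hu

namespace X05_aux

/-- the number of the points of `P k` in the image of `P i` and `P j` -/
def cx {n : ℕ} (γ : Perm (Fin n)) (i j k : ℕ) : ℕ :=
  (Finset.univ.filter (fun z : Fin n => ((γ z).val / 2 = i ∨ (γ z).val / 2 = j) ∧ z.val / 2 = k)).card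

theorem cx_ne {n : ℕ} {X : Subgroup (alternatingGroup (Fin n))} (hU : Un n ≤ X)
    (hno : ∀ g ∈ X, ¬ (g : Perm (Fin n)).IsThreeCycle) {g : alternatingGroup (Fin n)} (hg : g ∈ X)
    {i j k l : ℕ} (hi : 2 * i + 1 < n) (hj : 2 * j + 1 < n) (hk : 2 * k + 1 < n) (hl : 2 * l + 1 < n)
    (hij : i ≠ j) (hkl : k ≠ l) : cx (g : Perm (Fin n))⁻¹ i j k + cx (g : Perm (Fin n))⁻¹ i j l ≠ 1 := by
  intro h1
  have e1 : (((g : Perm (Fin n)) * (pr n i hi * pr n j hj) * (g : Perm (Fin n))⁻¹).support ∩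
      (pr n k hk * pr n l hl).support).card = 1 := by
    rw [← h1]
    unfold cx
    rw [← Finset.card_union_of_disjoint]
    · congr 1
      ext z
      rw [Finset.mem_inter, supp hk hl hkl, Perm.support_conj, Finset.mem_union, Finset.mem_filter,
        Finset.mem_filter, Finset.mem_map_equiv]
      have : (Equiv.symm (g : Perm (Fin n))) z = (g : Perm (Fin n))⁻¹ z := rfl
      rw [this, supp hi hj hij]
      constructor
      · rintro ⟨h2, h3 | h3⟩
        · exact Or.inl ⟨Finset.mem_univ _, h2, h3⟩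
        · exact Or.inr ⟨Finset.mem_univ _, h2, h3⟩
      · rintro (⟨_, h2, h3⟩ | ⟨_, h2, h3⟩)
        · exact ⟨h2, Or.inl h3⟩
        · exact ⟨h2, Or.inr h3⟩
    · rw [Finset.disjoint_left]
      intro z hz hz'
      rw [Finset.mem_filter] at hz hz'
      exact hkl (hz.2.2.symm.trans hz'.2.2)
  have e2 := three_cycle e1
  have ha := hU (el_mem hi hj hij)
  have hb := hU (el_mem hk hl hkl)
  have hs := X.mul_mem (X.mul_mem hg ha) (X.inv_mem hg)
  exact hno _ (X.mul_mem (X.mul_mem (X.mul_mem hs hb) (X.inv_mem hs)) (X.inv_mem hb)) e2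

theorem cx_sum {n : ℕ} (g : Perm (Fin n)) {i j : ℕ} (hi : 2 * i + 1 < n) (hj : 2 * j + 1 < n)
    (hij : i ≠ j) : ∑ k ∈ Finset.range (n / 2 + 1), cx g⁻¹ i j k = 4 := by
  have e1 : (Finset.univ.filter (fun z : Fin n => (g⁻¹ z).val / 2 = i ∨ (g⁻¹ z).val / 2 = j)).card = 4 := by
    rw [← supp_card hi hj hij, show (pr n i hi * pr n j hj).support.card =
      ((pr n i hi * pr n j hj).support.map g.toEmbedding).card from (Finset.card_map _).symm]
    congr 1
    ext z
    rw [Finset.mem_filter, Finset.mem_map_equiv, show (Equiv.symm g) z = g⁻¹ z from rfl, supp hi hj hij]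
    constructor
    · exact fun h => h.2
    · exact fun h => ⟨Finset.mem_univ _, h⟩
  rw [← e1, Finset.card_eq_sum_card_fiberwise (f := fun z : Fin n => z.val / 2)
    (t := Finset.range (n / 2 + 1))]
  · refine Finset.sum_congr rfl fun k _ => ?_
    unfold cx
    rw [Finset.filter_filter]
  · intro z _
    have := z.2
    rw [Finset.coe_range, Set.mem_Iio]
    show z.val / 2 < n / 2 + 1
    omega

theorem cx_last {n : ℕ} (γ : Perm (Fin n)) (i j : ℕ) : cx γ i j (n / 2) ≤ 1 := by
  unfold cx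
  rw [Finset.card_le_one]
  intro a ha b hb
  rw [Finset.mem_filter] at ha hb
  apply Fin.ext
  have h1 := ha.2.2
  have h2 := hb.2.2
  have := a.2
  have := b.2
  omega

theorem cx_le {n : ℕ} (γ : Perm (Fin n)) (i j k : ℕ) : cx γ i j k ≤ 2 := by
  unfold cx
  by_contra h
  push Not at h
  obtain ⟨a, b, c, ha, hb, hc, hab, hac, hbc⟩ := Finset.two_lt_card_iff.1 h
  rw [Finset.mem_filter] at ha hb hc
  have h1 := ha.2.2
  have h2 := hb.2.2
  have h3 := hc.2.2
  rw [Ne, Fin.ext_iff] at hab hac hbc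
  omega

/-- a point of the image -/
theorem cx_pos {n : ℕ} {γ : Perm (Fin n)} {i j : ℕ} {z : Fin n}
    (h : (γ z).val / 2 = i ∨ (γ z).val / 2 = j) : 1 ≤ cx γ i j (z.val / 2) := by
  unfold cx
  rw [Nat.one_le_iff_ne_zero, Finset.card_ne_zero]
  exact ⟨z, by rw [Finset.mem_filter]; exact ⟨Finset.mem_univ _, h, rfl⟩⟩

/-- another point in the same pair -/
theorem cx_other {n : ℕ} {γ : Perm (Fin n)} {i j : ℕ} {z : Fin n}
    (h : (γ z).val / 2 = i ∨ (γ z).val / 2 = j) (h1 : cx γ i j (z.val / 2) ≠ 1) :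
    ∃ z' : Fin n, z' ≠ z ∧ z'.val / 2 = z.val / 2 ∧ ((γ z').val / 2 = i ∨ (γ z').val / 2 = j) := by
  have h2 := cx_pos h
  have h3 : 1 < cx γ i j (z.val / 2) := by omega
  unfold cx at h3
  obtain ⟨z', hz', hne⟩ := Finset.exists_mem_ne h3 z
  rw [Finset.mem_filter] at hz'
  exact ⟨z', hne, hz'.2.2, hz'.2.1⟩

/-- all intersections are empty or everything -/
theorem cx_no_one {n : ℕ} (hn : 9 ≤ n) {X : Subgroup (alternatingGroup (Fin n))} (hU : Un n ≤ X)
    (hno : ∀ g ∈ X, ¬ (g : Perm (Fin n)).IsThreeCycle) {g : alternatingGroup (Fin n)} (hg : g ∈ X)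
    {i j : ℕ} (hi : 2 * i + 1 < n) (hj : 2 * j + 1 < n) (hij : i ≠ j)
    (h5 : 10 ≤ n ∨ 1 ≤ cx (g : Perm (Fin n))⁻¹ i j (n / 2)) {k : ℕ} (hk : 2 * k + 1 < n) :
    cx (g : Perm (Fin n))⁻¹ i j k ≠ 1 := by
  intro h1
  have h2 : ∀ l ∈ Finset.range (n / 2), 1 ≤ cx (g : Perm (Fin n))⁻¹ i j l := by
    intro l hl
    rw [Finset.mem_range] at hl
    by_cases hkl : k = l
    · rw [← hkl, h1]
    · have := cx_ne hU hno hg hi hj hk (l := l) (by omega) hij hkl
      omega
  have h3 := Finset.sum_le_sum h2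
  rw [Finset.sum_const, Finset.card_range, smul_eq_mul, mul_one] at h3
  have h4 := cx_sum (g : Perm (Fin n)) hi hj hij
  rw [Finset.sum_range_succ] at h4
  omega

theorem cx_even {n : ℕ} (hn : 9 ≤ n) {X : Subgroup (alternatingGroup (Fin n))} (hU : Un n ≤ X)
    (hno : ∀ g ∈ X, ¬ (g : Perm (Fin n)).IsThreeCycle) {g : alternatingGroup (Fin n)} (hg : g ∈ X)
    {i j : ℕ} (hi : 2 * i + 1 < n) (hj : 2 * j + 1 < n) (hij : i ≠ j)
    (h5 : 10 ≤ n ∨ 1 ≤ cx (g : Perm (Fin n))⁻¹ i j (n / 2)) :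
    cx (g : Perm (Fin n))⁻¹ i j (n / 2) = 0 := by
  have h4 := cx_sum (g : Perm (Fin n)) hi hj hij
  rw [Finset.sum_range_succ] at h4
  have h6 : 2 ∣ ∑ k ∈ Finset.range (n / 2), cx (g : Perm (Fin n))⁻¹ i j k := by
    apply Finset.dvd_sum
    intro k hk
    rw [Finset.mem_range] at hk
    have h7 := cx_no_one hn hU hno hg hi hj hij h5 (k := k) (by omega)
    have h8 := cx_le (g : Perm (Fin n))⁻¹ i j k
    omega
  have h9 := cx_last (g : Perm (Fin n))⁻¹ i j
  omega

/-- the partition into pairs -/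
def rl (n : ℕ) : Setoid (Fin n) := Setoid.comap (fun x : Fin n => x.val / 2) ⊥

theorem rl_iff {n : ℕ} (x y : Fin n) : rl n x y ↔ x.val / 2 = y.val / 2 := Iff.rfl

theorem pres {n : ℕ} (hn : 10 ≤ n) {X : Subgroup (alternatingGroup (Fin n))} (hU : Un n ≤ X)
    (hno : ∀ g ∈ X, ¬ (g : Perm (Fin n)).IsThreeCycle) {g : alternatingGroup (Fin n)} (hg : g ∈ X)
    {x y : Fin n} (h : x.val / 2 = y.val / 2) :
    ((g : Perm (Fin n)) x).val / 2 = ((g : Perm (Fin n)) y).val / 2 := by
  by_cases hxy : x = y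
  · rw [hxy]
  have hxy' : x.val ≠ y.val := fun e => hxy (Fin.ext e)
  have hx2 := x.2
  have hy2 := y.2
  obtain ⟨i, hi⟩ : ∃ i, i = x.val / 2 := ⟨_, rfl⟩
  have hin : 2 * i + 1 < n := by omega
  obtain ⟨j, k, hj, hk, hij, hik, hjk⟩ : ∃ j k : ℕ, 2 * j + 1 < n ∧ 2 * k + 1 < n ∧ i ≠ j ∧ i ≠ k ∧ j ≠ k := by
    by_cases h0 : i = 0
    · exact ⟨1, 2, by omega, by omega, by omega, by omega, by omega⟩
    · by_cases h1 : i = 1
      · exact ⟨0, 2, by omega, by omega, by omega, by omega, by omega⟩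
      · exact ⟨0, 1, by omega, by omega, by omega, by omega, by omega⟩
  obtain ⟨z, hz⟩ : ∃ z, z = (g : Perm (Fin n)) x := ⟨_, rfl⟩
  have hzx : (g : Perm (Fin n))⁻¹ z = x := by rw [hz]; exact inv_ap _ _
  have key : ∀ j : ℕ, 2 * j + 1 < n → i ≠ j → ∃ z' : Fin n, z' ≠ z ∧ z'.val / 2 = z.val / 2 ∧
      (((g : Perm (Fin n))⁻¹ z').val / 2 = i ∨ ((g : Perm (Fin n))⁻¹ z').val / 2 = j) := by
    intro j hj hij
    have hm : ((g : Perm (Fin n))⁻¹ z).val / 2 = i ∨ ((g : Perm (Fin n))⁻¹ z).val / 2 = j := by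
      left
      rw [hzx, hi]
    apply cx_other hm
    by_cases hl : 2 * (z.val / 2) + 1 < n
    · exact cx_no_one (by omega) hU hno hg hin hj hij (Or.inl hn) hl
    · have e : z.val / 2 = n / 2 := by
        have := z.2
        omega
      rw [e, cx_even (by omega) hU hno hg hin hj hij (Or.inl hn)]
      exact zero_ne_one
  obtain ⟨z1, hz1, hz1', hz1''⟩ := key j hj hij
  obtain ⟨z2, hz2, hz2', hz2''⟩ := key k hk hik
  have e : z1 = z2 := by
    rw [Ne, Fin.ext_iff] at hz1 hz2
    apply Fin.ext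
    omega
  rw [← e] at hz2''
  have h3 : ((g : Perm (Fin n))⁻¹ z1).val / 2 = i := by omega
  have h4 : (g : Perm (Fin n))⁻¹ z1 ≠ x := by
    intro h5
    apply hz1
    rw [hz, ← h5]
    exact (ap_inv _ _).symm
  have h6 : (g : Perm (Fin n))⁻¹ z1 = y := by
    rw [Ne, Fin.ext_iff] at h4
    apply Fin.ext
    omega
  rw [← hz, ← h6, ap_inv]
  exact hz1'.symm

end X05_aux

theorem three_of_prim {n : ℕ} (hn : 9 ≤ n) {X : Subgroup (alternatingGroup (Fin n))} (hU : Un n ≤ X)
    (h : Prim X) : ∃ g ∈ X, (g : Perm (Fin n)).IsThreeCycle := by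
  by_contra hno
  push Not at hno
  by_cases h10 : 10 ≤ n
  · have h1 : X ≤ stR (rl n) := by
      intro g hg x y
      rw [rl_iff, rl_iff]
      constructor
      · intro h2
        have h3 := pres h10 hU hno (X.inv_mem hg) h2
        have e : ∀ x : Fin n, ((g⁻¹ : alternatingGroup (Fin n)) : Perm (Fin n)) ((g : Perm (Fin n)) x) = x := by
          intro x
          rw [Subgroup.coe_inv]
          exact inv_ap _ _
        rw [e, e] at h3
        exact h3
      · exact pres h10 hU hno hg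
    rcases h.not_stR h1 with h2 | h2
    · have h3 : rl n ⟨0, by omega⟩ ⟨1, by omega⟩ := by
        rw [rl_iff]
        show (0 : ℕ) / 2 = 1 / 2
        norm_num
      rw [h2] at h3
      have h4 := congrArg Fin.val (show (⟨0, by omega⟩ : Fin n) = ⟨1, by omega⟩ from h3)
      exact zero_ne_one h4
    · have h3 : rl n ⟨0, by omega⟩ ⟨2, by omega⟩ := by
        rw [h2]
        trivial
      rw [rl_iff] at h3
      simp at h3
  · have h9 : n = 9 := by omega
    subst h9
    obtain ⟨g, hg, hg0⟩ := h.trans (0 : Fin 9) 8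
    have h1 : ((g : Perm (Fin 9))⁻¹ 8).val / 2 = 0 ∨ ((g : Perm (Fin 9))⁻¹ 8).val / 2 = 1 := by
      left
      rw [← hg0, inv_ap]
      rfl
    have h2 : 1 ≤ cx (g : Perm (Fin 9))⁻¹ 0 1 (9 / 2) := cx_pos h1
    have h3 := cx_even le_rfl hU hno hg (i := 0) (j := 1) (by norm_num) (by norm_num) zero_ne_one (Or.inr h2)
    omega

theorem ex_large {n : ℕ} (hn : 9 ≤ n) (h : ∀ m < n, CF.Ex (alternatingGroup (Fin m)))
    (hAB : CF.AB2 (alternatingGroup (Fin n))) : CF.Ex (alternatingGroup (Fin n)) := by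
  refine ex_step (by omega) h hAB (Un n) Un_two fun X hX hU hP => ?_
  obtain ⟨g, hg, h3⟩ := three_of_prim hn hU hP
  exact absurd (top_of_three hP hg h3) hX

end

end AN
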