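import Pool.Agent.AN.X04

/-!
# MP_6c3636_al, AN, module X06: degree five (helper7)

`ex_step` with `U = {1, (0 1)(2 3), (0 2)(1 3), (0 3)(1 2)}`, the subgroup of the even permutations which fix `4` and which preserve ... (for example `U = closure` of these elements, all of order `2`, commuting). Let `X` be primitive, `U ≤ X`; we show `X = ⊤` (so the case `X ≠ ⊤` does not occur). Choose `g ∈ X` with `g⁻¹ 4 ≠ 4` (`Prim.trans`); `u' = g (0 1)(2 3) g⁻¹ ∈ X` moves `4` (as `(0 1)(2 3)` moves the point `g⁻¹ 4`), so `u' = (4 a)(b c)` with `{a, b, c, d} = {0, 1, 2, 3}`; `u = (a d)(b c) ∈ U`; `u' * u = (4 a)(a d)` is a 3-cycle. `top_of_three`.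
-/

namespace AN

namespace X06_aux

open Equiv

abbrev u1 : Perm (Fin 5) := swap 0 1 * swap 2 3

abbrev u2 : Perm (Fin 5) := swap 0 2 * swap 1 3

abbrev u3 : Perm (Fin 5) := swap 0 3 * swap 1 2

theorem dec : ∀ g : Perm (Fin 5), g 0 = 4 → (g * u1 * g⁻¹ * u1).support.card = 3 ∨
    (g * u1 * g⁻¹ * u2).support.card = 3 ∨ (g * u1 * g⁻¹ * u3).support.card = 3 := by
  decide +kernel

/-- the four group -/
def V : Subgroup (Perm (Fin 5)) where
  carrier := {g | g = 1 ∨ g = u1 ∨ g = u2 ∨ g = u3}
  mul_mem' := by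
    rintro a b (rfl | rfl | rfl | rfl) (rfl | rfl | rfl | rfl)
    · exact Or.inl (by decide +kernel)
    · exact Or.inr (Or.inl (by decide +kernel))
    · exact Or.inr (Or.inr (Or.inl (by decide +kernel)))
    · exact Or.inr (Or.inr (Or.inr (by decide +kernel)))
    · exact Or.inr (Or.inl (by decide +kernel))
    · exact Or.inl (by decide +kernel)
    · exact Or.inr (Or.inr (Or.inr (by decide +kernel)))
    · exact Or.inr (Or.inr (Or.inl (by decide +kernel)))
    · exact Or.inr (Or.inr (Or.inl (by decide +kernel)))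
    · exact Or.inr (Or.inr (Or.inr (by decide +kernel)))
    · exact Or.inl (by decide +kernel)
    · exact Or.inr (Or.inl (by decide +kernel))
    · exact Or.inr (Or.inr (Or.inr (by decide +kernel)))
    · exact Or.inr (Or.inr (Or.inl (by decide +kernel)))
    · exact Or.inr (Or.inl (by decide +kernel))
    · exact Or.inl (by decide +kernel)
  one_mem' := Or.inl rfl
  inv_mem' := by
    rintro a (rfl | rfl | rfl | rfl)
    · exact Or.inl (by decide +kernel)
    · exact Or.inr (Or.inl (by decide +kernel))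
    · exact Or.inr (Or.inr (Or.inl (by decide +kernel)))
    · exact Or.inr (Or.inr (Or.inr (by decide +kernel)))

theorem V_two {g : Perm (Fin 5)} (h : g ∈ V) : g ^ 2 = 1 := by
  rcases h with rfl | rfl | rfl | rfl
  · exact one_pow 2
  · decide +kernel
  · decide +kernel
  · decide +kernel

theorem even1 : u1 ∈ alternatingGroup (Fin 5) := by
  rw [Perm.mem_alternatingGroup]
  decide +kernel

theorem even2 : u2 ∈ alternatingGroup (Fin 5) := by
  rw [Perm.mem_alternatingGroup]
  decide +kernel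

theorem even3 : u3 ∈ alternatingGroup (Fin 5) := by
  rw [Perm.mem_alternatingGroup]
  decide +kernel

theorem top_of_V {X : Subgroup (alternatingGroup (Fin 5))}
    (hX : V.comap (alternatingGroup (Fin 5)).subtype ≤ X) (hP : Prim X) : X = ⊤ := by
  obtain ⟨g, hg, hg0⟩ := hP.trans 0 4
  have m1 : (⟨u1, even1⟩ : alternatingGroup (Fin 5)) ∈ X := hX (Or.inr (Or.inl rfl))
  have m2 : (⟨u2, even2⟩ : alternatingGroup (Fin 5)) ∈ X := hX (Or.inr (Or.inr (Or.inl rfl)))
  have m3 : (⟨u3, even3⟩ : alternatingGroup (Fin 5)) ∈ X := hX (Or.inr (Or.inr (Or.inr rfl)))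
  have key : ∀ u : alternatingGroup (Fin 5), u ∈ X →
      ((g : Perm (Fin 5)) * u1 * (g : Perm (Fin 5))⁻¹ * (u : Perm (Fin 5))).support.card = 3 → X = ⊤ := by
    intro u hu h3
    refine top_of_three hP (g := g * ⟨u1, even1⟩ * g⁻¹ * u) ?_ ?_
    · exact X.mul_mem (X.mul_mem (X.mul_mem hg m1) (X.inv_mem hg)) hu
    · rw [← card_support_eq_three_iff]
      exact h3
  rcases dec g hg0 with h | h | h
  · exact key ⟨u1, even1⟩ m1 h
  · exact key ⟨u2, even2⟩ m2 h
  · exact key ⟨u3, even3⟩ m3 h

end X06_aux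

noncomputable section

open Classical Equiv


theorem ex_five (h : ∀ m < 5, CF.Ex (alternatingGroup (Fin m)))
    (hAB : CF.AB2 (alternatingGroup (Fin 5))) : CF.Ex (alternatingGroup (Fin 5)) := by
  refine ex_step le_rfl h hAB (X06_aux.V.comap (alternatingGroup (Fin 5)).subtype) ?_ ?_
  · intro u hu
    refine ⟨1, ?_⟩
    apply Subtype.ext
    have h1 := X06_aux.V_two (Subgroup.mem_comap.1 hu)
    rw [pow_one]
    exact h1
  · intro X hX hU hP
    exact absurd (X06_aux.top_of_V hU hP) hX

end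

end AN
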