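import Pool.Agent.AN.X04

/-!
# MP_6c3636_al, AN, module X07: degree six (helper7)

`U = {1, (0 1)(2 3), (0 2)(1 3), (0 3)(1 2)}`. Let `X` be primitive, `U ≤ X`. We show that `X` contains a 3-cycle (so `X = ⊤` by `top_of_three`). Let `g ∈ X`, `D = g {4, 5}`. `g U g⁻¹ ≤ X` consists of the double transpositions of the four points outside of `D` (and `1`). If `D = {p, i}` with `p ∈ {4, 5}`, `i ∈ {0, 1, 2, 3}`; `q` the other point of `{4, 5}`, `{i, j, k, l} = {0, 1, 2, 3}`: `(j k)(l q) ∈ X` and `(j k)(l i) ∈ U`: the product is a 3-cycle `(l q)(l i)`. Otherwise `{4, 5}` is a block of `X`, a contradiction.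
-/

namespace AN.X07_aux

open Equiv

/-- the three double transpositions of the four points `0, 1, 2, 3` -/
def a : Perm (Fin 6) := swap 0 1 * swap 2 3
def b : Perm (Fin 6) := swap 0 2 * swap 1 3
def c : Perm (Fin 6) := swap 0 3 * swap 1 2

theorem aa : a * a = 1 := by decide
theorem bb : b * b = 1 := by decide
theorem cc : c * c = 1 := by decide
theorem ab : a * b = c := by decide
theorem ba : b * a = c := by decide
theorem ac : a * c = b := by decide
theorem ca : c * a = b := by decide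
theorem bc : b * c = a := by decide
theorem cb : c * b = a := by decide

/-- the condition for four points -/
def good (p q r s : Fin 6) : Bool :=
  decide (swap p q * swap r s = a ∨ swap p q * swap r s = b ∨ swap p q * swap r s = c)

theorem dt_aux : ∀ p q r s : Fin 6, (decide (p < 4) && decide (q < 4) && decide (r < 4) && decide (s < 4) &&
    decide (p ≠ q) && decide (p ≠ r) && decide (p ≠ s) && decide (q ≠ r) && decide (q ≠ s) &&
      decide (r ≠ s)) = true → good p q r s = true := by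
  decide

theorem dt : ∀ p : Fin 6, p < 4 → ∀ q : Fin 6, q < 4 → p ≠ q → ∀ r : Fin 6, r < 4 → p ≠ r → q ≠ r →
    ∀ s : Fin 6, s < 4 → p ≠ s → q ≠ s → r ≠ s →
      (swap p q * swap r s = a ∨ swap p q * swap r s = b ∨ swap p q * swap r s = c) := by
  intro p hp q hq hpq r hr hpr hqr s hs hps hqs hrs
  have h1 := dt_aux p q r s (by simp [hp, hq, hr, hs, hpq, hpr, hps, hqr, hqs, hrs])
  exact of_decide_eq_true h1

theorem rest : ∀ i : Fin 6, i < 4 → ∃ j : Fin 6, j < 4 ∧ i ≠ j ∧ ∃ k : Fin 6, k < 4 ∧ i ≠ k ∧ j ≠ k ∧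
    ∃ l : Fin 6, l < 4 ∧ i ≠ l ∧ j ≠ l ∧ k ≠ l := by
  decide

theorem lt4 : ∀ x : Fin 6, x ≠ 4 → x ≠ 5 → x < 4 := by
  decide

theorem other : ∀ p : Fin 6, (p = 4 ∨ p = 5) → ∃ q : Fin 6, (q = 4 ∨ q = 5) ∧ p ≠ q := by
  decide

theorem ai (g : Perm (Fin 6)) (x : Fin 6) : g (g⁻¹ x) = x := g.apply_symm_apply x

end AN.X07_aux

namespace AN

noncomputable section

open Classical Equiv

/-- the Klein four group -/
private def X07_U : Subgroup (alternatingGroup (Fin 6)) where
  carrier := {g | (g : Perm (Fin 6)) = 1 ∨ (g : Perm (Fin 6)) = X07_aux.a ∨ (g : Perm (Fin 6)) = X07_aux.b ∨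
    (g : Perm (Fin 6)) = X07_aux.c}
  mul_mem' := by
    rintro x y (hx | hx | hx | hx) (hy | hy | hy | hy) <;>
    · change ((x * y : alternatingGroup (Fin 6)) : Perm (Fin 6)) = 1 ∨ ((x * y : alternatingGroup (Fin 6)) : Perm (Fin 6)) = X07_aux.a ∨
        ((x * y : alternatingGroup (Fin 6)) : Perm (Fin 6)) = X07_aux.b ∨ ((x * y : alternatingGroup (Fin 6)) : Perm (Fin 6)) = X07_aux.c
      simp only [Subgroup.coe_mul, hx, hy, one_mul, mul_one, X07_aux.aa, X07_aux.bb, X07_aux.cc,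
        X07_aux.ab, X07_aux.ba, X07_aux.ac, X07_aux.ca, X07_aux.bc, X07_aux.cb, true_or, or_true]
  one_mem' := Or.inl rfl
  inv_mem' := by
    rintro x (hx | hx | hx | hx)
    · refine Or.inl ?_
      rw [Subgroup.coe_inv, hx, inv_one]
    · refine Or.inr (Or.inl ?_)
      rw [Subgroup.coe_inv, hx]
      exact inv_eq_of_mul_eq_one_right X07_aux.aa
    · refine Or.inr (Or.inr (Or.inl ?_))
      rw [Subgroup.coe_inv, hx]
      exact inv_eq_of_mul_eq_one_right X07_aux.bb
    · refine Or.inr (Or.inr (Or.inr ?_))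
      rw [Subgroup.coe_inv, hx]
      exact inv_eq_of_mul_eq_one_right X07_aux.cc

private theorem X07_sq : ∀ u ∈ X07_U, ∃ k : ℕ, u ^ (2 ^ k) = 1 := by
  intro u hu
  refine ⟨1, ?_⟩
  apply Subtype.ext
  rw [pow_one, pow_two, Subgroup.coe_mul, Subgroup.coe_one]
  rcases hu with h | h | h | h
  · rw [h, one_mul]
  · rw [h, X07_aux.aa]
  · rw [h, X07_aux.bb]
  · rw [h, X07_aux.cc]

/-- the elements of the image in the symmetric group -/
private theorem X07_mem {X : Subgroup (alternatingGroup (Fin 6))} (hU : X07_U ≤ X) {p q r s : Fin 6}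
    (hp : p < 4) (hq : q < 4) (hr : r < 4) (hs : s < 4) (hpq : p ≠ q) (hpr : p ≠ r) (hps : p ≠ s)
    (hqr : q ≠ r) (hqs : q ≠ s) (hrs : r ≠ s) :
    swap p q * swap r s ∈ X.map (alternatingGroup (Fin 6)).subtype := by
  have hev : swap p q * swap r s ∈ alternatingGroup (Fin 6) := by
    rw [Equiv.Perm.mem_alternatingGroup, Equiv.Perm.sign_mul, Equiv.Perm.sign_swap hpq, Equiv.Perm.sign_swap hrs]
    norm_num
  refine ⟨⟨_, hev⟩, hU ?_, rfl⟩
  exact Or.inr (X07_aux.dt p hp q hq hpq r hr hpr hqr s hs hps hqs hrs)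

private theorem X07_conj {X : Subgroup (alternatingGroup (Fin 6))} (hU : X07_U ≤ X) {g : Perm (Fin 6)}
    (hg : g ∈ X.map (alternatingGroup (Fin 6)).subtype) {p q r s : Fin 6}
    (hp : p ≠ g 4 ∧ p ≠ g 5) (hq : q ≠ g 4 ∧ q ≠ g 5) (hr : r ≠ g 4 ∧ r ≠ g 5) (hs : s ≠ g 4 ∧ s ≠ g 5)
    (hpq : p ≠ q) (hpr : p ≠ r) (hps : p ≠ s) (hqr : q ≠ r) (hqs : q ≠ s) (hrs : r ≠ s) :
    swap p q * swap r s ∈ X.map (alternatingGroup (Fin 6)).subtype := by
  have hlt : ∀ x : Fin 6, x ≠ g 4 ∧ x ≠ g 5 → g⁻¹ x < 4 := by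
    intro x hx
    apply X07_aux.lt4
    · intro hc
      apply hx.1
      rw [← hc, X07_aux.ai]
    · intro hc
      apply hx.2
      rw [← hc, X07_aux.ai]
  have hne : ∀ x y : Fin 6, x ≠ y → g⁻¹ x ≠ g⁻¹ y := fun x y hxy hc => hxy (g⁻¹.injective hc)
  have h1 := X07_mem hU (hlt p hp) (hlt q hq) (hlt r hr) (hlt s hs) (hne _ _ hpq) (hne _ _ hpr) (hne _ _ hps)
    (hne _ _ hqr) (hne _ _ hqs) (hne _ _ hrs)
  have h2 := Subgroup.mul_mem _ (Subgroup.mul_mem _ hg h1) (Subgroup.inv_mem _ hg)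
  have h3 : g * (swap (g⁻¹ p) (g⁻¹ q) * swap (g⁻¹ r) (g⁻¹ s)) * g⁻¹ = swap p q * swap r s := by
    have h4 := Equiv.swap_apply_apply g (g⁻¹ p) (g⁻¹ q)
    have h5 := Equiv.swap_apply_apply g (g⁻¹ r) (g⁻¹ s)
    rw [X07_aux.ai, X07_aux.ai] at h4 h5
    rw [h4, h5]
    group
  rw [h3] at h2
  exact h2

/-- the main case -/
private theorem X07_three {X : Subgroup (alternatingGroup (Fin 6))} (hU : X07_U ≤ X) {g : Perm (Fin 6)}
    (hg : g ∈ X.map (alternatingGroup (Fin 6)).subtype) {p i : Fin 6} (hp : p = 4 ∨ p = 5) (hi : i < 4)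
    (h : (g 4 = p ∧ g 5 = i) ∨ (g 4 = i ∧ g 5 = p)) :
    ∃ t ∈ X, (t : Perm (Fin 6)).IsThreeCycle := by
  obtain ⟨q, hq, hpq⟩ := X07_aux.other p hp
  obtain ⟨j, hj, hij, k, hk, hik, hjk, l, hl, hil, hjl, hkl⟩ := X07_aux.rest i hi
  have hlt : ∀ x y : Fin 6, x < 4 → (y = 4 ∨ y = 5) → x ≠ y := by
    intro x y hx hy hc
    subst hc
    rcases hy with hy | hy
    · subst hy
      exact absurd hx (by decide)
    · subst hy
      exact absurd hx (by decide)
  have hD : ∀ x : Fin 6, x ≠ p → x ≠ i → x ≠ g 4 ∧ x ≠ g 5 := by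
    intro x h1 h2
    rcases h with ⟨h3, h4⟩ | ⟨h3, h4⟩
    · rw [h3, h4]
      exact ⟨h1, h2⟩
    · rw [h3, h4]
      exact ⟨h2, h1⟩
  have h1 := X07_conj hU hg (hD j (hlt _ _ hj hp) hij.symm) (hD k (hlt _ _ hk hp) hik.symm)
    (hD l (hlt _ _ hl hp) hil.symm) (hD q hpq.symm (hlt _ _ hi hq).symm) hjk hjl (hlt _ _ hj hq) hkl
    (hlt _ _ hk hq) (hlt _ _ hl hq)
  have h2 := X07_mem hU hj hk hl hi hjk hjl hij.symm hkl hik.symm hil.symm
  have h3 := Subgroup.mul_mem _ h1 h2
  have hcomm : Commute (swap j k) (swap l q) :=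
    (Equiv.Perm.disjoint_iff_disjoint_support.2 (by
      rw [Equiv.Perm.support_swap hjk, Equiv.Perm.support_swap (hlt _ _ hl hq)]
      rw [Finset.disjoint_left]
      intro x hx hx'
      rw [Finset.mem_insert, Finset.mem_singleton] at hx hx'
      rcases hx with rfl | rfl <;> rcases hx' with h5 | h5
      · exact hjl h5
      · exact hlt _ _ hj hq h5
      · exact hkl h5
      · exact hlt _ _ hk hq h5)).commute
  have h4 : swap j k * swap l q * (swap j k * swap l i) = swap l q * swap l i := by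
    rw [hcomm.eq, mul_assoc, ← mul_assoc (swap j k) (swap j k), Equiv.swap_mul_self, one_mul]
  rw [h4] at h3
  obtain ⟨t, ht, ht'⟩ := h3
  refine ⟨t, ht, ?_⟩
  have h5 : (t : Perm (Fin 6)) = swap l q * swap l i := ht'
  rw [h5]
  exact Equiv.Perm.isThreeCycle_swap_mul_swap_same (hlt _ _ hl hq) hil.symm (hlt _ _ hi hq).symm

open scoped Pointwise in
private theorem X07_block {X : Subgroup (alternatingGroup (Fin 6))} (hU : X07_U ≤ X) (hX : Prim X) :
    ∃ t ∈ X, (t : Perm (Fin 6)).IsThreeCycle := by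
  by_contra hno
  have hblock : MulAction.IsBlock (X.map (alternatingGroup (Fin 6)).subtype) ({4, 5} : Set (Fin 6)) := by
    rw [MulAction.isBlock_iff_smul_eq_or_disjoint]
    intro g
    have hgs : g • ({4, 5} : Set (Fin 6)) = {(g : Perm (Fin 6)) 4, (g : Perm (Fin 6)) 5} := by
      rw [← Set.image_smul, Set.image_pair]
      rfl
    rw [hgs]
    by_cases h4 : (g : Perm (Fin 6)) 4 = 4 ∨ (g : Perm (Fin 6)) 4 = 5
    · by_cases h5 : (g : Perm (Fin 6)) 5 = 4 ∨ (g : Perm (Fin 6)) 5 = 5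
      · left
        have hne : (g : Perm (Fin 6)) 4 ≠ (g : Perm (Fin 6)) 5 := fun hc =>
          absurd ((g : Perm (Fin 6)).injective hc) (by decide)
        rcases h4 with h4 | h4 <;> rcases h5 with h5 | h5
        · rw [h4, h5] at hne
          exact absurd rfl hne
        · rw [h4, h5]
        · rw [h4, h5, Set.pair_comm]
        · rw [h4, h5] at hne
          exact absurd rfl hne
      · exfalso
        push Not at h5
        exact hno (X07_three hU g.2 h4 (X07_aux.lt4 _ h5.1 h5.2) (Or.inl ⟨rfl, rfl⟩))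
    · by_cases h5 : (g : Perm (Fin 6)) 5 = 4 ∨ (g : Perm (Fin 6)) 5 = 5
      · exfalso
        push Not at h4
        exact hno (X07_three hU g.2 h5 (X07_aux.lt4 _ h4.1 h4.2) (Or.inr ⟨rfl, rfl⟩))
      · right
        push Not at h4 h5
        rw [Set.disjoint_left]
        intro x hx hx'
        simp only [Set.mem_insert_iff, Set.mem_singleton_iff] at hx hx'
        rcases hx with hx | hx <;> rcases hx' with hx' | hx'
        · exact h4.1 (hx.symm.trans hx')
        · exact h4.2 (hx.symm.trans hx')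
        · exact h5.1 (hx.symm.trans hx')
        · exact h5.2 (hx.symm.trans hx')
  have hprim : MulAction.IsPreprimitive (X.map (alternatingGroup (Fin 6)).subtype) (Fin 6) := hX
  rcases hprim.isTrivialBlock_of_isBlock hblock with h | h
  · have := h (show (4 : Fin 6) ∈ ({4, 5} : Set (Fin 6)) by simp) (show (5 : Fin 6) ∈ ({4, 5} : Set (Fin 6)) by simp)
    exact absurd this (by decide)
  · have : (0 : Fin 6) ∈ ({4, 5} : Set (Fin 6)) := by
      rw [h]
      exact Set.mem_univ _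
    simp only [Set.mem_insert_iff, Set.mem_singleton_iff] at this
    rcases this with h | h
    · exact absurd h (by decide)
    · exact absurd h (by decide)

theorem ex_six (h : ∀ m < 6, CF.Ex (alternatingGroup (Fin m)))
    (hAB : CF.AB2 (alternatingGroup (Fin 6))) : CF.Ex (alternatingGroup (Fin 6)) := by
  refine ex_step (by norm_num) h hAB X07_U X07_sq ?_
  intro X hX hU hP
  obtain ⟨t, ht, ht'⟩ := X07_block hU hP
  exact absurd (top_of_three hP ht ht') hX

end

end AN
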