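import Pool.Agent.AN.X01
import Pool.Agent.CF.E02
import Pool.Agent.CF.E03
import Pool.Agent.CF.E04

/-!
# MP_6c3636_al, AN, module X08: groups of order 168 (helper7)

`X` a finite simple group of order `168`. Sylow: the number `n₇` of the Sylow `7`-subgroups divides `24` and is `1` mod `7`, so `1` or `8`, so `8` (simple). Let `Q` be one of them, `B` its normalizer: `B` has order `21`, index `8`; `Q ≤ B` is normal, `B / Q` has order `3`, commutative; `Q` acts on the `8` Sylow `7`-subgroups (the cosets of `B`) with exactly one fixed point (if `Q` normalizes `Q'` then `Q Q'` is a `7`-group), so it is transitive on the other `7`: this is the hypothesis `OddRankOne` of Parker/R03 (see `Parker.main_reduction'`, `Cls`, and the proof of `CF.E03_aux.ex_onSimple` / `ex_small` in CF/E03). `SmallS X`: let `H / N` be a nonabelian simple section of `X`: its order divides `168`. If it is smaller than `168`: if `7` does not divide it, it is solvable (`CF.solv_23`), contradiction; if it is `7 m`, `m ∣ 24`, `m < 24`: the number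 of Sylow `7`-subgroups is `8` only if `8 ∣ m`, so `m = 8` and the order is `56`: then there are `48` elements of order `7` and the other `8` elements are the only Sylow `2`-subgroup, which is normal: contradiction to simplicity. If it is `168` then `N = ⊥`, `H = ⊤` and the section is isomorphic to `X`. `CF.ex_small`.
-/

namespace AN

noncomputable section

open Classical Equiv

namespace X08_aux

variable {G : Type} [Group G] [Finite G] [Fact (Nat.Prime 7)]

theorem card_seven {k : ℕ} (hc : Nat.card G = 7 * k) (hk : ¬ 7 ∣ k) (P : Sylow 7 G) :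
    Nat.card P = 7 := by
  have hk0 : k ≠ 0 := by
    rintro rfl
    exact hk (dvd_zero 7)
  rw [P.card_eq_multiplicity, hc, Nat.factorization_mul (by norm_num) hk0, Finsupp.add_apply,
    Nat.factorization_eq_zero_of_not_dvd hk, Nat.Prime.factorization_self Fact.out]
  norm_num

omit [Fact (Nat.Prime 7)] in
theorem comm_of_card_prime {Q : Type} [Group Q] {p : ℕ} (hp : Nat.Prime p) (h : Nat.card Q = p) (x y : Q) :
    x * y = y * x := by
  have hf : Fact p.Prime := ⟨hp⟩
  have hcy : IsCyclic Q := isCyclic_of_prime_card h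
  obtain ⟨g, hg⟩ := hcy.exists_generator
  obtain ⟨a, rfl⟩ := Subgroup.mem_zpowers_iff.1 (hg x)
  obtain ⟨b, rfl⟩ := Subgroup.mem_zpowers_iff.1 (hg y)
  rw [← zpow_add, ← zpow_add, add_comm]

theorem norm_index {k : ℕ} (hs : IsSimpleGroup G) (hn : ∃ x y : G, x * y ≠ y * x)
    (hc : Nat.card G = 7 * k) (hk : ¬ 7 ∣ k) (P : Sylow 7 G) :
    (Subgroup.normalizer (P : Set G)).index ∣ k ∧ (Subgroup.normalizer (P : Set G)).index % 7 = 1 ∧
      (Subgroup.normalizer (P : Set G)).index ≠ 1 := by
  have h7 := card_seven hc hk P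
  have hi : (P : Subgroup G).index = k := by
    have h1 := (P : Subgroup G).card_mul_index
    rw [hc] at h1
    have h2 : Nat.card (P : Subgroup G) = 7 := h7
    rw [h2] at h1
    omega
  refine ⟨?_, ?_, ?_⟩
  · have h1 := P.card_dvd_index
    rw [P.card_eq_index_normalizer, hi] at h1
    exact h1
  · have h1 := card_sylow_modEq_one 7 G
    rw [P.card_eq_index_normalizer] at h1
    exact h1
  · intro h1
    rw [Subgroup.index_eq_one] at h1
    have hN : (P : Subgroup G).Normal := Subgroup.normalizer_eq_top_iff.1 h1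
    rcases hs.eq_bot_or_eq_top_of_normal (P : Subgroup G) hN with h2 | h2
    · have h3 : Nat.card (P : Subgroup G) = 7 := h7
      rw [h2, Subgroup.card_bot] at h3
      omega
    · have h3 : Nat.card (P : Subgroup G) = 7 := h7
      rw [h2, Subgroup.card_top] at h3
      obtain ⟨x, y, hxy⟩ := hn
      exact hxy (comm_of_card_prime (by norm_num) h3 x y)

theorem cls_168 (hs : IsSimpleGroup G) (hn : ∃ x y : G, x * y ≠ y * x) (hc : Nat.card G = 168) :
    Parker.Cls G := by
  obtain ⟨P⟩ : Nonempty (Sylow 7 G) := inferInstance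
  have hc' : Nat.card G = 7 * 24 := hc
  obtain ⟨h1, h2, h3⟩ := norm_index hs hn hc' (by norm_num) P
  have h7 : Nat.card (P : Subgroup G) = 7 := card_seven hc' (by norm_num) P
  obtain ⟨B, hB⟩ : ∃ B, B = Subgroup.normalizer (P : Set G) := ⟨_, rfl⟩
  rw [← hB] at h1 h2 h3
  have hi : B.index = 8 := by
    have h4 : B.index ≤ 24 := Nat.le_of_dvd (by norm_num) h1
    interval_cases B.index <;> simp_all
  have hcB : Nat.card B = 21 := by
    have h4 := B.card_mul_index
    rw [hi, hc] at h4
    omega
  have hle : (P : Subgroup G) ≤ B := by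
    rw [hB]
    exact Subgroup.le_normalizer
  have hnorm : ∀ b ∈ B, ∀ q ∈ (P : Subgroup G), b * q * b⁻¹ ∈ (P : Subgroup G) := by
    intro b hb q hq
    rw [hB] at hb
    exact (Subgroup.mem_normalizer_iff.1 hb q).1 hq
  have hNn : ((P : Subgroup G).subgroupOf B).Normal := by
    refine ⟨fun q hq b => ?_⟩
    rw [Subgroup.mem_subgroupOf] at hq ⊢
    exact hnorm b.1 b.2 q.1 hq
  have hq3 : Nat.card (B ⧸ (P : Subgroup G).subgroupOf B) = 3 := by
    have h4 := Subgroup.card_eq_card_quotient_mul_card_subgroup ((P : Subgroup G).subgroupOf B)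
    have h5 : Nat.card ((P : Subgroup G).subgroupOf B) = 7 :=
      (Nat.card_congr (Subgroup.subgroupOfEquivOfLe hle).toEquiv).trans h7
    rw [h5, hcB] at h4
    omega
  -- elements of B of order dividing 7 are in P
  have hB7 : ∀ b ∈ B, b ^ 7 = 1 → b ∈ (P : Subgroup G) := by
    intro b hb hb7
    have h4 : ((⟨b, hb⟩ : B) : B ⧸ (P : Subgroup G).subgroupOf B) = 1 := by
      have h5 : ((⟨b, hb⟩ : B) : B ⧸ (P : Subgroup G).subgroupOf B) ^ 7 = 1 := by
        rw [← QuotientGroup.mk_pow]
        have : (⟨b, hb⟩ : B) ^ 7 = 1 := Subtype.ext hb7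
        rw [this, QuotientGroup.mk_one]
      have h6 : ((⟨b, hb⟩ : B) : B ⧸ (P : Subgroup G).subgroupOf B) ^ 3 = 1 := by
        rw [← hq3]
        exact pow_card_eq_one'
      have h7' : ((⟨b, hb⟩ : B) : B ⧸ (P : Subgroup G).subgroupOf B) ^ 7 =
          (((⟨b, hb⟩ : B) : B ⧸ (P : Subgroup G).subgroupOf B) ^ 3) ^ 2 *
            ((⟨b, hb⟩ : B) : B ⧸ (P : Subgroup G).subgroupOf B) := by
        rw [← pow_mul, ← pow_succ]
      rw [h5, h6, one_pow, one_mul] at h7'
      exact h7'.symm
    rw [QuotientGroup.eq_one_iff, Subgroup.mem_subgroupOf] at h4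
    exact h4
  have hP7 : ∀ q ∈ (P : Subgroup G), q ^ 7 = 1 := by
    intro q hq
    have : (⟨q, hq⟩ : (P : Subgroup G)) ^ Nat.card (P : Subgroup G) = 1 := pow_card_eq_one'
    rw [h7] at this
    exact congrArg Subtype.val this
  -- if a nontrivial element of P is conjugated into B by g then g is in B
  have hconj : ∀ g : G, ∀ x ∈ (P : Subgroup G), x ≠ 1 → g⁻¹ * x * g ∈ B → g ∈ B := by
    intro g x hx hx1 hg
    have h4 : g⁻¹ * x * g ∈ (P : Subgroup G) := by
      apply hB7 _ hg
      have h5 : (g⁻¹ * x * g) ^ 7 = g⁻¹ * x ^ 7 * g := by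
        have := conj_pow (a := g⁻¹) (b := x) (i := 7)
        rw [inv_inv] at this
        exact this
      rw [h5, hP7 x hx, mul_one, inv_mul_cancel]
    have hx' : orderOf x = 7 := orderOf_eq_prime (hP7 x hx) hx1
    have h5 : (P : Subgroup G) = Subgroup.zpowers x := by
      symm
      apply Subgroup.eq_of_le_of_card_ge
      · rw [Subgroup.zpowers_le]
        exact hx
      · rw [h7, Nat.card_zpowers, hx']
    have h6 : ∀ y ∈ (P : Subgroup G), g⁻¹ * y * g ∈ (P : Subgroup G) := by
      intro y hy
      rw [h5] at hy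
      obtain ⟨n, rfl⟩ := Subgroup.mem_zpowers_iff.1 hy
      have h7' : g⁻¹ * x ^ n * g = (g⁻¹ * x * g) ^ n := by
        have := conj_zpow (a := g⁻¹) (b := x) (i := n)
        rw [inv_inv] at this
        exact this.symm
      rw [h7']
      exact Subgroup.zpow_mem _ h4 n
    have h8 : g⁻¹ ∈ Subgroup.normalizer ((P : Subgroup G) : Set G) := by
      rw [Subgroup.mem_normalizer_iff]
      intro y
      rw [inv_inv]
      refine ⟨h6 y, fun hy => ?_⟩
      -- the conjugation is a bijection of the finite set P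
      have hinj : Function.Injective (fun z : (P : Subgroup G) =>
          (⟨g⁻¹ * z.1 * g, h6 z.1 z.2⟩ : (P : Subgroup G))) := by
        intro a b hab
        have := congrArg Subtype.val hab
        simpa using this
      obtain ⟨z, hz⟩ := (Finite.injective_iff_surjective.1 hinj) ⟨g⁻¹ * y * g, hy⟩
      have h9 := congrArg Subtype.val hz
      have h10 : (z : G) = y := by simpa using h9
      rw [← h10]
      exact z.2
    have h8' : g⁻¹ ∈ B := by
      rw [hB]
      exact h8
    exact (Subgroup.inv_mem_iff B).1 h8'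
  refine Or.inr (Or.inr (Or.inr (Or.inr (Or.inr (Or.inr ⟨B, P, hle, ?_, hnorm, ?_, ?_, ?_⟩)))))
  · rw [h7]
    decide
  · intro b hb b' hb'
    have h4 := comm_of_card_prime (by norm_num) hq3 ((⟨b, hb⟩ : B) : B ⧸ (P : Subgroup G).subgroupOf B)
      ((⟨b', hb'⟩ : B) : B ⧸ (P : Subgroup G).subgroupOf B)
    have h5 : (((⟨b, hb⟩ : B) * ⟨b', hb'⟩ * (⟨b, hb⟩ : B)⁻¹ * (⟨b', hb'⟩ : B)⁻¹ : B) :
        B ⧸ (P : Subgroup G).subgroupOf B) = 1 := by
      rw [QuotientGroup.mk_mul, QuotientGroup.mk_mul, QuotientGroup.mk_mul, h4, QuotientGroup.mk_inv,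
        QuotientGroup.mk_inv]
      group
    rw [QuotientGroup.eq_one_iff, Subgroup.mem_subgroupOf] at h5
    exact h5
  · rw [hi]
    norm_num
  · intro g h hg hh
    -- the cosets q g B, q in P, are the cosets different from B
    have hinj : Function.Injective (fun q : (P : Subgroup G) =>
        (⟨((q.1 * g : G) : G ⧸ B), by
          intro hcon
          have h4 : ((q.1 * g : G) : G ⧸ B) = ((1 : G) : G ⧸ B) := hcon
          rw [eq_comm, QuotientGroup.eq, inv_one, one_mul] at h4
          apply hg
          have h5 : g = q.1⁻¹ * (q.1 * g) := by group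
          rw [h5]
          exact B.mul_mem (B.inv_mem (hle q.2)) h4⟩ : {c : G ⧸ B // c ≠ ((1 : G) : G ⧸ B)})) := by
      intro a b hab
      have h4 : ((a.1 * g : G) : G ⧸ B) = ((b.1 * g : G) : G ⧸ B) := congrArg Subtype.val hab
      rw [QuotientGroup.eq] at h4
      by_contra hne
      apply hg
      refine hconj g (a.1⁻¹ * b.1) (Subgroup.mul_mem _ (Subgroup.inv_mem _ a.2) b.2) ?_ ?_
      · intro h5
        apply hne
        apply Subtype.ext
        exact (inv_mul_eq_one.1 h5)
      · have h5 : g⁻¹ * (a.1⁻¹ * b.1) * g = (a.1 * g)⁻¹ * (b.1 * g) := by group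
        rw [h5]
        exact h4
    have hcard : Nat.card {c : G ⧸ B // c ≠ ((1 : G) : G ⧸ B)} = 7 := by
      have hft : Fintype (G ⧸ B) := Fintype.ofFinite _
      have h4 : Nat.card (G ⧸ B) = 8 := hi
      rw [Nat.card_eq_fintype_card] at h4
      rw [Nat.card_eq_fintype_card, Fintype.card_subtype_compl, h4, Fintype.card_subtype_eq]
    have hsurj := ((Nat.bijective_iff_injective_and_card _).2 ⟨hinj, by rw [hcard]; exact h7⟩).2
    have hh' : ((h : G) : G ⧸ B) ≠ ((1 : G) : G ⧸ B) := by
      intro hcon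
      rw [eq_comm, QuotientGroup.eq, inv_one, one_mul] at hcon
      exact hh hcon
    obtain ⟨q, hq⟩ := hsurj ⟨_, hh'⟩
    have h4 : ((q.1 * g : G) : G ⧸ B) = ((h : G) : G ⧸ B) := congrArg Subtype.val hq
    rw [QuotientGroup.eq] at h4
    refine ⟨q.1, q.2, _, h4, ?_⟩
    group

theorem not_56 (hs : IsSimpleGroup G) (hn : ∃ x y : G, x * y ≠ y * x) (hc : Nat.card G = 56) : False := by
  obtain ⟨P⟩ : Nonempty (Sylow 7 G) := inferInstance
  have hc' : Nat.card G = 7 * 8 := hc
  obtain ⟨h1, h2, h3⟩ := norm_index hs hn hc' (by norm_num) P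
  have h7 : Nat.card (P : Subgroup G) = 7 := card_seven hc' (by norm_num) P
  have hi : (Subgroup.normalizer (P : Set G)).index = 8 := by
    have h4 : (Subgroup.normalizer (P : Set G)).index ≤ 8 := Nat.le_of_dvd (by norm_num) h1
    interval_cases (Subgroup.normalizer (P : Set G)).index <;> simp_all
  have hcN : Nat.card (Subgroup.normalizer (P : Set G)) = 7 := by
    have h4 := (Subgroup.normalizer (P : Set G)).card_mul_index
    rw [hi, hc] at h4
    omega
  have hNP : (P : Subgroup G) = Subgroup.normalizer (P : Set G) := by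
    refine Subgroup.eq_of_le_of_card_ge Subgroup.le_normalizer (le_of_eq ?_)
    exact hcN.trans h7.symm
  have hP : Subgroup.normalizer (P : Set G) ≤ Subgroup.centralizer (P : Set G) := by
    rw [← hNP]
    intro x hx
    rw [Subgroup.mem_centralizer_iff]
    intro y hy
    have := comm_of_card_prime (by norm_num) h7 ⟨x, hx⟩ ⟨y, hy⟩
    exact (congrArg Subtype.val this).symm
  have hcomp := MonoidHom.ker_transferSylow_isComplement' P hP
  have h4 := hcomp.card_mul_card
  rw [h7, hc] at h4
  have h5 : Nat.card (MonoidHom.transferSylow P hP).ker = 8 := by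
    omega
  rcases hs.eq_bot_or_eq_top_of_normal (MonoidHom.transferSylow P hP).ker inferInstance with h6 | h6
  · rw [h6, Subgroup.card_bot] at h5
    omega
  · rw [h6, Subgroup.card_top] at h5
    omega

/-- the order of a nonabelian simple group whose order divides 168 is 168 -/
theorem card_eq (hs : IsSimpleGroup G) (hn : ∃ x y : G, x * y ≠ y * x) (hc : Nat.card G ∣ 168) :
    Nat.card G = 168 := by
  have hns : ¬ Group.IsSolvable G := by
    intro h
    obtain ⟨x, y, hxy⟩ := hn
    have h1 : commutator G = ⊤ := CF.E03_aux.perfect_simple hs (fun h => hxy (h x y))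
    have h2 : Nontrivial G := hs.toNontrivial
    have h3 := Group.IsSolvable.commutator_lt_top_of_nontrivial G
    rw [h1] at h3
    exact lt_irrefl _ h3
  have h23 : ¬ Nat.card G ∣ 24 := by
    intro h
    have h1 : (24 : ℕ) = 2 ^ 3 * 3 ^ 1 := by norm_num
    rw [h1] at h
    obtain ⟨a, b, ha, hb, hab⟩ := (Nat.dvd_mul).1 h
    obtain ⟨i, hi, rfl⟩ := (Nat.dvd_prime_pow Nat.prime_two).1 ha
    obtain ⟨j, hj, rfl⟩ := (Nat.dvd_prime_pow Nat.prime_three).1 hb
    exact hns (CF.solv_23 hi hab.symm)
  by_cases h7 : 7 ∣ Nat.card G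
  · obtain ⟨k, hk⟩ := h7
    have hk24 : k ∣ 24 := by
      rw [hk] at hc
      exact Nat.dvd_of_mul_dvd_mul_left (by norm_num) hc
    have hk7 : ¬ 7 ∣ k := by
      intro h
      have := h.trans hk24
      revert this
      norm_num
    obtain ⟨P⟩ : Nonempty (Sylow 7 G) := inferInstance
    obtain ⟨h1, h2, h3⟩ := norm_index hs hn hk hk7 P
    have h4 : (Subgroup.normalizer (P : Set G)).index ∣ 24 := h1.trans hk24
    have h8 : (Subgroup.normalizer (P : Set G)).index = 8 := by
      have h5 : (Subgroup.normalizer (P : Set G)).index ≤ 24 := Nat.le_of_dvd (by norm_num) h4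
      clear h1
      interval_cases (Subgroup.normalizer (P : Set G)).index <;> simp_all
    rw [h8] at h1
    have hk2 : k = 8 ∨ k = 24 := by
      have h5 : k ≤ 24 := Nat.le_of_dvd (by norm_num) hk24
      obtain ⟨l, rfl⟩ := h1
      have h6 : l ≤ 3 := by omega
      interval_cases l
      · norm_num at hk24
      · left; rfl
      · norm_num at hk24
      · right; rfl
    rcases hk2 with rfl | rfl
    · exact absurd (not_56 hs hn (by rw [hk])) (by simp)
    · rw [hk]
  · exfalso
    apply h23
    have h1 : Nat.Coprime (Nat.card G) 7 := ((Nat.Prime.coprime_iff_not_dvd (by norm_num)).2 h7).symm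
    have h2 : Nat.card G ∣ 7 * 24 := hc
    exact h1.dvd_of_dvd_mul_left h2

end X08_aux

theorem ex_168 {X : Type} [Group X] [Finite X] (hs : IsSimpleGroup X) (hc : Nat.card X = 168) :
    CF.Ex X := by
  have hf : Fact (Nat.Prime 7) := ⟨by norm_num⟩
  apply CF.ex_small
  intro H N hN hsN hn
  left
  refine X08_aux.cls_168 hsN hn (X08_aux.card_eq hsN hn ?_)
  rw [← hc]
  exact (Subgroup.card_quotient_dvd_card N).trans (Subgroup.card_subgroup_dvd_card H)

end

end AN
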