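import Pool.Agent.AN.X04
import Pool.Agent.AN.X08

/-!
# MP_6c3636_al, AN, module X09: degree seven (helper7)

`U = closure {(0 1)(2 3), (0 2)(1 3), (0 1)(4 5)}` (order `8`, it fixes `6`; all its elements have order dividing `4`). Let `X` be primitive, `U ≤ X`, `X ≠ ⊤`. `card X` divides `2520`, is divisible by `7` (transitive) and by `8`: `card X = 56 k`, `k ∣ 45`. The index `45 / k` is at least `7` (`alternatingGroup (Fin 7)` is simple and acts faithfully on the cosets, `2520 ∣ (45 / k)!`; `5! < 2520`; the index is odd, so it is `1, 3, 5, 9, 15, 45`, and not `1, 3, 5`): `k = 1, 3, 5`. Let `Q` be a Sylow `7`-subgroup of `X`, generated by a 7-cycle; its normalizer in `Perm (Fin 7)` has order `42` (or: the centralizer of a 7-cycle in `Perm (Fin 7)` is generated by it, and the normalizer modulo the centralizer embeds in the automorphism group of `Q`, of order `6`), so the normalizer of `Q` in `X` has an order dividing `42`, and the number `n₇ = 1 mod 7` of the Sylow `7`-subgroups of `X` is `card X / (order of the normalizer)`. It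 divides `8 k`. `k = 5`: `n₇ ∣ 40`, so `n₇ = 1` or `8`, the normalizer has order `280` or `35`, not a divisor of `42`. `k = 1, 3`: `n₇ ∣ 8 k`, `n₇ ≡ 1`: `n₇ = 1` or `8`, and not `1` (order `≥ 56 > 42`). So `n₇ = 8`. `k = 1`: `X` has `48` elements of order `7`, the other `8` elements are the Sylow `2`-subgroup `U`, which is normal; but `U` fixes `6` and `X` is transitive, so `U` fixes everything, contradiction. `k = 3`, `card X = 168`: `X` is simple: let `1 ≠ N` be normal in `X`; `N` is transitive (its orbits are blocks, `7` is prime, or: `MulAction.IsPreprimitive` and a nontrivial normal subgroup), so `7 ∣ card N` and `N` contains all `8` Sylow `7`-subgroups, so `card N` is divisible by `56` (`8` divides it as `n₇(N) = 8 ∣ card N / 7`): `56` or `168`; if `56`: the `8` elements which are not of order `7` form the unique Sylow `2`-subgroup of `N`, so it is normal in `X` and transitive: impossible (`7` does not divide `8`). `ex_168` (X08), `ex_step`.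
-/

namespace AN.X09_aux

open Equiv

/-- the elements of the Sylow subgroup -/
def L8 : List (Perm (Fin 7)) :=
  [1, swap 0 1 * swap 2 3, swap 0 2 * swap 1 3, swap 0 3 * swap 1 2, swap 0 1 * swap 4 5,
    swap 2 3 * swap 4 5, swap 0 1 * swap 4 5 * (swap 0 2 * swap 1 3),
    swap 0 1 * swap 4 5 * (swap 0 3 * swap 1 2)]

theorem L8_one : (1 : Perm (Fin 7)) ∈ L8 := by decide +kernel

theorem L8_mul0 : (L8.all fun a => L8.all fun b => decide (a * b ∈ L8)) = true := by decide +kernel

theorem L8_inv0 : (L8.all fun a => decide (a⁻¹ ∈ L8)) = true := by decide +kernel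

theorem L8_pow0 : (L8.all fun a => decide (a ^ 4 = 1)) = true := by decide +kernel

theorem L8_fix0 : (L8.all fun a => decide (a 6 = 6)) = true := by decide +kernel

theorem L8_sign0 : (L8.all fun a => decide (Perm.sign a = 1)) = true := by decide +kernel

theorem L8_mul : ∀ a ∈ L8, ∀ b ∈ L8, a * b ∈ L8 := fun a ha b hb =>
  of_decide_eq_true (List.all_eq_true.1 (List.all_eq_true.1 L8_mul0 a ha) b hb)

theorem L8_inv : ∀ a ∈ L8, a⁻¹ ∈ L8 := fun a ha => of_decide_eq_true (List.all_eq_true.1 L8_inv0 a ha)

theorem L8_pow : ∀ a ∈ L8, a ^ 4 = 1 := fun a ha => of_decide_eq_true (List.all_eq_true.1 L8_pow0 a ha)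

theorem L8_fix : ∀ a ∈ L8, a 6 = 6 := fun a ha => of_decide_eq_true (List.all_eq_true.1 L8_fix0 a ha)

theorem L8_sign : ∀ a ∈ L8, Perm.sign a = 1 := fun a ha =>
  of_decide_eq_true (List.all_eq_true.1 L8_sign0 a ha)

theorem L8_card : L8.toFinset.card = 8 := by decide +kernel

end AN.X09_aux

namespace AN

noncomputable section

open Classical Equiv

namespace X09_aux

/-- the Sylow subgroup -/
def U8 : Subgroup (alternatingGroup (Fin 7)) where
  carrier := {g | (g : Perm (Fin 7)) ∈ L8}
  mul_mem' := by
    intro a b ha hb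
    exact L8_mul _ ha _ hb
  one_mem' := L8_one
  inv_mem' := by
    intro a ha
    exact L8_inv _ ha

theorem mem_U8 {g : alternatingGroup (Fin 7)} : g ∈ U8 ↔ (g : Perm (Fin 7)) ∈ L8 := Iff.rfl

theorem card_U8 : Nat.card U8 = 8 := by
  rw [← L8_card, ← Nat.card_eq_finsetCard]
  refine Nat.card_congr ⟨fun g => ⟨(g.1 : Perm (Fin 7)), List.mem_toFinset.2 (mem_U8.1 g.2)⟩,
    fun a => ⟨⟨a.1, L8_sign a.1 (List.mem_toFinset.1 a.2)⟩, List.mem_toFinset.1 a.2⟩, ?_, ?_⟩
  · intro g
    rfl
  · intro a
    rfl

/-- the centralizer of an element of order seven -/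
theorem card_cent {g : Perm (Fin 7)} (hg : orderOf g = 7) :
    Nat.card (Subgroup.centralizer ({g} : Set (Perm (Fin 7)))) = 7 := by
  have hc : g.IsCycle := by
    apply Perm.isCycle_of_prime_order''
    · rw [Fintype.card_fin]
      norm_num
    · rw [hg, Fintype.card_fin]
  have ht : g.cycleType = {7} := by
    rw [hc.cycleType, ← hc.orderOf, hg]
  rw [Perm.nat_card_centralizer, ht]
  simp

/-- the normalizer of a subgroup of order seven -/
theorem card_norm {Y : Type} [Group Y] [Finite Y] (f : Y →* Perm (Fin 7)) (hf : Function.Injective f)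
    (P : Subgroup Y) (hP : Nat.card P = 7) :
    Nat.card (Subgroup.normalizer (P : Set Y)) ∣ 42 := by
  have key := Subgroup.card_dvd_of_injective _ (QuotientGroup.kerLift_injective P.normalizerMonoidHom)
  have : Fact (Nat.Prime 7) := ⟨by norm_num⟩
  have hcyc : IsCyclic P := isCyclic_of_prime_card (p := 7) hP
  rw [hcyc.card_mulAut, hP, Nat.totient_prime this.out] at key
  have h1 : Nat.card P.normalizerMonoidHom.ker ∣ 7 := by
    obtain ⟨g, hg⟩ := IsCyclic.exists_generator (α := P)
    have hgo : orderOf g = 7 := by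
      rw [orderOf_eq_card_of_forall_mem_zpowers hg, hP]
    have hfo : orderOf (f g.1) = 7 := by
      rw [orderOf_injective f hf, Subgroup.orderOf_coe, hgo]
    rw [← card_cent hfo]
    have h2 : ∀ x : P.normalizerMonoidHom.ker,
        f (x.1.1) ∈ Subgroup.centralizer ({f g.1} : Set (Perm (Fin 7))) := by
      intro x
      have hx : (x.1 : Y) ∈ Subgroup.centralizer (P : Set Y) := by
        have h0 : x.1 ∈ (Subgroup.centralizer (P : Set Y)).subgroupOf (Subgroup.normalizer (P : Set Y)) := by
          rw [← Subgroup.normalizerMonoidHom_ker]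
          exact x.2
        exact h0
      rw [Subgroup.mem_centralizer_iff] at hx
      rw [Subgroup.mem_centralizer_singleton_iff, ← map_mul, ← map_mul, hx g.1 g.2]
    exact Subgroup.card_dvd_of_injective
      (MonoidHom.codRestrict ((f.comp (Subgroup.subtype _)).comp (Subgroup.subtype _)) _ h2)
      (by
        intro a b hab
        have := Subtype.ext_iff.1 hab
        exact Subtype.ext (Subtype.ext (hf this)))
  have h3 : Nat.card (Subgroup.normalizer (P : Set Y)) =
      Nat.card (_ ⧸ P.normalizerMonoidHom.ker) * Nat.card P.normalizerMonoidHom.ker :=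
    Subgroup.card_eq_card_quotient_mul_card_subgroup _
  rw [h3]
  exact mul_dvd_mul key h1

theorem dvd_2520 {Y : Type} [Group Y] [Finite Y] (f : Y →* Perm (Fin 7)) (hf : Function.Injective f) :
    Nat.card Y ∣ 5040 := by
  have := Subgroup.card_dvd_of_injective f hf
  rw [Nat.card_perm, Nat.card_fin] at this
  exact this

/-- the numbers of the Sylow subgroups of order seven -/
theorem sylow7 {Y : Type} [Group Y] [Finite Y] (f : Y →* Perm (Fin 7)) (hf : Function.Injective f)
    (h7 : 7 ∣ Nat.card Y) :
    (∀ P : Sylow 7 Y, Nat.card P = 7) ∧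
    ∃ N : ℕ, Nat.card Y = N * Nat.card (Sylow 7 Y) ∧ Nat.card (Sylow 7 Y) % 7 = 1 ∧ N ∣ 42 ∧ 7 ∣ N ∧
      ∀ P : Sylow 7 Y, Nat.card (Subgroup.normalizer (P : Set Y)) = N := by
  have : Fact (Nat.Prime 7) := ⟨by norm_num⟩
  have hP : ∀ P : Sylow 7 Y, Nat.card P = 7 := by
    intro P
    have h1 : 7 ∣ Nat.card P := P.dvd_card_of_dvd_card h7
    obtain ⟨k, hk⟩ := IsPGroup.iff_card.mp P.isPGroup'
    have h2 : 7 ^ k ∣ 5040 := by
      rw [← hk]
      exact (Subgroup.card_subgroup_dvd_card _).trans (dvd_2520 f hf)
    have h3 : k < 2 := by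
      by_contra hc
      have h4 : 7 ^ 2 ∣ 5040 := (pow_dvd_pow 7 (not_lt.1 hc)).trans h2
      revert h4
      decide
    have h5 : k ≠ 0 := by
      intro h0
      rw [hk, h0] at h1
      revert h1
      decide
    have h6 : k = 1 := by omega
    rw [hk, h6, pow_one]
  refine ⟨hP, ?_⟩
  obtain ⟨P⟩ : Nonempty (Sylow 7 Y) := inferInstance
  have hN : ∀ Q : Sylow 7 Y, Nat.card (Subgroup.normalizer (Q : Set Y)) * Nat.card (Sylow 7 Y) =
      Nat.card Y := by
    intro Q
    rw [Q.card_eq_index_normalizer]
    exact Subgroup.card_mul_index _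
  have hpos : 0 < Nat.card (Sylow 7 Y) := Nat.card_pos
  refine ⟨Nat.card (Subgroup.normalizer (P : Set Y)), (hN P).symm, ?_, card_norm f hf P.1 (hP P), ?_, ?_⟩
  · exact card_sylow_modEq_one 7 Y
  · have h1 : (P : Subgroup Y) ≤ Subgroup.normalizer (P : Set Y) := Subgroup.le_normalizer
    have h2 := Subgroup.card_dvd_of_le h1
    have h3 : Nat.card (P : Subgroup Y) = 7 := hP P
    rw [h3] at h2
    exact h2
  · intro Q
    apply Nat.eq_of_mul_eq_mul_right hpos
    rw [hN, hN]

/-- a subgroup of order prime to the index of a normal subgroup -/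
theorem le_of_coprime {Y : Type} [Group Y] [Finite Y] (N : Subgroup Y) [N.Normal] (W : Subgroup Y)
    (h : Nat.Coprime (Nat.card W) N.index) : W ≤ N := by
  intro w hw
  rw [← QuotientGroup.eq_one_iff, ← orderOf_eq_one_iff]
  have h1 : orderOf (w : Y ⧸ N) ∣ Nat.card W := by
    refine (orderOf_map_dvd (QuotientGroup.mk' N) w).trans ?_
    have := orderOf_dvd_natCard (⟨w, hw⟩ : W)
    rwa [Subgroup.orderOf_mk] at this
  have h2 : orderOf (w : Y ⧸ N) ∣ N.index := orderOf_dvd_natCard _
  exact Nat.eq_one_of_dvd_coprimes h h1 h2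

/-- order fifty-six is impossible -/
theorem not_56 {Y : Type} [Group Y] [Finite Y] (f : Y →* Perm (Fin 7)) (hf : Function.Injective f)
    (hc : Nat.card Y = 56) (W : Subgroup Y) (hW : Nat.card W = 8) (hfix : ∀ w ∈ W, f w 6 = 6)
    (ht : ∀ x, ∃ y, f y 6 = x) : False := by
  have : Fact (Nat.Prime 7) := ⟨by norm_num⟩
  obtain ⟨hP, N, h1, h2, h3, h4, h5⟩ := sylow7 f hf (by rw [hc]; norm_num)
  rw [hc] at h1
  obtain ⟨P⟩ : Nonempty (Sylow 7 Y) := inferInstance
  have hN7 : N = 7 := by
    have hNd : N ∈ Nat.divisors 42 := Nat.mem_divisors.2 ⟨h3, by norm_num⟩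
    have hd : Nat.divisors 42 = {1, 2, 3, 6, 7, 14, 21, 42} := by decide +kernel
    rw [hd] at hNd
    simp only [Finset.mem_insert, Finset.mem_singleton] at hNd
    rcases hNd with rfl | rfl | rfl | rfl | rfl | rfl | rfl | rfl <;> omega
  have hPn : Subgroup.normalizer (P : Set Y) = (P : Subgroup Y) := by
    symm
    apply Subgroup.eq_of_le_of_card_ge Subgroup.le_normalizer
    have h6 : Nat.card (Subgroup.normalizer ((P : Subgroup Y) : Set Y)) = 7 := (h5 P).trans hN7
    rw [h6]
    exact (hP P).symm.le
  have hcyc : IsCyclic P := isCyclic_of_prime_card (p := 7) (hP P)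
  have hle : Subgroup.normalizer (P : Set Y) ≤ Subgroup.centralizer (P : Set Y) := by
    rw [hPn]
    intro x hx
    rw [Subgroup.mem_centralizer_iff]
    intro y hy
    obtain ⟨g, hg⟩ := IsCyclic.exists_generator (α := P)
    obtain ⟨a, ha⟩ := Subgroup.mem_zpowers_iff.1 (hg ⟨x, hx⟩)
    obtain ⟨b, hb⟩ := Subgroup.mem_zpowers_iff.1 (hg ⟨y, hy⟩)
    have h6 : (⟨y, hy⟩ : P) * ⟨x, hx⟩ = ⟨x, hx⟩ * ⟨y, hy⟩ := by
      rw [← ha, ← hb, ← zpow_add, ← zpow_add, add_comm]
    exact Subtype.ext_iff.1 h6
  have hcomp := MonoidHom.ker_transferSylow_isComplement' P hle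
  obtain ⟨K, hK⟩ : ∃ K, K = (MonoidHom.transferSylow P hle).ker := ⟨_, rfl⟩
  have hKn : K.Normal := by
    rw [hK]
    infer_instance
  rw [← hK] at hcomp
  have hKi : K.index = 7 := by
    rw [hcomp.symm.index_eq_card]
    exact hP P
  have hKc : Nat.card K = 8 := by
    have := K.card_mul_index
    rw [hKi, hc] at this
    omega
  have hWK : W ≤ K := by
    apply le_of_coprime
    rw [hW, hKi]
    decide
  have hWK' : W = K := by
    apply Subgroup.eq_of_le_of_card_ge hWK
    rw [hKc, hW]
  have htriv : ∀ w ∈ W, w = 1 := by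
    intro w hw
    apply hf
    rw [map_one]
    apply Perm.ext
    intro x
    obtain ⟨y, hy⟩ := ht x
    have h6 : y⁻¹ * w * y ∈ W := by
      rw [hWK'] at hw ⊢
      have := hKn.conj_mem w hw y⁻¹
      rwa [inv_inv] at this
    have h7 := hfix _ h6
    rw [map_mul, map_mul, Perm.mul_apply, Perm.mul_apply, hy, map_inv, Perm.inv_eq_iff_eq, hy] at h7
    rw [h7, Perm.one_apply]
  have : Nat.card W = 1 := by
    rw [Subgroup.card_eq_one, Subgroup.eq_bot_iff_forall]
    exact htriv
  omega

theorem index_ge (X : Subgroup (alternatingGroup (Fin 7))) (hX : X ≠ ⊤) : 7 ≤ X.index := by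
  have hs : IsSimpleGroup (alternatingGroup (Fin 7)) := alternatingGroup.isSimpleGroup (by
    rw [Nat.card_fin]
    norm_num)
  have hcard : Nat.card (alternatingGroup (Fin 7)) = 2520 := by
    rw [nat_card_alternatingGroup, Nat.card_fin]
    decide +kernel
  have h1 : X.normalCore = ⊥ := by
    rcases hs.eq_bot_or_eq_top_of_normal X.normalCore inferInstance with h | h
    · exact h
    · exact absurd (top_le_iff.1 (h ▸ X.normalCore_le)) hX
  rw [Subgroup.normalCore_eq_ker, MonoidHom.ker_eq_bot_iff] at h1
  have h2 := Subgroup.card_dvd_of_injective _ h1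
  rw [Nat.card_perm, hcard] at h2
  have h3 : Nat.card (alternatingGroup (Fin 7) ⧸ X) = X.index := rfl
  rw [h3] at h2
  by_contra hlt
  have h4 : X.index < 7 := not_le.1 hlt
  have h5 : 2520 ≤ 720 := by
    refine (Nat.le_of_dvd (Nat.factorial_pos _) h2).trans ?_
    exact Nat.factorial_le (show X.index ≤ 6 by omega)
  omega

end X09_aux

open X09_aux in
theorem ex_seven (h : ∀ m < 7, CF.Ex (alternatingGroup (Fin m)))
    (hAB : CF.AB2 (alternatingGroup (Fin 7))) : CF.Ex (alternatingGroup (Fin 7)) := by
  have hp7 : Fact (Nat.Prime 7) := ⟨by norm_num⟩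
  refine ex_step (by norm_num) h hAB U8 ?_ ?_
  · intro u hu
    refine ⟨2, ?_⟩
    apply Subtype.ext
    exact L8_pow _ (mem_U8.1 hu)
  · intro X hX hUX hprim
    have hcardG : Nat.card (alternatingGroup (Fin 7)) = 2520 := by
      rw [nat_card_alternatingGroup, Nat.card_fin]
      decide +kernel
    obtain ⟨f, hfd⟩ : ∃ f : X →* Perm (Fin 7), f = (alternatingGroup (Fin 7)).subtype.comp X.subtype :=
      ⟨_, rfl⟩
    have hfa : ∀ x : X, f x = (x.1 : Perm (Fin 7)) := by
      intro x
      rw [hfd]
      rfl
    have hfi : Function.Injective f := by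
      rw [hfd]
      exact (Subgroup.subtype_injective _).comp (Subgroup.subtype_injective _)
    have htr : ∀ x, ∃ y : X, f y 6 = x := by
      intro x
      obtain ⟨g, hg, hgx⟩ := hprim.trans 6 x
      exact ⟨⟨g, hg⟩, by rw [hfa]; exact hgx⟩
    have hW : Nat.card (U8.subgroupOf X) = 8 := by
      rw [← card_U8]
      exact Nat.card_congr (Subgroup.subgroupOfEquivOfLe hUX).toEquiv
    have hWf : ∀ w ∈ U8.subgroupOf X, f w 6 = 6 := by
      intro w hw
      rw [hfa]
      exact L8_fix _ hw
    -- transitive groups have order divisible by seven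
    have htd : ∀ (Y : Type) (_ : Group Y) (_ : Finite Y) (g : Y →* Perm (Fin 7)),
        (∀ x, ∃ y, g y 6 = x) → 7 ∣ Nat.card Y := by
      intro Y _ _ g hg
      let _ : MulAction Y (Fin 7) := MulAction.compHom (Fin 7) g
      have h1 : MulAction.orbit Y (6 : Fin 7) = Set.univ := by
        rw [Set.eq_univ_iff_forall]
        intro x
        obtain ⟨y, hy⟩ := hg x
        exact ⟨y, hy⟩
      have h2 := Nat.card_congr (MulAction.orbitEquivQuotientStabilizer Y (6 : Fin 7))
      rw [h1, Nat.card_univ, Nat.card_fin] at h2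
      rw [h2]
      exact (Subgroup.index_dvd_card (MulAction.stabilizer Y (6 : Fin 7)))
    have h7 : 7 ∣ Nat.card X := htd X inferInstance inferInstance f htr
    have h8 : 8 ∣ Nat.card X := by
      rw [← hW]
      exact Subgroup.card_subgroup_dvd_card _
    have hidx := X.card_mul_index
    rw [hcardG] at hidx
    have hi7 := index_ge X hX
    obtain ⟨hP, N, h1, h2, h3, h4, h5⟩ := sylow7 f hfi h7
    have hNd : N = 7 ∨ N = 14 ∨ N = 21 ∨ N = 42 := by
      have hNd : N ∈ Nat.divisors 42 := Nat.mem_divisors.2 ⟨h3, by norm_num⟩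
      have hd : Nat.divisors 42 = {1, 2, 3, 6, 7, 14, 21, 42} := by decide +kernel
      rw [hd] at hNd
      simp only [Finset.mem_insert, Finset.mem_singleton] at hNd
      rcases hNd with rfl | rfl | rfl | rfl | rfl | rfl | rfl | rfl <;> omega
    have hc : Nat.card X = 56 ∨ Nat.card X = 168 := by
      obtain ⟨k, hk⟩ : 56 ∣ Nat.card X := by
        have := Nat.Coprime.mul_dvd_of_dvd_of_dvd (show Nat.Coprime 7 8 by decide) h7 h8
        exact this
      have h45 : k * X.index = 45 := by
        rw [hk] at hidx
        have : 56 * (k * X.index) = 56 * 45 := by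
          rw [← mul_assoc, hidx]
        omega
      have hkd : k ∈ Nat.divisors 45 := Nat.mem_divisors.2 ⟨⟨_, h45.symm⟩, by norm_num⟩
      have hd : Nat.divisors 45 = {1, 3, 5, 9, 15, 45} := by decide +kernel
      rw [hd] at hkd
      simp only [Finset.mem_insert, Finset.mem_singleton] at hkd
      rcases hkd with rfl | rfl | rfl | rfl | rfl | rfl
      · left
        exact hk
      · right
        exact hk
      · exfalso
        rw [hk] at h1
        rcases hNd with rfl | rfl | rfl | rfl <;> omega
      · omega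
      · omega
      · omega
    rcases hc with hc | hc
    · exact absurd (not_56 f hfi hc _ hW hWf htr) id
    · refine ex_168 ?_ hc
      have hN21 : N = 21 := by
        rw [hc] at h1
        rcases hNd with rfl | rfl | rfl | rfl <;> omega
      have hnt : Nontrivial X := by
        rw [← Finite.one_lt_card_iff_nontrivial, hc]
        norm_num
      refine ⟨?_⟩
      intro M hMn
      by_cases hM : M = ⊥
      · left
        exact hM
      right
      -- transitive
      have hMt : ∀ x, ∃ y : M, (f.comp M.subtype) y 6 = x := by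
        obtain ⟨r, hr⟩ : ∃ r : Setoid (Fin 7), ∀ x y, r x y ↔ ∃ m ∈ M, f m x = y := by
          refine ⟨⟨fun x y => ∃ m ∈ M, f m x = y, ?_, ?_, ?_⟩, fun x y => Iff.rfl⟩
          · intro x
            exact ⟨1, M.one_mem, by rw [map_one, Perm.one_apply]⟩
          · rintro x y ⟨m, hm, rfl⟩
            exact ⟨m⁻¹, M.inv_mem hm, by rw [map_inv]; exact Equiv.symm_apply_apply _ _⟩
          · rintro x y z ⟨m, hm, rfl⟩ ⟨m', hm', rfl⟩
            exact ⟨m' * m, M.mul_mem hm' hm, by rw [map_mul, Perm.mul_apply]⟩
        have hXr : X ≤ stR r := by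
          have key : ∀ g ∈ X, ∀ x y, r x y → r ((g : Perm (Fin 7)) x) ((g : Perm (Fin 7)) y) := by
            intro g hg x y hxy
            rw [hr] at hxy ⊢
            obtain ⟨m, hm, hmx⟩ := hxy
            refine ⟨⟨g, hg⟩ * m * ⟨g, hg⟩⁻¹, hMn.conj_mem m hm _, ?_⟩
            rw [map_mul, map_mul, map_inv, hfa ⟨g, hg⟩, Perm.mul_apply, Perm.mul_apply]
            have h6 : ((g : Perm (Fin 7))⁻¹) ((g : Perm (Fin 7)) x) = x := Equiv.symm_apply_apply _ _
            rw [h6, hmx]
          intro g hg x y
          constructor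
          · intro hxy
            have := key g⁻¹ (X.inv_mem hg) _ _ hxy
            simpa using this
          · exact key g hg x y
        rcases hprim.not_stR hXr with hb | ht
        · exfalso
          apply hM
          rw [Subgroup.eq_bot_iff_forall]
          intro m hm
          apply hfi
          rw [map_one]
          apply Perm.ext
          intro x
          have h6 : r x (f m x) := (hr _ _).2 ⟨m, hm, rfl⟩
          rw [hb] at h6
          exact h6.symm
        · intro x
          have h6 : r 6 x := by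
            rw [ht]
            trivial
          obtain ⟨m, hm, hmx⟩ := (hr _ _).1 h6
          exact ⟨⟨m, hm⟩, hmx⟩
      have hMi : Function.Injective (f.comp M.subtype) :=
        hfi.comp (Subgroup.subtype_injective _)
      have hM7 : 7 ∣ Nat.card M := htd M inferInstance inferInstance _ hMt
      have hMd : Nat.card M ∣ 168 := by
        rw [← hc]
        exact Subgroup.card_subgroup_dvd_card _
      obtain ⟨hP', N', h1', h2', h3', h4', h5'⟩ := sylow7 (f.comp M.subtype) hMi hM7
      -- the number is not one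
      have hn1 : Nat.card (Sylow 7 M) ≠ 1 := by
        intro hone
        have hsub : Subsingleton (Sylow 7 M) := (Nat.card_eq_one_iff_unique.1 hone).1
        obtain ⟨Q⟩ : Nonempty (Sylow 7 M) := inferInstance
        have hQn : (Q : Subgroup M).Normal := Q.normal_of_subsingleton
        have hQc : (Q : Subgroup M).Characteristic := Q.characteristic_of_normal hQn
        have hmn : ((Q : Subgroup M).map M.subtype).Normal := ConjAct.normal_of_characteristic_of_normal
        have hmc : Nat.card ((Q : Subgroup M).map M.subtype) = 7 := by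
          rw [Nat.card_congr ((Q : Subgroup M).equivMapOfInjective M.subtype
            (Subgroup.subtype_injective _)).symm.toEquiv]
          exact hP' Q
        have h6 := card_norm f hfi _ hmc
        rw [Subgroup.normalizer_eq_top_iff.2 hmn, Subgroup.card_top, hc] at h6
        revert h6
        decide
      have hn8 : Nat.card (Sylow 7 M) = 8 := by
        have h6 : Nat.card (Sylow 7 M) ∣ 24 := by
          obtain ⟨a, ha⟩ := h4'
          obtain ⟨b, hb⟩ := hMd
          rw [h1', ha] at hb
          refine ⟨a * b, ?_⟩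
          have : 7 * 24 = 7 * (Nat.card (Sylow 7 M) * (a * b)) := by
            rw [show 7 * 24 = 168 from rfl, hb]
            ring
          omega
        have hd : Nat.divisors 24 = {1, 2, 3, 4, 6, 8, 12, 24} := by decide +kernel
        have h7 : Nat.card (Sylow 7 M) ∈ Nat.divisors 24 := Nat.mem_divisors.2 ⟨h6, by norm_num⟩
        rw [hd] at h7
        simp only [Finset.mem_insert, Finset.mem_singleton] at h7
        omega
      have hN'd : N' = 7 ∨ N' = 14 ∨ N' = 21 ∨ N' = 42 := by
        have hNd : N' ∈ Nat.divisors 42 := Nat.mem_divisors.2 ⟨h3', by norm_num⟩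
        have hd : Nat.divisors 42 = {1, 2, 3, 6, 7, 14, 21, 42} := by decide +kernel
        rw [hd] at hNd
        simp only [Finset.mem_insert, Finset.mem_singleton] at hNd
        rcases hNd with rfl | rfl | rfl | rfl | rfl | rfl | rfl | rfl <;> omega
      rw [hn8] at h1'
      have hMc : Nat.card M = 56 ∨ Nat.card M = 168 := by
        rw [h1'] at hMd ⊢
        rcases hN'd with rfl | rfl | rfl | rfl
        · left; rfl
        · exfalso; revert hMd; decide
        · right; rfl
        · exfalso; revert hMd; decide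
      rcases hMc with hMc | hMc
      · exfalso
        have hMx : M.index = 3 := by
          have := M.card_mul_index
          rw [hMc, hc] at this
          omega
        have hWM : U8.subgroupOf X ≤ M := by
          apply le_of_coprime
          rw [hW, hMx]
          decide
        refine not_56 (f.comp M.subtype) hMi hMc ((U8.subgroupOf X).subgroupOf M) ?_ ?_ hMt
        · rw [← hW]
          exact Nat.card_congr (Subgroup.subgroupOfEquivOfLe hWM).toEquiv
        · intro w hw
          exact hWf _ hw
      · apply Subgroup.eq_top_of_card_eq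
        rw [hMc, hc]

end

end AN
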