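import Pool.Agent.AN.Defs
import Pool.Agent.CF.T06
import Pool.Agent.CF.E01

/-!
# MP_6c3636_al, AN, module X10: degree eight (helper7)

`F = ZMod 2`. `GL (Fin 4) F` acts on the alternating `4 × 4` matrices over `F` by `B ↦ g * B * gᵀ`, a linear action on a space with `64` elements. Choose seven alternating matrices `w 1, ..., w 7` of rank `4` (Pfaffian `b01 b23 + b02 b13 + b03 b12 = 1`) with `w i + w j` of rank `4` for `i ≠ j` and `w 1 + ... + w 7 = 0` (they correspond to the sets `{0, j}` if the space of the alternating matrices is identified with the even subsets of `{0, .., 7}` modulo complement, find them by a small search), `w 0 = 0`, and for `i : Fin 8` put `C i = {w i + w j | j ≠ i}`, a set of seven matrices. Every transvection `1 + E_ij` permutes the eight sets `C i` (check by `decide`), so every `g` does (the transvections generate `GL (Fin 4) F`: `Matrix.Pivot`, there are no other diagonal matrices), which gives a homomorphism `φ : GL (Fin 4) F →* Perm (Fin 8)`. It is injective: if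 `φ g = 1` then `g` fixes the unique element `w i + w j` of `C i ∩ C j`, `i ≠ j`; these span the alternating matrices, so `g * B * gᵀ = B` for all alternating `B`, so `g = 1` (look at `B = E_ij + E_ji`: `g` maps every plane spanned by two basis vectors to itself, and so on; or count / `decide` on a suitable form). `Nat.card (GL (Fin 4) F) = 20160` (`Matrix.card_GL_field`), so the range has index `2` in `Perm (Fin 8)` and is `alternatingGroup (Fin 8)` (`alternatingGroup.eq_alternatingGroup_of_index_eq_two` or similar in Mathlib/GroupTheory/SpecificGroups/Alternating). `ex_eight`: `CF.ex_lin` (CF/T06) for `H = ⊤` gives `Ex (⊤ : Subgroup (GL (Fin 4) F))`, then `CF.ex_congr`.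
-/

namespace AN

noncomputable section

open Classical Equiv


namespace X10_aux

abbrev M4 : Type := Matrix (Fin 4) (Fin 4) (ZMod 2)

/-- the code of the matrices -/
def wn : Fin 8 → ℕ := ![0, 12, 22, 27, 39, 41, 53, 58]

/-- the number of the position -/
def ix : Fin 4 → Fin 4 → ℕ := ![![6, 0, 1, 2], ![0, 6, 3, 4], ![1, 3, 6, 5], ![2, 4, 5, 6]]

/-- eight alternating matrices -/
def w (a : Fin 8) : M4 := fun i j => if (wn a).testBit (ix i j) then 1 else 0

/-- the permutation of the transvection -/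
def pt : Fin 4 → Fin 4 → Fin 8 → Fin 8 :=
  ![![![0, 1, 2, 3, 4, 5, 6, 7], ![4, 5, 6, 7, 0, 1, 2, 3], ![2, 3, 0, 1, 6, 7, 4, 5], ![1, 0, 3, 2, 5, 4, 7, 6]],
    ![![5, 6, 4, 7, 2, 0, 1, 3], ![0, 1, 2, 3, 4, 5, 6, 7], ![1, 0, 3, 2, 7, 6, 5, 4], ![3, 2, 1, 0, 6, 7, 4, 5]],
    ![![7, 2, 1, 5, 6, 3, 4, 0], ![1, 0, 7, 6, 5, 4, 3, 2], ![0, 1, 2, 3, 4, 5, 6, 7], ![5, 4, 6, 7, 1, 0, 2, 3]],
    ![![1, 0, 7, 4, 3, 6, 5, 2], ![2, 7, 0, 5, 6, 3, 4, 1], ![6, 5, 4, 7, 2, 1, 0, 3], ![0, 1, 2, 3, 4, 5, 6, 7]]]

theorem pt_inv : ∀ i j : Fin 4, ∀ a : Fin 8, pt i j (pt i j a) = a := by decide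

/-- the same as a permutation -/
def pp (i j : Fin 4) : Perm (Fin 8) := ⟨pt i j, pt i j, pt_inv i j, pt_inv i j⟩

/-- the effect of the transvection on an entry -/
def ef (B : M4) (i j x y : Fin 4) : ZMod 2 :=
  B x y + (if x = i then B j y else 0) + ((if y = i then B x j else 0) + (if x = i ∧ y = i then B j j else 0))

theorem ef_w : ∀ i j : Fin 4, i ≠ j → ∀ a : Fin 8, ∀ x y : Fin 4,
    ef (w a) i j x y = w (pt i j a) x y + w (pt i j 0) x y := by decide +kernel

theorem w_pair : ∀ a b c d : Fin 8, a ≠ b → (∀ x y : Fin 4, w a x y + w b x y = w c x y + w d x y) →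
    (a = c ∧ b = d) ∨ (a = d ∧ b = c) := by decide +kernel

theorem w_zero : w 0 = 0 := by
  ext x y
  show (if (0 : ℕ).testBit (ix x y) = true then (1 : ZMod 2) else 0) = 0
  rw [Nat.zero_testBit, if_neg Bool.false_ne_true]

/-- `π` describes the action of `g` -/
def Rl (g : M4) (π : Perm (Fin 8)) : Prop := ∀ a, g * w a * g.transpose = w (π a) + w (π 0)

theorem add_self (B : M4) : B + B = 0 := by
  ext i j
  exact CharTwo.add_self_eq_zero _

theorem Rl_pair {g : M4} {π : Perm (Fin 8)} (h : Rl g π) (a b : Fin 8) :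
    g * (w a + w b) * g.transpose = w (π a) + w (π b) := by
  rw [Matrix.mul_add, Matrix.add_mul, h a, h b]
  have := add_self (w (π 0))
  calc w (π a) + w (π 0) + (w (π b) + w (π 0)) = w (π a) + w (π b) + (w (π 0) + w (π 0)) := by abel
    _ = w (π a) + w (π b) := by rw [this, add_zero]

theorem Rl_unique {g : M4} {π π' : Perm (Fin 8)} (h : Rl g π) (h' : Rl g π') : π = π' := by
  have key : ∀ a b, a ≠ b → (π a = π' a ∧ π b = π' b) ∨ (π a = π' b ∧ π b = π' a) := by
    intro a b hab
    apply w_pair (π a) (π b) (π' a) (π' b) (fun h => hab (π.injective h))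
    have h1 : w (π a) + w (π b) = w (π' a) + w (π' b) := by rw [← Rl_pair h, ← Rl_pair h']
    intro x y
    have h2 := congrFun (congrFun h1 x) y
    exact h2
  apply Equiv.ext
  intro a
  obtain ⟨b, c, hb, hc, hbc⟩ : ∃ b c : Fin 8, a ≠ b ∧ a ≠ c ∧ b ≠ c := by
    revert a
    decide
  rcases key a b hb with h1 | h1
  · exact h1.1
  · rcases key a c hc with h2 | h2
    · exact h2.1
    · exact absurd (π'.injective (h1.1.symm.trans h2.1)) hbc

theorem Rl_one : Rl 1 1 := by
  intro a
  have h0 := w_zero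
  rw [Matrix.one_mul, Matrix.transpose_one, Matrix.mul_one, Perm.one_apply, Perm.one_apply, h0, add_zero]

theorem Rl_mul {g h : M4} {π τ : Perm (Fin 8)} (hg : Rl g π) (hh : Rl h τ) : Rl (g * h) (π * τ) := by
  intro a
  rw [Matrix.transpose_mul, Perm.mul_apply, Perm.mul_apply, ← Rl_pair hg (τ a) (τ 0), ← hh a]
  simp only [Matrix.mul_assoc]

theorem Rl_tv {i j : Fin 4} (hij : i ≠ j) : Rl (Matrix.transvection i j (1 : ZMod 2)) (pp i j) := by
  intro a
  have hT : (Matrix.transvection i j (1 : ZMod 2)).transpose = Matrix.transvection j i (1 : ZMod 2) := by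
    rw [Matrix.transvection, Matrix.transvection, Matrix.transpose_add, Matrix.transpose_one,
      Matrix.transpose_single]
  have h1 : ∀ (B : M4) (x y : Fin 4), (Matrix.transvection i j (1 : ZMod 2) * B) x y =
      B x y + (if x = i then B j y else 0) := by
    intro B x y
    by_cases hx : x = i
    · rw [if_pos hx, hx, Matrix.transvection_mul_apply_same, one_mul]
    · rw [if_neg hx, Matrix.transvection_mul_apply_of_ne _ _ _ _ hx, add_zero]
  have h2 : ∀ (B : M4) (x y : Fin 4), (B * Matrix.transvection j i (1 : ZMod 2)) x y =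
      B x y + (if y = i then B x j else 0) := by
    intro B x y
    by_cases hy : y = i
    · rw [if_pos hy, hy, Matrix.mul_transvection_apply_same, one_mul]
    · rw [if_neg hy, Matrix.mul_transvection_apply_of_ne _ _ _ _ hy, add_zero]
  ext x y
  rw [hT, h2, h1, h1]
  have h3 := ef_w i j hij a x y
  show _ = w (pt i j a) x y + w (pt i j 0) x y
  rw [← h3, ef]
  by_cases hx : x = i
  · by_cases hy : y = i
    · simp only [if_pos hx, if_pos hy, if_pos (And.intro hx hy)]
    · simp only [if_pos hx, if_neg hy, if_neg (fun h : x = i ∧ y = i => hy h.2), add_zero]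
  · by_cases hy : y = i
    · simp only [if_neg hx, if_pos hy, if_neg (fun h : x = i ∧ y = i => hx h.1), add_zero]
    · simp only [if_neg hx, if_neg hy, if_neg (fun h : x = i ∧ y = i => hx h.1), add_zero]

theorem Rl_exists {g : M4} (hg : g.det ≠ 0) : ∃ π, Rl g π := by
  refine Matrix.diagonal_transvection_induction_of_det_ne_zero (fun g => ∃ π, Rl g π) g hg ?_ ?_ ?_
  · intro D hD
    have h1 : D = 1 := by
      funext i
      have h2 : D i ≠ 0 := by
        intro h
        apply hD
        rw [Matrix.det_diagonal]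
        exact Finset.prod_eq_zero (Finset.mem_univ i) h
      have h3 : ∀ x : ZMod 2, x ≠ 0 → x = 1 := by decide
      exact h3 _ h2
    rw [h1]
    have h2 : (Matrix.diagonal (1 : Fin 4 → ZMod 2)) = 1 := Matrix.diagonal_one
    exact ⟨1, by rw [h2]; exact Rl_one⟩
  · intro t
    have h3 : ∀ x : ZMod 2, x = 0 ∨ x = 1 := by decide
    rcases h3 t.c with h | h
    · refine ⟨1, ?_⟩
      have : t.toMatrix = 1 := by
        rw [Matrix.TransvectionStruct.toMatrix, h, Matrix.transvection_zero]
      rw [this]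
      exact Rl_one
    · refine ⟨pp t.i t.j, ?_⟩
      have : t.toMatrix = Matrix.transvection t.i t.j 1 := by
        rw [Matrix.TransvectionStruct.toMatrix, h]
      rw [this]
      exact Rl_tv t.hij
  · rintro A B _ _ ⟨π, hπ⟩ ⟨τ, hτ⟩
    exact ⟨π * τ, Rl_mul hπ hτ⟩

theorem det_ne (g : GL (Fin 4) (ZMod 2)) : (g : M4).det ≠ 0 := by
  have := Matrix.isUnits_det_units g
  exact this.ne_zero

/-- the homomorphism -/
def φ : GL (Fin 4) (ZMod 2) →* Perm (Fin 8) where
  toFun g := (Rl_exists (det_ne g)).choose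
  map_one' := Rl_unique (Rl_exists (det_ne 1)).choose_spec (by rw [Units.val_one]; exact Rl_one)
  map_mul' g h := Rl_unique (Rl_exists (det_ne (g * h))).choose_spec (by
    rw [Units.val_mul]
    exact Rl_mul (Rl_exists (det_ne g)).choose_spec (Rl_exists (det_ne h)).choose_spec)

theorem φ_spec (g : GL (Fin 4) (ZMod 2)) : Rl (g : M4) (φ g) := (Rl_exists (det_ne g)).choose_spec

/-- the basis of the alternating matrices as sums of the `w a` -/
def sb : Fin 4 → Fin 4 → Finset (Fin 8) :=
  ![![∅, {1, 2, 3}, {1, 4, 5}, {2, 4, 6}], ![{1, 2, 3}, ∅, {3, 5, 7}, {1, 5, 6}],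
    ![{1, 4, 5}, {3, 5, 7}, ∅, {1, 2, 7}], ![{2, 4, 6}, {1, 5, 6}, {1, 2, 7}, ∅]]

theorem sb_spec : ∀ i j : Fin 4, i ≠ j → ∀ x y : Fin 4, (∑ a ∈ sb i j, w a x y) =
    (if x = i ∧ y = j then 1 else 0) + (if x = j ∧ y = i then 1 else 0) := by decide +kernel

theorem fix_basis {g : M4} (h : Rl g 1) (i j : Fin 4) :
    g * (∑ a ∈ sb i j, w a) * g.transpose = ∑ a ∈ sb i j, w a := by
  have h0 := w_zero
  rw [Matrix.mul_sum, Matrix.sum_mul]
  refine Finset.sum_congr rfl fun a _ => ?_
  have := h a
  rw [Perm.one_apply, Perm.one_apply, h0, add_zero] at this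
  exact this

theorem φ_inj : Function.Injective φ := by
  rw [injective_iff_map_eq_one]
  intro g hg
  have h := φ_spec g
  rw [hg] at h
  have hoff : ∀ k i : Fin 4, k ≠ i → (g : M4) k i = 0 := by
    intro k i hki
    obtain ⟨j, hj1, hj2⟩ : ∃ j : Fin 4, j ≠ k ∧ j ≠ i := by
      revert k i
      decide
    set B : M4 := ∑ a ∈ sb i j, w a with hB
    have hBe : ∀ x y : Fin 4, B x y = (if x = i ∧ y = j then 1 else 0) + (if x = j ∧ y = i then 1 else 0) := by
      intro x y
      rw [← sb_spec i j (Ne.symm hj2) x y, hB, Matrix.sum_apply]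
    have h1 := fix_basis h i j
    rw [← hB] at h1
    have hinv : (g : M4).transpose * ((g⁻¹ : GL (Fin 4) (ZMod 2)) : M4).transpose = 1 := by
      rw [← Matrix.transpose_mul, ← Units.val_mul, inv_mul_cancel, Units.val_one, Matrix.transpose_one]
    have h2 : (g : M4) * B = B * ((g⁻¹ : GL (Fin 4) (ZMod 2)) : M4).transpose := by
      calc (g : M4) * B = (g : M4) * B * ((g : M4).transpose * ((g⁻¹ : GL (Fin 4) (ZMod 2)) : M4).transpose) := by
            rw [hinv, Matrix.mul_one]
        _ = ((g : M4) * B * (g : M4).transpose) * ((g⁻¹ : GL (Fin 4) (ZMod 2)) : M4).transpose := by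
            rw [Matrix.mul_assoc ((g : M4) * B)]
        _ = _ := by rw [h1]
    have h3 := congrFun (congrFun h2 k) j
    rw [Matrix.mul_apply, Matrix.mul_apply, Finset.sum_eq_single i, Finset.sum_eq_zero] at h3
    · rw [hBe, if_pos ⟨rfl, rfl⟩, if_neg (fun h => hj2 h.1.symm), add_zero, mul_one] at h3
      exact h3
    · intro l _
      rw [hBe, if_neg (fun h => hki h.1), if_neg (fun h => hj1 h.1.symm), add_zero, zero_mul]
    · intro l _ hl
      rw [hBe, if_neg (fun h => hl h.1), if_neg (fun h => hj2 h.2), add_zero, mul_zero]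
    · intro h
      exact absurd (Finset.mem_univ _) h
  have hdiag : ∀ i : Fin 4, (g : M4) i i = 1 := by
    intro i
    have h3 : ∀ x : ZMod 2, x ≠ 0 → x = 1 := by decide
    apply h3
    intro h4
    apply det_ne g
    apply Matrix.det_eq_zero_of_column_eq_zero i
    intro k
    by_cases hk : k = i
    · rw [hk]
      exact h4
    · exact hoff k i hk
  apply Units.ext
  ext k i
  rw [Units.val_one]
  by_cases hk : k = i
  · rw [hk, hdiag, Matrix.one_apply_eq]
  · rw [hoff k i hk, Matrix.one_apply_ne hk]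

theorem card_GL4 : Nat.card (GL (Fin 4) (ZMod 2)) = 20160 := by
  rw [Matrix.card_GL_field]
  simp only [ZMod.card, Fin.prod_univ_four]
  norm_num

theorem range_eq : φ.range = alternatingGroup (Fin 8) := by
  apply Equiv.Perm.eq_alternatingGroup_of_index_eq_two
  have h1 := Subgroup.card_mul_index φ.range
  have h2 : Nat.card φ.range = 20160 := by
    rw [← card_GL4]
    exact (Nat.card_congr (MonoidHom.ofInjective φ_inj).toEquiv).symm
  have h3 : Nat.card (Perm (Fin 8)) = 40320 := by
    rw [Nat.card_eq_fintype_card, Fintype.card_perm, Fintype.card_fin]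
    rfl
  rw [h2, h3] at h1
  omega

end X10_aux

theorem exists_iso : Nonempty (GL (Fin 4) (ZMod 2) ≃* alternatingGroup (Fin 8)) :=
  ⟨(MonoidHom.ofInjective X10_aux.φ_inj).trans (MulEquiv.subgroupCongr X10_aux.range_eq)⟩

theorem ex_eight : CF.Ex (alternatingGroup (Fin 8)) := by
  obtain ⟨e⟩ := exists_iso
  have h := CF.ex_lin (F := ZMod 2) (⊤ : Subgroup (GL (Fin 4) (ZMod 2))) (fun g _ => Subgroup.mem_top g)
  exact CF.ex_congr (Subgroup.topEquiv.trans e) h

end

end AN
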