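import Pool.Agent.AN.X05
import Pool.Agent.AN.X06
import Pool.Agent.AN.X07
import Pool.Agent.AN.X09
import Pool.Agent.AN.X10
import Pool.Agent.CF.E01
import Pool.Agent.CF.E04

/-!
# MP_6c3636_al, AN, module X11: the alternating groups (helper7)

Strong induction on `n`. `n ≤ 4`: `alternatingGroup (Fin n)` is solvable (`Perm (Fin 4)` is: `CF.E04_aux.sol4` or `CF.solv_23`, order dividing `12`). `n = 5, 6, 7`: X06, X07, X09; `n = 8`: X10; `n ≥ 9`: X05.
-/

namespace AN

noncomputable section

open Classical Equiv

theorem X11_aux.small (n : ℕ) (hn : n ≤ 4) : Group.IsSolvable (alternatingGroup (Fin n)) := by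
  have h1 : Nat.card (Perm (Fin n)) = n.factorial := by
    rw [Nat.card_perm, Nat.card_eq_fintype_card, Fintype.card_fin]
  have h2 : Group.IsSolvable (Perm (Fin n)) := by
    interval_cases n
    · exact CF.solv_23 (a := 0) (b := 0) (by norm_num) h1
    · exact CF.solv_23 (a := 0) (b := 0) (by norm_num) h1
    · exact CF.solv_23 (a := 1) (b := 0) (by norm_num) h1
    · exact CF.solv_23 (a := 1) (b := 1) (by norm_num) h1
    · exact CF.solv_23 (a := 3) (b := 1) (by norm_num) h1
  exact Group.isSolvable_of_isSolvable_injective (f := (alternatingGroup (Fin n)).subtype)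
    (Subgroup.subtype_injective _)

theorem ex_alt (hAB : ∀ n : ℕ, CF.AB2 (alternatingGroup (Fin n))) (n : ℕ) :
    CF.Ex (alternatingGroup (Fin n)) := by
  induction n using Nat.strong_induction_on with
  | _ n ih =>
    rcases Nat.lt_or_ge n 5 with h | h
    · exact CF.ex_solv (X11_aux.small n (by omega))
    rcases Nat.lt_or_ge n 9 with h9 | h9
    · interval_cases n
      · exact ex_five ih (hAB 5)
      · exact ex_six ih (hAB 6)
      · exact ex_seven ih (hAB 7)
      · exact ex_eight
    · exact ex_large h9 ih (hAB n)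

end

end AN
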