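import Pool.Agent.AN.X11
import Pool.Agent.AN.A06
import Pool.Agent.CF.Z01

/-!
# MP_6c3636_al, AN, module Z01: assembly (helper7)

Assembly: the extension property of the alternating groups, and of the groups whose nonabelian simple sections are small
or have the extension property.
-/

namespace AN

noncomputable section

open Classical Equiv


/-- the extension property of the alternating groups -/
theorem ex_alternating (n : ℕ) : CF.Ex (alternatingGroup (Fin n)) :=
  ex_alt (fun n => ⟨propA_alt _ n, propB_alt _ n⟩) n

/-- a group with the extension property is an extension of the trivial group -/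
theorem ab_of_ex {S : Type} [Group S] [Finite S] (h : CF.Ex S) : CF.AB2 S :=
  h S ⊥ ⟨QuotientGroup.quotientBot⟩
    (ParkerGL.F04_aux.ab_triv fun x => Subtype.ext (Subgroup.mem_bot.1 x.2))

/-- groups whose nonabelian simple sections are small or have the extension property -/
theorem ex_sections {R : Type} [Group R] [Finite R]
    (h : ∀ (H : Subgroup R) (N : Subgroup H) [N.Normal], IsSimpleGroup (H ⧸ N) →
      (∃ x y : H ⧸ N, x * y ≠ y * x) → Parker.Cls (H ⧸ N) ∨ Parker.OutP2 (H ⧸ N) ∨ CF.Ex (H ⧸ N)) :
    CF.Ex R := by
  refine CF.E03_aux.ex_onSimple (Nat.card R) R rfl ?_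
  intro H N hN hs hn
  have hn' : ∃ x y : H ⧸ N, x * y ≠ y * x := by
    by_contra hcon
    push Not at hcon
    exact hn hcon
  rcases h H N hs hn' with h1 | h1 | h1
  · exact Parker.cls_propAB' hs hn' h1
  · exact fun _ => Parker.outP2_propAB h1
  · exact fun _ => ab_of_ex h1

end

end AN
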